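import Pool.Agent.Work.MP_820435_lc.Neg

/-!
# Multiples of powers
-/

open Ordinal Cardinal Set Order

universe u

namespace IPath

/-- The relation passes from `κ ^ (σ + 1) * δ` to `κ ^ (σ + 1)`, for `δ` small. -/
theorem pathRel_of_mul_small {κ : Cardinal.{u}} (hκ : κ.IsRegular) (hκ1 : ℵ₀ < κ)
    {σ δ : Ordinal.{u}} (hδ0 : δ ≠ 0) (hδ : δ.card < κ)
    (h : PathRel (κ.ord ^ (σ + 1) * δ)) : PathRel (κ.ord ^ (σ + 1)) := by
  classical
  intro X _ _ hX G
  by_contra hcon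
  push Not at hcon
  obtain ⟨hind, hray⟩ := hcon
  have hκω : ω < κ.ord := by
    rw [← ord_aleph0, ord_lt_ord]
    exact hκ1
  have hpos : 0 < κ.ord := omega0_pos.trans hκω
  set G' : SimpleGraph (δ.ToType ×ₗ X) :=
    { Adj := fun v w => (ofLex v).1 = (ofLex w).1 ∧ G.Adj (ofLex v).2 (ofLex w).2
      symm := ⟨fun v w h => ⟨h.1.symm, h.2.symm⟩⟩
      loopless := ⟨fun v h => G.loopless.irrefl _ h.2⟩ } with hG'
  have hY : otp (δ.ToType ×ₗ X) = κ.ord ^ (σ + 1) * δ := by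
    rw [otp_prodLex, hX, otp_toType]
  rcases h (δ.ToType ×ₗ X) hY G' with ⟨S, hS1, hS2⟩ | ⟨x, hx1, hx2⟩
  · -- the fibres are small
    have hfib : ∀ d : δ.ToType, ∃ c < κ.ord, otp (fib S d) ≤ κ.ord ^ σ * c := by
      intro d
      have h1 : otp (fib S d) ≠ κ.ord ^ (σ + 1) := by
        intro h1
        obtain ⟨x, hx, y, hy, hxy⟩ := hind (fib S d) h1
        exact hS2 _ hx _ hy ⟨rfl, hxy⟩
      have h2 : otp (fib S d) < κ.ord ^ σ * κ.ord := by
        rw [← Ordinal.opow_succ]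
        exact lt_of_le_of_ne ((otp_set_le _).trans_eq hX) h1
      rw [lt_mul_iff_of_isSuccLimit (isSuccLimit_ord hκ.aleph0_le)] at h2
      obtain ⟨c, hc, h3⟩ := h2
      exact ⟨c, hc, h3.le⟩
    choose c hc hcf using hfib
    have hsup : ∃ c' < κ.ord, ∀ d, c d ≤ c' := by
      refine ⟨⨆ d, c d, ?_, fun d => Ordinal.le_iSup c d⟩
      refine Ordinal.iSup_lt_of_lt_cof ?_ hc
      rw [hκ.cof_ord, mk_toType]
      exact hδ
    obtain ⟨c', hc', hcd⟩ := hsup
    have h1 : otp S ≤ κ.ord ^ σ * c' * δ := by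
      refine (otp_le_mul_fib' S (κ.ord ^ σ * c') ?_).trans_eq (by rw [otp_toType])
      intro d
      exact (hcf d).trans (mul_le_mul_right (hcd d) _)
    have h2 : c' * δ < κ.ord := by
      rw [lt_ord, card_mul]
      exact mul_lt_of_lt hκ.aleph0_le (lt_ord.1 hc') hδ
    have h3 : κ.ord ^ σ * c' * δ < κ.ord ^ (σ + 1) * δ := by
      rw [mul_assoc]
      refine lt_of_lt_of_le ((mul_lt_mul_iff_right₀ (opow_pos σ hpos)).2 h2) ?_
      rw [Ordinal.opow_add, opow_one]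
      exact le_mul_left _ (pos_iff_ne_zero.2 hδ0)
    rw [hS1] at h1
    exact absurd h3 (not_lt.2 h1)
  · have h1 : ∀ n, (ofLex (x n)).1 = (ofLex (x 0)).1 := by
      intro n
      induction n with
      | zero => rfl
      | succ n ih => rw [← ih]; exact (hx2 n).1.symm
    refine hray ⟨fun n => (ofLex (x n)).2, ?_, fun n => (hx2 n).2⟩
    intro n m hnm
    apply hx1
    apply ofLex.injective
    exact Prod.ext ((h1 n).trans (h1 m).symm) hnm

open Pool.Agent.W820 in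
/-- The negative theorem with small multiples. -/
theorem not_pathRel_regular_mul {κ : Cardinal.{u}} (hκ : κ.IsRegular) (hκ1 : ℵ₀ < κ)
    (hpow : ∀ ρ < κ, 2 ^ ρ ≤ κ) (hTF : ¬ TailFree κ.ord.ToType) :
    ∃ ε < (succ κ).ord, ∀ q δ : Ordinal.{u}, q.card ≤ κ → δ ≠ 0 → δ.card < κ →
      ¬ PathRel (κ.ord ^ (q + ε) * δ) := by
  obtain ⟨ε, hε, ⟨ε', he⟩, h⟩ := not_pathRel_regular hκ hκ1 hpow hTF
  refine ⟨ε, hε, fun q δ hq hδ0 hδ hrel => h q hq ?_⟩
  rw [he, ← add_assoc] at hrel ⊢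
  exact pathRel_of_mul_small hκ hκ1 hδ0 hδ hrel

end IPath
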