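import Pool.Agent.Work.MP_820435_lc.TF

/-!
# Tail-free sequences for countable sets (helper9)
-/

open Set

namespace Pool.Agent.W820

universe u v

/-- every assignment of countable sets to finite sequences has an infinite tail-free sequence -/
def TailFreeC (N : Type u) : Prop :=
  ∀ F : List N → Set N, (∀ l, (F l).Countable) → ∃ y : ℕ → N, ∀ i n : ℕ,
    y i ∉ F ((List.range n).map (fun k => y (i + 1 + k)))

theorem TailFreeC.congr {N M : Type u} (e : N ≃ M) (h : TailFreeC N) : TailFreeC M := by
  intro F hF
  obtain ⟨y, hy⟩ := h (fun l => e ⁻¹' (F (l.map e)))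
    (fun l => (hF _).preimage_of_injOn e.injective.injOn)
  refine ⟨fun n => e (y n), ?_⟩
  intro i n hmem
  apply hy i n
  simp only [mem_preimage, List.map_map]
  exact hmem

theorem TailFreeC.uncountable {N : Type u} (h : TailFreeC N) : Uncountable N := by
  by_contra hcon
  rw [not_uncountable_iff] at hcon
  obtain ⟨y, hy⟩ := h (fun _ => Set.univ) (fun _ => Set.countable_univ)
  exact hy 0 0 (mem_univ _)

section erdos

variable {N : Type u} [LinearOrder N]

/-- the colour of a list -/
def colrC (F : List N → Set N) (code : List N → N → ℕ) (n k : ℕ) (L : List N) : Prop :=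
  ∃ a l, L = a :: l ∧ a ∈ F (l.take n) ∧ code (l.take n) a = k

/-- the colour of a finite set -/
def colSC (F : List N → Set N) (code : List N → N → ℕ) (s : Finset N) : Prop :=
  colrC F code (Nat.unpair (s.card - 1)).1 (Nat.unpair (s.card - 1)).2 (s.sort (· ≤ ·))

lemma lst_nodup {H : ℕ → N} (hH : StrictMono H) {i m : ℕ} (him : i ≤ m) (M : ℕ) :
    (lst H i m M).Nodup := (lst_pairwise hH him M).imp (fun h => ne_of_lt h)

lemma lst_card {H : ℕ → N} (hH : StrictMono H) {i m : ℕ} (him : i ≤ m) (M : ℕ) :
    (lst H i m M).toFinset.card = M + 1 := by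
  rw [List.toFinset_card_of_nodup (lst_nodup hH him M)]
  simp [lst]

lemma lst_sort {H : ℕ → N} (hH : StrictMono H) {i m : ℕ} (him : i ≤ m) (M : ℕ) :
    (lst H i m M).toFinset.sort (· ≤ ·) = lst H i m M := by
  rw [List.toFinset_sort (· ≤ ·) (lst_nodup hH him M)]
  exact (lst_pairwise hH him M).imp (fun h => le_of_lt h)

lemma colSC_lst {F : List N → Set N} {code : List N → N → ℕ} {H : ℕ → N} (hH : StrictMono H)
    {i m : ℕ} (him : i ≤ m) (n k : ℕ) :
    colSC F code (lst H i m (Nat.pair n k)).toFinset ↔
      colrC F code n k (lst H i m (Nat.pair n k)) := by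
  unfold colSC
  rw [lst_card hH him, lst_sort hH him, Nat.add_sub_cancel, Nat.unpair_pair]

/-- omega-Erdos orders have tail-free sequences, also for countable sets -/
theorem tailFreeC_of_omegaErdos (hE : OmegaErdos N) : TailFreeC N := by
  intro F hF
  choose code hcode using fun l => Set.countable_iff_exists_injOn.1 (hF l)
  obtain ⟨H, hH, hhom⟩ := hE (colSC F code)
  refine ⟨H, ?_⟩
  intro i n hmem
  obtain ⟨k, hk⟩ : ∃ k, k = code ((List.range n).map (fun j => H (i + 1 + j))) (H i) := ⟨_, rfl⟩
  have htrue : colrC F code n k (lst H i i (Nat.pair n k)) := by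
    refine ⟨H i, (List.range (Nat.pair n k)).map (fun j => H (i + 1 + j)), rfl, ?_, ?_⟩
    · rw [take_lst_tail H i (Nat.left_le_pair n k)]
      exact hmem
    · rw [take_lst_tail H i (Nat.left_le_pair n k)]
      exact hk.symm
  have hall : ∀ i' : ℕ, i' ≤ 1 → H i' ∈ F ((List.range n).map (fun j => H (1 + 1 + j))) ∧
      code ((List.range n).map (fun j => H (1 + 1 + j))) (H i') = k := by
    intro i' him
    have h1 : colrC F code n k (lst H i' 1 (Nat.pair n k)) := by
      rw [← colSC_lst hH him]
      rw [← colSC_lst hH (le_refl i)] at htrue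
      exact (hhom _ _ (lst_sub _ _ _) (lst_sub _ _ _)
        (by rw [lst_card hH (le_refl i), lst_card hH him])).1 htrue
    obtain ⟨a, l, hal, ha, hc⟩ := h1
    unfold lst at hal
    rw [List.cons.injEq] at hal
    obtain ⟨h2, h3⟩ := hal
    rw [← h3, take_lst_tail H 1 (Nat.left_le_pair n k)] at ha hc
    rw [h2]
    exact ⟨ha, hc⟩
  obtain ⟨h0, h0'⟩ := hall 0 (by omega)
  obtain ⟨h1, h1'⟩ := hall 1 le_rfl
  have h2 := hcode _ h0 h1 (h0'.trans h1'.symm)
  have h3 := hH (show 0 < 1 by omega)
  rw [h2] at h3
  exact lt_irrefl _ h3

end erdos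

section triangle

variable {N : Type u} {O : Type v}

/-- The triangle argument with countable zero sets. -/
theorem triangleC [Preorder O] [WellFoundedLT O] (hTF : TailFreeC N) (xi : O)
    (f : List O → N → O) (Z : List O → Set N) (hZ : ∀ l, (Z l).Countable) (h0 : ∀ j, f [] j < xi)
    (hf : ∀ (l : List O) (x : O) (j : N), (∀ z ∈ l ++ [x], z < xi) →
      (l ++ [x]).Pairwise (· > ·) → j ∉ Z l → f (l ++ [x]) j < f l j) : False := by
  obtain ⟨y, hy⟩ := hTF (fun l => Z (dseq f l)) (fun l => hZ _)
  set S : ℕ → ℕ → List O := fun i m => dseq f ((List.range m).map (fun k => y (i + k))) with hS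
  have hSlen : ∀ i m, (S i m).length = m := by
    intro i m
    rw [hS]
    simp only
    rw [dseq_length]
    simp
  have hrange : ∀ i m, (List.range (m + 1)).map (fun k => y (i + k))
      = (List.range m).map (fun k => y (i + k)) ++ [y (i + m)] := by
    intro i m
    rw [List.range_succ, List.map_append]
    rfl
  have htake : ∀ i m, (S i (m + 1)).take m = S i m := by
    intro i m
    rw [hS]
    simp only
    rw [hrange]
    have := dseq_append f ((List.range m).map (fun k => y (i + k))) [y (i + m)]
    rw [List.length_map, List.length_range] at this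
    exact this
  have htake' : ∀ i m k, k ≤ m → (S i m).take k = S i k := by
    intro i m k hkm
    induction m, hkm using Nat.le_induction with
    | base => rw [List.take_of_length_le (le_of_eq (hSlen i k))]
    | succ m hm ih =>
      rw [← ih, ← htake i m, List.take_take, min_eq_left hm]
  have hcons : ∀ i m, S i (m + 1) = (List.range (m + 1)).map (fun k => f (S (i + 1) k) (y i)) := by
    intro i m
    have h1 : (List.range (m + 1)).map (fun k => y (i + k))
        = y i :: (List.range m).map (fun k => y (i + 1 + k)) := by
      rw [List.range_succ_eq_map, List.map_cons, List.map_map]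
      congr 1
      apply List.map_congr_left
      intro k _
      simp only [Function.comp]
      congr 1
      omega
    have h2 : S i (m + 1) = dseq f ((List.range (m + 1)).map (fun k => y (i + k))) := rfl
    rw [h2, h1, dseq, List.length_map, List.length_range]
    apply List.map_congr_left
    intro k hk
    rw [List.mem_range] at hk
    congr 1
    exact htake' (i + 1) m k (by omega)
  set G : ℕ → ℕ → O := fun i m => f (S (i + 1) m) (y i) with hG
  have hSG : ∀ i m, S i m = (List.range m).map (G i) := by
    intro i m
    cases m with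
    | zero => rfl
    | succ m => exact hcons i m
  have hSsucc : ∀ i m, S i (m + 1) = S i m ++ [G i m] := by
    intro i m
    rw [hSG, hSG, List.range_succ, List.map_append]
    rfl
  have hfree : ∀ i m, y i ∉ Z (S (i + 1) m) := fun i m => hy i m
  have hdec : ∀ m i, G i (m + 1) < G i m := by
    intro m
    induction m using Nat.strong_induction_on with
    | _ m ih =>
      intro i
      have hlt : ∀ a b : ℕ, a < b → b ≤ m → G (i + 1) b < G (i + 1) a := by
        intro a b hab
        induction b, hab using Nat.le_induction with
        | base =>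
          intro hb
          exact ih a (by omega) (i + 1)
        | succ b hb ihb =>
          intro hbm
          exact lt_trans (ih b (by omega) (i + 1)) (ihb (by omega))
      have hlt0 : ∀ b : ℕ, b ≤ m → G (i + 1) b < xi := by
        intro b hb
        rcases Nat.eq_zero_or_pos b with rfl | hb0
        · exact h0 _
        · exact lt_trans (hlt 0 b hb0 hb) (h0 _)
      have hv : G i (m + 1) = f (S (i + 1) m ++ [G (i + 1) m]) (y i) := by
        rw [hG]
        simp only
        rw [hSsucc]
      rw [hv]
      apply hf
      · intro z hz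
        rw [← hSsucc, hSG, List.mem_map] at hz
        obtain ⟨b, hb, rfl⟩ := hz
        rw [List.mem_range] at hb
        exact hlt0 b (by omega)
      · rw [← hSsucc, hSG, List.pairwise_map]
        refine List.Pairwise.imp_of_mem ?_ (List.pairwise_lt_range (n := m + 1))
        intro a b _ hb hab
        rw [List.mem_range] at hb
        exact hlt a b hab (by omega)
      · exact hfree i m
  obtain ⟨m, hm⟩ := WellFounded.has_min (wellFounded_lt (α := O)) (range (G 0)) ⟨_, mem_range_self 0⟩
  obtain ⟨⟨n, rfl⟩, hmin⟩ := hm
  exact hmin _ (mem_range_self (n + 1)) (hdec n 0)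

end triangle

end Pool.Agent.W820
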