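import Pool.Agent.Work.MP_820435_lc.SetMap
import Pool.Agent.Work.MP_820435_lc.TFc

/-!
# The set mapping lemma for countable sets, from tail-free sequences (helper9)
-/

open Ordinal Cardinal Set Order

universe u

namespace IPath

open Pool.Agent.W820

section bad

variable {Λ : Type*}

/-- The indices whose avoiding set is small. -/
def badC {Y : Type u} [LinearOrder Y] [WellFoundedLT Y] (b : Y → Set Λ) : Set Λ :=
  {j | otp {y : Y | j ∉ b y} < otp Y}

theorem badC_comp {X Y : Type u} [LinearOrder X] [WellFoundedLT X] [LinearOrder Y]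
    [WellFoundedLT Y] (e : X ≃o Y) (b : Y → Set Λ) : badC (b ∘ e) = badC b := by
  ext j
  have h2 : e '' {x : X | j ∉ (b ∘ e) x} = {y : Y | j ∉ b y} := by
    ext y
    constructor
    · rintro ⟨x, hx, rfl⟩
      exact hx
    · intro hy
      exact ⟨e.symm y, by simpa using hy, by simp⟩
  have h1 : otp {x : X | j ∉ (b ∘ e) x} = otp {y : Y | j ∉ b y} := by
    rw [← otp_image e e.strictMono, h2]
  simp only [badC, mem_ofPred_eq, h1, otp_congr e]

theorem otp_sumLex (A B : Type u) [LinearOrder A] [WellFoundedLT A] [LinearOrder B]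
    [WellFoundedLT B] : otp (A ⊕ₗ B) = otp A + otp B := by
  rw [← type_sum_lex]
  rfl

theorem add_otp_le_sum {A B : Type u} [LinearOrder A] [WellFoundedLT A] [LinearOrder B]
    [WellFoundedLT B] (S : Set (A ⊕ₗ B)) :
    otp {y : A | toLex (Sum.inl y) ∈ S} + otp {y : B | toLex (Sum.inr y) ∈ S} ≤ otp S := by
  have h6 : otp {y : A | toLex (Sum.inl y) ∈ S} + otp {y : B | toLex (Sum.inr y) ∈ S} =
      otp (({y : A | toLex (Sum.inl y) ∈ S} : Set _) ⊕ₗ
        ({y : B | toLex (Sum.inr y) ∈ S} : Set _)) := by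
    rw [otp_sumLex]
  rw [h6]
  refine otp_le_of_strictMono (fun p => match (ofLex p) with
    | Sum.inl y => ⟨toLex (Sum.inl y.1), y.2⟩
    | Sum.inr y => ⟨toLex (Sum.inr y.1), y.2⟩) ?_
  intro p p' hpp
  cases hpp with
  | inl h7 => exact Sum.Lex.inl h7
  | inr h7 => exact Sum.Lex.inr h7
  | sep => exact Sum.Lex.sep _ _

theorem badC_sum {A B : Type u} [LinearOrder A] [WellFoundedLT A] [LinearOrder B]
    [WellFoundedLT B] (b : A ⊕ₗ B → Set Λ) :
    badC b ⊆ badC (fun y : A => b (toLex (Sum.inl y))) ∪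
      badC (fun y : B => b (toLex (Sum.inr y))) := by
  intro j hj
  by_contra hcon
  simp only [badC, mem_union, mem_ofPred_eq, not_or, not_lt] at hcon
  obtain ⟨h3, h4⟩ := hcon
  apply absurd hj
  simp only [badC, mem_ofPred_eq, not_lt]
  rw [otp_sumLex]
  exact (add_le_add h3 h4).trans (add_otp_le_sum {y | j ∉ b y})

theorem badC_zero {Y : Type u} [LinearOrder Y] [WellFoundedLT Y] (hY : otp Y = 0)
    (b : Y → Set Λ) : badC b = ∅ := by
  rw [eq_empty_iff_forall_notMem]
  intro j hj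
  simp only [badC, mem_ofPred_eq] at hj
  rw [hY] at hj
  exact absurd hj (by simp)

end bad

variable {Λ : Type u}

/-- Every countable set mapping on a well-ordered set of type `β` has fewer than `c` bad
indices. -/
def GoodC (Λ : Type u) (c : Cardinal.{u}) (β : Ordinal.{u}) : Prop :=
  ∀ (Y : Type u) [LinearOrder Y] [WellFoundedLT Y], otp Y = β → ∀ b : Y → Set Λ,
    (∀ y, (b y).Countable) → #(badC b) < c

variable {c c' κ θ : Cardinal.{u}} {β β₁ β₂ γ q ξ : Ordinal.{u}}

theorem GoodC.mono (h : GoodC Λ c β) (hc : c ≤ c') : GoodC Λ c' β :=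
  fun Y _ _ hY b hb => (h Y hY b hb).trans_le hc

theorem goodC_of_model (Y : Type u) [LinearOrder Y] [WellFoundedLT Y] (hY : otp Y = β)
    (h : ∀ b : Y → Set Λ, (∀ y, (b y).Countable) → #(badC b) < c) : GoodC Λ c β := by
  intro X _ _ hX b hb
  obtain ⟨e⟩ := exists_orderIso_of_otp_eq (hY.trans hX.symm)
  rw [← badC_comp e b]
  exact h _ (fun y => hb _)

theorem GoodC.add (hc : ℵ₀ ≤ c) (h1 : GoodC Λ c β₁) (h2 : GoodC Λ c β₂) :
    GoodC Λ c (β₁ + β₂) := by
  refine goodC_of_model (β₁.ToType ⊕ₗ β₂.ToType) ?_ ?_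
  · rw [otp_sumLex, otp_toType, otp_toType]
  · intro b hb
    refine (mk_le_mk_of_subset (badC_sum b)).trans_lt ((mk_union_le _ _).trans_lt ?_)
    exact add_lt_of_lt hc (h1 _ (otp_toType _) _ (fun y => hb _))
      (h2 _ (otp_toType _) _ (fun y => hb _))

theorem GoodC.mul (hκ : κ.IsRegular) (h : GoodC Λ κ γ) (hq : q.card < κ) :
    GoodC Λ κ (γ * q) := by
  refine goodC_of_model (q.ToType ×ₗ γ.ToType) ?_ ?_
  · rw [otp_prodLex, otp_toType, otp_toType]
  · intro b hb
    have hsub : badC b ⊆ ⋃ i : q.ToType, badC (fun z : γ.ToType => b (toLex (i, z))) := by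
      intro j hj
      by_contra hcon
      simp only [badC, mem_iUnion, mem_ofPred_eq, not_exists, not_lt] at hcon
      apply absurd hj
      simp only [badC, mem_ofPred_eq, not_lt]
      rw [otp_prodLex, ← otp_univ q.ToType]
      exact mul_le_otp_of_fib {y | j ∉ b y} Set.univ _ (fun i _ => hcon i)
    refine (mk_le_mk_of_subset hsub).trans_lt ?_
    rw [card_iUnion_lt_iff_forall_of_isRegular hκ (by simpa using hq)]
    intro i
    exact h _ (otp_toType _) _ (fun y => hb _)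

theorem goodC_one (hθ : ℵ₀ < θ) : GoodC Λ θ 1 := by
  intro Y _ _ hY b hb
  have hne : Nonempty Y := by
    rw [← type_ne_zero_iff_nonempty (α := Y) (r := (· < ·))]
    change otp Y ≠ 0
    rw [hY]
    exact one_ne_zero
  obtain ⟨y⟩ := hne
  have hsub : badC b ⊆ b y := by
    intro j hj
    simp only [badC, mem_ofPred_eq] at hj
    rw [hY, lt_one_iff, type_eq_zero_iff_isEmpty] at hj
    by_contra hcon
    exact hj.false ⟨y, hcon⟩
  exact (mk_le_mk_of_subset hsub).trans_lt ((le_aleph0_iff_set_countable.2 (hb y)).trans_lt hθ)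

theorem GoodC.opow_succ (hκ : κ.IsRegular) (hθκ : θ < κ) (h : GoodC Λ θ (κ.ord ^ ξ)) :
    GoodC Λ θ (κ.ord ^ succ ξ) := by
  refine goodC_of_model (κ.ord.ToType ×ₗ (κ.ord ^ ξ).ToType) ?_ ?_
  · rw [otp_prodLex, otp_toType, otp_toType, Ordinal.opow_succ]
  · intro b hb
    by_contra hcon
    rw [not_lt, le_mk_iff_exists_subset] at hcon
    obtain ⟨J, hJ, hJc⟩ := hcon
    have hbl : ∀ j : J, ∃ S : Set κ.ord.ToType, #S < κ ∧
        ∀ i, i ∉ S → otp (fib {p | j.1 ∉ b p} i) < κ.ord ^ ξ := by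
      intro j
      have hj := hJ j.2
      simp only [badC, mem_ofPred_eq] at hj
      rw [otp_prodLex, otp_toType, otp_toType, ← Ordinal.opow_succ] at hj
      obtain ⟨f, hf, hS⟩ := block hκ.pos.ne' _ (succ_ne_bot ξ) hj
      refine ⟨_, hS, fun i hi => (not_le.1 hi).trans_le ?_⟩
      exact opow_le_opow_right hκ.ord_pos (lt_succ_iff.1 hf)
    choose S hS1 hS2 using hbl
    obtain ⟨i, hi⟩ := exists_forall_notMem hκ (hJc.trans_lt hθκ) (mk_ord_toType' κ) S hS1
    have hsub : J ⊆ badC (fun z : (κ.ord ^ ξ).ToType => b (toLex (i, z))) := by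
      intro j hj
      simp only [badC, mem_ofPred_eq]
      rw [otp_toType]
      exact hS2 ⟨j, hj⟩ i (hi ⟨j, hj⟩)
    have h2 := (mk_le_mk_of_subset hsub).trans_lt (h _ (otp_toType _) _ (fun y => hb _))
    rw [hJc] at h2
    exact h2.false

section limit

variable {Y : Type u} [LinearOrder Y] [WellFoundedLT Y]

/-- the rank of an index on a set -/
noncomputable def fr (κ : Cardinal.{u}) (b : Y → Set Λ) (A : Set Y) (j : Λ) : Ordinal.{u} :=
  sInf {o | otp (A ∩ {y | j ∉ b y} : Set Y) < κ.ord ^ o}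

theorem fr_spec (hκ : 1 < κ.ord) (b : Y → Set Λ) (A : Set Y) (j : Λ) :
    otp (A ∩ {y | j ∉ b y} : Set Y) < κ.ord ^ fr κ b A j := by
  have hne : {o : Ordinal.{u} | otp (A ∩ {y | j ∉ b y} : Set Y) < κ.ord ^ o}.Nonempty := by
    refine ⟨succ (otp (A ∩ {y | j ∉ b y} : Set Y)), ?_⟩
    rw [mem_ofPred_eq]
    exact (lt_succ _).trans_le (right_le_opow _ hκ)
  exact csInf_mem hne

theorem fr_le (b : Y → Set Λ) {A : Set Y} {j : Λ} {o : Ordinal.{u}}
    (h : otp (A ∩ {y | j ∉ b y} : Set Y) < κ.ord ^ o) : fr κ b A j ≤ o :=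
  csInf_le' h

/-- a generic block -/
theorem exists_generic (hκ : κ.IsRegular) (b : Y → Set Λ) (J : Set Λ) (hJ : #J < κ)
    (A : Set Y) (x : Ordinal.{u}) (hA : κ.ord ^ x * κ.ord ≤ otp A) :
    ∃ A' ⊆ A, otp A' = κ.ord ^ x ∧ ∀ j ∈ J, fr κ b A j ≠ 0 → fr κ b A' j < fr κ b A j := by
  have hκ1 : 1 < κ.ord := by
    rw [lt_ord]
    simpa using hκ.nat_lt 1
  have hKZ : otp (κ.ord.ToType ×ₗ (κ.ord ^ x).ToType) ≤ otp A := by
    rw [otp_prodLex, otp_toType, otp_toType]
    exact hA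
  obtain ⟨e, he⟩ := exists_strictMono_of_otp_le hKZ
  have hbl : ∀ j : J, ∃ S : Set κ.ord.ToType, #S < κ ∧ (fr κ b A j ≠ 0 →
      ∃ f < fr κ b A j, ∀ i, i ∉ S →
        otp (fib {p : κ.ord.ToType ×ₗ (κ.ord ^ x).ToType | j.1 ∉ b (e p)} i) < κ.ord ^ f) := by
    intro j
    by_cases h0 : fr κ b A j = 0
    · exact ⟨∅, by simpa using hκ.pos, fun h => absurd h0 h⟩
    · have h1 : otp {p : κ.ord.ToType ×ₗ (κ.ord ^ x).ToType | j.1 ∉ b (e p)} <
          κ.ord ^ fr κ b A j := by
        refine lt_of_le_of_lt ?_ (fr_spec hκ1 b A j)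
        exact otp_le_of_strictMono
          (fun p => (⟨(e p.1).1, (e p.1).2, p.2⟩ : (A ∩ {y | j.1 ∉ b y} : Set Y)))
          fun p p' hpp => he hpp
      obtain ⟨f, hf, hS⟩ := block hκ.pos.ne' _ h0 h1
      exact ⟨_, hS, fun _ => ⟨f, hf, fun i hi => not_le.1 hi⟩⟩
  choose S hS1 hS2 using hbl
  obtain ⟨i, hi⟩ := exists_forall_notMem hκ hJ (mk_ord_toType' κ) S hS1
  have hmono : StrictMono (fun z : (κ.ord ^ x).ToType => (e (toLex (i, z))).1) := by
    intro z z' hz
    exact he (Prod.Lex.lt_iff.2 (Or.inr ⟨rfl, hz⟩))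
  refine ⟨range (fun z : (κ.ord ^ x).ToType => (e (toLex (i, z))).1), ?_, ?_, ?_⟩
  · rintro _ ⟨z, rfl⟩
    exact (e (toLex (i, z))).2
  · rw [← image_univ, otp_image _ hmono, otp_univ, otp_toType]
  · intro j hj h0
    obtain ⟨f, hf, hS⟩ := hS2 ⟨j, hj⟩ h0
    refine (fr_le b ?_).trans_lt hf
    refine lt_of_le_of_lt ?_ (hS i (hi ⟨j, hj⟩))
    rw [← otp_image _ hmono]
    apply otp_set_mono
    rintro _ ⟨⟨z, rfl⟩, hz⟩
    exact ⟨z, hz, rfl⟩

open Classical in
/-- the next block -/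
noncomputable def nxt (κ : Cardinal.{u}) (b : Y → Set Λ) (J : Set Λ) (A : Set Y)
    (x : Ordinal.{u}) : Set Y :=
  if h : ∃ A' ⊆ A, otp A' = κ.ord ^ x ∧ ∀ j ∈ J, fr κ b A j ≠ 0 → fr κ b A' j < fr κ b A j
  then h.choose else ∅

theorem nxt_spec (hκ : κ.IsRegular) (b : Y → Set Λ) (J : Set Λ) (hJ : #J < κ)
    (A : Set Y) (x : Ordinal.{u}) (hA : κ.ord ^ x * κ.ord ≤ otp A) :
    nxt κ b J A x ⊆ A ∧ otp (nxt κ b J A x) = κ.ord ^ x ∧
      ∀ j ∈ J, fr κ b A j ≠ 0 → fr κ b (nxt κ b J A x) j < fr κ b A j := by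
  have h := exists_generic hκ b J hJ A x hA
  rw [nxt, dif_pos h]
  exact h.choose_spec

/-- the blocks -/
noncomputable def blk (κ : Cardinal.{u}) (b : Y → Set Λ) (J : Set Λ) (l : List Ordinal.{u}) :
    Set Y := l.foldl (nxt κ b J) univ

theorem blk_append (κ : Cardinal.{u}) (b : Y → Set Λ) (J : Set Λ) (l : List Ordinal.{u})
    (x : Ordinal.{u}) : blk κ b J (l ++ [x]) = nxt κ b J (blk κ b J l) x := by
  unfold blk
  rw [List.foldl_append]
  rfl

theorem blk_otp (hκ : κ.IsRegular) (b : Y → Set Λ) (J : Set Λ) (hJ : #J < κ)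
    (hξ : IsSuccLimit ξ) (hY : otp Y = κ.ord ^ ξ) (l : List Ordinal.{u}) :
    (∀ z ∈ l, z < ξ) → l.Pairwise (· > ·) → ∀ x < ξ, (∀ z ∈ l, x < z) →
      κ.ord ^ x * κ.ord ≤ otp (blk κ b J l) := by
  induction l using List.reverseRecOn with
  | nil =>
    intro _ _ x hx _
    have h1 : otp (blk κ b J []) = otp Y := otp_univ Y
    rw [h1, hY, ← Ordinal.opow_succ]
    exact opow_le_opow_right hκ.ord_pos (hξ.succ_lt hx).le
  | append_singleton l x' ih =>
    intro h1 h2 x hx h3
    rw [List.pairwise_append] at h2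
    obtain ⟨h4, -, h5⟩ := h2
    have h6 := ih (fun z hz => h1 z (by simp [hz])) h4 x' (h1 x' (by simp))
      (fun z hz => h5 z hz x' (by simp))
    rw [blk_append, (nxt_spec hκ b J hJ _ x' h6).2.1, ← Ordinal.opow_succ]
    exact opow_le_opow_right hκ.ord_pos (succ_le_of_lt (h3 x' (by simp)))

end limit

/-- The set mapping lemma for powers. -/
theorem goodC_opow (hκ : κ.IsRegular) {N : Type u} (hTF : TailFreeC N) (hN : #N < κ) :
    GoodC Λ #N (κ.ord ^ ξ) := by
  classical
  have hκ0 : κ.ord ≠ 0 := hκ.ord_pos.ne'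
  have hN0 : ℵ₀ < #N := by
    have := hTF.uncountable
    exact aleph0_lt_mk_iff.2 this
  induction ξ using limitRecOn with
  | zero =>
    rw [opow_zero]
    exact goodC_one hN0
  | add_one ξ ih => exact ih.opow_succ hκ hN
  | limit ξ hξ _ =>
    intro Y _ _ hY b hb
    by_contra hcon
    rw [not_lt, le_mk_iff_exists_subset] at hcon
    obtain ⟨J, hJ, hJc⟩ := hcon
    obtain ⟨e⟩ := Cardinal.eq.1 hJc.symm
    have hTJ : TailFreeC J := hTF.congr e
    have hJκ : #J < κ := hJc.trans_lt hN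
    refine triangleC hTJ ξ (fun l j => fr κ b (blk κ b J l) j.1)
      (fun l => if (blk κ b J l).Nonempty then {j | fr κ b (blk κ b J l) j.1 = 0} else ∅) ?_ ?_ ?_
    · intro l
      split_ifs with hne
      · obtain ⟨y, hy⟩ := hne
        have hsub : {j : J | fr κ b (blk κ b J l) j.1 = 0} ⊆ Subtype.val ⁻¹' (b y) := by
          intro j hj
          rw [mem_ofPred_eq] at hj
          rw [mem_preimage]
          by_contra hcon
          have hκ1 : 1 < κ.ord := by
            rw [lt_ord]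
            simpa using hκ.nat_lt 1
          have h1 := fr_spec hκ1 b (blk κ b J l) j.1
          rw [hj, opow_zero, lt_one_iff, type_eq_zero_iff_isEmpty] at h1
          exact h1.false ⟨y, hy, hcon⟩
        exact ((hb y).preimage_of_injOn Subtype.val_injective.injOn).mono hsub
      · exact countable_empty
    · intro j
      have hj := hJ j.2
      simp only [badC, mem_ofPred_eq] at hj
      rw [hY, lt_opow_of_isSuccLimit hκ0 hξ] at hj
      obtain ⟨F, hF, h1⟩ := hj
      refine (fr_le b ?_).trans_lt hF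
      refine lt_of_le_of_lt (otp_set_mono ?_) h1
      exact inter_subset_right
    · intro l x j h1 h2 h3
      have h4 := h2
      rw [List.pairwise_append] at h2
      have h5 := blk_otp hκ b J hJκ hξ hY l (fun z hz => h1 z (by simp [hz])) h2.1 x
        (h1 x (by simp)) (fun z hz => h2.2.2 z hz x (by simp))
      have hne : (blk κ b J l).Nonempty := by
        rw [nonempty_iff_ne_empty]
        intro h6
        rw [h6] at h5
        have h7 : otp (∅ : Set Y) = 0 := by
          rw [type_eq_zero_iff_isEmpty]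
          infer_instance
        rw [h7, nonpos_iff_eq_zero] at h5
        exact (mul_ne_zero (opow_ne_zero _ hκ0) hκ0) h5
      rw [if_pos hne, mem_ofPred_eq] at h3
      simp only [blk_append]
      exact (nxt_spec hκ b J hJκ _ x h5).2.2 j.1 j.2 h3

/-- The set mapping lemma for all ordinals. -/
theorem goodC_all (hκ : κ.IsRegular) {N : Type u} (hTF : TailFreeC N) (hN : #N < κ)
    (β : Ordinal.{u}) : GoodC Λ κ β := by
  have hκ1 : 1 < κ.ord := by
    rw [lt_ord]
    simpa using hκ.nat_lt 1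
  induction β using WellFoundedLT.induction with
  | ind β ih =>
    rcases eq_or_ne β 0 with rfl | h0
    · intro Y _ _ hY b _
      rw [badC_zero hY]
      simpa using hκ.pos
    · have hc : β / κ.ord ^ log κ.ord β < κ.ord := div_opow_log_lt _ hκ1
      have hr : β % κ.ord ^ log κ.ord β < β := mod_opow_log_lt_self _ h0
      have h4 := (((goodC_opow (Λ := Λ) (ξ := log κ.ord β) hκ hTF hN).mono hN.le).mul hκ
        (lt_ord.1 hc)).add hκ.aleph0_le (ih _ hr)
      rwa [div_add_mod] at h4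

end IPath
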