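import Pool.Agent.Work.MP_820435_lc.Tame

/-! Tameness of an initial ordinal that is closed under powers. -/

open Ordinal Cardinal Set Filter Order

universe u

namespace IPath

variable {ι : Type u} {θ ρ : Cardinal.{u}}

/-- The relation `a < b` modulo a filter, on functions bounded by `w`. -/
def ltF (𝓖 : Filter ι) (w : Ordinal.{u}) (a b : ι → w.ToType) : Prop := ∀ᶠ j in 𝓖, a j < b j

theorem wf_ltF (𝓖 : Filter ι) [𝓖.NeBot] [CountableInterFilter 𝓖] (w : Ordinal.{u}) :
    IsWellFounded (ι → w.ToType) (ltF 𝓖 w) := by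
  constructor
  rw [wellFounded_iff_isEmpty_descending_chain]
  constructor
  rintro ⟨f, hf⟩
  have h1 : ∀ᶠ j in 𝓖, ∀ n, f (n + 1) j < f n j := by
    rw [eventually_countable_forall]
    exact hf
  obtain ⟨j, hj⟩ := h1.exists
  have h2 := (wellFounded_iff_isEmpty_descending_chain (r := ((· < ·) : w.ToType → w.ToType → Prop))).1
    wellFounded_lt
  exact h2.false ⟨fun n => f n j, hj⟩

theorem card_rank_le {Φ : Type u} (R : Φ → Φ → Prop) [IsWellFounded Φ R] (a : Φ) :
    (IsWellFounded.rank R a).card ≤ #Φ := by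
  have h1 : ∀ x : (IsWellFounded.rank R a).ToType, ∃ b : Φ, IsWellFounded.rank R b = (x : Ordinal.{u}) :=
    fun x => IsWellFounded.mem_range_rank_of_le (le_of_lt x.toOrd.2)
  choose f hf using h1
  rw [← mk_toType]
  refine mk_le_of_injective (f := f) ?_
  intro x y hxy
  have : (x : Ordinal.{u}) = y := by rw [← hf, ← hf, hxy]
  have h2 : x.toOrd = y.toOrd := Subtype.ext this
  exact ToType.mk.symm.injective h2

theorem rkLE_rank (𝓖 : Filter ι) [𝓖.NeBot] (w : Ordinal.{u})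
    [h : IsWellFounded (ι → w.ToType) (ltF 𝓖 w)] (a : ι → w.ToType) :
    RkLE 𝓖 (IsWellFounded.rank (ltF 𝓖 w) a) fun j => (a j : Ordinal.{u}) := by
  classical
  induction a using h.wf.induction with
  | _ a ih =>
    rw [rkLE_iff]
    intro F' hF'
    set b : ι → w.ToType := fun j => if h : F' j < w then ToType.mk ⟨F' j, h⟩ else a j with hb
    have hb' : ∀ j, F' j < (a j : Ordinal.{u}) → (b j : Ordinal.{u}) = F' j := by
      intro j hj
      have h1 : F' j < w := hj.trans (a j).toOrd.2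
      simp [hb, h1]
    have hR : ltF 𝓖 w b a := by
      filter_upwards [hF'] with j hj
      have h2 := hb' j hj
      have h3 : (b j).toOrd < (a j).toOrd := by
        rw [← Subtype.coe_lt_coe, h2]
        exact hj
      exact ToType.mk.symm.lt_iff_lt.1 h3
    refine ⟨_, IsWellFounded.rank_lt_of_rel hR, (ih b hR).congr ?_⟩
    filter_upwards [hF'] with j hj
    exact (hb' j hj).symm

theorem exists_rkLE_of_lt (𝓖 : Filter ι) [𝓖.NeBot] [CountableInterFilter 𝓖] (w : Ordinal.{u})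
    (hw : w.card ^ #ι < ρ) (g : ι → Ordinal.{u}) (hg : ∀ j, g j < w) :
    ∃ s < ρ.ord, RkLE 𝓖 s g := by
  have := wf_ltF 𝓖 w
  set a : ι → w.ToType := fun j => ToType.mk ⟨g j, hg j⟩ with ha
  refine ⟨IsWellFounded.rank (ltF 𝓖 w) a, ?_, ?_⟩
  · rw [lt_ord]
    refine (card_rank_le _ _).trans_lt ?_
    rwa [← power_def, mk_toType]
  · refine (rkLE_rank 𝓖 w a).congr (Eventually.of_forall fun j => ?_)
    simp [ha]

theorem tame_ord (hθ : ℵ₀ < θ) (hρ : ℵ₀ ≤ ρ) (hpow : ∀ ν < ρ, ν ^ #ι < ρ)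
    (hcof : ρ.ord.cof < θ ∨ #ι < ρ.ord.cof) : Tame ι θ ρ.ord := by
  intro 𝓕 h𝓕 h𝓕' g hg
  have hlim : IsSuccLimit ρ.ord := isSuccLimit_ord hρ
  have key : ∃ w < ρ.ord, ∃ᶠ j in 𝓕, g j < w := by
    rcases hcof with hcof | hcof
    · obtain ⟨s, hs, hs'⟩ := exists_cof_eq ρ.ord.ToType
      rw [cof_toType] at hs'
      by_contra hcon
      push Not at hcon
      have h1 : ∀ i : s, ∀ᶠ j in 𝓕, ¬ g j < succ ((i : ρ.ord.ToType) : Ordinal.{u}) := by
        intro i
        filter_upwards [hcon _ (hlim.succ_lt (mem_Iio.1 (i : ρ.ord.ToType).toOrd.2))] with j hj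
        exact not_lt.2 hj
      have hs2 : #s < θ := by rw [hs']; exact hcof
      rw [← eventually_cardinal_forall hs2] at h1
      obtain ⟨j, hj⟩ := h1.exists
      obtain ⟨y, hy, hxy⟩ := hs (ToType.mk ⟨g j, hg j⟩)
      apply hj ⟨y, hy⟩
      rw [lt_succ_iff]
      have h3 := ToType.mk.symm.monotone hxy
      rw [OrderIso.symm_apply_apply] at h3
      exact h3
    · refine ⟨⨆ j, g j + 1, iSup_add_one_lt_of_lt_cof hcof hg, ?_⟩
      exact Frequently.of_forall fun j => Ordinal.lt_iSup_add_one _ j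
  obtain ⟨w, hw, hfr⟩ := key
  classical
  have h1 : (𝓕 ⊓ 𝓟 {j | g j < w}).NeBot := frequently_mem_iff_neBot.1 hfr
  have h2 : CountableInterFilter (𝓕 ⊓ 𝓟 {j | g j < w}) :=
    CardinalInterFilter.toCountableInterFilter (c := θ) _ hθ
  obtain ⟨j0, hj0⟩ := hfr.exists
  obtain ⟨s, hs, h3⟩ := exists_rkLE_of_lt (𝓕 ⊓ 𝓟 {j | g j < w}) w (ρ := ρ)
    (hpow _ (lt_ord.1 hw)) (fun j => if g j < w then g j else 0)
    (fun j => by
      split_ifs with h4
      · exact h4
      · exact pos_of_gt hj0)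
  refine ⟨s, hs, RkLE.mono_filter inf_le_left (h3.congr ?_)⟩
  rw [eventually_inf_principal]
  refine Eventually.of_forall fun j hj => ?_
  have : g j < w := hj
  simp [this]

end IPath
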