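import Pool.Agent.Work.MP_820435_lc.Lst
import Pool.Agent.Work.MP_820435_lc.TameOrd
import Pool.Agent.Work.MP_820435_lc.GoodC

/-!
# Small sets of good points from the failure of tail-freeness
-/

open Ordinal Cardinal Set Order

universe u

namespace IPath

section good

variable {N : Type u}

/-- good lists: every entry avoids the values at the blocks which follow it -/
def Gd (F : List N → Finset N) : List N → Prop
  | [] => True
  | j :: t => Gd F t ∧ ∀ n, j ∉ F (t.take n)

open Classical in
/-- the forbidden points -/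
noncomputable def Zs (F : List N → Finset N) (t : List N) : Finset N :=
  (Finset.range (t.length + 1)).biUnion (fun n => F (t.take n))

theorem mem_Zs {F : List N → Finset N} {t : List N} {j : N} :
    j ∈ Zs F t ↔ ∃ n, j ∈ F (t.take n) := by
  classical
  rw [Zs, Finset.mem_biUnion]
  constructor
  · rintro ⟨n, -, h⟩
    exact ⟨n, h⟩
  · rintro ⟨n, h⟩
    rcases le_or_gt n t.length with h1 | h1
    · exact ⟨n, Finset.mem_range.2 (by omega), h⟩
    · refine ⟨t.length, Finset.mem_range.2 (by omega), ?_⟩
      rw [List.take_of_length_le h1.le] at h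
      rwa [List.take_length]

theorem gd_cons {F : List N → Finset N} {t : List N} {j : N} :
    Gd F (j :: t) ↔ Gd F t ∧ j ∉ Zs F t := by
  rw [mem_Zs]
  push Not
  exact Iff.rfl

theorem Gd.left {F : List N → Finset N} : ∀ {t s : List N}, Gd F (t ++ s) → Gd F t
  | [], _, _ => trivial
  | j :: t, s, h => by
    rw [List.cons_append] at h
    refine ⟨h.1.left, fun n hn => ?_⟩
    rcases le_or_gt n t.length with h1 | h1
    · apply h.2 n
      rwa [List.take_append_of_le_length h1]
    · apply h.2 t.length
      rw [List.take_append_of_le_length le_rfl, List.take_length]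
      rwa [List.take_of_length_le h1.le] at hn

theorem Gd.right {F : List N → Finset N} : ∀ {t s : List N}, Gd F (t ++ s) → Gd F s
  | [], _, h => h
  | _ :: t, _, h => Gd.right (t := t) h.1

/-- the extension relation -/
def ExtR (F : List N → Finset N) (t' t : List N) : Prop := Gd F t' ∧ ∃ z, t' = t ++ [z]

theorem wf_extR {F : List N → Finset N}
    (hF : ∀ y : ℕ → N, ∃ i n : ℕ, y i ∈ F ((List.range n).map (fun k => y (i + 1 + k)))) :
    IsWellFounded (List N) (ExtR F) := by
  constructor
  rw [wellFounded_iff_isEmpty_descending_chain]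
  constructor
  rintro ⟨t, ht⟩
  -- lengths
  have h1 : ∀ n, (t n).length = (t 0).length + n := by
    intro n
    induction n with
    | zero => rfl
    | succ n ih =>
      obtain ⟨z, hz⟩ := (ht n).2
      rw [hz, List.length_append, ih]
      rfl
  have h2 : ∀ n m, n ≤ m → t n <+: t m := by
    intro n m hnm
    induction m, hnm using Nat.le_induction with
    | base => exact List.prefix_rfl
    | succ m _ ih =>
      obtain ⟨z, hz⟩ := (ht m).2
      rw [hz]
      exact ih.trans (List.prefix_append _ _)
  set y : ℕ → N := fun i => (t (i + 1))[i]'(by rw [h1]; omega) with hy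
  have h3 : ∀ n i (hi : i < (t n).length), (t n)[i] = y i := by
    intro n i hi
    simp only [hy]
    rcases le_total n (i + 1) with h4 | h4
    · exact (h2 _ _ h4).getElem hi
    · exact ((h2 _ _ h4).getElem (by rw [h1]; omega)).symm
  obtain ⟨i, n, h4⟩ := hF y
  set m := i + 1 + n with hm
  have hgd : Gd F (t (m + 1)) := (ht m).1
  have h5 : (t (m + 1)).take m = (List.range i).map y ++ y i ::
      (List.range n).map (fun k => y (i + 1 + k)) := by
    have hlen : (t (m + 1)).length = (t 0).length + (m + 1) := h1 _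
    apply List.ext_getElem
    · simp only [List.length_take, List.length_append, List.length_map, List.length_range,
        List.length_cons, hlen]
      omega
    · intro k hk1 hk2
      rw [List.getElem_take, h3]
      rcases lt_trichotomy k i with h6 | h6 | h6
      · rw [List.getElem_append_left (by simpa using h6)]
        simp
      · subst h6
        rw [List.getElem_append_right (by simp)]
        simp
      · rw [List.getElem_append_right (by simpa using h6.le)]
        simp only [List.length_map, List.length_range]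
        obtain ⟨d, rfl⟩ : ∃ d, k = i + 1 + d := ⟨k - (i + 1), by omega⟩
        have h7 : i + 1 + d - i = d + 1 := by omega
        simp only [h7, List.getElem_cons_succ, List.getElem_map, List.getElem_range]
  have h6 : Gd F ((t (m + 1)).take m) := by
    have h7 : Gd F ((t (m + 1)).take m ++ (t (m + 1)).drop m) := by
      rwa [List.take_append_drop]
    exact h7.left
  rw [h5] at h6
  have h7 := h6.right.2 n
  apply h7
  rw [List.take_of_length_le (by simp)]
  exact h4

theorem isRk_gd {F : List N → Finset N} [hwf : IsWellFounded (List N) (ExtR F)] :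
    IsRk (Gd F) (IsWellFounded.rank (ExtR F)) := by
  constructor
  · intro t s h
    exact h.left
  · intro t z h
    exact IsWellFounded.rank_lt_of_rel ⟨h, z, rfl⟩
  · intro t ht ρ hρ
    rw [IsWellFounded.rank_eq] at hρ
    obtain ⟨⟨t', ht'⟩, h1⟩ := (Ordinal.lt_iSup_iff).1 hρ
    obtain ⟨h2, z, rfl⟩ := ht'
    exact ⟨z, h2, lt_succ_iff.1 h1⟩

end good

open Pool.Agent.W820 in
theorem tailFree_congr {N M : Type u} (e : N ≃ M) (h : TailFree N) : TailFree M := by
  classical
  intro F
  obtain ⟨y, hy⟩ := h (fun l => (F (l.map e)).map e.symm.toEmbedding)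
  refine ⟨fun n => e (y n), ?_⟩
  intro i n hmem
  apply hy i n
  rw [Finset.mem_map_equiv, List.map_map]
  exact hmem

open Pool.Agent.W820 in
/-- Tail-freeness for finite sets implies tail-freeness for countable sets. -/
theorem tailFreeC_of_tailFree {N : Type u} (h : TailFree N) : TailFreeC N := by
  classical
  intro F hF
  have h1 : ∀ l, ∃ g : N → ℕ, InjOn g (F l) := fun l => (countable_iff_exists_injOn).1 (hF l)
  choose g hg using h1
  -- the first elements
  have hfin : ∀ l k, {x | x ∈ F l ∧ g l x < k}.Finite := by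
    intro l k
    refine Finite.of_finite_image (f := g l) ((finite_lt_nat k).subset ?_) ?_
    · rintro _ ⟨x, hx, rfl⟩
      exact hx.2
    · exact (hg l).mono (fun x hx => hx.1)
  obtain ⟨y, hy⟩ := h (fun l => (Finset.range (l.length + 1)).biUnion
    (fun n => (hfin (l.take n) l.length).toFinset))
  refine ⟨y, fun i n hmem => ?_⟩
  set l := (List.range n).map (fun k => y (i + 1 + k)) with hl
  set m := max n (g l (y i) + 1) with hm
  apply hy i m
  rw [Finset.mem_biUnion]
  refine ⟨n, Finset.mem_range.2 ?_, ?_⟩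
  · simp only [List.length_map, List.length_range]
    exact Nat.lt_succ_of_le (le_max_left _ _)
  · have h2 : ((List.range m).map (fun k => y (i + 1 + k))).take n = l := by
      rw [hl, ← List.map_take, List.take_range, min_eq_left (le_max_left _ _)]
    rw [h2, Finite.mem_toFinset]
    refine ⟨hmem, ?_⟩
    simp only [List.length_map, List.length_range]
    exact lt_of_lt_of_le (Nat.lt_succ_self _) (le_max_right _ _)

theorem otp_withBot (A : Type u) [LinearOrder A] [WellFoundedLT A] :
    otp (WithBot A) = 1 + otp A := by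
  rw [otp_congr (WithBot.orderIsoPUnitSumLex : WithBot A ≃o PUnit.{u + 1} ⊕ₗ A), otp_sumLex]
  congr 1

open Pool.Agent.W820 in
/-- If there is no tail-free sequence there are task assignments with small sets of good points. -/
theorem exists_tasks_gen {κ : Cardinal.{u}} (hκc : ℵ₀ < κ) {N : Type u} [LinearOrder N]
    [WellFoundedLT N] (hA : otp (WithBot N) ≤ κ.ord) (hTF : ¬ TailFree N) :
    ∃ (Ξ : Ordinal.{u}) (b : (κ.ord ^ Ξ).ToType → Finset N),
      Ξ.card ≤ max ℵ₀ #N ∧ ∀ j, otp {y | j ∉ b y} * κ.ord ≤ κ.ord ^ Ξ := by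
  classical
  have hωκ : ω < κ.ord := by
    rw [← ord_aleph0, ord_lt_ord]
    exact hκc
  have hκ1 : 1 < κ.ord := one_lt_omega0.trans hωκ
  have hκ0 : κ.ord ≠ 0 := (zero_lt_one.trans hκ1).ne'
  rw [TailFree] at hTF
  push Not at hTF
  obtain ⟨F, hF⟩ := hTF
  have hwf : IsWellFounded (List N) (ExtR F) := wf_extR hF
  set rk : List N → Ordinal.{u} := IsWellFounded.rank (ExtR F) with hrk
  have hR : IsRk (Gd F) rk := isRk_gd
  set C : Type u := (κ.ord ^ ω).ToType with hC
  have hCo : otp C = κ.ord ^ ω := otp_toType _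
  have hC0 : otp C ≠ 0 := by rw [hCo]; exact opow_ne_zero _ hκ0
  have hwfL : ∀ t, WellFoundedLT (Ls C (Gd F) t) := fun t => wf_Ls hR t
  have hM : κ.ord * otp C ≤ otp C := by
    rw [hCo]
    have h1 : κ.ord * κ.ord ^ ω = κ.ord ^ (1 + ω : Ordinal.{u}) := by
      rw [Ordinal.opow_add, opow_one]
    rw [h1, one_add_omega0]
  set Ξ : Ordinal.{u} := ω * rk [] with hΞ
  have hpow : κ.ord ^ Ξ = (κ.ord ^ ω) ^ rk [] := by rw [hΞ, Ordinal.opow_mul]
  have hle : otp (κ.ord ^ Ξ).ToType ≤ otp (Ls C (Gd F) []) := by
    rw [otp_toType, hpow]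
    exact (congrArg (fun x => x ^ rk []) hCo).symm.le.trans (Ls.le_otp hR hC0 [] trivial)
  obtain ⟨f, hf⟩ := exists_strictMono_of_otp_le hle
  refine ⟨Ξ, fun y => Zs F (lv (f y).1), ?_, ?_⟩
  · rw [hΞ, card_mul, card_omega0]
    have h1 : (rk []).card ≤ max ℵ₀ #N :=
      (card_rank_le (ExtR F) []).trans ((mk_list_le_max N))
    refine (mul_le_mul' (le_max_left ℵ₀ #N) h1).trans ?_
    exact (mul_eq_self (le_max_left _ _)).le
  · intro j
    by_cases hj : Gd F [j]
    · have h1 : otp {y : (κ.ord ^ Ξ).ToType | j ∉ Zs F (lv (f y).1)} ≤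
          otp (Ls C (Gd F) [j]) := by
        refine otp_le_of_strictMono (fun y => ⟨(f y.1).1, ?_⟩) ?_
        · change Gd F (j :: lv (f y.1).1)
          rw [gd_cons]
          exact ⟨(f y.1).2, y.2⟩
        · intro x y hxy
          exact hf (show x.1 < y.1 from hxy)
      refine (mul_le_mul_left (h1.trans (Ls.otp_le hR hκ1.le hM hA [j] hC0)) κ.ord).trans ?_
      rw [hpow, hCo, mul_assoc]
      have h2 : κ.ord * κ.ord ≤ κ.ord ^ ω := by
        have h3 : κ.ord * κ.ord = κ.ord ^ (2 : Ordinal.{u}) := by
          rw [← one_add_one_eq_two, Ordinal.opow_add, opow_one]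
        rw [h3]
        exact opow_le_opow_right (pos_iff_ne_zero.2 hκ0)
          (by exact_mod_cast (natCast_lt_omega0 2).le)
      refine (mul_le_mul_right h2 _).trans ?_
      rw [← opow_succ]
      exact opow_le_opow_right (opow_pos _ (pos_iff_ne_zero.2 hκ0))
        (Order.succ_le_of_lt (hR.dec [] j hj))
    · have h2 : IsEmpty {y : (κ.ord ^ Ξ).ToType | j ∉ Zs F (lv (f y).1)} := by
        constructor
        rintro ⟨y, hy⟩
        apply hj
        rw [gd_cons]
        refine ⟨trivial, fun h3 => hy ?_⟩
        rw [mem_Zs] at h3 ⊢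
        obtain ⟨n, hn⟩ := h3
        refine ⟨0, ?_⟩
        simpa using hn
      have h3 : otp {y : (κ.ord ^ Ξ).ToType | j ∉ Zs F (lv (f y).1)} = 0 :=
        type_eq_zero_of_empty _
      rw [h3, zero_mul]
      exact bot_le

open Pool.Agent.W820 in
/-- The case of a successor cardinal. -/
theorem exists_tasks {ν : Cardinal.{u}} (hν : ℵ₀ ≤ ν) (hTF : ¬ TailFree ν.ord.ToType) :
    ∃ (Ξ : Ordinal.{u}) (b : ((succ ν).ord ^ Ξ).ToType → Finset ν.ord.ToType),
      Ξ < (succ ν).ord ∧ ∀ j, otp {y | j ∉ b y} * (succ ν).ord ≤ (succ ν).ord ^ Ξ := by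
  obtain ⟨Ξ, b, h1, h2⟩ := exists_tasks_gen (κ := succ ν) (lt_succ_of_le hν)
    (N := ν.ord.ToType) (by
      rw [otp_withBot, otp_toType]
      have h3 : ν.ord < (succ ν).ord := ord_lt_ord.2 (lt_succ ν)
      have h4 : (1 : Ordinal.{u}) < (succ ν).ord := by
        rw [lt_ord]
        simpa using one_lt_aleph0.trans_le (hν.trans (le_succ ν))
      exact (isPrincipal_add_ord (hν.trans (le_succ ν)) h4 h3).le) hTF
  refine ⟨Ξ, b, ?_, h2⟩
  rw [lt_ord]
  refine h1.trans_lt (lt_succ_of_le (max_le hν ?_))
  rw [mk_toType, card_ord]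

end IPath
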