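import Pool.Agent.Work.MP_820435_lc.Mult

/-!
# Reduction to the terms of the Cantor normal form
-/

open Ordinal Cardinal Set Order

universe u

namespace IPath

/-- The first term inherits the relation. -/
theorem pathRel_first {e ρ : Ordinal.{u}} (hρ : ρ < ω ^ succ e) (h : PathRel (ω ^ e + ρ)) :
    PathRel (ω ^ e) := by
  refine pathRel_of_model (ω ^ e : Ordinal.{u}).ToType (otp_toType _) ?_
  intro G hG
  let f : (ω ^ e : Ordinal.{u}).ToType ↪ (ω ^ e : Ordinal.{u}).ToType ⊕ₗ ρ.ToType :=
    ⟨fun x => toLex (Sum.inl x), fun x y h => Sum.inl_injective (toLex.injective h)⟩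
  have hG' : ¬ HasRay (G.map f) := by
    rintro ⟨x, hx1, hx2⟩
    apply hG
    have hex : ∀ n, ∃ y, f y = x n := by
      intro n
      obtain ⟨u, v, -, h1, -⟩ := (SimpleGraph.map_adj _ _ _ _).1 (hx2 n)
      exact ⟨u, h1⟩
    choose y hy using hex
    refine ⟨y, ?_, ?_⟩
    · intro n m hnm
      apply hx1
      rw [← hy n, ← hy m, hnm]
    · intro n
      obtain ⟨u, v, h0, h1, h2⟩ := (SimpleGraph.map_adj _ _ _ _).1 (hx2 n)
      rw [← hy n] at h1
      rw [← hy (n + 1)] at h2
      rw [← f.injective h1, ← f.injective h2]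
      exact h0
  obtain ⟨S, hS1, hS2⟩ := (h ((ω ^ e : Ordinal.{u}).ToType ⊕ₗ ρ.ToType)
    (by rw [otp_sumLex, otp_toType, otp_toType]) (G.map f)).resolve_right hG'
  refine ⟨{y | toLex (Sum.inl y) ∈ S}, ?_, ?_⟩
  · by_contra hcon
    rw [not_le] at hcon
    have h1 := otp_le_add S
    rw [hS1] at h1
    have h2 : otp {y : ρ.ToType | toLex (Sum.inr y) ∈ S} ≤ ρ :=
      (otp_set_le _).trans_eq (otp_toType _)
    have h3 := h1.trans (add_le_add_right h2 _)
    rcases lt_or_ge ρ (ω ^ e) with h4 | h4
    · have h5 := isPrincipal_add_omega0_opow e hcon h4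
      exact absurd (le_self_add.trans h3) (not_le.2 h5)
    · rw [add_of_omega0_opow_le hcon h4] at h3
      have h5 : ω ^ e + ρ = ρ := le_antisymm h3 le_add_self
      rw [add_eq_right_iff_mul_omega0_le, ← Ordinal.opow_succ] at h5
      exact absurd hρ (not_lt.2 h5)
  · intro x hx y hy hadj
    exact hS2 _ hx _ hy ((SimpleGraph.map_adj _ _ _ _).2 ⟨x, y, hadj, rfl, rfl⟩)

theorem pathRel_of_mem_CNF (α : Ordinal.{u}) (h : PathRel α) :
    ∀ p ∈ CNF ω α, PathRel (ω ^ p.1) := by
  induction α using WellFoundedLT.induction with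
  | ind α ih =>
    rcases eq_or_ne α 0 with rfl | h0
    · intro p hp
      rw [CNF.zero_right] at hp
      exact absurd hp (by simp)
    · intro p hp
      rw [CNF.ne_zero h0, List.mem_cons] at hp
      rcases hp with rfl | hp
      · have h1 : ω ^ log ω α ≤ α := opow_log_le_self ω h0
        have h2 : ω ^ log ω α + (α - ω ^ log ω α) = α := Ordinal.add_sub_cancel_of_le h1
        rw [← h2] at h
        exact pathRel_first ((sub_le_self _ _).trans_lt (lt_opow_succ_log_self one_lt_omega0 α)) h
      · refine ih _ (mod_opow_log_lt_self ω h0) ?_ p hp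
        rw [← div_add_mod α (ω ^ log ω α)] at h
        exact pathRel_of_add h

theorem zero_or_limit_iff {α : Ordinal.{u}} : (α = 0 ∨ IsSuccLimit α) ↔ ω ∣ α := by
  constructor
  · rintro (rfl | h)
    · exact dvd_zero _
    · exact isSuccPrelimit_iff_omega0_dvd.1 h.isSuccPrelimit
  · intro h
    rcases eq_or_ne α 0 with h0 | h0
    · exact Or.inl h0
    · refine Or.inr ⟨?_, isSuccPrelimit_iff_omega0_dvd.2 h⟩
      rwa [isMin_iff_eq_bot]

theorem pathRel_mul_nat {α : Ordinal.{u}} (hα : ω ∣ α) (h : PathRel α) (n : ℕ) :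
    PathRel (α * n) := by
  induction n with
  | zero =>
    simpa using pathRel_zero
  | succ n ih =>
    have h1 : α * ((n + 1 : ℕ) : Ordinal.{u}) = α * n + α := by
      rw [Nat.cast_succ, mul_add_one]
    rw [h1]
    exact pathRel_add (zero_or_limit_iff.2 (hα.mul_right _)) (zero_or_limit_iff.2 hα) ih h

theorem pathRel_of_forall_CNF (α : Ordinal.{u}) (hα : ω ∣ α)
    (h : ∀ p ∈ CNF ω α, PathRel (ω ^ p.1)) : PathRel α := by
  induction α using WellFoundedLT.induction with
  | ind α ih =>
    rcases eq_or_ne α 0 with rfl | h0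
    · exact pathRel_zero
    · rw [CNF.ne_zero h0] at h
      have hL : log ω α ≠ 0 := by
        intro hL
        have h1 := lt_opow_succ_log_self one_lt_omega0 α
        rw [hL] at h1
        have h2 : (ω : Ordinal.{u}) ^ succ (0 : Ordinal.{u}) = ω := by
          rw [Ordinal.opow_succ, opow_zero, one_mul]
        rw [h2] at h1
        exact absurd (le_of_dvd h0 hα) (not_le.2 h1)
      have h1 : ω ∣ (ω : Ordinal.{u}) ^ log ω α := by
        have := opow_dvd_opow ω (one_le_iff_ne_zero.2 hL)
        rwa [opow_one] at this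
      have hc : α / ω ^ log ω α < ω := div_opow_log_lt _ one_lt_omega0
      obtain ⟨n, hn⟩ := lt_omega0.1 hc
      have h2 : ω ∣ ω ^ log ω α * (α / ω ^ log ω α) := h1.mul_right _
      have h3 : ω ∣ α % ω ^ log ω α := by
        rw [← dvd_add_iff h2, div_add_mod]
        exact hα
      have h4 : PathRel (ω ^ log ω α * (α / ω ^ log ω α)) := by
        rw [hn]
        exact pathRel_mul_nat h1 (h _ (List.mem_cons_self ..)) n
      have h5 := ih _ (mod_opow_log_lt_self ω h0) h3
        (fun p hp => h p (List.mem_cons_of_mem _ hp))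
      have h6 := pathRel_add (zero_or_limit_iff.2 h2) (zero_or_limit_iff.2 h3) h4 h5
      rwa [div_add_mod] at h6

/-- The relation holds for a limit ordinal if and only if it holds for every term of its Cantor
normal form. -/
theorem pathRel_iff_CNF {α : Ordinal.{u}} (hα : ω ∣ α) :
    PathRel α ↔ ∀ p ∈ CNF ω α, PathRel (ω ^ p.1) :=
  ⟨pathRel_of_mem_CNF α, pathRel_of_forall_CNF α hα⟩

end IPath
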