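import Pool.Agent.Work.MP_820435_lc.CmpG
import Pool.Agent.Work.MP_820435_lc.GoodC

/-!
# Sums of ordinals with the infinite path relation (helper9)
-/

open Ordinal Cardinal Set Order

universe u

namespace IPath

/-- The relation `α → (α, infinite path)`. -/
def PathRel (α : Ordinal.{u}) : Prop :=
  ∀ (X : Type u) [LinearOrder X] [WellFoundedLT X], otp X = α → ∀ G : SimpleGraph X,
    (∃ S : Set X, otp S = α ∧ ∀ x ∈ S, ∀ y ∈ S, ¬ G.Adj x y) ∨ HasRay G

theorem HasRay.of_comap {X Y : Type u} {G : SimpleGraph Y} {f : X → Y} (hf : Function.Injective f)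
    (h : HasRay (G.comap f)) : HasRay G := by
  obtain ⟨x, hx1, hx2⟩ := h
  exact ⟨fun n => f (x n), hf.comp hx1, hx2⟩

theorem pathRel_of_model {α : Ordinal.{u}} (X0 : Type u) [LinearOrder X0] [WellFoundedLT X0]
    (h0 : otp X0 = α) (h : ∀ G : SimpleGraph X0, ¬ HasRay G →
      ∃ S : Set X0, α ≤ otp S ∧ ∀ x ∈ S, ∀ y ∈ S, ¬ G.Adj x y) : PathRel α := by
  intro X _ _ hX G
  by_cases hG : HasRay G
  · exact Or.inr hG
  · refine Or.inl ?_
    obtain ⟨e⟩ := exists_orderIso_of_otp_eq (h0.trans hX.symm)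
    obtain ⟨S, hS1, hS2⟩ := h (G.comap e) (fun h2 => hG (h2.of_comap e.injective))
    refine ⟨e '' S, ?_, ?_⟩
    · rw [otp_image e e.strictMono]
      refine le_antisymm ?_ hS1
      rw [← h0]
      exact otp_set_le S
    · rintro _ ⟨x, hx, rfl⟩ _ ⟨y, hy, rfl⟩ h
      exact hS2 x hx y hy h

theorem otp_subtype {Y : Type u} [LinearOrder Y] [WellFoundedLT Y] (S : Set Y) (Q : Y → Prop) :
    otp {x : S | Q x.1} = otp (S ∩ {y | Q y} : Set Y) := by
  have h0 : (Subtype.val : S → Y) '' {x : S | Q x.1} = (S ∩ {y | Q y} : Set Y) := by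
    ext y
    constructor
    · rintro ⟨x, hx, rfl⟩
      exact ⟨x.2, hx⟩
    · rintro ⟨h1, h2⟩
      exact ⟨⟨y, h1⟩, h2, rfl⟩
  rw [← otp_image (Subtype.val : S → Y) (fun _ _ h => h), h0]

theorem omega_le_otp {Z : Type u} [LinearOrder Z] [WellFoundedLT Z] (h : Infinite Z) :
    ω ≤ otp Z := by
  rw [← ord_aleph0]
  exact ord_le_otp_of_card (aleph0_le_mk Z)

theorem omega_le_otp_set {Z : Type u} [LinearOrder Z] [WellFoundedLT Z] {S : Set Z}
    (h : S.Infinite) : ω ≤ otp S := omega_le_otp h.to_subtype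

/-- Powers of `ω` are indecomposable for unions. -/
theorem cover_opow (τ : Ordinal.{u}) : ∀ (Y : Type u) [LinearOrder Y] [WellFoundedLT Y],
    ω ^ τ ≤ otp Y → ∀ A A' : Set Y, A ∪ A' = Set.univ → ω ^ τ ≤ otp A ∨ ω ^ τ ≤ otp A' := by
  induction τ using limitRecOn with
  | zero =>
    intro Y _ _ hY A A' hAA
    rw [opow_zero] at hY ⊢
    have hne : Nonempty Y := by
      rw [← type_ne_zero_iff_nonempty (α := Y) (r := (· < ·))]
      exact (one_le_iff_ne_zero.1 hY)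
    obtain ⟨y⟩ := hne
    have hy : y ∈ A ∪ A' := by rw [hAA]; trivial
    rcases hy with hy | hy
    · left
      rw [one_le_iff_ne_zero]
      exact (type_ne_zero_iff_nonempty (α := A) (r := (· < ·))).2 ⟨⟨y, hy⟩⟩
    · right
      rw [one_le_iff_ne_zero]
      exact (type_ne_zero_iff_nonempty (α := A') (r := (· < ·))).2 ⟨⟨y, hy⟩⟩
  | add_one σ ih =>
    intro Y _ _ hY A A' hAA
    have h1 : otp ((ω : Ordinal.{u}).ToType ×ₗ (ω ^ σ : Ordinal.{u}).ToType) ≤ otp Y := by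
      rw [otp_prodLex, otp_toType, otp_toType, ← opow_add_one]
      exact hY
    obtain ⟨e, he⟩ := exists_strictMono_of_otp_le h1
    have h2 : ∀ i, ω ^ σ ≤ otp (fib (e ⁻¹' A) i) ∨ ω ^ σ ≤ otp (fib (e ⁻¹' A') i) := by
      intro i
      refine ih _ (otp_toType _).ge _ _ ?_
      rw [eq_univ_iff_forall]
      intro z
      have hz : e (toLex (i, z)) ∈ A ∪ A' := by rw [hAA]; trivial
      exact hz
    have h3 : ({i | ω ^ σ ≤ otp (fib (e ⁻¹' A) i)} ∪ {i | ω ^ σ ≤ otp (fib (e ⁻¹' A') i)} :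
        Set (ω : Ordinal.{u}).ToType) = Set.univ := by
      rw [eq_univ_iff_forall]
      exact h2
    have h4 : (Set.univ : Set (ω : Ordinal.{u}).ToType).Infinite := by
      rw [infinite_univ_iff, Cardinal.infinite_iff]
      simp
    rw [← h3, infinite_union] at h4
    rw [opow_add_one]
    rcases h4 with h4 | h4
    · left
      refine le_trans ?_ (otp_preimage_le e he A)
      refine le_trans ?_ (mul_le_otp_of_fib _ _ (ω ^ σ) (fun i hi => hi))
      gcongr
      exact omega_le_otp_set h4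
    · right
      refine le_trans ?_ (otp_preimage_le e he A')
      refine le_trans ?_ (mul_le_otp_of_fib _ _ (ω ^ σ) (fun i hi => hi))
      gcongr
      exact omega_le_otp_set h4
  | limit τ hτ ih =>
    intro Y _ _ hY A A' hAA
    by_contra hcon
    rw [not_or, not_le, not_le, lt_opow_of_isSuccLimit omega0_ne_zero hτ,
      lt_opow_of_isSuccLimit omega0_ne_zero hτ] at hcon
    obtain ⟨⟨σ1, h1, h2⟩, ⟨σ2, h3, h4⟩⟩ := hcon
    have h5 : max σ1 σ2 < τ := max_lt h1 h3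
    rcases ih _ h5 Y ((opow_le_opow_right omega0_pos h5.le).trans hY) A A' hAA with h6 | h6
    · exact absurd (h2.trans_le (opow_le_opow_right omega0_pos (le_max_left _ _))) (not_lt.2 h6)
    · exact absurd (h4.trans_le (opow_le_opow_right omega0_pos (le_max_right _ _))) (not_lt.2 h6)

/-- Disjoint families of sets have finitely many bad members. -/
def Good1 (β : Ordinal.{u}) : Prop :=
  ∀ (Y : Type u) [LinearOrder Y] [WellFoundedLT Y], otp Y = β → ∀ b : Y → Set ℕ,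
    (∀ y, (b y).Subsingleton) → (badC b).Finite

theorem good1_opow (e : Ordinal.{u}) : Good1 (ω ^ e) := by
  intro Y _ _ hY b hb
  have hs : (badC b).Subsingleton := by
    intro j hj j' hj'
    by_contra hne
    simp only [badC, mem_ofPred_eq] at hj hj'
    rw [hY] at hj hj'
    have hAA : ({y : Y | j ∉ b y} ∪ {y : Y | j' ∉ b y} : Set Y) = Set.univ := by
      rw [eq_univ_iff_forall]
      intro y
      by_contra hcon
      simp only [mem_union, mem_ofPred_eq, not_or, not_not] at hcon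
      exact hne (hb y hcon.1 hcon.2)
    rcases cover_opow e Y hY.ge _ _ hAA with h | h
    · exact absurd hj (not_lt.2 h)
    · exact absurd hj' (not_lt.2 h)
  exact hs.finite

theorem Good1.add {β₁ β₂ : Ordinal.{u}} (h1 : Good1 β₁) (h2 : Good1 β₂) : Good1 (β₁ + β₂) := by
  intro X _ _ hX b hb
  have h3 : otp (β₁.ToType ⊕ₗ β₂.ToType) = otp X := by
    rw [otp_sumLex, otp_toType, otp_toType, hX]
  obtain ⟨e⟩ := exists_orderIso_of_otp_eq h3
  rw [← badC_comp e b]
  refine Set.Finite.subset ?_ (badC_sum _)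
  exact (h1 _ (otp_toType _) _ (fun y => hb _)).union (h2 _ (otp_toType _) _ (fun y => hb _))

theorem good1_all (β : Ordinal.{u}) : Good1 β := by
  induction β using WellFoundedLT.induction with
  | ind β ih =>
    rcases eq_or_ne β 0 with rfl | h0
    · intro Y _ _ hY b _
      rw [badC_zero hY]
      exact finite_empty
    · have h1 : ω ^ log ω β ≤ β := opow_log_le_self ω h0
      have h2 : ω ^ log ω β + (β - ω ^ log ω β) = β := Ordinal.add_sub_cancel_of_le h1
      have h3 : β - ω ^ log ω β < β := by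
        refine lt_of_le_of_ne (sub_le_self _ _) ?_
        intro h
        rw [h] at h2
        rw [add_eq_right_iff_mul_omega0_le, ← Ordinal.opow_succ] at h2
        exact absurd (lt_opow_succ_log_self one_lt_omega0 β) (not_lt.2 h2)
      have h4 := (good1_opow (log ω β)).add (ih _ h3)
      rwa [h2] at h4

theorem good1_set {Y : Type u} [LinearOrder Y] [WellFoundedLT Y] (S : Set Y) (b : Y → Set ℕ)
    (hb : ∀ y, (b y).Subsingleton) : ∃ m : ℕ, otp S ≤ otp (S ∩ {y | m ∉ b y} : Set Y) := by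
  have h1 := good1_all (otp S) S rfl (fun y => b y.1) (fun y => hb _)
  obtain ⟨m, hm⟩ := h1.exists_notMem
  simp only [badC, mem_ofPred_eq, not_lt] at hm
  refine ⟨m, hm.trans_eq ?_⟩
  exact otp_subtype S (fun y => m ∉ b y)

theorem exists_split {α : Ordinal.{u}} (hα : α = 0 ∨ IsSuccLimit α) (Y : Type u) [LinearOrder Y]
    [WellFoundedLT Y] (hY : otp Y = α) : ∃ s : Y → ℕ, ∀ m, α ≤ otp {y | s y = m} := by
  have hdvd : ω ∣ α := by
    rcases hα with rfl | h
    · exact dvd_zero _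
    · exact isSuccPrelimit_iff_omega0_dvd.1 h.isSuccPrelimit
  obtain ⟨δ, rfl⟩ := hdvd
  have h1 : otp Y = otp (δ.ToType ×ₗ (ω : Ordinal.{u}).ToType) := by
    rw [otp_prodLex, otp_toType, otp_toType, hY]
  obtain ⟨e⟩ := exists_orderIso_of_otp_eq h1
  have h2 : #(ω : Ordinal.{u}).ToType = ℵ₀ := by simp
  have h3 : Nonempty ((ω : Ordinal.{u}).ToType ≃ ℕ) := by
    have : Denumerable (ω : Ordinal.{u}).ToType := (Cardinal.denumerable_iff.2 h2).some
    exact ⟨Denumerable.eqv _⟩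
  obtain ⟨c⟩ := h3
  refine ⟨fun y => (Nat.unpair (c (ofLex (e y)).2)).1, ?_⟩
  intro m
  have h4 : ω * otp (Set.univ : Set δ.ToType) ≤
      otp {p : δ.ToType ×ₗ (ω : Ordinal.{u}).ToType | (Nat.unpair (c (ofLex p).2)).1 = m} := by
    apply mul_le_otp_of_fib
    intro i _
    apply omega_le_otp_set
    refine Set.infinite_of_injective_forall_mem (f := fun n : ℕ => c.symm (Nat.pair m n)) ?_ ?_
    · intro n n' h
      have := c.symm.injective h
      rw [Nat.pair_eq_pair] at this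
      exact this.2
    · intro n
      rw [mem_fib, mem_ofPred_eq]
      simp
  rw [otp_univ, otp_toType] at h4
  refine h4.trans ?_
  refine otp_le_of_strictMono (fun p => (⟨e.symm p.1, ?_⟩ : {y | (Nat.unpair
    (c (ofLex (e y)).2)).1 = m})) ?_
  · rw [mem_ofPred_eq, e.apply_symm_apply]
    exact p.2
  · intro p q hpq
    exact e.symm.strictMono hpq

theorem exists_split_set {Y : Type u} [LinearOrder Y] [WellFoundedLT Y] (S : Set Y)
    (hS : otp S = 0 ∨ IsSuccLimit (otp S)) :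
    ∃ s : Y → ℕ, ∀ m, otp S ≤ otp (S ∩ {y | s y = m} : Set Y) := by
  classical
  obtain ⟨s, hs⟩ := exists_split hS S rfl
  refine ⟨fun y => if h : y ∈ S then s ⟨y, h⟩ else 0, ?_⟩
  intro m
  refine (hs m).trans_eq ?_
  rw [← otp_subtype S (fun y => (if h : y ∈ S then s ⟨y, h⟩ else 0) = m)]
  have h0 : {x : S | s x = m} = {x : S | (if h : x.1 ∈ S then s ⟨x.1, h⟩ else 0) = m} := by
    ext x
    simp
  rw [h0]

/-- The sum lemma on a model. -/
theorem sum_core {A B : Type u} [LinearOrder A] [WellFoundedLT A] [LinearOrder B]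
    [WellFoundedLT B] (h1 : otp A = 0 ∨ IsSuccLimit (otp A))
    (h2 : otp B = 0 ∨ IsSuccLimit (otp B)) (p1 : PathRel (otp A)) (p2 : PathRel (otp B))
    (G : SimpleGraph (A ⊕ₗ B)) (hG : ¬ HasRay G) :
    ∃ S : Set (A ⊕ₗ B), otp A + otp B ≤ otp S ∧ ∀ x ∈ S, ∀ y ∈ S, ¬ G.Adj x y := by
  classical
  obtain ⟨P, hP1, hP2, hP3⟩ := exists_tree hG
  have hC := no_ray_cmpG hG hP1 hP2
  set i1 : A → A ⊕ₗ B := fun x => toLex (Sum.inl x) with hi1
  set i2 : B → A ⊕ₗ B := fun x => toLex (Sum.inr x) with hi2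
  have hi1' : Function.Injective i1 := fun x y h => Sum.inl_injective (toLex.injective h)
  have hi2' : Function.Injective i2 := fun x y h => Sum.inr_injective (toLex.injective h)
  obtain ⟨S1, hS1, hS1'⟩ := (p1 A rfl ((cmpG P).comap i1)).resolve_right
    (fun h => hC (h.of_comap hi1'))
  obtain ⟨S2, hS2, hS2'⟩ := (p2 B rfl ((cmpG P).comap i2)).resolve_right
    (fun h => hC (h.of_comap hi2'))
  have anti1 : ∀ x ∈ S1, ∀ x' ∈ S1, (P (i1 x) <:+ P (i1 x') ∨ P (i1 x') <:+ P (i1 x)) →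
      x = x' := by
    intro x hx x' hx' h
    by_contra hne
    exact hS1' x hx x' hx' ⟨fun h3 => hne (hi1' h3), h⟩
  have anti2 : ∀ x ∈ S2, ∀ x' ∈ S2, (P (i2 x) <:+ P (i2 x') ∨ P (i2 x') <:+ P (i2 x)) →
      x = x' := by
    intro x hx x' hx' h
    by_contra hne
    exact hS2' x hx x' hx' ⟨fun h3 => hne (hi2' h3), h⟩
  -- first step
  obtain ⟨s2, hs2⟩ := exists_split_set S2 (by rw [hS2]; exact h2)
  obtain ⟨m, hm⟩ := good1_set S1
    (fun x => {m | ∃ y ∈ S2, s2 y = m ∧ P (i2 y) <:+ P (i1 x)}) (by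
      rintro x _ ⟨y, hy, rfl, hyx⟩ _ ⟨y', hy', rfl, hyx'⟩
      rw [anti2 y hy y' hy' (List.suffix_or_suffix_of_suffix hyx hyx')])
  obtain ⟨T1, hT1⟩ : ∃ T1 : Set A, T1 = S1 ∩ {x | m ∉ {m | ∃ y ∈ S2, s2 y = m ∧
    P (i2 y) <:+ P (i1 x)}} := ⟨_, rfl⟩
  obtain ⟨T2, hT2⟩ : ∃ T2 : Set B, T2 = S2 ∩ {y | s2 y = m} := ⟨_, rfl⟩
  rw [← hT1] at hm
  have hm2 := hs2 m
  rw [← hT2] at hm2
  have hT1S : T1 ⊆ S1 := by rw [hT1]; exact inter_subset_left
  have hT2S : T2 ⊆ S2 := by rw [hT2]; exact inter_subset_left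
  have hT1o : otp T1 = otp A := by
    refine le_antisymm (otp_set_le _) ?_
    rw [hS1] at hm
    exact hm
  have hT2o : otp T2 = otp B := by
    refine le_antisymm (otp_set_le _) ?_
    rw [hS2] at hm2
    exact hm2
  -- second step
  obtain ⟨s1, hs1⟩ := exists_split_set T1 (by rw [hT1o]; exact h1)
  obtain ⟨n, hn⟩ := good1_set T2
    (fun y => {n | ∃ x ∈ T1, s1 x = n ∧ P (i1 x) <:+ P (i2 y)}) (by
      rintro y _ ⟨x, hx, rfl, hxy⟩ _ ⟨x', hx', rfl, hxy'⟩
      rw [anti1 x (hT1S hx) x' (hT1S hx') (List.suffix_or_suffix_of_suffix hxy hxy')])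
  obtain ⟨R1, hR1⟩ : ∃ R1 : Set A, R1 = T1 ∩ {x | s1 x = n} := ⟨_, rfl⟩
  obtain ⟨R2, hR2⟩ : ∃ R2 : Set B, R2 = T2 ∩ {y | n ∉ {n | ∃ x ∈ T1, s1 x = n ∧
    P (i1 x) <:+ P (i2 y)}} := ⟨_, rfl⟩
  have hn1 := hs1 n
  rw [← hR1, hT1o] at hn1
  rw [← hR2, hT2o] at hn
  refine ⟨{p | (∃ x ∈ R1, p = i1 x) ∨ ∃ y ∈ R2, p = i2 y}, ?_, ?_⟩
  · refine (add_le_add hn1 hn).trans ((add_le_add ?_ ?_).trans (add_otp_le_sum _))
    · apply otp_set_mono
      intro x hx
      exact Or.inl ⟨x, hx, rfl⟩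
    · apply otp_set_mono
      intro y hy
      exact Or.inr ⟨y, hy, rfl⟩
  · have hcross : ∀ x ∈ R1, ∀ y ∈ R2, ¬ (P (i1 x) <:+ P (i2 y) ∨ P (i2 y) <:+ P (i1 x)) := by
      intro x hx y hy h
      rw [hR1] at hx
      rw [hR2] at hy
      obtain ⟨hx1, hx2⟩ := hx
      obtain ⟨hy1, hy2⟩ := hy
      rcases h with h | h
      · exact hy2 ⟨x, hx1, hx2, h⟩
      · rw [hT1] at hx1
        rw [hT2] at hy1
        exact hx1.2 ⟨y, hy1.1, hy1.2, h⟩
    have hR1S : R1 ⊆ S1 := by rw [hR1]; exact inter_subset_left.trans hT1S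
    have hR2S : R2 ⊆ S2 := by rw [hR2]; exact inter_subset_left.trans hT2S
    rintro p (⟨x, hx, rfl⟩ | ⟨x, hx, rfl⟩) q (⟨y, hy, rfl⟩ | ⟨y, hy, rfl⟩) hadj
    · have h3 := anti1 x (hR1S hx) y (hR1S hy) (hP3 _ _ hadj)
      rw [h3] at hadj
      exact G.loopless.irrefl _ hadj
    · exact hcross x hx y hy (hP3 _ _ hadj)
    · exact hcross y hy x hx (hP3 _ _ hadj).symm
    · have h3 := anti2 x (hR2S hx) y (hR2S hy) (hP3 _ _ hadj)
      rw [h3] at hadj
      exact G.loopless.irrefl _ hadj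

/-- The sum lemma. -/
theorem pathRel_add {α₁ α₂ : Ordinal.{u}} (h1 : α₁ = 0 ∨ IsSuccLimit α₁)
    (h2 : α₂ = 0 ∨ IsSuccLimit α₂) (p1 : PathRel α₁) (p2 : PathRel α₂) :
    PathRel (α₁ + α₂) := by
  refine pathRel_of_model (α₁.ToType ⊕ₗ α₂.ToType)
    (by rw [otp_sumLex, otp_toType, otp_toType]) ?_
  intro G hG
  obtain ⟨S, hS1, hS2⟩ := sum_core (A := α₁.ToType) (B := α₂.ToType)
    (by rw [otp_toType]; exact h1) (by rw [otp_toType]; exact h2)
    (by rw [otp_toType]; exact p1) (by rw [otp_toType]; exact p2) G hG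
  rw [otp_toType, otp_toType] at hS1
  exact ⟨S, hS1, hS2⟩

theorem otp_le_add {A B : Type u} [LinearOrder A] [WellFoundedLT A] [LinearOrder B]
    [WellFoundedLT B] (S : Set (A ⊕ₗ B)) :
    otp S ≤ otp {y : A | toLex (Sum.inl y) ∈ S} + otp {y : B | toLex (Sum.inr y) ∈ S} := by
  have h6 : otp {y : A | toLex (Sum.inl y) ∈ S} + otp {y : B | toLex (Sum.inr y) ∈ S} =
      otp (({y : A | toLex (Sum.inl y) ∈ S} : Set _) ⊕ₗ
        ({y : B | toLex (Sum.inr y) ∈ S} : Set _)) := by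
    rw [otp_sumLex]
  rw [h6]
  have hex : ∀ p : S, ∃ q : (({y : A | toLex (Sum.inl y) ∈ S} : Set _) ⊕ₗ
      ({y : B | toLex (Sum.inr y) ∈ S} : Set _)), p.1 = match (ofLex q) with
        | Sum.inl y => toLex (Sum.inl y.1)
        | Sum.inr y => toLex (Sum.inr y.1) := by
    rintro ⟨p', hp⟩
    obtain ⟨p, rfl⟩ := toLex.surjective p'
    rcases p with y | y
    · exact ⟨toLex (Sum.inl ⟨y, hp⟩), rfl⟩
    · exact ⟨toLex (Sum.inr ⟨y, hp⟩), rfl⟩
  choose f hf using hex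
  refine otp_le_of_strictMono f ?_
  intro p q hpq
  have h1 : p.1 < q.1 := hpq
  rw [hf p, hf q] at h1
  by_contra hcon
  rw [not_lt] at hcon
  revert h1
  rw [imp_false, not_lt]
  generalize f p = a at hcon ⊢
  generalize f q = b at hcon ⊢
  cases hcon with
  | inl h => exact Sum.Lex.inl h
  | inr h => exact Sum.Lex.inr h
  | sep => exact Sum.Lex.sep _ _

/-- The last summand inherits the relation. -/
theorem pathRel_of_add {α ρ : Ordinal.{u}} (h : PathRel (α + ρ)) : PathRel ρ := by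
  refine pathRel_of_model ρ.ToType (otp_toType _) ?_
  intro G hG
  let f : ρ.ToType ↪ α.ToType ⊕ₗ ρ.ToType :=
    ⟨fun x => toLex (Sum.inr x), fun x y h => Sum.inr_injective (toLex.injective h)⟩
  have hG' : ¬ HasRay (G.map f) := by
    rintro ⟨x, hx1, hx2⟩
    apply hG
    have hex : ∀ n, ∃ y, f y = x n := by
      intro n
      obtain ⟨u, v, -, h1, -⟩ := (SimpleGraph.map_adj _ _ _ _).1 (hx2 n)
      exact ⟨u, h1⟩
    choose y hy using hex
    refine ⟨y, ?_, ?_⟩
    · intro n m hnm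
      apply hx1
      rw [← hy n, ← hy m, hnm]
    · intro n
      obtain ⟨u, v, h0, h1, h2⟩ := (SimpleGraph.map_adj _ _ _ _).1 (hx2 n)
      rw [← hy n] at h1
      rw [← hy (n + 1)] at h2
      rw [← f.injective h1, ← f.injective h2]
      exact h0
  obtain ⟨S, hS1, hS2⟩ := (h (α.ToType ⊕ₗ ρ.ToType)
    (by rw [otp_sumLex, otp_toType, otp_toType]) (G.map f)).resolve_right hG'
  refine ⟨{y | toLex (Sum.inr y) ∈ S}, ?_, ?_⟩
  · have h1 := otp_le_add S
    rw [hS1] at h1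
    have h2 : otp {y : α.ToType | toLex (Sum.inl y) ∈ S} ≤ α := by
      refine (otp_set_le _).trans_eq (otp_toType _)
    have h3 := h1.trans (add_le_add_left h2 _)
    exact (add_le_add_iff_left α).1 h3
  · intro x hx y hy hadj
    exact hS2 _ hx _ hy ((SimpleGraph.map_adj _ _ _ _).2 ⟨x, y, hadj, rfl, rfl⟩)

end IPath
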