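import Pool.Agent.Work.MP_820435_lc.Sing
import Pool.Agent.Work.MP_820435_lc.SumRel

/-!
# Multiples of a successor cardinal (helper9)
-/

open Ordinal Cardinal Set Order

universe u

namespace IPath

open Pool.Agent.W820

/-- the partition relation for colourings of finite sets, with an infinite homogeneous set -/
def ErdosOmega (ν : Cardinal.{u}) : Prop :=
  ∀ A : Type u, #A = ν → ∀ c : Finset A → Prop, ∃ H : Set A, H.Infinite ∧
    ∀ s t : Finset A, (s : Set A) ⊆ H → (t : Set A) ⊆ H → s.card = t.card → (c s ↔ c t)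

theorem exists_strictMono_of_infinite {A : Type u} [LinearOrder A] [WellFoundedLT A]
    {H : Set A} (hH : H.Infinite) : ∃ f : ℕ → A, StrictMono f ∧ ∀ n, f n ∈ H := by
  obtain f := hH.natEmbedding
  obtain ⟨g, hg⟩ := exists_increasing_or_nonincreasing_subseq (· < ·) (fun n => (f n : A))
  rcases hg with hg | hg
  · exact ⟨fun n => (f (g n) : A), fun m n h => hg m n h, fun n => (f (g n)).2⟩
  · exfalso
    obtain ⟨a, ⟨n, rfl⟩, hmin⟩ := WellFounded.has_min (wellFounded_lt (α := A))
      (range (fun n => (f (g n) : A))) ⟨_, mem_range_self 0⟩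
    have h1 := hg n (n + 1) (Nat.lt_succ_self n)
    have h2 := hmin _ (mem_range_self (n + 1))
    have h3 : (f (g n) : A) = f (g (n + 1)) := le_antisymm (not_lt.1 h2) (not_lt.1 h1)
    have h4 := g.injective (f.injective (Subtype.ext h3))
    omega

theorem tailFreeC_of_erdosOmega {ν : Cardinal.{u}} (hν : ErdosOmega ν) (A : Type u)
    (hA : #A = ν) : TailFreeC A := by
  have h1 : OmegaErdos ν.ord.ToType := by
    intro c
    obtain ⟨H, hH, hc⟩ := hν ν.ord.ToType (mk_ord_toType' ν) c
    obtain ⟨f, hf, hfH⟩ := exists_strictMono_of_infinite hH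
    have hsub : range f ⊆ H := by
      rintro _ ⟨n, rfl⟩
      exact hfH n
    exact ⟨f, hf, fun s t hs ht hst => hc s t (hs.trans hsub) (ht.trans hsub) hst⟩
  have h2 : #ν.ord.ToType = #A := (mk_ord_toType' ν).trans hA.symm
  obtain ⟨e⟩ := Cardinal.eq.1 h2
  exact (tailFreeC_of_omegaErdos h1).congr e

theorem pathRel_zero : PathRel (0 : Ordinal.{u}) := by
  intro X _ _ hX G
  refine Or.inl ⟨∅, ?_, ?_⟩
  · rw [type_eq_zero_iff_isEmpty]
    infer_instance
  · intro x hx
    exact absurd hx (notMem_empty x)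

theorem pathRel_mul_card {ν lam : Cardinal.{u}} (hν : ℵ₀ ≤ ν) (hlam : ν < lam) {N : Type u}
    (hTF : TailFreeC N) (hN : #N = ν) {δ : Ordinal.{u}} (hδ : δ.card ≤ lam) :
    PathRel (lam.ord * δ) := by
  refine pathRel_of_model (δ.ToType ×ₗ lam.ord.ToType)
    (by rw [otp_prodLex, otp_toType, otp_toType]) ?_
  intro G hG
  obtain ⟨S, hS1, hS2⟩ := graph_of_goodC (B := δ.ToType) (K := lam.ord.ToType)
    (Λ := (succ ν).ord.ToType) hν hlam (otp_toType _) (by simpa using hδ) (mk_ord_toType' _)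
    (goodC_all (isRegular_succ hν) hTF (by rw [hN]; exact lt_succ ν) _) G hG
  rw [otp_toType] at hS1
  exact ⟨S, hS1.ge, hS2⟩

theorem ord_dvd_ord {κ lam : Cardinal.{u}} (hκ : 0 < κ) (hlam : ℵ₀ ≤ lam) (h : κ ≤ lam) :
    κ.ord ∣ lam.ord := by
  rcases eq_or_lt_of_le h with rfl | h
  · exact dvd_rfl
  · refine ⟨lam.ord, le_antisymm ?_ ?_⟩
    · exact le_mul_right _ (by simpa using hκ)
    · rw [mul_le_iff_of_isSuccLimit (isSuccLimit_ord hlam)]
      intro b hb
      exact (isPrincipal_mul_ord hlam (ord_lt_ord.2 h) hb).le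

theorem zero_or_limit_of_dvd {κ : Cardinal.{u}} (hκ : ℵ₀ ≤ κ) {a : Ordinal.{u}}
    (h : κ.ord ∣ a) : a = 0 ∨ IsSuccLimit a := by
  rcases eq_or_ne a 0 with h0 | h0
  · exact Or.inl h0
  · refine Or.inr ⟨?_, ?_⟩
    · rwa [isMin_iff_eq_bot]
    · rw [isSuccPrelimit_iff_omega0_dvd]
      exact (isSuccPrelimit_iff_omega0_dvd.1 (isSuccLimit_ord hκ).isSuccPrelimit).trans h

/-- Multiples of the successor cardinal have the relation. -/
theorem pathRel_of_dvd {ν : Cardinal.{u}} (hν : ℵ₀ ≤ ν) {N : Type u}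
    (hTF : TailFreeC N) (hN : #N = ν) (α : Ordinal.{u}) :
    (succ ν).ord ∣ α → PathRel α := by
  have hκ0 : ℵ₀ ≤ succ ν := hν.trans (le_succ ν)
  induction α using WellFoundedLT.induction with
  | ind α ih =>
    intro hα
    rcases eq_or_ne α 0 with rfl | h0
    · exact pathRel_zero
    · have h1 : (succ ν).ord ≤ α := by
        obtain ⟨β, rfl⟩ := hα
        refine le_mul_left _ (pos_iff_ne_zero.2 ?_)
        rintro rfl
        simp at h0
      have h2 : succ ν ≤ α.card := by
        have := Ordinal.card_le_card h1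
        rwa [card_ord] at this
      have h3 : ℵ₀ ≤ α.card := hκ0.trans h2
      have h4 : (α.card).ord ≤ α := ord_card_le α
      have h5 : (succ ν).ord ∣ (α.card).ord :=
        ord_dvd_ord (lt_of_lt_of_le aleph0_pos hκ0) h3 h2
      have h6 : α.card.ord ≠ 0 := by
        rw [Ne, ord_eq_zero]
        exact (lt_of_lt_of_le aleph0_pos h3).ne'
      have h7 : α % α.card.ord < α := (mod_lt _ h6).trans_le h4
      have h8 : (succ ν).ord ∣ α.card.ord * (α / α.card.ord) := h5.trans (dvd_mul_right _ _)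
      have h9 : (succ ν).ord ∣ α % α.card.ord := by
        rw [← dvd_add_iff h8, div_add_mod]
        exact hα
      have h10 : PathRel (α.card.ord * (α / α.card.ord)) := by
        refine pathRel_mul_card hν (lt_of_lt_of_le (lt_succ ν) h2) hTF hN ?_
        exact Ordinal.card_le_card (div_le_of_le_mul (le_mul_right _ (pos_iff_ne_zero.2 h6)))
      have h11 := pathRel_add (zero_or_limit_of_dvd hκ0 h8) (zero_or_limit_of_dvd hκ0 h9) h10
        (ih _ h7 h9)
      rwa [div_add_mod] at h11

/-- The reduction to small ordinals. -/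
theorem pathRel_mul_add_iff {ν : Cardinal.{u}} {N : Type u} (hTF : TailFreeC N) (hN : #N = ν)
    (β γ : Ordinal.{u}) (hγ : γ = 0 ∨ IsSuccLimit γ) :
    PathRel ((succ ν).ord * β + γ) ↔ PathRel γ := by
  have hν : ℵ₀ ≤ ν := by
    have := hTF.uncountable
    rw [← hN]
    exact (aleph0_lt_mk_iff.2 this).le
  constructor
  · exact pathRel_of_add
  · intro h
    have h1 : (succ ν).ord ∣ (succ ν).ord * β := dvd_mul_right _ _
    exact pathRel_add (zero_or_limit_of_dvd (hν.trans (le_succ ν)) h1) hγ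
      (pathRel_of_dvd hν hTF hN _ h1) h

end IPath
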