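import Pool.Agent.Work.MP_820435_lc.PosReg
import Pool.Agent.Work.MP_820435_lc.Mult

/-!
# The path relation at multiples of a regular tail-free cardinal
-/

open Ordinal Cardinal Set Order

universe u

namespace IPath

open Pool.Agent.W820

theorem tailFreeC_of_embedding {N M : Type u} (e : N ↪ M) (h : TailFreeC N) : TailFreeC M := by
  intro F hF
  obtain ⟨y, hy⟩ := h (fun l => e ⁻¹' (F (l.map e)))
    (fun l => (hF _).preimage_of_injOn e.injective.injOn)
  refine ⟨fun n => e (y n), ?_⟩
  intro i n hmem
  apply hy i n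
  simp only [mem_preimage, List.map_map]
  exact hmem

variable {κ : Cardinal.{u}}

/-- The set mapping lemma for powers. -/
theorem goodLT_opow_reg (hκ : κ.IsRegular) (hTF : TailFreeC κ.ord.ToType) {ξ : Ordinal.{u}}
    (hξ : ξ.card ≤ κ) (Λ : Type u) : GoodLT Λ κ (κ.ord ^ ξ) := by
  classical
  intro Y _ _ hY b
  by_contra hcon
  rw [not_lt, le_mk_iff_exists_subset] at hcon
  obtain ⟨J, hJ, hJc⟩ := hcon
  have h1 : #κ.ord.ToType = #J := by rw [hJc, mk_toType, card_ord]
  obtain ⟨e⟩ := Cardinal.eq.1 h1
  refine not_all_bad hκ (otp_toType _) hTF hξ hY (fun y => {k | (e k).1 ∈ b y}) ?_ ?_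
  · intro y
    refine Set.Finite.countable ?_
    exact (b y).finite_toSet.preimage
      ((Subtype.val_injective.comp e.injective).injOn)
  · intro j
    have h2 := hJ (e j).2
    simp only [badSet, mem_ofPred_eq] at h2
    rw [hY] at h2
    exact h2

/-- The set mapping lemma for all ordinals of cardinality at most `κ`. -/
theorem goodLT_reg (hκ : κ.IsRegular) (hκ1 : 1 < κ.ord) (hTF : TailFreeC κ.ord.ToType)
    (Λ : Type u) (β : Ordinal.{u}) : β.card ≤ κ → GoodLT Λ κ β := by
  induction β using WellFoundedLT.induction with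
  | ind β ih =>
    intro hβ
    rcases eq_or_ne β 0 with rfl | h0
    · intro Y _ _ hY b
      have h1 : badSet b = ∅ := by
        rw [eq_empty_iff_forall_notMem]
        intro j hj
        simp only [badSet, mem_ofPred_eq] at hj
        rw [hY] at hj
        exact absurd hj (by simp)
      rw [h1]
      simpa using hκ.pos
    · have hc : β / κ.ord ^ log κ.ord β < κ.ord := div_opow_log_lt _ hκ1
      have hr : β % κ.ord ^ log κ.ord β < β := mod_opow_log_lt_self _ h0
      have hlog : (log κ.ord β).card ≤ κ := by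
        refine (Ordinal.card_le_card ?_).trans hβ
        exact (right_le_opow _ hκ1).trans (opow_log_le_self _ h0)
      have h4 := ((goodLT_opow_reg hκ hTF hlog Λ).mul hκ
        (lt_ord.1 hc)).add hκ.aleph0_le (ih _ hr ((Ordinal.card_le_card hr.le).trans hβ))
      rwa [div_add_mod] at h4

/-- Multiples of `κ` of cardinality at most `κ` have the relation. -/
theorem pathRel_mul_reg (hκ : κ.IsRegular) (hTF : TailFreeC κ.ord.ToType) {β : Ordinal.{u}}
    (hβ : β.card ≤ κ) : PathRel (κ.ord * β) := by
  have hKu : Uncountable κ.ord.ToType := hTF.uncountable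
  have hκu : ℵ₀ < κ := by
    have h1 : #κ.ord.ToType = κ := by rw [mk_toType, card_ord]
    rw [← h1]
    exact aleph0_lt_mk_iff.2 hKu
  have hκ1 : 1 < κ.ord := by
    rw [lt_ord]
    simpa using one_lt_aleph0.trans hκu
  intro X _ _ hX G
  exact pathRel_of_good hκ hβ (fun Λ => goodLT_reg hκ hκ1 hTF Λ β hβ) X hX G

/-- All multiples of `κ` have the relation. -/
theorem pathRel_of_dvd_reg (hκ : κ.IsRegular) (hTF : TailFreeC κ.ord.ToType)
    (α : Ordinal.{u}) : κ.ord ∣ α → PathRel α := by
  have hκ0 : ℵ₀ ≤ κ := hκ.aleph0_le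
  induction α using WellFoundedLT.induction with
  | ind α ih =>
    intro hα
    rcases eq_or_ne α 0 with rfl | h0
    · exact pathRel_zero
    · have h1 : κ.ord ≤ α := by
        obtain ⟨β, rfl⟩ := hα
        refine le_mul_left _ (pos_iff_ne_zero.2 ?_)
        rintro rfl
        simp at h0
      have h2 : κ ≤ α.card := by
        have := Ordinal.card_le_card h1
        rwa [card_ord] at this
      have h3 : ℵ₀ ≤ α.card := hκ0.trans h2
      have h4 : (α.card).ord ≤ α := ord_card_le α
      have h5 : κ.ord ∣ (α.card).ord :=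
        ord_dvd_ord (lt_of_lt_of_le aleph0_pos hκ0) h3 h2
      have h6 : α.card.ord ≠ 0 := by
        rw [Ne, ord_eq_zero]
        exact (lt_of_lt_of_le aleph0_pos h3).ne'
      have h7 : α % α.card.ord < α := (mod_lt _ h6).trans_le h4
      have h8 : κ.ord ∣ α.card.ord * (α / α.card.ord) := h5.trans (dvd_mul_right _ _)
      have h9 : κ.ord ∣ α % α.card.ord := by
        rw [← dvd_add_iff h8, div_add_mod]
        exact hα
      have h12 : (α / α.card.ord).card ≤ α.card :=
        Ordinal.card_le_card (div_le_of_le_mul (le_mul_right _ (pos_iff_ne_zero.2 h6)))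
      have h10 : PathRel (α.card.ord * (α / α.card.ord)) := by
        rcases eq_or_lt_of_le h2 with h13 | h13
        · rw [← h13] at h12 ⊢
          exact pathRel_mul_reg hκ hTF h12
        · exact pathRel_mul_card hκ0 h13 hTF (by rw [mk_toType, card_ord]) h12
      have h11 := pathRel_add (zero_or_limit_of_dvd hκ0 h8) (zero_or_limit_of_dvd hκ0 h9) h10
        (ih _ h7 h9)
      rwa [div_add_mod] at h11

/-- The reduction to ordinals below `κ`. -/
theorem pathRel_mul_add_iff_reg (hκ : κ.IsRegular) (hTF : TailFreeC κ.ord.ToType)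
    (β γ : Ordinal.{u}) (hγ : γ = 0 ∨ IsSuccLimit γ) :
    PathRel (κ.ord * β + γ) ↔ PathRel γ := by
  constructor
  · exact pathRel_of_add
  · intro h
    have h1 : κ.ord ∣ κ.ord * β := dvd_mul_right _ _
    exact pathRel_add (zero_or_limit_of_dvd hκ.aleph0_le h1) hγ
      (pathRel_of_dvd_reg hκ hTF _ h1) h

end IPath
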