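import Mathlib

/-! A graph without infinite paths is contained in the comparability graph of a forest whose
branches are paths of the graph. -/

universe u

namespace IPath

variable {V : Type u} (G : SimpleGraph V)

/-- Adjacency outside the list `L`. -/
def rel (L : List V) (a b : V) : Prop := G.Adj a b ∧ a ∉ L ∧ b ∉ L

/-- The vertices which can be reached from `v` outside `L` and are adjacent to the head of `L`. -/
def cand (L : List V) (v : V) : Set V :=
  {u | Relation.ReflTransGen (rel G L) v u ∧ ∀ h ∈ L.head?, G.Adj h u}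

open Classical in
/-- A choice of an element of a set. -/
noncomputable def pick (S : Set V) (v : V) : V := if h : S.Nonempty then h.some else v

theorem pick_mem {S : Set V} (h : S.Nonempty) (v : V) : pick S v ∈ S := by
  rw [pick, dif_pos h]
  exact h.some_mem

theorem pick_congr {S T : Set V} (h : S.Nonempty) (hST : S = T) (v w : V) :
    pick S v = pick T w := by
  subst hST
  rw [pick, pick, dif_pos h, dif_pos h]

open Classical in
/-- The stages of the construction of the branch of `v`. -/
noncomputable def st (v : V) : ℕ → List V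
  | 0 => []
  | n + 1 => if v ∈ st v n then st v n else pick (cand G (st v n) v) v :: st v n

variable {G}

theorem reach_notMem {L : List V} {v u : V} (h : Relation.ReflTransGen (rel G L) v u)
    (hv : v ∉ L) : u ∉ L := by
  induction h with
  | refl => exact hv
  | tail _ h2 _ => exact h2.2.2

theorem reach_split {L : List V} {v a : V} (h : Relation.ReflTransGen (rel G L) v a)
    (hv : v ≠ a) : ∃ w, Relation.ReflTransGen (rel G (a :: L)) v w ∧ G.Adj w a := by
  induction h using Relation.ReflTransGen.head_induction_on with
  | refl => exact absurd rfl hv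
  | head h1 h2 ih =>
    rename_i v v'
    by_cases h3 : v' = a
    · subst h3
      exact ⟨v, Relation.ReflTransGen.refl, h1.1⟩
    · obtain ⟨w, hw1, hw2⟩ := ih h3
      refine ⟨w, Relation.ReflTransGen.head ⟨h1.1, ?_, ?_⟩ hw1, hw2⟩
      · simp [hv, h1.2.1]
      · simp [h3, h1.2.2]

theorem st_succ {v : V} {n : ℕ} (h : v ∉ st G v n) :
    st G v (n + 1) = pick (cand G (st G v n) v) v :: st G v n := by
  rw [st, if_neg h]

theorem st_succ_of_mem {v : V} {n : ℕ} (h : v ∈ st G v n) : st G v (n + 1) = st G v n := by
  rw [st, if_pos h]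

theorem st_suffix_succ (v : V) (n : ℕ) : st G v n <:+ st G v (n + 1) := by
  by_cases h : v ∈ st G v n
  · rw [st_succ_of_mem h]
  · rw [st_succ h]
    exact List.suffix_cons _ _

theorem st_suffix (v : V) {n m : ℕ} (h : n ≤ m) : st G v n <:+ st G v m := by
  induction m, h using Nat.le_induction with
  | base => exact List.suffix_refl _
  | succ m _ ih => exact ih.trans (st_suffix_succ v m)

theorem cand_nonempty (v : V) (n : ℕ) (h : v ∉ st G v n) : (cand G (st G v n) v).Nonempty := by
  induction n with
  | zero => exact ⟨v, Relation.ReflTransGen.refl, by simp [st]⟩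
  | succ n ih =>
    have h1 : v ∉ st G v n := fun h2 => h ((st_suffix_succ v n).subset h2)
    have h2 := pick_mem (ih h1) v
    rw [st_succ h1] at h ⊢
    set a := pick (cand G (st G v n) v) v
    have h3 : v ≠ a := fun h4 => h (by simp [h4])
    obtain ⟨w, hw1, hw2⟩ := reach_split h2.1 h3
    exact ⟨w, hw1, by simpa using hw2.symm⟩

theorem pick_mem_cand {v : V} {n : ℕ} (h : v ∉ st G v n) :
    pick (cand G (st G v n) v) v ∈ cand G (st G v n) v := pick_mem (cand_nonempty v n h) v

theorem st_spec (v : V) (n : ℕ) : (st G v n).IsChain G.Adj ∧ (st G v n).Nodup := by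
  induction n with
  | zero => simp [st]
  | succ n ih =>
    by_cases h : v ∈ st G v n
    · rwa [st_succ_of_mem h]
    · rw [st_succ h]
      have h1 := pick_mem_cand h
      constructor
      · rcases hL : st G v n with _ | ⟨b, L⟩
        · simp
        · rw [List.isChain_cons_cons]
          rw [hL] at h1 ih
          exact ⟨(h1.2 b (by simp)).symm, ih.1⟩
      · rw [List.nodup_cons]
        exact ⟨reach_notMem h1.1 h, ih.2⟩

/-- There is a path indexed by the natural numbers. -/
def HasRay (G : SimpleGraph V) : Prop :=
  ∃ x : ℕ → V, Function.Injective x ∧ ∀ n, G.Adj (x n) (x (n + 1))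

theorem exists_mem_st (hG : ¬ HasRay G) (v : V) : ∃ n, v ∈ st G v n := by
  by_contra hcon
  push Not at hcon
  apply hG
  refine ⟨fun n => pick (cand G (st G v n) v) v, ?_, ?_⟩
  · have key : ∀ n m, n < m → pick (cand G (st G v n) v) v ≠ pick (cand G (st G v m) v) v := by
      intro n m hnm heq
      have h1 : pick (cand G (st G v n) v) v ∈ st G v m := by
        apply (st_suffix v (Nat.succ_le_of_lt hnm)).subset
        rw [st_succ (hcon n)]
        simp
      rw [heq] at h1
      exact reach_notMem (pick_mem_cand (hcon m)).1 (hcon m) h1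
    intro n m hnm
    rcases lt_trichotomy n m with h | h | h
    · exact absurd hnm (key n m h)
    · exact h
    · exact absurd hnm.symm (key m n h)
  · intro n
    have h1 := (pick_mem_cand (hcon (n + 1))).2
    apply h1
    rw [st_succ (hcon n)]
    simp

theorem cand_congr {L : List V} {u v : V} (h : G.Adj u v) (hu : u ∉ L) (hv : v ∉ L) :
    cand G L u = cand G L v := by
  ext w
  constructor
  · rintro ⟨h1, h2⟩
    exact ⟨Relation.ReflTransGen.head ⟨h.symm, hv, hu⟩ h1, h2⟩
  · rintro ⟨h1, h2⟩
    exact ⟨Relation.ReflTransGen.head ⟨h, hu, hv⟩ h1, h2⟩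

theorem st_eq_of_adj {u v : V} (h : G.Adj u v) (n : ℕ) (hu : u ∉ st G u n) (hv : v ∉ st G v n) :
    st G u n = st G v n ∧ st G u (n + 1) = st G v (n + 1) := by
  induction n with
  | zero =>
    refine ⟨rfl, ?_⟩
    rw [st_succ hu, st_succ hv]
    congr 1
    exact pick_congr (cand_nonempty u 0 hu) (cand_congr h hu hv) _ _
  | succ n ih =>
    have hu' : u ∉ st G u n := fun h2 => hu ((st_suffix_succ u n).subset h2)
    have hv' : v ∉ st G v n := fun h2 => hv ((st_suffix_succ v n).subset h2)
    obtain ⟨-, h1⟩ := ih hu' hv'
    refine ⟨h1, ?_⟩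
    rw [st_succ hu, st_succ hv, h1]
    rw [h1] at hu
    congr 1
    refine pick_congr ?_ (cand_congr h hu hv) _ _
    rw [← h1]
    exact cand_nonempty u (n + 1) (by rwa [h1])

/-- The forest. -/
theorem exists_tree (hG : ¬ HasRay G) : ∃ P : V → List V, Function.Injective P ∧
    (∀ v, (P v).IsChain G.Adj ∧ (P v).Nodup) ∧
    ∀ u v, G.Adj u v → P u <:+ P v ∨ P v <:+ P u := by
  classical
  have hex := exists_mem_st hG
  have hfind : ∀ v, Nat.find (hex v) ≠ 0 := by
    intro v h0
    have := Nat.find_spec (hex v)
    rw [h0] at this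
    simp [st] at this
  have hpred : ∀ v, ∃ m, Nat.find (hex v) = m + 1 ∧ v ∉ st G v m := by
    intro v
    obtain ⟨m, hm⟩ := Nat.exists_eq_succ_of_ne_zero (hfind v)
    exact ⟨m, hm, Nat.find_min (hex v) (by omega)⟩
  refine ⟨fun v => st G v (Nat.find (hex v)), ?_, fun v => st_spec v _, ?_⟩
  · have hhead : ∀ v, (st G v (Nat.find (hex v))).head? = some v := by
      intro v
      obtain ⟨m, hm, hvm⟩ := hpred v
      have h1 := Nat.find_spec (hex v)
      rw [hm, st_succ hvm] at h1 ⊢
      rcases List.mem_cons.1 h1 with h2 | h2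
      · simp [← h2]
      · exact absurd h2 hvm
    intro u v huv
    have : (st G u (Nat.find (hex u))).head? = (st G v (Nat.find (hex v))).head? := by
      simp only at huv
      rw [huv]
    rw [hhead, hhead] at this
    exact Option.some.inj this
  · have key : ∀ u v, G.Adj u v → Nat.find (hex u) ≤ Nat.find (hex v) →
        st G u (Nat.find (hex u)) <:+ st G v (Nat.find (hex v)) := by
      intro u v h hle
      obtain ⟨m, hm, hum⟩ := hpred u
      have hvm : v ∉ st G v m := Nat.find_min (hex v) (by omega)
      have h1 := (st_eq_of_adj h m hum hvm).2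
      rw [hm, h1]
      exact st_suffix v (by omega)
    intro u v h
    rcases le_total (Nat.find (hex u)) (Nat.find (hex v)) with h1 | h1
    · exact Or.inl (key u v h h1)
    · exact Or.inr (key v u h.symm h1)

end IPath
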