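import Pool.Agent.Work.MP_820435_lc.SetMap
import Pool.Agent.Work.MP_820435_lc.Tree

/-! From set mappings to ordinal graphs. -/

open Ordinal Cardinal Set Order

universe u

namespace IPath

/-- Choosing distinct elements from at most `κ` sets of size at least `κ`. -/
theorem exists_injective_choice {T W : Type u} {κ : Cardinal.{u}} (hT : #T ≤ κ)
    (N : T → Set W) (hN : ∀ t, κ ≤ #(N t)) :
    ∃ g : T → W, Function.Injective g ∧ ∀ t, g t ∈ N t := by
  obtain ⟨_, _, hord⟩ := exists_ord_eq_type_lt T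
  rcases isEmpty_or_nonempty T with hE | ⟨⟨t0⟩⟩
  · exact ⟨fun t => hE.elim t, fun t => hE.elim t, fun t => hE.elim t⟩
  rcases isEmpty_or_nonempty W with hW | hW
  · exfalso
    have h1 := hN t0
    have h2 : #(N t0) = 0 := by
      rw [mk_eq_zero_iff]
      exact ⟨fun w => hW.elim w.1⟩
    have h3 : #T ≤ 0 := hT.trans (h2 ▸ h1)
    rw [nonpos_iff_eq_zero, mk_eq_zero_iff] at h3
    exact h3.elim t0
  set F : ∀ t : T, (∀ s, s < t → W) → W := fun t ih =>
    Classical.epsilon (fun w => w ∈ N t ∧ ∀ s (h : s < t), ih s h ≠ w) with hF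
  set g : T → W := (wellFounded_lt (α := T)).fix F with hg
  have hfix : ∀ t, g t = Classical.epsilon (fun w => w ∈ N t ∧ ∀ s, s < t → g s ≠ w) := by
    intro t
    rw [hg, WellFounded.fix_eq]
  have hspec : ∀ t, g t ∈ N t ∧ ∀ s, s < t → g s ≠ g t := by
    intro t
    have hex : ∃ w, w ∈ N t ∧ ∀ s, s < t → g s ≠ w := by
      by_contra hcon
      push Not at hcon
      have h1 : N t ⊆ g '' (Set.Iio t) := by
        intro w hw
        obtain ⟨s, hs, hsw⟩ := hcon w hw
        exact ⟨s, hs, hsw⟩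
      have h2 := (hN t).trans ((mk_le_mk_of_subset h1).trans mk_image_le)
      have h3 := mk_Iio_lt t hord
      exact absurd (h2.trans_lt h3) (not_lt.2 hT)
    have := Classical.epsilon_spec hex
    rw [← hfix t] at this
    exact this
  refine ⟨g, ?_, fun t => (hspec t).1⟩
  intro s t hst
  rcases lt_trichotomy s t with h | h | h
  · exact absurd hst ((hspec t).2 s h)
  · exact h
  · exact absurd hst.symm ((hspec s).2 t h)

section
variable {X : Type u} {G : SimpleGraph X} (P : X → List X)

/-- The points whose branch extends `L`. -/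
def cone (L : List X) : Set X := {v | L <:+ P v}

theorem suffix_cases {α : Type u} {L M : List α} (h : L <:+ M) :
    M = L ∨ ∃ a, (a :: L) <:+ M := by
  obtain ⟨t, rfl⟩ := h
  rcases List.eq_nil_or_concat t with rfl | ⟨t', a, rfl⟩
  · exact Or.inl rfl
  · refine Or.inr ⟨a, t', ?_⟩
    simp

/-- A stopping node. -/
theorem exists_stop {κ : Cardinal.{u}} (hκ : κ ≠ 0) (hG : ¬ HasRay G)
    (hP : ∀ v, (P v).IsChain G.Adj ∧ (P v).Nodup) (U : Set X) (hU : κ ≤ #U) :
    ∃ L, κ ≤ #(U ∩ cone P L : Set X) ∧ ∀ a, #(U ∩ cone P (a :: L) : Set X) < κ := by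
  by_contra hcon
  push Not at hcon
  rcases isEmpty_or_nonempty X with hE | hE
  · have h1 : #U = 0 := by
      rw [mk_eq_zero_iff]
      exact ⟨fun w => hE.elim w.1⟩
    rw [h1, nonpos_iff_eq_zero] at hU
    exact hκ hU
  choose! a ha using hcon
  let Ls : ℕ → List X := fun n => Nat.rec [] (fun _ L => a L :: L) n
  have hLs0 : Ls 0 = [] := rfl
  have hLs : ∀ n, Ls (n + 1) = a (Ls n) :: Ls n := fun n => rfl
  have hcard : ∀ n, κ ≤ #(U ∩ cone P (Ls n) : Set X) := by
    intro n
    induction n with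
    | zero =>
      have : U ∩ cone P (Ls 0) = U := by
        ext v
        simp [hLs0, cone]
      rw [this]
      exact hU
    | succ n ih => exact ha _ ih
  have hne : ∀ n, ∃ v, Ls n <:+ P v := by
    intro n
    have h1 : (U ∩ cone P (Ls n)).Nonempty := by
      rw [nonempty_iff_ne_empty]
      intro h2
      have := hcard n
      rw [h2, mk_eq_zero, nonpos_iff_eq_zero] at this
      exact hκ this
    obtain ⟨v, -, hv⟩ := h1
    exact ⟨v, hv⟩
  have hmono : ∀ n m, n ≤ m → Ls n <:+ Ls m := by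
    intro n m h
    induction m, h using Nat.le_induction with
    | base => exact List.suffix_refl _
    | succ m _ ih => exact ih.trans (List.suffix_cons _ _)
  apply hG
  refine ⟨fun n => a (Ls n), ?_, ?_⟩
  · have key : ∀ n m, n < m → a (Ls n) ≠ a (Ls m) := by
      intro n m hnm heq
      obtain ⟨v, hv⟩ := hne (m + 1)
      have h1 := (hP v).2.sublist hv.sublist
      rw [hLs, List.nodup_cons] at h1
      apply h1.1
      rw [← heq]
      apply (hmono (n + 1) m hnm).subset
      rw [hLs]
      simp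
    intro n m hnm
    rcases lt_trichotomy n m with h | h | h
    · exact absurd hnm (key n m h)
    · exact h
    · exact absurd hnm.symm (key m n h)
  · intro n
    obtain ⟨v, hv⟩ := hne (n + 2)
    have h1 := (hP v).1.suffix hv
    rw [hLs (n + 1), hLs n, List.isChain_cons_cons] at h1
    exact h1.1.symm

/-- A stopping node has many children. -/
theorem card_children {κ : Cardinal.{u}} (hκ : κ.IsRegular) (hP : Function.Injective P)
    (U : Set X) (L : List X) (hL : κ ≤ #(U ∩ cone P L : Set X))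
    (hL' : ∀ a, #(U ∩ cone P (a :: L) : Set X) < κ) :
    κ ≤ #{L' : List X | (∃ a, L' = a :: L) ∧ (U ∩ cone P L').Nonempty} := by
  by_contra hcon
  rw [not_le] at hcon
  set N := {L' : List X | (∃ a, L' = a :: L) ∧ (U ∩ cone P L').Nonempty} with hN
  have hsub : U ∩ cone P L ⊆ {v | P v = L} ∪ ⋃ L' : N, (U ∩ cone P L'.1) := by
    rintro v ⟨hv1, hv2⟩
    rcases suffix_cases hv2 with h | ⟨a, h⟩
    · exact Or.inl h
    · refine Or.inr (mem_iUnion.2 ⟨⟨a :: L, ⟨a, rfl⟩, ⟨v, hv1, h⟩⟩, hv1, h⟩)
  have h1 : #({v | P v = L} : Set X) < κ := by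
    refine lt_of_le_of_lt ?_ (by simpa using hκ.nat_lt 1)
    rw [mk_le_one_iff_set_subsingleton]
    intro v hv w hw
    exact hP (hv.trans hw.symm)
  have h2 : #(⋃ L' : N, (U ∩ cone P L'.1) : Set X) < κ := by
    rw [card_iUnion_lt_iff_forall_of_isRegular hκ hcon]
    rintro ⟨L', ⟨a, rfl⟩, -⟩
    exact hL' a
  have h3 := (mk_le_mk_of_subset hsub).trans_lt
    ((mk_union_le _ _).trans_lt (add_lt_of_lt hκ.aleph0_le h1 h2))
  exact absurd h3 (not_lt.2 hL)

end


/-- The main step, on a lexicographic product. -/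
theorem graph_of_good {κ : Cardinal.{u}} (hκ : κ.IsRegular) {B K : Type u} [LinearOrder B]
    [WellFoundedLT B] [LinearOrder K] [WellFoundedLT K] (hK : otp K = κ.ord) (hB : #B ≤ κ)
    (hgood : GoodLT K κ (otp B)) (G : SimpleGraph (B ×ₗ K)) (hG : ¬ HasRay G) :
    ∃ S : Set (B ×ₗ K), otp S = κ.ord * otp B ∧ ∀ x ∈ S, ∀ y ∈ S, ¬ G.Adj x y := by
  classical
  obtain ⟨P, hP1, hP2, hP3⟩ := exists_tree hG
  have hKc : #K = κ := by
    have := congrArg Ordinal.card hK
    rwa [card_type, card_ord] at this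
  -- the slices
  set U : B → Set (B ×ₗ K) := fun y => {v | (ofLex v).1 = y} with hU
  have hUc : ∀ y, κ ≤ #(U y) := by
    intro y
    rw [← hKc]
    refine mk_le_of_injective (f := fun k : K => (⟨toLex (y, k), rfl⟩ : U y)) ?_
    intro k k' h
    have := congrArg (fun v : U y => (ofLex v.1).2) h
    exact this
  choose L hL1 hL2 using fun y => exists_stop P hκ.pos.ne' hG hP2 (U y) (hUc y)
  have hN := fun y => card_children P hκ hP1 (U y) (L y) (hL1 y) (hL2 y)
  -- disjoint sets of nodes
  have hT : #(K × B × K) ≤ κ := by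
    rw [mk_prod, mk_prod]
    simp only [Cardinal.lift_id]
    rw [hKc]
    exact (mul_le_mul' le_rfl (mul_le_mul' hB le_rfl)).trans
      (by rw [mul_eq_self hκ.aleph0_le, mul_eq_self hκ.aleph0_le])
  obtain ⟨g, hg1, hg2⟩ := exists_injective_choice hT
    (fun t => {L' : List (B ×ₗ K) | (∃ a, L' = a :: L t.2.1) ∧ (U t.2.1 ∩ cone P L').Nonempty})
    (fun t => hN t.2.1)
  -- the set mapping
  have hfin : ∀ y, ({t : K × B × K | g t <:+ L y}).Finite := by
    intro y
    have h1 : ({L' : List (B ×ₗ K) | L' <:+ L y}).Finite := by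
      refine (List.finite_toSet (L y).tails).subset ?_
      intro L' hL'
      exact (List.mem_tails L' (L y)).2 hL'
    exact Set.Finite.preimage (f := g) hg1.injOn h1
  set b : B → Finset K := fun y => ((hfin y).toFinset).image Prod.fst with hb
  have hmemb : ∀ y j y' i, g (j, y', i) <:+ L y → j ∈ b y := by
    intro y j y' i h
    simp only [hb, Finset.mem_image, Set.Finite.mem_toFinset, mem_ofPred_eq]
    exact ⟨(j, y', i), h, rfl⟩
  obtain ⟨j, hj⟩ : ∃ j, j ∉ badSet b := by
    by_contra hcon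
    push Not at hcon
    have h1 : badSet b = Set.univ := eq_univ_of_forall hcon
    have h2 := hgood B rfl b
    rw [h1, mk_univ, hKc] at h2
    exact h2.false
  simp only [badSet, mem_ofPred_eq, not_lt] at hj
  -- the independent set
  choose p hp1 hp2 using fun t => (hg2 t).2
  set B' : Set B := {y | j ∉ b y} with hB'
  set S : Set (B ×ₗ K) := {v | ∃ y ∈ B', ∃ i, v = p (j, y, i)} with hS
  refine ⟨S, le_antisymm ?_ ?_, ?_⟩
  · refine (otp_set_le S).trans ?_
    rw [otp_prodLex, hK]
  · refine le_trans ?_ (mul_le_otp_of_fib S B' κ.ord ?_)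
    · gcongr
    · intro y hy
      apply ord_le_otp_of_card
      rw [← hKc]
      have hpy : ∀ i, toLex (y, (ofLex (p (j, y, i))).2) = p (j, y, i) := by
        intro i
        have h1 : (ofLex (p (j, y, i))).1 = y := hp1 (j, y, i)
        apply ofLex.injective
        exact Prod.ext h1.symm rfl
      refine mk_le_of_injective (f := fun i : K =>
        (⟨(ofLex (p (j, y, i))).2, ⟨y, hy, i, hpy i⟩⟩ : fib S y)) ?_
      intro i i' h
      have h1 : (ofLex (p (j, y, i))).2 = (ofLex (p (j, y, i'))).2 := congrArg Subtype.val h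
      have h2 : p (j, y, i) = p (j, y, i') := by rw [← hpy i, ← hpy i', h1]
      have h3 : g (j, y, i) <:+ P (p (j, y, i)) := hp2 (j, y, i)
      have h4 : g (j, y, i') <:+ P (p (j, y, i)) := by rw [h2]; exact hp2 (j, y, i')
      obtain ⟨a, ha⟩ := (hg2 (j, y, i)).1
      obtain ⟨a', ha'⟩ := (hg2 (j, y, i')).1
      have h5 : g (j, y, i) = g (j, y, i') := by
        have hlen : (g (j, y, i)).length = (g (j, y, i')).length := by rw [ha, ha']; simp
        rcases List.suffix_or_suffix_of_suffix h3 h4 with h | h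
        · exact h.eq_of_length hlen
        · exact (h.eq_of_length hlen.symm).symm
      have h6 := hg1 h5
      simpa using h6
  · have key : ∀ y ∈ B', ∀ i, ∀ y' ∈ B', ∀ i', G.Adj (p (j, y, i)) (p (j, y', i')) →
        ¬ P (p (j, y, i)) <:+ P (p (j, y', i')) := by
      intro y hy i y' hy' i' hadj hsuf
      have h1 : g (j, y, i) <:+ P (p (j, y', i')) := (hp2 (j, y, i)).trans hsuf
      have h2 : g (j, y', i') <:+ P (p (j, y', i')) := hp2 (j, y', i')
      have hne : g (j, y, i) ≠ g (j, y', i') := by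
        intro h
        rw [hg1 h] at hadj
        exact G.loopless.irrefl _ hadj
      obtain ⟨a, ha⟩ := (hg2 (j, y, i)).1
      obtain ⟨a', ha'⟩ := (hg2 (j, y', i')).1
      rcases List.suffix_or_suffix_of_suffix h1 h2 with h | h
      · rw [ha'] at h hne
        rcases List.suffix_cons_iff.1 h with h3 | h3
        · exact hne h3
        · exact hy' (hmemb _ _ _ _ h3)
      · rw [ha] at h hne
        rcases List.suffix_cons_iff.1 h with h3 | h3
        · exact hne h3.symm
        · exact hy (hmemb _ _ _ _ h3)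
    rintro x ⟨y, hy, i, rfl⟩ x' ⟨y', hy', i', rfl⟩ hadj
    rcases hP3 _ _ hadj with h | h
    · exact key y hy i y' hy' i' hadj h
    · exact key y' hy' i' y hy i hadj.symm h

/-- The ordinal version. -/
theorem pathRel_of_good {κ : Cardinal.{u}} (hκ : κ.IsRegular) {β : Ordinal.{u}} (hβ : β.card ≤ κ)
    (hgood : ∀ Λ : Type u, GoodLT Λ κ β) (X : Type u) [LinearOrder X] [WellFoundedLT X]
    (hX : otp X = κ.ord * β) (G : SimpleGraph X) :
    (∃ S : Set X, otp S = κ.ord * β ∧ ∀ x ∈ S, ∀ y ∈ S, ¬ G.Adj x y) ∨ HasRay G := by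
  by_cases hG : HasRay G
  · exact Or.inr hG
  · refine Or.inl ?_
    have h1 : otp (β.ToType ×ₗ κ.ord.ToType) = otp X := by
      rw [otp_prodLex, otp_toType, otp_toType, hX]
    obtain ⟨e⟩ := exists_orderIso_of_otp_eq h1
    have hG' : ¬ HasRay (G.comap e) := by
      rintro ⟨x, hx1, hx2⟩
      exact hG ⟨fun n => e (x n), e.injective.comp hx1, hx2⟩
    obtain ⟨S, hS1, hS2⟩ := graph_of_good hκ (B := β.ToType) (K := κ.ord.ToType)
      (otp_toType _) (by simpa using hβ) (by rw [otp_toType]; exact hgood _) (G.comap e) hG'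
    refine ⟨e '' S, ?_, ?_⟩
    · rw [otp_image e e.strictMono, hS1, otp_toType]
    · rintro _ ⟨x, hx, rfl⟩ _ ⟨y, hy, rfl⟩ h
      exact hS2 x hx y hy h

end IPath
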