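import Pool.Agent.Work.MP_820435_lc.Graph

/-!
# Injective choice from sets of different sizes (helper9)
-/

open Ordinal Cardinal Set Order

universe u

namespace IPath

theorem inj_choice_of_order {T W : Type u} [LinearOrder T] [WellFoundedLT T] (N : T → Set W)
    (hN : ∀ t, #(Iio t) < #(N t)) : ∃ g : T → W, Function.Injective g ∧ ∀ t, g t ∈ N t := by
  rcases isEmpty_or_nonempty T with hE | ⟨⟨t0⟩⟩
  · exact ⟨fun t => hE.elim t, fun t => hE.elim t, fun t => hE.elim t⟩
  have hWne : Nonempty W := by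
    by_contra hW
    rw [not_nonempty_iff] at hW
    have h1 := hN t0
    have h2 : #(N t0) = 0 := by
      rw [mk_eq_zero_iff]
      exact ⟨fun w => hW.elim w.1⟩
    rw [h2] at h1
    exact absurd h1 (by simp)
  set F : ∀ t : T, (∀ s, s < t → W) → W := fun t ih =>
    Classical.epsilon (fun w => w ∈ N t ∧ ∀ s (h : s < t), ih s h ≠ w) with hF
  set g : T → W := (wellFounded_lt (α := T)).fix F with hg
  have hfix : ∀ t, g t = Classical.epsilon (fun w => w ∈ N t ∧ ∀ s, s < t → g s ≠ w) := by
    intro t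
    rw [hg, WellFounded.fix_eq]
  have hspec : ∀ t, g t ∈ N t ∧ ∀ s, s < t → g s ≠ g t := by
    intro t
    have hex : ∃ w, w ∈ N t ∧ ∀ s, s < t → g s ≠ w := by
      by_contra hcon
      push Not at hcon
      have h1 : N t ⊆ g '' (Set.Iio t) := by
        intro w hw
        obtain ⟨s, hs, hsw⟩ := hcon w hw
        exact ⟨s, hs, hsw⟩
      have h2 := (mk_le_mk_of_subset h1).trans mk_image_le
      exact absurd (hN t) (not_lt.2 h2)
    have := Classical.epsilon_spec hex
    rw [← hfix t] at this
    exact this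
  refine ⟨g, ?_, fun t => (hspec t).1⟩
  intro s t hst
  rcases lt_trichotomy s t with h | h | h
  · exact absurd hst ((hspec t).2 s h)
  · exact h
  · exact absurd hst.symm ((hspec s).2 t h)

/-- Choosing distinct elements from sets of different sizes. -/
theorem inj_choice_size {T W : Type u} (size : T → Cardinal.{u})
    (h1 : ∀ t, #{s | size s < size t} < size t) (h2 : ∀ t, #{s | size s = size t} ≤ size t)
    (h3 : ∀ t, ℵ₀ ≤ size t) (N : T → Set W) (hN : ∀ t, size t ≤ #(N t)) :
    ∃ g : T → W, Function.Injective g ∧ ∀ t, g t ∈ N t := by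
  classical
  have he : ∀ c : Cardinal.{u}, ∃ f : {s // size s = c} → Ordinal.{u}, Function.Injective f ∧
      ∀ t, #{s | f s < f t} < c := by
    intro c
    rcases isEmpty_or_nonempty {s // size s = c} with hE | ⟨⟨t, rfl⟩⟩
    · exact ⟨fun s => hE.elim s, fun s => hE.elim s, fun s => hE.elim s⟩
    · have h4 : #{s // size s = size t} ≤ #(size t).ord.ToType := by
        rw [mk_ord_toType']
        exact h2 t
      obtain ⟨e⟩ := h4
      refine ⟨fun s => (ToType.mk.symm (e s)).1, ?_, ?_⟩
      · intro s s' hs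
        exact e.injective (ToType.mk.symm.injective (Subtype.ext hs))
      · intro t'
        refine lt_of_le_of_lt ?_ ((mk_Iio_lt (e t') (by simp)).trans_eq (mk_ord_toType' _))
        refine mk_le_of_injective (f := fun s => (⟨e s.1, ?_⟩ : Iio (e t'))) ?_
        · have h5 : (ToType.mk.symm (e s.1)) < (ToType.mk.symm (e t')) := s.2
          exact (ToType.mk.symm.lt_iff_lt).1 h5
        · intro s s' hs
          exact Subtype.ext (e.injective (congrArg Subtype.val hs))
  choose f hf1 hf2 using he
  have hpos : Function.Injective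
      (fun t => (toLex (size t, f (size t) ⟨t, rfl⟩) : Cardinal.{u} ×ₗ Ordinal.{u})) := by
    intro s t hst
    have h5 : (size s, f (size s) ⟨s, rfl⟩) = (size t, f (size t) ⟨t, rfl⟩) := toLex.injective hst
    rw [Prod.mk.injEq] at h5
    obtain ⟨h6, h7⟩ := h5
    have key : ∀ (c : Cardinal.{u}) (hs : size s = c) (ht : size t = c),
        f c ⟨s, hs⟩ = f c ⟨t, ht⟩ → s = t := by
      intro c hs ht h
      exact congrArg Subtype.val (hf1 c h)
    have key2 : ∀ (c : Cardinal.{u}) (hs : size s = c), f (size s) ⟨s, rfl⟩ = f c ⟨s, hs⟩ := by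
      rintro _ rfl
      rfl
    refine key (size t) h6 rfl ?_
    rw [← key2 (size t) h6]
    exact h7
  let _ : LinearOrder T := LinearOrder.lift' _ hpos
  have hlt : ∀ s t : T, s < t ↔ (toLex (size s, f (size s) ⟨s, rfl⟩) : Cardinal.{u} ×ₗ Ordinal.{u})
      < toLex (size t, f (size t) ⟨t, rfl⟩) := fun s t => Iff.rfl
  have _ : WellFoundedLT T := ⟨InvImage.wf
    (fun t => (toLex (size t, f (size t) ⟨t, rfl⟩) : Cardinal.{u} ×ₗ Ordinal.{u}))
    wellFounded_lt⟩
  refine inj_choice_of_order N ?_
  intro t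
  refine lt_of_lt_of_le ?_ (hN t)
  have hsub : Iio t ⊆ {s | size s < size t} ∪
      Subtype.val '' {s : {s // size s = size t} | f (size t) s < f (size t) ⟨t, rfl⟩} := by
    intro s hs
    rw [mem_Iio, hlt, Prod.Lex.lt_iff] at hs
    rcases hs with h | ⟨h, h'⟩
    · exact Or.inl h
    · refine Or.inr ⟨⟨s, h⟩, ?_, rfl⟩
      have key2 : ∀ (c : Cardinal.{u}) (hs : size s = c), f (size s) ⟨s, rfl⟩ = f c ⟨s, hs⟩ := by
        rintro _ rfl
        rfl
      rw [mem_ofPred_eq, ← key2 (size t) h]
      exact h'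
  refine (mk_le_mk_of_subset hsub).trans_lt ((mk_union_le _ _).trans_lt ?_)
  refine add_lt_of_lt (h3 t) (h1 t) (lt_of_le_of_lt mk_image_le (hf2 (size t) ⟨t, rfl⟩))

/-- A set of elements with small initial segments is small. -/
theorem mk_le_of_Iio {K : Type u} [LinearOrder K] [WellFoundedLT K] (S : Set K)
    (c : Cardinal.{u}) (h : ∀ m ∈ S, #(Iio m) < c) : #S ≤ c := by
  have h1 : otp S ≤ c.ord := by
    refine le_of_forall_lt ?_
    intro a ha
    obtain ⟨s, hs⟩ := typein_surj (α := S) (· < ·) ha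
    rw [lt_ord, ← hs, card_typein]
    refine lt_of_le_of_lt ?_ (h s.1 s.2)
    refine mk_le_of_injective (f := fun x => (⟨x.1.1, x.2⟩ : Iio s.1)) ?_
    intro x y hxy
    have h2 : x.1.1 = y.1.1 := congrArg (fun z : Iio s.1 => (z : K)) hxy
    exact Subtype.ext (Subtype.ext h2)
  have h2 := Ordinal.card_le_card h1
  rwa [card_type, card_ord] at h2

/-- An initial segment defined by a size condition is large. -/
theorem lt_mk_Iio_le {K : Type u} [LinearOrder K] [WellFoundedLT K] (c : Cardinal.{u})
    (hc : c < #K) : c < #{m : K | #(Iio m) ≤ c} := by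
  by_cases h : ∃ m : K, c < #(Iio m)
  · obtain ⟨m, hm, hmin⟩ := WellFounded.has_min (wellFounded_lt (α := K)) {m : K | c < #(Iio m)} h
    refine lt_of_lt_of_le hm (mk_le_mk_of_subset ?_)
    intro x hx
    rw [mem_ofPred_eq]
    by_contra hcon
    exact hmin x (not_le.1 hcon) hx
  · push Not at h
    have : {m : K | #(Iio m) ≤ c} = Set.univ := eq_univ_of_forall h
    rw [this, mk_univ]
    exact hc

end IPath
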