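import Pool.Agent.Work.MP_820435_lc.Fusion
import Pool.Agent.Work.MP_820435_lc.InjChoice

/-!
# Additively indecomposable ordinals whose cardinality has countable cofinality
-/

open Ordinal Cardinal Set Order

universe u

namespace IPath

theorem exists_idx {Λ : Type u} [Nonempty Λ] (τ : Ordinal.{u}) (h : τ.card ≤ #Λ) :
    ∃ idx : Ordinal.{u} → Λ, Set.InjOn idx (Iio τ) := by
  classical
  rw [← mk_toType] at h
  obtain ⟨e⟩ := h
  refine ⟨fun σ => if hσ : σ < τ then e (ToType.mk ⟨σ, hσ⟩) else Classical.arbitrary Λ, ?_⟩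
  intro σ hσ ρ hρ hh
  rw [mem_Iio] at hσ hρ
  simp only [dif_pos hσ, dif_pos hρ] at hh
  have h1 := ToType.mk.injective (e.injective hh)
  exact congrArg Subtype.val h1

theorem pathRel_of_cof_aleph0 {lam : Cardinal.{u}} (hcof : lam.ord.cof = ℵ₀) {τ : Ordinal.{u}}
    (hτ : (ω ^ τ : Ordinal.{u}).card = lam) : PathRel (ω ^ τ) := by
  classical
  have hlam : ℵ₀ ≤ lam := by
    rw [← hcof]
    exact cof_ord_le lam
  have hne : Nonempty lam.ord.ToType := by
    rw [← mk_ne_zero_iff, mk_ord_toType']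
    exact (aleph0_pos.trans_le hlam).ne'
  obtain ⟨s, hs1, hs2⟩ := exists_cof_eq (α := lam.ord.ToType)
  rw [cof_toType, hcof] at hs2
  have hs3 : Nonempty (ℕ ≃ s) := by
    obtain ⟨hs2⟩ := Cardinal.denumerable_iff.2 hs2
    exact ⟨(Denumerable.eqv s).symm⟩
  obtain ⟨f⟩ := hs3
  set g : ℕ →o lam.ord.ToType := partialSups (fun n => (f n).1) with hg
  have hgc : ∀ i, ∃ n, i ≤ g n := by
    intro i
    obtain ⟨j, hj, hij⟩ := hs1 i
    refine ⟨f.symm ⟨j, hj⟩, hij.trans ?_⟩
    have h1 := le_partialSups (fun n => (f n).1) (f.symm ⟨j, hj⟩)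
    simpa using h1
  have hDc : ∀ n, #(Iic (g n)) < lam := by
    intro n
    have h1 : Iic (g n) = Iio (g n) ∪ {g n} := by
      ext x
      simp [le_iff_lt_or_eq]
    rw [h1]
    refine card_union_lt hlam ?_ ?_
    · exact (mk_Iio_lt (g n) (by simp)).trans_eq (mk_ord_toType' lam)
    · rw [mk_singleton]
      exact lt_of_lt_of_le one_lt_aleph0 hlam
  obtain ⟨idx, hidx⟩ := exists_idx (Λ := lam.ord.ToType) τ (by
    rw [mk_ord_toType', ← hτ]
    exact Ordinal.card_le_card (right_le_opow τ one_lt_omega0))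
  refine pathRel_of_model (ω ^ τ : Ordinal.{u}).ToType (otp_toType _) ?_
  intro G hG
  obtain ⟨P, hP1, hP2, hP3⟩ := exists_tree hG
  set κ : ℕ → Cardinal.{u} := fun n => if lam = ℵ₀ then ℵ₀ else succ (max ℵ₀ #(Iic (g n)))
    with hκ
  have h1 : ∀ n, (κ n).IsRegular := by
    intro n
    simp only [hκ]
    split_ifs with h
    · exact isRegular_aleph0
    · exact isRegular_succ (le_max_left _ _)
  have h2 : Monotone κ := by
    intro n m hnm
    simp only [hκ]
    split_ifs with h
    · exact le_rfl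
    · exact succ_le_succ (max_le_max le_rfl (mk_le_mk_of_subset (Iic_subset_Iic.2 (g.2 hnm))))
  have h3 : ∀ n, κ n ≤ lam := by
    intro n
    simp only [hκ]
    split_ifs with h
    · exact h.ge
    · exact succ_le_of_lt (max_lt (lt_of_le_of_ne hlam (Ne.symm h)) (hDc n))
  have h4 : ∀ n, #(Iic (g n)) < κ n := by
    intro n
    simp only [hκ]
    split_ifs with h
    · exact (hDc n).trans_eq h
    · exact lt_succ_of_le (le_max_right _ _)
  have h5 : Monotone (fun n => Iic (g n)) := fun n m hnm => Iic_subset_Iic.2 (g.2 hnm)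
  have h6 : ∀ c : Cardinal.{u}, (∀ n, #(Iic (g n)) ≤ c) → lam ≤ c := by
    intro c hc
    by_contra hcon
    rw [not_le] at hcon
    have h1 : #(Set.univ : Set lam.ord.ToType) ≤ succ c := by
      apply mk_le_of_Iio
      intro i _
      obtain ⟨n, hn⟩ := hgc i
      refine lt_succ_of_le ((mk_le_mk_of_subset ?_).trans (hc n))
      exact Iio_subset_Iic_self.trans (Iic_subset_Iic.2 hn)
    rw [mk_univ, mk_ord_toType'] at h1
    rcases lt_or_ge c ℵ₀ with h2 | h2
    · have h3 := isSuccLimit_aleph0.succ_lt h2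
      exact absurd (hlam.trans h1) (not_le.2 h3)
    · have h3 : lam = succ c := le_antisymm h1 (succ_le_of_lt hcon)
      have h4 := (isRegular_succ h2).cof_ord
      rw [← h3, hcof] at h4
      rw [← h4] at hcon
      exact absurd h2 (not_le.2 hcon)
  obtain ⟨S, hS1, hS2⟩ := fusion_aux hlam (Λ := lam.ord.ToType) κ h1 h2 h3
    (fun n => Iic (g n)) h4 h5 hgc h6 (τ := τ) (by rw [← hτ]; exact ord_card_le _) idx hidx
    hG hP1 hP2 (otp_toType _)
  refine ⟨S, hS1, ?_⟩
  intro x hx y hy hadj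
  rcases hP3 _ _ hadj with h | h
  · exact G.loopless.irrefl x (by rw [← hS2 x hx y hy h] at hadj; exact hadj)
  · exact G.loopless.irrefl x (by rw [hS2 y hy x hx h] at hadj; exact hadj)

end IPath
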