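import Pool.Agent.Work.MP_820435_lc.Sg3

/-!
# Additively indecomposable ordinals of singular cardinality
-/

open Ordinal Cardinal Set Order

universe u

namespace IPath

theorem pathRel_of_singular {lam : Cardinal.{u}} (hlam : ℵ₀ ≤ lam) (hsing : lam.ord.cof < lam)
    (hpow : ∀ ρ < lam, ρ ^ lam.ord.cof < lam) {τ : Ordinal.{u}}
    (hτ : (ω ^ τ : Ordinal.{u}).card = lam) : PathRel (ω ^ τ) := by
  classical
  have hlim : IsSuccLimit lam.ord := isSuccLimit_ord hlam
  have hne : Nonempty lam.ord.ToType := by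
    rw [← mk_ne_zero_iff, mk_ord_toType']
    exact (aleph0_pos.trans_le hlam).ne'
  obtain ⟨s, hs1, hs2⟩ := exists_cof_eq (α := lam.ord.ToType)
  rw [cof_toType] at hs2
  have hsne : Nonempty s := by
    obtain ⟨j, hj, -⟩ := hs1 hne.some
    exact ⟨⟨j, hj⟩⟩
  have hnomax : NoMaxOrder s := by
    refine ⟨fun x => ?_⟩
    have h0 : ∃ y : lam.ord.ToType, x.1 < y := by
      have h1 := (ToType.mk.symm x.1).2
      rw [mem_Iio] at h1
      have h2 := hlim.succ_lt h1
      refine ⟨ToType.mk ⟨succ (ToType.mk.symm x.1).1, h2⟩, ?_⟩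
      rw [← OrderIso.symm_apply_lt]
      exact lt_succ (ToType.mk.symm x.1).1
    obtain ⟨y, hy⟩ := h0
    obtain ⟨z, hz, hyz⟩ := hs1 y
    exact ⟨⟨z, hz⟩, hy.trans_le hyz⟩
  have hK0 : ℵ₀ ≤ #s := by
    rw [hs2]
    exact Ordinal.aleph0_le_cof_iff.2 (Ordinal.one_lt_cof_iff.2 hlim)
  have hDc : ∀ n : s, #(Iic n.1) < lam := by
    intro n
    have h1 : Iic n.1 = Iio n.1 ∪ {n.1} := by
      ext x
      simp [le_iff_lt_or_eq]
    rw [h1]
    refine card_union_lt hlam ?_ ?_
    · exact (mk_Iio_lt n.1 (by simp)).trans_eq (mk_ord_toType' lam)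
    · rw [mk_singleton]
      exact lt_of_lt_of_le one_lt_aleph0 hlam
  set c : s → Cardinal.{u} := fun n => max #s #(Iic n.1) with hc
  have hcK : ∀ j, #s ≤ c j := fun j => le_max_left _ _
  have hc0 : ∀ j, ℵ₀ ≤ c j := fun j => hK0.trans (hcK j)
  have hcm : Monotone c := fun n m hnm => max_le_max le_rfl
    (mk_le_mk_of_subset (Iic_subset_Iic.2 hnm))
  have hclt : ∀ j, c j < lam := by
    intro j
    refine max_lt ?_ (hDc j)
    rw [hs2]
    exact hsing
  have hnsucc : ∀ d, ℵ₀ ≤ d → lam ≠ succ d := by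
    intro d hd h
    have h4 := (isRegular_succ hd).cof_ord
    rw [← h] at h4
    exact hsing.ne h4
  have hcs : ∀ j, succ (c j) < lam := by
    intro j
    exact lt_of_le_of_ne (succ_le_of_lt (hclt j)) (hnsucc _ (hc0 j)).symm
  have hΘ : ∀ j, ∃ Θ : Set lam.ord.ToType, #Θ = succ (c j) := by
    intro j
    apply le_mk_iff_exists_set.1
    rw [mk_ord_toType']
    exact (hcs j).le
  choose Θ hΘ using hΘ
  obtain ⟨idx, hidx⟩ := exists_idx (Λ := lam.ord.ToType) τ (by
    rw [mk_ord_toType', ← hτ]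
    exact Ordinal.card_le_card (right_le_opow τ one_lt_omega0))
  have h6 : ∀ c : Cardinal.{u}, (∀ n : s, #(Iic n.1) ≤ c) → lam ≤ c := by
    intro c hc
    by_contra hcon
    rw [not_le] at hcon
    have h1 : #(Set.univ : Set lam.ord.ToType) ≤ succ c := by
      apply mk_le_of_Iio
      intro i _
      obtain ⟨j, hj, hij⟩ := hs1 i
      refine lt_succ_of_le ((mk_le_mk_of_subset ?_).trans (hc ⟨j, hj⟩))
      exact Iio_subset_Iic_self.trans (Iic_subset_Iic.2 hij)
    rw [mk_univ, mk_ord_toType'] at h1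
    rcases lt_or_ge c ℵ₀ with h2 | h2
    · have h3 := isSuccLimit_aleph0.succ_lt h2
      exact absurd (hlam.trans h1) (not_le.2 h3)
    · exact hnsucc c h2 (le_antisymm h1 (succ_le_of_lt hcon))
  refine pathRel_of_model (ω ^ τ : Ordinal.{u}).ToType (otp_toType _) ?_
  intro G hG
  obtain ⟨P, hP1, hP2, hP3⟩ := exists_tree hG
  obtain ⟨S, hS1, hS2⟩ := fusion_long (K := s) (Λ := lam.ord.ToType) (lam := lam) (τ := τ)
    (idx := idx) (P := P) (c := c) (Θ := Θ) (D := fun n : s => Iic n.1) hG hP1 hP2 hidx hlam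
    hcm hcK hc0 hΘ (fun j => le_max_right _ _)
    (fun j => succ_le_of_lt (by rw [hs2]; exact hpow _ (hcs j)))
    (fun n m hnm => Iic_subset_Iic.2 hnm)
    (fun i => by
      obtain ⟨j, hj, hij⟩ := hs1 i
      exact ⟨⟨j, hj⟩, hij⟩) h6
    (by rw [← hτ]; exact ord_card_le _) (otp_toType _)
  refine ⟨S, hS1, ?_⟩
  intro x hx y hy hadj
  rcases hP3 _ _ hadj with h | h
  · exact G.loopless.irrefl x (by rw [← hS2 x hx y hy h] at hadj; exact hadj)
  · exact G.loopless.irrefl x (by rw [hS2 y hy x hx h] at hadj; exact hadj)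

end IPath
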