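import Pool.Agent.Work.MP_820435_lc.Exp
import Pool.Agent.Work.MP_820435_lc.Cnf
import Pool.Agent.Work.MP_820435_lc.CofOmega

/-!
# Initial segments for all cardinals
-/

open Ordinal Cardinal Set Filter Order

universe u

namespace IPath

variable {Λ : Type u} {θ θ₁ lam ν ρ ρ₁ μ : Cardinal.{u}} {β q t c cs : Ordinal.{u}}

/-- `ν` is closed under powers with exponent `θ`. -/
def IsPowClosed (ν θ : Cardinal.{u}) : Prop :=
  θ.IsRegular ∧ ℵ₀ < θ ∧ θ < ν ∧ ν.ord.cof ≠ θ ∧ ∀ μ < ν, μ ^ θ < ν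

/-- `ρ` is a singular strong limit cardinal below `ν` of another cofinality. -/
def IsRgch (ν ρ : Cardinal.{u}) : Prop :=
  ρ.IsStrongLimit ∧ ρ.ord.cof < ρ ∧ ρ < ν ∧ ν.ord.cof ≠ ρ.ord.cof

/-- The exponent attached to a cardinal. -/
def IsExpOf (ν : Cardinal.{u}) (t : Ordinal.{u}) : Prop :=
  t = ν.ord ∨ (ℵ₀ < ν ∧ ν.IsStrongLimit ∧ t = ν.ord ^ ν.ord) ∨
    (∃ θ : Cardinal.{u}, IsPowClosed ν θ ∧ t = ν.ord * (θ.ord + 1)) ∨
    ∃ ρ : Cardinal.{u}, IsRgch ν ρ ∧ t = ν.ord * (ρ.ord ^ ρ.ord + 1)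

theorem card_mul_succ_le (hν : ℵ₀ ≤ ν) (hc : c.card ≤ ν) : (ν.ord * (c + 1)).card ≤ ν := by
  rw [Ordinal.card_mul, card_ord, Ordinal.card_add, Ordinal.card_one]
  exact (mul_le_mul' le_rfl (add_le_of_le hν hc (one_le_aleph0.trans hν))).trans_eq
    (mul_eq_self hν)

theorem card_opow_self_le (hρ : ℵ₀ ≤ ρ) : (ρ.ord ^ ρ.ord).card ≤ ρ := by
  refine (card_opow_le_of_omega0_le_left (omega0_le_ord.2 hρ) _).trans ?_
  rw [card_ord, max_self]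

theorem IsExpOf.card_le (hν : ℵ₀ ≤ ν) (h : IsExpOf ν t) : t.card ≤ ν := by
  rcases h with rfl | ⟨_, _, rfl⟩ | ⟨θ, h, rfl⟩ | ⟨ρ, h, rfl⟩
  · rw [card_ord]
  · exact card_opow_self_le hν
  · refine card_mul_succ_le hν ?_
    rw [card_ord]
    exact h.2.2.1.le
  · exact card_mul_succ_le hν ((card_opow_self_le h.1.aleph0_le).trans h.2.2.1.le)

theorem IsExpOf.isSuccLimit (hν : ℵ₀ ≤ ν) (h : IsExpOf ν t) : IsSuccLimit t := by
  rcases h with rfl | ⟨_, _, rfl⟩ | ⟨θ, h, rfl⟩ | ⟨ρ, h, rfl⟩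
  · exact isSuccLimit_ord hν
  · refine isSuccLimit_opow ?_ (isSuccLimit_ord hν)
    exact one_lt_omega0.trans_le (omega0_le_ord.2 hν)
  · rw [mul_add_one]
    exact isSuccLimit_add _ (isSuccLimit_ord hν)
  · rw [mul_add_one]
    exact isSuccLimit_add _ (isSuccLimit_ord hν)

/-- Multiples of `ν` in the exponent. -/
def Base (lam ν ρ₁ μ : Cardinal.{u}) (Λ : Type u) (cs : Ordinal.{u}) : Prop :=
  ∀ c ≤ cs, ∀ θ : Cardinal.{u}, θ.IsRegular → ρ₁ < θ → θ < lam → lam.ord.cof ≠ θ →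
    GoodS μ Λ θ (lam.ord ^ (ν.ord * c))

theorem Base.below (hlam : ℵ₀ ≤ lam) (hρ₁ : ρ₁ < ν) (h : Base lam ν ρ₁ μ Λ cs)
    (ζ : Ordinal.{u}) (hζ : ζ < ν.ord * (cs + 1)) :
    ∃ σ < ν, ∀ θ : Cardinal.{u}, θ.IsRegular → σ < θ → θ < lam → lam.ord.cof ≠ θ →
      GoodS μ Λ θ (lam.ord ^ ζ) := by
  rw [lt_mul_iff] at hζ
  obtain ⟨c, hc, r, hr, rfl⟩ := hζ
  refine ⟨max ρ₁ r.card, max_lt hρ₁ (lt_ord.1 hr), fun θ hθ h1 h2 h3 => ?_⟩
  rw [max_lt_iff] at h1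
  exact goodS_opow_add hlam hθ h2 h3 (h c (by rwa [lt_add_one_iff] at hc) θ hθ h1.1 h2 h3) r
    (lt_ord.2 h1.2)

/-- The limit of the multiples. -/
theorem base_of_lt (hlam : ℵ₀ ≤ lam) (hν : ℵ₀ ≤ ν) (hcs : IsSuccLimit cs) (hcof : cs.cof ≤ ρ₁)
    (h : ∀ c < cs, ∀ θ : Cardinal.{u}, θ.IsRegular → ρ₁ < θ → θ < lam → lam.ord.cof ≠ θ →
      GoodS μ Λ θ (lam.ord ^ (ν.ord * c))) : Base lam ν ρ₁ μ Λ cs := by
  have hν0 : 0 < ν.ord := (isSuccLimit_ord hν).bot_lt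
  intro c hc θ hθ h1 h2 h3
  rcases hc.lt_or_eq with hc | rfl
  · exact h c hc θ hθ h1 h2 h3
  · refine goodS_opow_limit hlam hθ (isSuccLimit_mul_right hν0 hcs) ?_ ?_
    · have h4 : (ν.ord * c).cof = c.cof := cof_map_of_isNormal (isNormal_mul_right hν0) hcs
      rw [h4]
      exact (hcof.trans_lt h1).ne
    · intro e he
      rw [lt_mul_iff] at he
      obtain ⟨q, hq, r, hr, rfl⟩ := he
      have hq1 : q + 1 < c := by
        rw [← succ_eq_add_one]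
        exact hcs.succ_lt hq
      refine ⟨ν.ord * (q + 1), ?_, ?_, h _ hq1 θ hθ h1 h2 h3⟩
      · rw [mul_add_one]
        gcongr
      · exact (mul_lt_mul_iff_right₀ hν0).2 hq1

theorem base_powClosed (hν : ℵ₀ ≤ ν) (hνlam : ν ≤ lam) (h : IsPowClosed ν θ₁)
    (hcof : lam.ord.cof ≠ θ₁) (hμ : μ ≤ θ₁) : Base lam ν θ₁ μ Λ θ₁.ord := by
  obtain ⟨hreg, h0, hθν, hcofν, hpow⟩ := h
  have hlam : ℵ₀ ≤ lam := hν.trans hνlam
  have hν0 : 0 < ν.ord := (isSuccLimit_ord hν).bot_lt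
  refine base_of_lt hlam hν (isSuccLimit_ord h0.le) (by rw [hreg.cof_ord]) ?_
  intro c hc θ hθ h1 h2 h3
  rcases eq_or_ne c 0 with rfl | hc0
  · rw [mul_zero, opow_zero]
    exact goodS_one (hμ.trans h1.le)
  · refine GoodS.mono ?_ h1.le
    refine goodS_opow_of_tame hlam hreg (hθν.trans_le hνlam) hcof hμ
      (isSuccLimit_mul_left (isSuccLimit_ord hν) (pos_iff_ne_zero.2 hc0)) ?_
    intro ι hι
    refine Tame.mul (tame_ord h0 hν ?_ ?_) (tame_of_card_lt (lt_ord.1 hc)) h0.le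
    · rwa [hι]
    · rw [hι]
      exact lt_or_gt_of_ne hcofν

theorem base_rgch (hνlam : ν ≤ lam) (h : IsRgch ν ρ) (hμ : μ < ρ) :
    Base lam ν ρ μ Λ (ρ.ord ^ ρ.ord) := by
  obtain ⟨hρ, hsing, hρν, hcofν⟩ := h
  have hρinf : ℵ₀ ≤ ρ := hρ.aleph0_le
  have hcofρ : ℵ₀ ≤ ρ.ord.cof :=
    Ordinal.aleph0_le_cof_iff.2 (Ordinal.one_lt_cof_iff.2 (isSuccLimit_ord hρinf))
  have hρ0 : ℵ₀ < ρ := hcofρ.trans_lt hsing
  have hν : ℵ₀ ≤ ν := hρinf.trans hρν.le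
  have hlam : ℵ₀ ≤ lam := hν.trans hνlam
  have hν0 : 0 < ν.ord := (isSuccLimit_ord hν).bot_lt
  have hρ1 : 1 < ρ.ord := one_lt_omega0.trans_le (omega0_le_ord.2 hρinf)
  have hlimρ : IsSuccLimit ρ.ord := isSuccLimit_ord hρinf
  obtain ⟨σ, hσ, hM⟩ := exists_mclosed_ord hρ hsing hρν hcofν
  refine base_of_lt hlam hν (isSuccLimit_opow hρ1 hlimρ) ?_ ?_
  · have h4 : (ρ.ord ^ ρ.ord).cof = ρ.ord.cof := cof_map_of_isNormal (isNormal_opow hρ1) hlimρ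
    rw [h4]
    exact hsing.le
  · intro c hc θ hθ h1 h2 h3
    rcases eq_or_ne c 0 with rfl | hc0
    · rw [mul_zero, opow_zero]
      exact goodS_one (hμ.le.trans h1.le)
    obtain ⟨μ', hμ', hT⟩ := tame_all hρ hρ0 c hc
    have hκ : ∀ x : Cardinal.{u}, ∃ κ₀ < ρ, ∀ τ < ρ, κ₀ ≤ τ → x < kt τ ∨ kt τ < x := by
      intro x
      rcases lt_or_ge x ρ with h4 | h4
      · exact ⟨x, h4, fun τ _ h5 => Or.inl (h5.trans_lt (lt_kt τ))⟩
      · exact ⟨0, aleph0_pos.trans hρ0, fun τ hτ _ => Or.inr ((kt_lt hρ hτ).trans_le h4)⟩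
    obtain ⟨κ₀, hκ₀, hcoflam⟩ := hκ lam.ord.cof
    obtain ⟨κ₁, hκ₁, hcofν'⟩ := hκ ν.ord.cof
    obtain ⟨τ, hτ, hτ2⟩ : ∃ τ < ρ, max (max (max σ μ') (max κ₀ ℵ₀)) (max μ κ₁) ≤ τ :=
      ⟨_, max_lt (max_lt (max_lt hσ hμ') (max_lt hκ₀ hρ0)) (max_lt hμ hκ₁), le_rfl⟩
    simp only [max_le_iff] at hτ2
    obtain ⟨⟨⟨h5, h6⟩, h7, h8⟩, h9, h10⟩ := hτ2
    have hkt : kt τ < ρ := kt_lt hρ hτ
    refine GoodS.mono ?_ (hkt.trans h1).le
    refine goodS_opow_of_tame hlam (kt_regular h8) ((hkt.trans hρν).trans_le hνlam)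
      ((hcoflam τ hτ h7).elim ne_of_lt ne_of_gt) (h9.trans (lt_kt τ).le)
      (isSuccLimit_mul_left (isSuccLimit_ord hν) (pos_iff_ne_zero.2 hc0)) ?_
    intro ι hι
    have hι0 : ℵ₀ ≤ #ι := by
      rw [hι]
      exact (aleph0_lt_kt h8).le
    refine Tame.mul (tame_of_mclosed (aleph0_lt_kt h8) hι0 ?_ ?_ ?_) (hT _
      (h6.trans_lt (lt_kt τ)) hkt ι hι) (aleph0_lt_kt h8).le
    · rw [hι]
      exact (two_power_kt_lt hρ hτ).trans hρν
    · rw [hι]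
      exact hcofν' τ hτ h10
    · obtain ⟨e⟩ : Nonempty (At τ ≃ ι) := by
        rw [← Cardinal.eq, mk_At, hι]
      exact (hM τ hτ h5).equiv e

/-- All exponents below `t` are good at large indices. -/
theorem IsExpOf.good (hν : ℵ₀ < ν) (hνlam : ν ≤ lam) (hμ : μ < ν)
    (hcof : ∀ θ : Cardinal.{u}, IsPowClosed ν θ → lam.ord.cof ≠ θ)
    (hμ2 : ∀ θ : Cardinal.{u}, ℵ₀ < θ → μ ≤ θ) (h : IsExpOf ν t) (ζ : Ordinal.{u}) (hζ : ζ < t) :
    ∃ σ < ν, ∀ θ : Cardinal.{u}, θ.IsRegular → σ < θ → θ < lam → lam.ord.cof ≠ θ →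
      GoodS μ Λ θ (lam.ord ^ ζ) := by
  have hlam : ℵ₀ ≤ lam := hν.le.trans hνlam
  rcases h with rfl | ⟨h0, hs, rfl⟩ | ⟨θ, h, rfl⟩ | ⟨ρ, h, rfl⟩
  · refine ⟨max μ ζ.card, max_lt hμ (lt_ord.1 hζ), fun θ hθ h1 h2 h3 => ?_⟩
    rw [max_lt_iff] at h1
    exact goodS_opow_small hlam hθ h2 h3 h1.1.le ζ (lt_ord.2 h1.2)
  · obtain ⟨ρ', h1, h2⟩ := goodS_opow_strong (Λ := Λ) hs h0 hνlam hμ ζ hζ
    refine ⟨max ℵ₀ ρ', max_lt hν h1, fun θ hθ h3 h4 h5 => ?_⟩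
    rw [max_lt_iff] at h3
    rcases lt_or_ge θ ν with h6 | h6
    · exact h2 θ hθ h3.2 h6
    · have h7 : succ (max ℵ₀ ρ') < ν := hs.isSuccLimit.succ_lt (max_lt hν h1)
      exact (h2 _ (isRegular_succ (le_max_left _ _)) (lt_succ_of_le (le_max_right _ _)) h7).mono
        (h7.le.trans h6)
  · exact (base_powClosed hν.le hνlam h (hcof θ h) (hμ2 θ h.2.1)).below hlam h.2.2.1 ζ hζ
  · have hρ0 : ℵ₀ < ρ := (Ordinal.aleph0_le_cof_iff.2 (Ordinal.one_lt_cof_iff.2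
      (isSuccLimit_ord h.1.aleph0_le))).trans_lt h.2.1
    refine (base_rgch hνlam h ?_).below hlam h.2.2.1 ζ hζ
    refine (hμ2 (succ ℵ₀) (lt_succ _)).trans_lt (h.1.isSuccLimit.succ_lt hρ0)

theorem pathRel_succ_init (hν : ℵ₀ ≤ ν) (ht : IsExpOf ν t) (β : Ordinal.{u})
    (hβ : β < (succ ν).ord ^ (t + 2)) : PathRel ((succ ν).ord * β) := by
  have hκ : (succ ν).IsRegular := isRegular_succ hν
  have hcofne : ∀ θ : Cardinal.{u}, θ < succ ν → (succ ν).ord.cof ≠ θ := by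
    intro θ hθ
    rw [hκ.cof_ord]
    exact hθ.ne'
  have H : ∀ Λ : Type u, ∀ ζ < t, GoodS ℵ₀ Λ ν ((succ ν).ord ^ ζ) := by
    intro Λ ζ hζ
    rcases hν.lt_or_eq with hν0 | rfl
    · obtain ⟨σ, hσ, h1⟩ := ht.good (Λ := Λ) (μ := ℵ₀) hν0 (le_succ ν) hν0
        (fun θ h => hcofne θ (h.2.2.1.trans (lt_succ ν))) (fun θ h => h.le) ζ hζ
      by_cases hreg : ν.IsRegular
      · exact h1 ν hreg hσ (lt_succ ν) (hcofne ν (lt_succ ν))
      · have h2 : (succ (max ℵ₀ σ)).IsRegular := isRegular_succ (le_max_left _ _)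
        have h3 : succ (max ℵ₀ σ) < ν := by
          refine lt_of_le_of_ne (succ_le_of_lt (max_lt hν0 hσ)) ?_
          intro h
          rw [h] at h2
          exact hreg h2
        exact (h1 _ h2 (lt_succ_of_le (le_max_right _ _)) (h3.trans (lt_succ ν))
          (hcofne _ (h3.trans (lt_succ ν)))).mono h3.le
    · rcases ht with rfl | ⟨h0, _, rfl⟩ | ⟨θ, h, rfl⟩ | ⟨ρ, h, rfl⟩
      · exact goodS_nu le_rfl (Or.inl le_rfl) ζ hζ
      · exact absurd h0 (lt_irrefl _)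
      · exact absurd (h.2.1.trans h.2.2.1) (lt_irrefl _)
      · exact absurd (h.1.aleph0_le.trans_lt h.2.2.1) (lt_irrefl _)
  have hcard : β.card ≤ succ ν := by
    refine (Ordinal.card_le_card hβ.le).trans ?_
    refine (card_opow_le_of_omega0_le_left (omega0_le_ord.2 hκ.aleph0_le) _).trans ?_
    refine max_le (by rw [card_ord]) ?_
    rw [Ordinal.card_add]
    refine add_le_of_le hκ.aleph0_le ((ht.card_le hν).trans (le_succ ν)) ?_
    rw [Ordinal.card_ofNat]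
    exact (hκ.nat_lt 2).le
  intro X _ _ hX G
  exact pathRel_of_good hκ hcard (fun Λ => (goodS_below_two hν (ht.isSuccLimit hν)
    (ht.card_le hν) (H Λ) β hβ).goodLT) X hX G

theorem pathRel_limit_init (hlam : ℵ₀ < lam) (hlim : IsSuccLimit lam) (ht : IsExpOf lam t)
    (β : Ordinal.{u}) (hβ : β < lam.ord ^ t) : PathRel (lam.ord * β) := by
  have hcard : β.card ≤ lam := by
    refine (Ordinal.card_le_card hβ.le).trans ?_
    refine (card_opow_le_of_omega0_le_left (omega0_le_ord.2 hlam.le) _).trans ?_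
    exact max_le (by rw [card_ord]) (ht.card_le hlam.le)
  have H : ∀ Λ : Type u, ∀ β < lam.ord ^ t, ∃ ρ < lam, ∀ θ : Cardinal.{u}, θ.IsRegular →
      ρ < θ → θ < lam → GoodS (succ ℵ₀) Λ θ β := by
    intro Λ
    refine goodS_of_exponents hlam ?_
    intro ζ hζ
    obtain ⟨ρ', hρ', hcof⟩ : ∃ ρ' < lam, ∀ θ : Cardinal.{u}, ρ' < θ → θ < lam →
        lam.ord.cof ≠ θ := by
      rcases lt_or_ge lam.ord.cof lam with h | h
      · exact ⟨_, h, fun θ h1 _ => h1.ne⟩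
      · exact ⟨0, pos_of_gt hlam, fun θ _ h2 => (h2.trans_le h).ne'⟩
    obtain ⟨σ, hσ, h1⟩ := ht.good (Λ := Λ) (μ := succ ℵ₀) hlam le_rfl (hlim.succ_lt hlam)
      (fun θ h => h.2.2.2.1) (fun θ h => succ_le_of_lt h) ζ hζ
    refine ⟨max σ ρ', max_lt hσ hρ', fun θ hθ h2 h3 => ?_⟩
    rw [max_lt_iff] at h2
    exact h1 θ hθ h2.1 h3 (hcof θ h2.2 h3)
  -- a bound that works for all index sets
  have H2 : ∃ ν, ℵ₀ ≤ ν ∧ ν < lam ∧ ∀ Λ : Type u, #Λ = succ ν → GoodC Λ (succ ν) β := by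
    by_contra hcon
    push Not at hcon
    have h3 : ∀ c : Cardinal.{u}, c < lam → ∃ Λ : Type u, #Λ = succ (max ℵ₀ c) ∧
        ¬ GoodC Λ (succ (max ℵ₀ c)) β := by
      intro c hc
      exact hcon _ (le_max_left _ _) (max_lt hlam hc)
    obtain ⟨ρ, h4, h5⟩ := H lam.ord.ToType β hβ
    obtain ⟨Λ, h6, h7⟩ := h3 ρ h4
    apply h7
    have h8 : succ (max ℵ₀ ρ) < lam := hlim.succ_lt (max_lt hlam h4)
    have h9 : GoodC lam.ord.ToType (succ (max ℵ₀ ρ)) β :=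
      (h5 _ (isRegular_succ (le_max_left _ _)) (lt_succ_of_le (le_max_right _ _)) h8).goodC
    -- transfer to the smaller index set
    obtain ⟨i⟩ : Nonempty (Λ ↪ lam.ord.ToType) := by
      have : #Λ ≤ #(lam.ord.ToType) := by
        rw [h6, mk_ord_toType']
        exact h8.le
      exact this
    intro Y _ _ hY b hb
    have h10 := h9 Y hY (fun y => i '' b y) (fun y => (hb y).image _)
    refine lt_of_le_of_lt ?_ h10
    refine mk_le_of_injective (f := fun j => (⟨i j.1, ?_⟩ : badC (fun y => i '' b y))) ?_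
    · have hj : otp {y : Y | j.1 ∉ b y} < otp Y := j.2
      have h11 : {y : Y | i j.1 ∉ i '' b y} = {y : Y | j.1 ∉ b y} := by
        ext y
        simp [i.injective.mem_set_image]
      change otp {y : Y | i j.1 ∉ i '' b y} < otp Y
      rw [h11]
      exact hj
    · intro j j' hjj
      exact Subtype.ext (i.injective (congrArg
        (fun z : badC (fun y => i '' b y) => (z.1 : lam.ord.ToType)) hjj))
  obtain ⟨ν, h1, h2, h3⟩ := H2
  refine pathRel_of_model (β.ToType ×ₗ lam.ord.ToType)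
    (by rw [otp_prodLex, otp_toType, otp_toType]) ?_
  intro G hG
  obtain ⟨S, hS1, hS2⟩ := graph_of_goodC (B := β.ToType) (K := lam.ord.ToType)
    (Λ := (succ ν).ord.ToType) h1 h2 (otp_toType _) (by simpa using hcard) (mk_ord_toType' _)
    (by rw [otp_toType]; exact h3 _ (mk_ord_toType' _)) G hG
  rw [otp_toType] at hS1
  exact ⟨S, hS1.ge, hS2⟩

end IPath
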