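import Pool.Agent.Work.MP_820435_lc.Sg1

/-!
# Enumerations of the bounded subsets and closure points
-/

open Ordinal Cardinal Set Order

universe u

namespace IPath

theorem mk_Iic_lt' {K : Type u} [LinearOrder K] [WellFoundedLT K] {κ : Cardinal.{u}}
    (hκ : ℵ₀ ≤ κ) (hK : otp K = κ.ord) (k : K) : #(Iic k) < κ := by
  have hKc : #K = κ := by
    have := congrArg Ordinal.card hK
    rwa [card_type, card_ord] at this
  have h1 : #(Iio k) < κ := (mk_Iio_lt k (by rw [hKc]; exact hK.symm)).trans_eq hKc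
  have h2 : Iic k = insert k (Iio k) := by
    ext a
    simp [le_iff_eq_or_lt]
  rw [h2]
  exact mk_insert_le.trans_lt (add_lt_of_lt hκ h1 (one_lt_aleph0.trans_le hκ))

/-- Few elements are bounded. -/
theorem exists_gt_all {I K : Type u} [LinearOrder K] [WellFoundedLT K] {κ : Cardinal.{u}}
    (hκ : κ.IsRegular) (hK : otp K = κ.ord) (hI : #I < κ) (x : I → K) : ∃ k, ∀ i, x i < k := by
  have hKc : #K = κ := by
    have := congrArg Ordinal.card hK
    rwa [card_type, card_ord] at this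
  obtain ⟨k, hk⟩ := exists_forall_notMem hκ hI hKc (fun i => Iic (x i))
    (fun i => mk_Iic_lt' hκ.aleph0_le hK _)
  exact ⟨k, fun i => not_le.1 (hk i)⟩

/-- A point closed under a function. -/
theorem exists_closure_point {K : Type u} [LinearOrder K] [WellFoundedLT K] {κ : Cardinal.{u}}
    (hκ : κ.IsRegular) (hκ1 : ℵ₀ < κ) (hK : otp K = κ.ord) (f : K → K) :
    ∃ δ, (∃ a, a < δ) ∧ ∀ a < δ, f a < δ := by
  classical
  have hKc : #K = κ := by
    have := congrArg Ordinal.card hK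
    rwa [card_type, card_ord] at this
  have hne : Nonempty K := by
    rw [← mk_ne_zero_iff, hKc]
    exact hκ.pos.ne'
  obtain ⟨k0⟩ := hne
  have h1 : ∀ k : K, ∃ k', k < k' ∧ ∀ a ≤ k, f a < k' := by
    intro k
    obtain ⟨k1, hk1⟩ := exists_gt_all hκ hK (mk_Iic_lt' hκ.aleph0_le hK k) (fun a => f a.1)
    obtain ⟨k2, hk2⟩ := exists_gt_all hκ hK (mk_Iic_lt' hκ.aleph0_le hK k) (fun a => a.1)
    exact ⟨max k1 k2, (hk2 ⟨k, le_rfl⟩).trans_le (le_max_right _ _),
      fun a ha => (hk1 ⟨a, ha⟩).trans_le (le_max_left _ _)⟩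
  choose nx hnx1 hnx2 using h1
  set x : ℕ → K := fun n => nx^[n] k0 with hx
  have hxs : ∀ n, x (n + 1) = nx (x n) := fun n => Function.iterate_succ_apply' nx n k0
  obtain ⟨b, hb⟩ := exists_gt_all hκ hK (I := ULift.{u} ℕ) (by simpa using hκ1)
    (fun n => x n.down)
  set D : Set K := {d | ∀ n, x n < d} with hD
  have hDne : D.Nonempty := ⟨b, fun n => hb ⟨n⟩⟩
  obtain ⟨δ, hδ, hmin⟩ := wellFounded_lt.has_min D hDne
  refine ⟨δ, ⟨x 0, hδ 0⟩, fun a ha => ?_⟩
  have h2 : a ∉ D := fun h => hmin a h ha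
  rw [hD, mem_ofPred_eq] at h2
  push Not at h2
  obtain ⟨n, hn⟩ := h2
  exact (hnx2 (x n) a hn).trans ((hxs n).symm.le.trans_lt (hδ (n + 1)))

/-- All bounded subsets are listed. -/
def EnumBdd (K : Type u) [LinearOrder K] (z : K → K) (B : K → Set K) : Prop :=
  ∀ (ζ : K) (X : Set K), ∃ j, z j = ζ ∧ ∀ a < ζ, (a ∈ B j ↔ a ∈ X)

theorem exists_enumBdd {K : Type u} [LinearOrder K] [WellFoundedLT K] {κ : Cardinal.{u}}
    (hκ : ℵ₀ ≤ κ) (hK : otp K = κ.ord) (h2 : ∀ ρ < κ, 2 ^ ρ ≤ κ) :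
    ∃ (z : K → K) (B : K → Set K), EnumBdd K z B := by
  classical
  have hKc : #K = κ := by
    have := congrArg Ordinal.card hK
    rwa [card_type, card_ord] at this
  have hne : Nonempty K := by
    rw [← mk_ne_zero_iff, hKc]
    exact (aleph0_pos.trans_le hκ).ne'
  obtain ⟨k0⟩ := hne
  have hcard : #(Σ α : K, Set (Iio α)) ≤ #K := by
    rw [mk_sigma]
    refine (Cardinal.sum_le_sum _ (fun _ => κ) ?_).trans ?_
    · intro α
      rw [mk_set]
      exact h2 _ ((mk_Iio_lt α (by rw [hKc]; exact hK.symm)).trans_eq hKc)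
    · rw [sum_const', hKc]
      exact (mul_eq_self hκ).le
  obtain ⟨e⟩ := hcard
  have hne2 : Nonempty (Σ α : K, Set (Iio α)) := ⟨⟨k0, ∅⟩⟩
  refine ⟨fun j => (Function.invFun e j).1,
    fun j => Subtype.val '' (Function.invFun e j).2, ?_⟩
  intro ζ X
  refine ⟨e ⟨ζ, {a | a.1 ∈ X}⟩, ?_, ?_⟩
  · beta_reduce
    rw [Function.leftInverse_invFun e.injective]
  · intro a ha
    beta_reduce
    rw [Function.leftInverse_invFun e.injective]
    constructor
    · rintro ⟨b, hb, rfl⟩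
      exact hb
    · intro h
      exact ⟨⟨a, ha⟩, h, rfl⟩

end IPath
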