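import Pool.Agent.Work.MP_820435_lc.Cover
import Pool.Agent.Work.MP_820435_lc.Mult

/-!
# Closed unbounded many ordinals
-/

open Ordinal Cardinal Set Filter Order

universe u

namespace IPath

variable {ι : Type u} {Λ : Type u} {μ c θ lam ρ K : Cardinal.{u}} {β γ ξ δ q : Ordinal.{u}}

/-- A small covering family for the subsets of size `θ` of a set of size `lam`. -/
def Covering (lam θ : Cardinal.{u}) : Prop :=
  ∀ A : Type u, #A = lam → ∃ 𝒮 : Set (Set A), #𝒮 ≤ lam ∧ (∀ s ∈ 𝒮, #s ^ θ ≤ lam) ∧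
    ∀ B : Set A, #B ≤ θ → ∃ 𝒯 ⊆ 𝒮, #𝒯 < θ ∧ B ⊆ ⋃₀ 𝒯

theorem Covering.le (h : Covering lam θ) (A : Type u) (hA : #A ≤ lam) :
    ∃ 𝒮 : Set (Set A), #𝒮 ≤ lam ∧ (∀ s ∈ 𝒮, #s ^ θ ≤ lam) ∧
    ∀ B : Set A, #B ≤ θ → ∃ 𝒯 ⊆ 𝒮, #𝒯 < θ ∧ B ⊆ ⋃₀ 𝒯 := by
  rw [← mk_ord_toType' lam] at hA
  obtain ⟨i⟩ := hA
  obtain ⟨𝒮, h1, h2, h3⟩ := h lam.ord.ToType (mk_ord_toType' lam)
  refine ⟨(fun s => i ⁻¹' s) '' 𝒮, mk_image_le.trans h1, ?_, ?_⟩
  · rintro _ ⟨s, hs, rfl⟩
    refine le_trans ?_ (h2 s hs)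
    refine power_le_power_right ?_
    exact mk_preimage_of_injective _ _ i.injective
  · intro B hB
    obtain ⟨𝒯, h4, h5, h6⟩ := h3 (i '' B) (mk_image_le.trans hB)
    refine ⟨(fun s => i ⁻¹' s) '' 𝒯, image_mono h4, mk_image_le.trans_lt h5, ?_⟩
    intro x hx
    obtain ⟨t, ht, hxt⟩ := h6 (mem_image_of_mem i hx)
    exact ⟨i ⁻¹' t, mem_image_of_mem _ ht, hxt⟩

/-- A small covering family excludes the cofinality `θ`. -/
theorem Covering.cof_ne (h : Covering lam θ) (hlam : ℵ₀ ≤ lam) : lam.ord.cof ≠ θ := by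
  intro hcof
  have hord : (#(lam.ord.ToType)).ord = typeLT lam.ord.ToType := by simp
  have hIio : ∀ t : lam.ord.ToType, #(Iio t) < lam := fun t =>
    (mk_Iio_lt t hord).trans_eq (mk_ord_toType' lam)
  have hIic : ∀ t : lam.ord.ToType, #(Iic t) < lam := by
    intro x
    have h1 : Iic x = Iio x ∪ {x} := by
      ext y
      simp [le_iff_lt_or_eq]
    rw [h1]
    refine card_union_lt hlam (hIio x) ?_
    rw [mk_singleton]
    exact lt_of_lt_of_le one_lt_aleph0 hlam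
  obtain ⟨𝒮, h1, h2, h3⟩ := h lam.ord.ToType (mk_ord_toType' lam)
  obtain ⟨s0, hs1, hs2⟩ := exists_cof_eq (α := lam.ord.ToType)
  rw [cof_toType, hcof] at hs2
  have hsmall : ∀ s : 𝒮, #s.1 < lam := by
    intro s
    by_contra hcon
    rw [not_lt] at hcon
    have h4 := (power_le_power_right (c := θ) hcon).trans (h2 s.1 s.2)
    have h5 := lt_power_cof_ord hlam
    rw [hcof] at h5
    exact absurd h5 (not_lt.2 h4)
  have hpt : ∀ s : 𝒮, ∃ t : lam.ord.ToType, #s.1 = #(Iio t) := by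
    intro s
    have h4 : (#s.1).ord < typeLT lam.ord.ToType := by
      rw [type_toType]
      exact ord_lt_ord.2 (hsmall s)
    obtain ⟨t, ht⟩ := typein_surj (α := lam.ord.ToType) (· < ·) h4
    refine ⟨t, ?_⟩
    have h5 := card_typein (r := ((· < ·) : lam.ord.ToType → lam.ord.ToType → Prop)) t
    rw [ht, card_ord] at h5
    exact h5
  choose sz hsz using hpt
  obtain ⟨f⟩ : Nonempty (𝒮 ↪ lam.ord.ToType) := by
    have h4 : #𝒮 ≤ #(lam.ord.ToType) := by rwa [mk_ord_toType']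
    exact h4
  have hav : ∀ x : lam.ord.ToType, ∃ a : lam.ord.ToType, ∀ s : 𝒮, f s ≤ x → sz s ≤ x →
      a ∉ s.1 := by
    intro x
    have h4 : #(⋃ s : {s : 𝒮 // f s ≤ x ∧ sz s ≤ x}, s.1.1 : Set lam.ord.ToType) < lam := by
      refine (mk_iUnion_le (fun s : {s : 𝒮 // f s ≤ x ∧ sz s ≤ x} => s.1.1)).trans_lt ?_
      have h5 : #{s : 𝒮 // f s ≤ x ∧ sz s ≤ x} ≤ #(Iic x) := by
        refine mk_le_of_injective (f := fun s => (⟨f s.1, s.2.1⟩ : Iic x)) ?_
        intro s s' hss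
        exact Subtype.ext (f.injective (congrArg Subtype.val hss))
      have h6 : ⨆ s : {s : 𝒮 // f s ≤ x ∧ sz s ≤ x}, #s.1.1 ≤ #(Iio x) := by
        refine ciSup_le' (fun s => ?_)
        rw [hsz]
        exact mk_le_mk_of_subset (Iio_subset_Iio s.2.2)
      exact mul_lt_of_lt hlam (h5.trans_lt (hIic x)) (h6.trans_lt (hIio x))
    by_contra hcon
    push Not at hcon
    have h5 : (⋃ s : {s : 𝒮 // f s ≤ x ∧ sz s ≤ x}, s.1.1 : Set lam.ord.ToType) = Set.univ := by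
      rw [eq_univ_iff_forall]
      intro a
      obtain ⟨s, h6, h7, h8⟩ := hcon a
      exact mem_iUnion.2 ⟨⟨s, h6, h7⟩, h8⟩
    rw [h5, mk_univ, mk_ord_toType'] at h4
    exact h4.false
  choose a ha using hav
  obtain ⟨𝒯, h4, h5, h6⟩ := h3 (a '' s0) (mk_image_le.trans hs2.le)
  have h7 : ¬ IsCofinal (range (fun t : 𝒯 => max (f ⟨t.1, h4 t.2⟩) (sz ⟨t.1, h4 t.2⟩))) := by
    intro hc
    have h8 := Order.cof_le hc
    rw [cof_toType, hcof] at h8
    exact absurd (h8.trans mk_range_le) (not_le.2 h5)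
  rw [not_isCofinal_iff] at h7
  obtain ⟨y, hy⟩ := h7
  obtain ⟨x, hx, hyx⟩ := hs1 y
  obtain ⟨t, ht, hxt⟩ := h6 (mem_image_of_mem a hx)
  have h8 := (hy _ (mem_range_self (⟨t, ht⟩ : 𝒯))).le.trans hyx
  exact ha x ⟨t, h4 ht⟩ ((le_max_left _ _).trans h8) ((le_max_right _ _).trans h8) hxt

/-- The rank of a constant function. -/
theorem exists_rk_const (hθ : θ.IsRegular) (hθ0 : ℵ₀ < θ) (h2 : 2 ^ θ ≤ lam)
    (h : Covering lam θ) (hlam : ℵ₀ ≤ lam) (e : Ordinal.{u}) (he : e.card ≤ lam) :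
    ∃ α : Ordinal.{u}, α.card ≤ lam ∧
      RkLE (cocardinal θ.ord.ToType hθ) α (fun _ => e) := by
  have hι : #θ.ord.ToType = θ := mk_ord_toType' θ
  have hne := cocardinal_neBot hθ hι
  have hci : CountableInterFilter (cocardinal θ.ord.ToType hθ) :=
    CardinalInterFilter.toCountableInterFilter (c := θ) _ hθ0
  have hwf := wf_ltF (cocardinal θ.ord.ToType hθ) (e + 1)
  have hw : (e + 1).card ≤ lam := by
    rw [Ordinal.card_add, Ordinal.card_one]
    exact add_le_of_le hlam he (one_le_aleph0.trans hlam)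
  obtain ⟨𝒮, h3, h4, h5⟩ := h.le (e + 1).ToType (by rwa [mk_toType])
  set a : θ.ord.ToType → (e + 1).ToType := fun _ => ToType.mk ⟨e, lt_add_one e⟩ with ha
  refine ⟨IsWellFounded.rank (ltF (cocardinal θ.ord.ToType hθ) (e + 1)) a, ?_, ?_⟩
  · refine rank_card_le (θ := θ) _ (e + 1) hlam 𝒮 h3 ?_ ?_ ?_ a
    · rw [hι]
      exact h4
    · rwa [hι]
    · intro f
      obtain ⟨𝒯, h6, h7, h8⟩ := h5 (range f) (mk_range_le.trans_eq hι)
      exact ⟨𝒯, h6, h7, fun j => h8 (mem_range_self j)⟩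
  · refine (rkLE_rank (cocardinal θ.ord.ToType hθ) (e + 1) a).congr
      (Eventually.of_forall fun j => ?_)
    simp [ha]

/-- Closure points of the rank of constant functions. -/
theorem goodS_of_closed (hlam : ℵ₀ ≤ lam) (hθ : θ.IsRegular) (hθlam : θ < lam)
    (hcof : lam.ord.cof ≠ θ) (hμ : μ ≤ θ) (hδ : IsSuccLimit δ)
    (H : ∀ e < δ, ∃ α < δ, RkLE (cocardinal θ.ord.ToType hθ) α (fun _ => e)) :
    GoodS μ Λ (succ θ) (lam.ord ^ δ) := by
  intro Y _ _ hY b hb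
  by_contra hcon
  rw [not_lt, le_mk_iff_exists_subset] at hcon
  obtain ⟨J, hJ, hJc⟩ := hcon
  have hlam0 : lam.ord ≠ 0 := by
    rw [Ne, ord_eq_zero]
    exact (aleph0_pos.trans_le hlam).ne'
  have h1 : ∀ j : J, ∃ F < δ, otp {y : Y | j.1 ∉ b y} < lam.ord ^ F := by
    intro j
    have hj := hJ j.2
    simp only [badC, mem_ofPred_eq] at hj
    rw [hY, lt_opow_of_isSuccLimit hlam0 hδ] at hj
    exact hj
  choose F hF1 hF2 using h1
  -- a large set with a bound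
  obtain ⟨e, he, heθ⟩ : ∃ e < δ, θ ≤ #{j : J | F j < e} := by
    by_contra hcon
    push Not at hcon
    rcases le_or_gt δ.cof θ with hc | hc
    · obtain ⟨s, hs1, hs2⟩ := exists_cof_eq (α := δ.ToType)
      rw [cof_toType] at hs2
      have h2 : (⋃ x : s, {j : J | F j < succ ((x.1 : δ.ToType) : Ordinal.{u})}) =
          (Set.univ : Set J) := by
        rw [eq_univ_iff_forall]
        intro j
        obtain ⟨i, hi, hji⟩ := hs1 (ToType.mk ⟨F j, hF1 j⟩)
        rw [mem_iUnion]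
        refine ⟨⟨i, hi⟩, ?_⟩
        rw [mem_ofPred_eq, lt_succ_iff]
        have h3 := ToType.mk.symm.monotone hji
        rw [OrderIso.symm_apply_apply] at h3
        exact h3
      have h3 : #(⋃ x : s, {j : J | F j < succ ((x.1 : δ.ToType) : Ordinal.{u})} : Set J) ≤ θ := by
        refine (mk_iUnion_le (fun x : s => {j : J | F j < succ ((x.1 : δ.ToType) : Ordinal.{u})})).trans ?_
        refine (mul_le_mul' (hs2.le.trans hc) (ciSup_le' (fun x => ?_))).trans_eq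
          (mul_eq_self hθ.aleph0_le)
        exact (hcon _ (hδ.succ_lt (mem_Iio.1 (x.1 : δ.ToType).toOrd.2))).le
      rw [h2, mk_univ, hJc] at h3
      exact absurd h3 (not_le.2 (lt_succ θ))
    · obtain ⟨J', hJ'⟩ := le_mk_iff_exists_set.1 ((le_succ θ).trans_eq hJc.symm)
      have h2 : (⨆ j : J', F j.1 + 1) < δ :=
        iSup_add_one_lt_of_lt_cof (by rw [hJ']; exact hc) (fun j => hF1 j.1)
      have h3 := hcon _ h2
      have h4 : J' ⊆ {j : J | F j < ⨆ j : J', F j.1 + 1} := fun j hj =>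
        Ordinal.lt_iSup_add_one (fun j : J' => F j.1) ⟨j, hj⟩
      exact absurd (hJ'.ge.trans (mk_le_mk_of_subset h4)) (not_le.2 h3)
  obtain ⟨J', hJ', hJ'c⟩ := le_mk_iff_exists_subset.1 heθ
  obtain ⟨eqv⟩ : Nonempty (θ.ord.ToType ≃ J') := by
    rw [← Cardinal.eq, hJ'c, mk_ord_toType']
  obtain ⟨α, hα, h2⟩ := H e he
  have h3 := coreG hlam (θ := θ) (by rwa [mk_ord_toType']) (by
    rw [mk_ord_toType']
    exact (lt_or_gt_of_ne hcof).symm) α _ (fun i => F (eqv i).1)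
    (h2.mono_fun (Eventually.of_forall fun i => (hJ' (eqv i).2).le)) δ Y hY
    (fun i => {y : Y | (eqv i).1.1 ∉ b y})
    (fun y => by
      have hsm : #({i : θ.ord.ToType | (eqv i).1.1 ∈ b y} : Set θ.ord.ToType) < θ := by
        refine lt_of_le_of_lt ?_ ((hb y).trans_le hμ)
        refine mk_le_of_injective (f := fun i => (⟨(eqv i.1).1.1, i.2⟩ : b y)) ?_
        intro i i' hii
        have h4 : (eqv i.1).1.1 = (eqv i'.1).1.1 := congrArg (fun z : b y => (z.1 : Λ)) hii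
        exact Subtype.ext (eqv.injective (Subtype.ext (Subtype.ext h4)))
      have : {i : θ.ord.ToType | (eqv i).1.1 ∈ b y}ᶜ ∈ cocardinal θ.ord.ToType hθ := by
        rw [mem_cocardinal, compl_compl]
        exact hsm
      filter_upwards [this] with j hj using hj)
    (Eventually.of_forall fun i => hF2 _)
  exact absurd hα (not_lt.2 h3)

/-- Closure points of a function form a closed unbounded set. -/
theorem exists_club (hK : K.IsRegular) (hK0 : ℵ₀ < K) (g : Ordinal.{u} → Ordinal.{u})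
    (hg : ∀ e < K.ord, g e < K.ord) :
    ∃ C : Set Ordinal.{u}, (∀ δ ∈ C, δ < K.ord) ∧ (∀ γ < K.ord, ∃ δ ∈ C, γ < δ) ∧
      (∀ δ < K.ord, IsSuccLimit δ → (∀ γ < δ, ∃ δ' ∈ C, γ < δ' ∧ δ' < δ) → δ ∈ C) ∧
      ∀ δ ∈ C, 0 < δ ∧ ∀ e < δ, g e < δ := by
  refine ⟨{δ | δ < K.ord ∧ 0 < δ ∧ ∀ e < δ, g e < δ}, fun δ hδ => hδ.1, ?_, ?_, fun δ hδ => hδ.2⟩
  · intro γ hγ
    set h : Ordinal.{u} → Ordinal.{u} := fun x => ⨆ i : x.ToType, g (i : Ordinal.{u}) + 1 with hh
    have hlim : IsSuccLimit K.ord := isSuccLimit_ord hK.aleph0_le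
    have h1 : ∀ x < K.ord, h x < K.ord := by
      intro x hx
      rw [hh]
      refine iSup_add_one_lt_of_lt_cof ?_ ?_
      · rw [mk_toType, hK.cof_ord]
        exact lt_ord.1 hx
      · intro i
        exact hg _ (lt_trans i.toOrd.2 hx)
    have h2 : ∀ e x, e < x → g e < h x := by
      intro e x hex
      have h3 := Ordinal.lt_iSup_add_one (fun i : x.ToType => g (i : Ordinal.{u}))
        (ToType.mk ⟨e, hex⟩)
      have h6 : ((ToType.mk ⟨e, hex⟩ : x.ToType) : Ordinal.{u}) = e := by simp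
      rwa [h6] at h3
    have h4 : nfp h (γ + 1) < K.ord := nfp_lt_ord (by rwa [hK.cof_ord]) h1 (by
      rw [← succ_eq_add_one]
      exact hlim.succ_lt hγ)
    have h5 : γ < nfp h (γ + 1) := (lt_add_one γ).trans_le (le_nfp h _)
    refine ⟨nfp h (γ + 1), ⟨h4, pos_of_gt h5, ?_⟩, h5⟩
    intro e he
    rw [lt_nfp_iff] at he
    obtain ⟨n, hn⟩ := he
    refine (h2 e _ hn).trans_le ?_
    rw [← Function.iterate_succ_apply' h n]
    exact iterate_le_nfp h _ _
  · intro δ hδ hlim H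
    refine ⟨hδ, hlim.bot_lt, ?_⟩
    intro e he
    obtain ⟨δ', hδ', h1, h2⟩ := H e he
    exact (hδ'.2.2 e h1).trans h2

end IPath
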