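import Pool.Agent.Work.MP_820435_lc.Club

/-!
# The relation holds at closed unbounded many ordinals
-/

open Ordinal Cardinal Set Filter Order

universe u

namespace IPath

variable {θ lam ν : Cardinal.{u}} {β q : Ordinal.{u}}

theorem pathRel_of_goodC (hν : ℵ₀ ≤ ν) (hlam : ν < lam) (hβ : β.card ≤ lam)
    (hgood : ∀ Λ : Type u, GoodC Λ (succ ν) β) : PathRel (lam.ord * β) := by
  refine pathRel_of_model (β.ToType ×ₗ lam.ord.ToType)
    (by rw [otp_prodLex, otp_toType, otp_toType]) ?_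
  intro G hG
  obtain ⟨S, hS1, hS2⟩ := graph_of_goodC (B := β.ToType) (K := lam.ord.ToType)
    (Λ := (succ ν).ord.ToType) hν hlam (otp_toType _) (by simpa using hβ) (mk_ord_toType' _)
    (by rw [otp_toType]; exact hgood _) G hG
  rw [otp_toType] at hS1
  exact ⟨S, hS1.ge, hS2⟩

theorem pathRel_club (hθ : θ.IsRegular) (hθ0 : ℵ₀ < θ) (h2 : 2 ^ θ ≤ lam)
    (h : Covering lam θ) :
    ∃ C : Set Ordinal.{u}, (∀ δ ∈ C, δ < (succ lam).ord) ∧
      (∀ γ < (succ lam).ord, ∃ δ ∈ C, γ < δ) ∧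
      (∀ δ < (succ lam).ord, IsSuccLimit δ → (∀ γ < δ, ∃ δ' ∈ C, γ < δ' ∧ δ' < δ) → δ ∈ C) ∧
      ∀ δ ∈ C, ∀ q : Ordinal.{u}, q.card < lam → PathRel (δ * q) := by
  have hθlam : θ < lam := (cantor θ).trans_le h2
  have hlam : ℵ₀ ≤ lam := hθ0.le.trans hθlam.le
  have hcof := h.cof_ne hlam
  have hlamω : ω ≤ lam.ord := omega0_le_ord.2 hlam
  have hlam1 : 1 < lam.ord := one_lt_omega0.trans_le hlamω
  have hlt : ∀ x : Ordinal.{u}, x < (succ lam).ord ↔ x.card ≤ lam := by
    intro x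
    rw [lt_ord, lt_succ_iff]
  set rk : Ordinal.{u} → Ordinal.{u} := fun e =>
    sInf {α | RkLE (cocardinal θ.ord.ToType hθ) α (fun _ => e)} with hrk
  have hrk1 : ∀ e : Ordinal.{u}, e.card ≤ lam → (rk e).card ≤ lam ∧
      RkLE (cocardinal θ.ord.ToType hθ) (rk e) (fun _ => e) := by
    intro e he
    obtain ⟨α, h3, h4⟩ := exists_rk_const hθ hθ0 h2 h hlam e he
    have h5 : rk e ∈ {α | RkLE (cocardinal θ.ord.ToType hθ) α (fun _ => e)} :=
      csInf_mem ⟨α, h4⟩
    exact ⟨(Ordinal.card_le_card (csInf_le' h4)).trans h3, h5⟩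
  obtain ⟨C, hC1, hC2, hC3, hC4⟩ := exists_club (isRegular_succ hlam)
    (hlam.trans_lt (lt_succ lam)) (fun e => max (lam.ord ^ e) (max (rk e) (e + 1))) (by
      intro e he
      rw [hlt] at he
      refine max_lt ?_ (max_lt ((hlt _).2 (hrk1 e he).1) ?_)
      · rw [hlt]
        refine (card_opow_le_of_omega0_le_left hlamω e).trans (max_le ?_ he)
        rw [card_ord]
      · rw [hlt, Ordinal.card_add, Ordinal.card_one]
        exact add_le_of_le hlam he (one_le_aleph0.trans hlam))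
  refine ⟨C, hC1, hC2, hC3, ?_⟩
  intro δ hδ q hq
  obtain ⟨h0, h3⟩ := hC4 δ hδ
  simp only [max_lt_iff] at h3
  have hδc : δ.card ≤ lam := (hlt δ).1 (hC1 δ hδ)
  have hlim : IsSuccLimit δ := by
    refine ⟨?_, ?_⟩
    · rw [isMin_iff_eq_bot]
      exact h0.ne'
    · rw [isSuccPrelimit_iff_succ_lt]
      intro e he
      rw [succ_eq_add_one]
      exact (h3 e he).2.2
  have hfix : lam.ord ^ δ = δ := by
    apply le_antisymm
    · rw [opow_le_of_isSuccLimit (zero_lt_one.trans hlam1).ne' hlim]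
      intro e he
      exact (h3 e he).1.le
    · exact right_le_opow δ hlam1
  have hgood : ∀ Λ : Type u, GoodS (succ ℵ₀) Λ (succ θ) (lam.ord ^ δ) := fun Λ =>
    goodS_of_closed hlam hθ hθlam hcof (succ_le_of_lt hθ0) hlim
      (fun e he => ⟨rk e, (h3 e he).2.1,
        (hrk1 e ((Ordinal.card_le_card he.le).trans hδc)).2⟩)
  have hν : max θ q.card < lam := max_lt hθlam hq
  have hν0 : ℵ₀ ≤ max θ q.card := hθ0.le.trans (le_max_left _ _)
  have h5 : PathRel (lam.ord * (lam.ord ^ δ * q)) := by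
    refine pathRel_of_goodC hν0 hν ?_ (fun Λ => ?_)
    · rw [hfix, Ordinal.card_mul]
      exact (mul_le_mul' hδc hq.le).trans_eq (mul_eq_self hlam)
    · exact (((hgood Λ).mono (succ_le_succ (le_max_left _ _))).mul (isRegular_succ hν0)
        (lt_succ_of_le (le_max_right _ _))).goodC
  have h6 : lam.ord * (lam.ord ^ δ * q) = δ * q := by
    rw [← mul_assoc, ← opow_one_add, one_add_of_omega0_le, hfix]
    exact omega0_le_of_isSuccLimit hlim
  rwa [h6] at h5

end IPath
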