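import Pool.Agent.Work.MP_820435_lc.Graph

/-!
# The comparability graph of the forest has no infinite path (helper9)
-/

open Ordinal Cardinal Set Order

universe u

namespace IPath

variable {V : Type u}

/-- the comparability graph of the forest -/
def cmpG (P : V → List V) : SimpleGraph V where
  Adj u v := u ≠ v ∧ (P u <:+ P v ∨ P v <:+ P u)
  symm := ⟨fun _ _ h => ⟨h.1.symm, h.2.symm⟩⟩
  loopless := ⟨fun _ h => h.1 rfl⟩

theorem suffix_unique {α : Type u} {l1 l2 Q : List α} (h1 : l1 <:+ Q) (h2 : l2 <:+ Q)
    (h : l1.length = l2.length) : l1 = l2 := by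
  rcases List.suffix_or_suffix_of_suffix h1 h2 with h3 | h3
  · exact h3.eq_of_length h
  · exact (h3.eq_of_length h.symm).symm

theorem no_ray_cmpG {G : SimpleGraph V} (hG : ¬ HasRay G) {P : V → List V}
    (hP1 : Function.Injective P) (hP2 : ∀ v, (P v).IsChain G.Adj ∧ (P v).Nodup) :
    ¬ HasRay (cmpG P) := by
  rintro ⟨x, hx, hadj⟩
  have key : ∀ n : ℕ, ∃ l : List V, l.length = n ∧ ∃ M, ∀ m, M ≤ m → l <:+ P (x m) := by
    intro n
    induction n with
    | zero => exact ⟨[], rfl, 0, fun m _ => List.nil_suffix⟩
    | succ n ih =>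
      obtain ⟨l, hl, M, hM⟩ := ih
      obtain ⟨M', hMM', hM'⟩ : ∃ M', M ≤ M' ∧ ∀ m, M' ≤ m → P (x m) ≠ l := by
        by_cases h : ∃ m, P (x m) = l
        · obtain ⟨m, hm⟩ := h
          refine ⟨max M (m + 1), le_max_left _ _, ?_⟩
          intro m' hm' hml
          have h2 := hx (hP1 (hml.trans hm.symm))
          have h3 := le_max_right M (m + 1)
          omega
        · push Not at h
          exact ⟨M, le_rfl, fun m _ => h m⟩
      have hex : ∀ m, M' ≤ m → ∃ a, (a :: l) <:+ P (x m) := by
        intro m hm
        rcases suffix_cases (hM m (hMM'.trans hm)) with h | h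
        · exact absurd h (hM' m hm)
        · exact h
      obtain ⟨a, ha⟩ := hex M' le_rfl
      refine ⟨a :: l, by simp [hl], M', ?_⟩
      intro m hm
      induction m, hm using Nat.le_induction with
      | base => exact ha
      | succ m hm ih =>
        obtain ⟨a', ha'⟩ := hex (m + 1) (hm.trans (Nat.le_succ m))
        rcases (hadj m).2 with h | h
        · have := suffix_unique (ih.trans h) ha' (by simp)
          rw [this]
          exact ha'
        · have := suffix_unique ih (ha'.trans h) (by simp)
          rw [this]
          exact ha'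
  choose l hl M hM using key
  have hstep : ∀ n, ∃ a, l (n + 1) = a :: l n := by
    intro n
    have h1 := hM n (max (M n) (M (n + 1))) (le_max_left _ _)
    have h2 := hM (n + 1) (max (M n) (M (n + 1))) (le_max_right _ _)
    have h3 : l n <:+ l (n + 1) := by
      rcases List.suffix_or_suffix_of_suffix h1 h2 with h | h
      · exact h
      · have := h.length_le
        rw [hl, hl] at this
        omega
    rcases suffix_cases h3 with h | ⟨a, h⟩
    · have := congrArg List.length h
      rw [hl, hl] at this
      omega
    · refine ⟨a, ?_⟩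
      exact (h.eq_of_length (by simp [hl])).symm
  choose a ha using hstep
  have hmono : ∀ n m, n ≤ m → l n <:+ l m := by
    intro n m h
    induction m, h using Nat.le_induction with
    | base => exact List.suffix_refl _
    | succ m _ ih =>
      rw [ha m]
      exact ih.trans (List.suffix_cons _ _)
  have hP : ∀ n, ∃ v, l n <:+ P v := fun n => ⟨x (M n), hM n _ le_rfl⟩
  apply hG
  refine ⟨a, ?_, ?_⟩
  · have key2 : ∀ n m, n < m → a n ≠ a m := by
      intro n m hnm heq
      obtain ⟨v, hv⟩ := hP (m + 1)
      have h1 := (hP2 v).2.sublist hv.sublist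
      rw [ha, List.nodup_cons] at h1
      apply h1.1
      rw [← heq]
      apply (hmono (n + 1) m hnm).subset
      rw [ha]
      simp
    intro n m hnm
    rcases lt_trichotomy n m with h | h | h
    · exact absurd hnm (key2 n m h)
    · exact h
    · exact absurd hnm.symm (key2 m n h)
  · intro n
    obtain ⟨v, hv⟩ := hP (n + 2)
    have h1 := (hP2 v).1.suffix hv
    rw [ha (n + 1), ha n, List.isChain_cons_cons] at h1
    exact h1.1.symm

end IPath
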