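import Pool.Agent.Work.MP_820435_lc.Types
import Pool.Agent.Work.MP_820435_lc.TameOrd

/-! The covering lemma and the set mapping lemma. -/

open Ordinal Cardinal Set Filter Order

universe u

namespace IPath

theorem otp_preimage_le {X Y : Type u} [LinearOrder X] [WellFoundedLT X] [LinearOrder Y]
    [WellFoundedLT Y] (f : X → Y) (hf : StrictMono f) (s : Set Y) : otp (f ⁻¹' s) ≤ otp s :=
  otp_le_of_strictMono (fun x => ⟨f x, x.2⟩) fun _ _ hab => hf hab

/-- A union of fewer than `κ` sets of size less than `κ` does not cover a set of size `κ`. -/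
theorem exists_forall_notMem {I K : Type u} {κ : Cardinal.{u}} (hκ : κ.IsRegular) (hI : #I < κ)
    (hK : #K = κ) (S : I → Set K) (hS : ∀ i, #(S i) < κ) : ∃ k, ∀ i, k ∉ S i := by
  have h1 : #(⋃ i, S i : Set K) < κ := (card_iUnion_lt_iff_forall_of_isRegular hκ hI).2 hS
  by_contra hcon
  push Not at hcon
  have h2 : (⋃ i, S i : Set K) = Set.univ := by
    rw [eq_univ_iff_forall]
    intro k
    exact mem_iUnion.2 (hcon k)
  rw [h2, mk_univ, hK] at h1
  exact h1.false

theorem mk_ord_toType' (κ : Cardinal.{u}) : #κ.ord.ToType = κ := by simp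

/-- The covering lemma. -/
theorem core {κ : Cardinal.{u}} (hκ : κ.IsRegular) {ι : Type u} (hι : #ι < κ) (𝓕 : Filter ι)
    (α : Ordinal.{u}) : ∀ F : ι → Ordinal.{u}, RkLE 𝓕 α F →
    ∀ (τ : Ordinal.{u}) (Y : Type u) [LinearOrder Y] [WellFoundedLT Y], otp Y = κ.ord ^ τ →
    ∀ A : ι → Set Y, (∀ y, ∀ᶠ j in 𝓕, y ∈ A j) → (∀ᶠ j in 𝓕, otp (A j) < κ.ord ^ F j) →
    τ ≤ α := by
  classical
  have hκ0 : κ.ord ≠ 0 := hκ.ord_pos.ne'
  have hκ1 : 1 < κ.ord := by
    have := hκ.nat_lt 1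
    rw [lt_ord]
    simpa using this
  induction α using WellFoundedLT.induction with
  | ind α ih =>
    intro F hF τ Y _ _ hY A hA hA2
    by_contra hτ
    rw [not_le] at hτ
    -- the model
    set K := κ.ord.ToType with hK
    set Z := (κ.ord ^ α).ToType with hZ
    have hKZ : otp (K ×ₗ Z) ≤ otp Y := by
      rw [otp_prodLex, otp_toType, otp_toType, ← opow_succ, hY]
      exact opow_le_opow_right hκ.ord_pos (succ_le_of_lt hτ)
    obtain ⟨e, he⟩ := exists_strictMono_of_otp_le hKZ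
    have hblock : ∀ j, ∃ f : Ordinal.{u}, ∃ S : Set K, #S < κ ∧
        (otp (A j) < κ.ord ^ F j → F j ≠ 0 →
          f < F j ∧ ∀ i, i ∉ S → otp (fib (e ⁻¹' A j) i) < κ.ord ^ f) := by
      intro j
      by_cases h1 : otp (A j) < κ.ord ^ F j ∧ F j ≠ 0
      · obtain ⟨f, hf, hS⟩ := block hκ.pos.ne' (e ⁻¹' A j) h1.2
          ((otp_preimage_le e he _).trans_lt h1.1)
        exact ⟨f, _, hS, fun _ _ => ⟨hf, fun i hi => not_le.1 hi⟩⟩
      · exact ⟨0, ∅, by simpa using hκ.pos, fun h2 h3 => absurd ⟨h2, h3⟩ h1⟩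
    choose f S hS1 hS2 using hblock
    obtain ⟨i, hi⟩ := exists_forall_notMem hκ hι (mk_ord_toType' κ) S hS1
    have hYne : Nonempty Y := by
      rw [← type_ne_zero_iff_nonempty (α := Y) (r := (· < ·))]
      change otp Y ≠ 0
      rw [hY]
      exact opow_ne_zero _ hκ0
    obtain ⟨y0⟩ := hYne
    have hF0 : ∀ᶠ j in 𝓕, otp (A j) < κ.ord ^ F j ∧ F j ≠ 0 := by
      filter_upwards [hA2, hA y0] with j h1 h2
      refine ⟨h1, fun h3 => ?_⟩
      rw [h3, opow_zero, lt_one_iff, type_eq_zero_iff_isEmpty] at h1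
      exact h1.false ⟨y0, h2⟩
    rw [rkLE_iff] at hF
    obtain ⟨α', hα', h3⟩ := hF f (by
      filter_upwards [hF0] with j hj using (hS2 j hj.1 hj.2).1)
    have h4 := ih α' hα' f h3 α Z (otp_toType _) (fun j => fib (e ⁻¹' A j) i)
      (fun z => by
        filter_upwards [hA (e (toLex (i, z)))] with j hj using hj)
      (by filter_upwards [hF0] with j hj using (hS2 j hj.1 hj.2).2 i (hi j))
    exact absurd hα' (not_lt.2 h4)

end IPath
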