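import Pool.Agent.Work.MP_820435_lc.SetMap

/-! The set mapping lemma above a strong limit cardinal. -/

open Ordinal Cardinal Set Filter Order

universe u

namespace IPath

variable {Λ : Type u} {ρ κ : Cardinal.{u}}

theorem power_lt_of_strongLimit (hρ : ρ.IsStrongLimit) {ν θ : Cardinal.{u}} (hν : ν < ρ)
    (hθ : θ < ρ) (hθ0 : ℵ₀ ≤ θ) : ν ^ θ < ρ := by
  have h1 : ν ^ θ ≤ 2 ^ (max ν θ) := by
    calc ν ^ θ ≤ (2 ^ ν) ^ θ := power_le_power_right (cantor ν).le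
      _ = 2 ^ (ν * θ) := by rw [power_mul]
      _ ≤ 2 ^ (max ν θ) := by
        refine power_le_power_left two_ne_zero ?_
        exact (mul_le_max_of_aleph0_le_right hθ0)
  exact h1.trans_lt (hρ.isStrongPrelimit (max_lt hν hθ))

theorem tame_all (hρ : ρ.IsStrongLimit) (hρ0 : ℵ₀ < ρ) (ξ : Ordinal.{u}) :
    ξ < ρ.ord ^ ρ.ord → ∃ μ < ρ, ∀ θ : Cardinal.{u}, μ < θ → θ < ρ → ∀ ι : Type u, #ι = θ →
      Tame ι θ ξ := by
  have hρ1 : 1 < ρ.ord := by
    rw [lt_ord]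
    simpa using one_lt_aleph0.trans hρ0
  induction ξ using WellFoundedLT.induction with
  | ind ξ ih =>
    intro hξ
    rcases eq_or_ne ξ 0 with rfl | h0
    · exact ⟨0, pos_of_gt hρ0, fun _ _ _ _ _ => tame_zero⟩
    · have he : log ρ.ord ξ < ρ.ord := by
        have h1 := (opow_log_le_self ρ.ord h0).trans_lt hξ
        exact (opow_lt_opow_iff_right hρ1).1 h1
      have hc : ξ / ρ.ord ^ log ρ.ord ξ < ρ.ord := div_opow_log_lt _ hρ1
      have hr : ξ % ρ.ord ^ log ρ.ord ξ < ξ := mod_opow_log_lt_self _ h0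
      obtain ⟨μ, hμ, ihr⟩ := ih _ hr (hr.trans hξ)
      set e := log ρ.ord ξ with hedef
      set c := ξ / ρ.ord ^ e with hcdef
      obtain ⟨μ', hμ', hcof⟩ : ∃ μ' < ρ, ∀ θ : Cardinal.{u}, μ' < θ → θ < ρ →
          ρ.ord.cof < θ ∨ θ < ρ.ord.cof := by
        rcases lt_or_ge ρ.ord.cof ρ with h | h
        · exact ⟨_, h, fun θ h1 _ => Or.inl h1⟩
        · exact ⟨0, pos_of_gt hρ0, fun θ _ h2 => Or.inr (h2.trans_le h)⟩
      refine ⟨max (max ℵ₀ μ') (max (max e.card c.card) μ), ?_, ?_⟩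
      · simp only [max_lt_iff]
        exact ⟨⟨hρ0, hμ'⟩, ⟨lt_ord.1 he, lt_ord.1 hc⟩, hμ⟩
      · intro θ h1 hθρ ι hι
        simp only [max_lt_iff] at h1
        obtain ⟨⟨h1, h2⟩, ⟨h3, h4⟩, h5⟩ := h1
        have hTρ : Tame ι θ ρ.ord := by
          refine tame_ord h1 hρ0.le (fun ν hν => ?_) ?_
          · rw [hι]
            exact power_lt_of_strongLimit hρ hν hθρ h1.le
          · rw [hι]
            exact hcof θ h2 hθρ
        have h6 := ((tame_opow hTρ hρ1 h1.le h3).mul (tame_of_card_lt h4) h1.le).add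
          (ihr θ h5 hθρ ι hι)
        rw [hcdef, div_add_mod] at h6
        exact h6

theorem goodPow (hρ : ρ.IsStrongLimit) (hρ0 : ℵ₀ < ρ) (hκ : κ.IsRegular) (hρκ : ρ ≤ κ)
    (ξ : Ordinal.{u}) : ξ < ρ.ord ^ ρ.ord → ∃ θ < ρ, ℵ₀ ≤ θ ∧ GoodLT Λ θ (κ.ord ^ ξ) := by
  induction ξ using limitRecOn with
  | zero =>
    intro _
    exact ⟨ℵ₀, hρ0, le_rfl, by rw [opow_zero]; exact goodLT_one le_rfl⟩
  | add_one ξ ih =>
    intro hξ
    obtain ⟨θ, h1, h2, h3⟩ := ih ((lt_add_one ξ).trans hξ)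
    exact ⟨θ, h1, h2, h3.opow_succ hκ (h1.trans_le hρκ)⟩
  | limit ξ hlim ih =>
    intro hξ
    obtain ⟨μ, hμ, hT⟩ := tame_all hρ hρ0 ξ hξ
    have h1 : succ (max ℵ₀ μ) < ρ := hρ.isSuccLimit.succ_lt (max_lt hρ0 hμ)
    refine ⟨succ (max ℵ₀ μ), h1, (le_max_left _ _).trans (le_succ _), ?_⟩
    exact goodLT_opow_of_tame hκ (isRegular_succ (le_max_left _ _)) (h1.trans_le hρκ) hlim
      (hT _ ((le_max_right _ _).trans_lt (lt_succ _)) h1)

theorem good_all (hρ : ρ.IsStrongLimit) (hρ0 : ℵ₀ < ρ) (hκ : κ.IsRegular) (hρκ : ρ ≤ κ)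
    (β : Ordinal.{u}) : β < κ.ord ^ (ρ.ord ^ ρ.ord) → GoodLT Λ κ β := by
  have hκ1 : 1 < κ.ord := by
    rw [lt_ord]
    simpa using hκ.nat_lt 1
  induction β using WellFoundedLT.induction with
  | ind β ih =>
    intro hβ
    rcases eq_or_ne β 0 with rfl | h0
    · intro Y _ _ hY b
      have : badSet b = ∅ := by
        rw [eq_empty_iff_forall_notMem]
        intro j hj
        simp only [badSet, mem_ofPred_eq] at hj
        rw [hY] at hj
        exact absurd hj (by simp)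
      rw [this]
      simpa using hκ.pos
    · have he : log κ.ord β < ρ.ord ^ ρ.ord := by
        have h1 := (opow_log_le_self κ.ord h0).trans_lt hβ
        exact (opow_lt_opow_iff_right hκ1).1 h1
      have hc : β / κ.ord ^ log κ.ord β < κ.ord := div_opow_log_lt _ hκ1
      have hr : β % κ.ord ^ log κ.ord β < β := mod_opow_log_lt_self _ h0
      obtain ⟨θ, h1, h2, h3⟩ := goodPow (Λ := Λ) hρ hρ0 hκ hρκ _ he
      have h4 := ((h3.mono (h1.le.trans hρκ)).mul hκ (lt_ord.1 hc)).add hκ.aleph0_le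
        (ih _ hr (hr.trans hβ))
      rwa [div_add_mod] at h4

end IPath
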