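import Pool.Agent.Work.MP_820435_lc.GoodS
import Pool.Agent.Work.MP_820435_lc.Strong

/-!
# The covering lemma for an arbitrary base cardinal
-/

open Ordinal Cardinal Set Filter Order

universe u

namespace IPath

variable {Λ : Type u} {μ c θ lam ρ : Cardinal.{u}} {β γ ξ : Ordinal.{u}}

/-- Fewer than the cofinality many small sets do not cover. -/
theorem exists_notMem_of_lt_cof (hlam : ℵ₀ ≤ lam) {I K : Type u} (hI : #I < lam.ord.cof)
    (hK : #K = lam) (S : I → Set K) (hS : ∀ i, #(S i) < lam) : ∃ k, ∀ i, k ∉ S i := by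
  have hIlam : #I < lam := hI.trans_le (by
    have := Ordinal.cof_le_card lam.ord
    rwa [card_ord] at this)
  have h1 : ⨆ i, #(S i) < lam := iSup_lt_of_lt_cof_ord hI hS
  have h2 : #(⋃ i, S i : Set K) < lam := by
    refine (mk_iUnion_le S).trans_lt ?_
    exact mul_lt_of_lt hlam hIlam h1
  by_contra hcon
  push Not at hcon
  have h3 : (⋃ i, S i : Set K) = Set.univ := by
    rw [eq_univ_iff_forall]
    intro k
    exact mem_iUnion.2 (hcon k)
  rw [h3, mk_univ, hK] at h2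
  exact h2.false

/-- A common point for a rank-preserving part of the index set. -/
theorem exists_common_filter (hlam : ℵ₀ ≤ lam) {ι : Type u} (hι : #ι < lam)
    (hcof : #ι < lam.ord.cof ∨ lam.ord.cof < θ) (𝓕 : Filter ι) [CardinalInterFilter 𝓕 θ]
    {α : Ordinal.{u}} {F : ι → Ordinal.{u}} (hF : RkLE 𝓕 α F) {K : Type u} (hK : #K = lam)
    (S : ι → Set K) (hS : ∀ j, #(S j) < lam) :
    ∃ M : Set ι, RkLE (𝓕 ⊓ 𝓟 M) α F ∧ ∃ k, ∀ j ∈ M, k ∉ S j := by
  rcases hcof with hcof | hcof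
  · obtain ⟨k, hk⟩ := exists_notMem_of_lt_cof hlam hcof hK S hS
    exact ⟨univ, by rwa [principal_univ, inf_top_eq], k, fun j _ => hk j⟩
  · -- classes of sizes
    obtain ⟨s, hs1, hs2⟩ := exists_cof_eq (α := lam.ord.ToType)
    rw [cof_toType] at hs2
    have hpt : ∀ j, ∃ t : s, #(S j) ≤ #(Iio t.1) := by
      intro j
      have h1 : (#(S j)).ord < typeLT lam.ord.ToType := by
        rw [type_toType]
        exact ord_lt_ord.2 (hS j)
      obtain ⟨t, ht⟩ := typein_surj (α := lam.ord.ToType) (· < ·) h1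
      have h2 := card_typein (r := ((· < ·) : lam.ord.ToType → lam.ord.ToType → Prop)) t
      rw [ht, card_ord] at h2
      obtain ⟨i, hi, hti⟩ := hs1 t
      refine ⟨⟨i, hi⟩, ?_⟩
      rw [h2]
      exact mk_le_mk_of_subset (Iio_subset_Iio hti)
    choose t ht using hpt
    obtain ⟨i, hi⟩ := hF.pigeonhole (θ := θ) (I := s) (by rw [hs2]; exact hcof) t
    refine ⟨t ⁻¹' {i}, hi, ?_⟩
    have hIio : #(Iio i.1) < lam := (mk_Iio_lt i.1 (by simp)).trans_eq (mk_ord_toType' lam)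
    have h2 : #(⋃ j : (t ⁻¹' {i}), S j.1 : Set K) < lam := by
      refine (mk_iUnion_le (fun j : (t ⁻¹' {i}) => S j.1)).trans_lt ?_
      have h3 : ⨆ j : (t ⁻¹' {i}), #(S j.1) ≤ #(Iio i.1) := by
        refine ciSup_le' (fun j => ?_)
        have h4 := ht j.1
        have h5 : t j.1 = i := j.2
        rwa [h5] at h4
      exact mul_lt_of_lt hlam ((mk_set_le _).trans_lt hι) (h3.trans_lt hIio)
    by_contra hcon
    push Not at hcon
    have h3 : (⋃ j : (t ⁻¹' {i}), S j.1 : Set K) = Set.univ := by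
      rw [eq_univ_iff_forall]
      intro k
      obtain ⟨j, hj, hk⟩ := hcon k
      exact mem_iUnion.2 ⟨⟨j, hj⟩, hk⟩
    rw [h3, mk_univ, hK] at h2
    exact h2.false

/-- The covering lemma. -/
theorem coreG (hlam : ℵ₀ ≤ lam) {ι : Type u} (hι : #ι < lam)
    (hcof : #ι < lam.ord.cof ∨ lam.ord.cof < θ)
    (α : Ordinal.{u}) : ∀ (𝓕 : Filter ι) [CardinalInterFilter 𝓕 θ] (F : ι → Ordinal.{u}),
    RkLE 𝓕 α F →
    ∀ (τ : Ordinal.{u}) (Y : Type u) [LinearOrder Y] [WellFoundedLT Y], otp Y = lam.ord ^ τ →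
    ∀ A : ι → Set Y, (∀ y, ∀ᶠ j in 𝓕, y ∈ A j) → (∀ᶠ j in 𝓕, otp (A j) < lam.ord ^ F j) →
    τ ≤ α := by
  classical
  have hlam0 : lam ≠ 0 := (aleph0_pos.trans_le hlam).ne'
  have hpos : 0 < lam.ord := by
    rw [pos_iff_ne_zero, Ne, ord_eq_zero]
    exact hlam0
  induction α using WellFoundedLT.induction with
  | ind α ih =>
    intro 𝓕 _ F hF τ Y _ _ hY A hA hA2
    by_contra hτ
    rw [not_le] at hτ
    -- the model
    set K := lam.ord.ToType with hK
    set Z := (lam.ord ^ α).ToType with hZ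
    have hKZ : otp (K ×ₗ Z) ≤ otp Y := by
      rw [otp_prodLex, otp_toType, otp_toType, ← opow_succ, hY]
      exact opow_le_opow_right hpos (succ_le_of_lt hτ)
    obtain ⟨e, he⟩ := exists_strictMono_of_otp_le hKZ
    have hblock : ∀ j, ∃ f : Ordinal.{u}, ∃ S : Set K, #S < lam ∧
        (otp (A j) < lam.ord ^ F j → F j ≠ 0 →
          f < F j ∧ ∀ i, i ∉ S → otp (fib (e ⁻¹' A j) i) < lam.ord ^ f) := by
      intro j
      by_cases h1 : otp (A j) < lam.ord ^ F j ∧ F j ≠ 0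
      · obtain ⟨f, hf, hS⟩ := block hlam0 (e ⁻¹' A j) h1.2
          ((otp_preimage_le e he _).trans_lt h1.1)
        exact ⟨f, _, hS, fun _ _ => ⟨hf, fun i hi => not_le.1 hi⟩⟩
      · exact ⟨0, ∅, by simpa using hlam0.bot_lt, fun h2 h3 => absurd ⟨h2, h3⟩ h1⟩
    choose f S hS1 hS2 using hblock
    obtain ⟨M, hM, i, hi⟩ := exists_common_filter hlam hι hcof 𝓕 hF (mk_ord_toType' lam) S hS1
    have hYne : Nonempty Y := by
      rw [← type_ne_zero_iff_nonempty (α := Y) (r := (· < ·))]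
      change otp Y ≠ 0
      rw [hY]
      exact opow_ne_zero _ hpos.ne'
    obtain ⟨y0⟩ := hYne
    have hle : 𝓕 ⊓ 𝓟 M ≤ 𝓕 := inf_le_left
    have hF0 : ∀ᶠ j in 𝓕 ⊓ 𝓟 M, otp (A j) < lam.ord ^ F j ∧ F j ≠ 0 := by
      filter_upwards [hA2.filter_mono hle, (hA y0).filter_mono hle] with j h1 h2
      refine ⟨h1, fun h3 => ?_⟩
      rw [h3, opow_zero, lt_one_iff, type_eq_zero_iff_isEmpty] at h1
      exact h1.false ⟨y0, h2⟩
    have hMev : ∀ᶠ j in 𝓕 ⊓ 𝓟 M, j ∈ M := by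
      rw [eventually_inf_principal]
      exact Eventually.of_forall fun j hj => hj
    rw [rkLE_iff] at hM
    obtain ⟨α', hα', h3⟩ := hM f (by
      filter_upwards [hF0] with j hj using (hS2 j hj.1 hj.2).1)
    have h4 := ih α' hα' (𝓕 ⊓ 𝓟 M) f h3 α Z (otp_toType _) (fun j => fib (e ⁻¹' A j) i)
      (fun z => by
        filter_upwards [(hA (e (toLex (i, z)))).filter_mono hle] with j hj using hj)
      (by filter_upwards [hF0, hMev] with j hj hjM using (hS2 j hj.1 hj.2).2 i (hi j hjM))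
    exact absurd hα' (not_lt.2 h4)

theorem cocardinal_neBot (hθ : θ.IsRegular) {J : Type u} (hJ : #J = θ) :
    (cocardinal J hθ).NeBot := by
  rw [neBot_iff]
  intro hbot
  have : (∅ : Set J) ∈ cocardinal J hθ := by rw [hbot]; exact mem_bot
  rw [mem_cocardinal, compl_empty, mk_univ, hJ] at this
  exact this.false

/-- The limit step. -/
theorem goodS_opow_of_tame (hlam : ℵ₀ ≤ lam) (hθ : θ.IsRegular) (hθlam : θ < lam)
    (hcof : lam.ord.cof ≠ θ) (hμ : μ ≤ θ)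
    (hξ : IsSuccLimit ξ) (hT : ∀ ι : Type u, #ι = θ → Tame ι θ ξ) :
    GoodS μ Λ θ (lam.ord ^ ξ) := by
  intro Y _ _ hY b hb
  by_contra hcon
  rw [not_lt, le_mk_iff_exists_subset] at hcon
  obtain ⟨J, hJ, hJc⟩ := hcon
  have hlam0 : lam.ord ≠ 0 := by
    rw [Ne, ord_eq_zero]
    exact (aleph0_pos.trans_le hlam).ne'
  have hne := cocardinal_neBot hθ hJc
  have h1 : ∀ j : J, ∃ F < ξ, otp {y : Y | j.1 ∉ b y} < lam.ord ^ F := by
    intro j
    have hj := hJ j.2
    simp only [badC, mem_ofPred_eq] at hj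
    rw [hY, lt_opow_of_isSuccLimit hlam0 hξ] at hj
    exact hj
  choose F hF1 hF2 using h1
  obtain ⟨s, hs, h2⟩ := hT J hJc (cocardinal J hθ) hne inferInstance F hF1
  have h3 := coreG hlam (θ := θ) (hJc.trans_lt hθlam) (by
    rw [hJc]
    exact (lt_or_gt_of_ne hcof).symm) s _ F h2 ξ Y hY (fun j => {y : Y | j.1 ∉ b y})
    (fun y => by
      have hsm : #({j : J | j.1 ∈ b y} : Set J) < θ := by
        refine lt_of_le_of_lt ?_ ((hb y).trans_le hμ)
        rw [← mk_image_eq (s := {j : J | j.1 ∈ b y}) Subtype.val_injective]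
        apply mk_le_mk_of_subset
        rintro _ ⟨j, hj, rfl⟩
        exact hj
      have : {j : J | j.1 ∈ b y}ᶜ ∈ cocardinal J hθ := by
        rw [mem_cocardinal, compl_compl]
        exact hsm
      filter_upwards [this] with j hj using hj)
    (Eventually.of_forall hF2)
  exact absurd hs (not_lt.2 h3)

/-- The exponents below `ρ ^ ρ`, for a strong limit cardinal `ρ`. -/
theorem goodS_opow_strong (hρ : ρ.IsStrongLimit) (hρ0 : ℵ₀ < ρ) (hρlam : ρ ≤ lam) (hμ : μ < ρ)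
    (ξ : Ordinal.{u}) : ξ < ρ.ord ^ ρ.ord → ∃ ρ' < ρ, ∀ θ : Cardinal.{u}, θ.IsRegular →
      ρ' < θ → θ < ρ → GoodS μ Λ θ (lam.ord ^ ξ) := by
  have hlam : ℵ₀ ≤ lam := hρ0.le.trans hρlam
  obtain ⟨ρ₀, hρ₀, hcof⟩ : ∃ ρ₀ < ρ, ∀ θ : Cardinal.{u}, ρ₀ < θ → θ < ρ →
      lam.ord.cof ≠ θ := by
    rcases lt_or_ge lam.ord.cof ρ with h | h
    · exact ⟨_, h, fun θ h1 _ => h1.ne⟩
    · exact ⟨0, pos_of_gt hρ0, fun θ _ h2 => (h2.trans_le h).ne'⟩
  induction ξ using limitRecOn with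
  | zero =>
    intro _
    refine ⟨μ, hμ, fun θ hθ h1 _ => ?_⟩
    rw [opow_zero]
    exact goodS_one h1.le
  | add_one ξ ih =>
    intro hξ
    obtain ⟨ρ', h1, h2⟩ := ih ((lt_add_one ξ).trans hξ)
    refine ⟨max ρ' ρ₀, max_lt h1 hρ₀, fun θ hθ h3 h4 => ?_⟩
    exact (h2 θ hθ ((le_max_left _ _).trans_lt h3) h4).opow_succ hlam hθ (h4.trans_le hρlam)
      (hcof θ ((le_max_right _ _).trans_lt h3) h4)
  | limit ξ hlim ih =>
    intro hξ
    obtain ⟨m, hm, hT⟩ := tame_all hρ hρ0 ξ hξ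
    refine ⟨max (max m ρ₀) μ, max_lt (max_lt hm hρ₀) hμ, fun θ hθ h3 h4 => ?_⟩
    simp only [max_lt_iff] at h3
    exact goodS_opow_of_tame hlam hθ (h4.trans_le hρlam) (hcof θ h3.1.2 h4) h3.2.le hlim
      (hT θ h3.1.1 h4)

/-- From exponents to all ordinals, below a limit cardinal. -/
theorem goodS_of_exponents (hlam : ℵ₀ < lam) {t : Ordinal.{u}}
    (H : ∀ ξ < t, ∃ ρ < lam, ∀ θ : Cardinal.{u}, θ.IsRegular → ρ < θ → θ < lam →
      GoodS μ Λ θ (lam.ord ^ ξ))
    (β : Ordinal.{u}) : β < lam.ord ^ t → ∃ ρ < lam, ∀ θ : Cardinal.{u}, θ.IsRegular →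
      ρ < θ → θ < lam → GoodS μ Λ θ β := by
  have hlam1 : 1 < lam.ord := by
    rw [lt_ord]
    simpa using one_lt_aleph0.trans hlam
  induction β using WellFoundedLT.induction with
  | ind β ih =>
    intro hβ
    rcases eq_or_ne β 0 with rfl | h0
    · exact ⟨0, pos_of_gt hlam, fun θ hθ _ _ => goodS_zero hθ.pos⟩
    · have he : log lam.ord β < t := by
        have h1 := (opow_log_le_self lam.ord h0).trans_lt hβ
        exact (opow_lt_opow_iff_right hlam1).1 h1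
      have hc : β / lam.ord ^ log lam.ord β < lam.ord := div_opow_log_lt _ hlam1
      have hr : β % lam.ord ^ log lam.ord β < β := mod_opow_log_lt_self _ h0
      obtain ⟨ρ, hρ, ihr⟩ := ih _ hr (hr.trans hβ)
      obtain ⟨ρ', hρ', h7⟩ := H _ he
      refine ⟨max ρ (max ρ' (β / lam.ord ^ log lam.ord β).card), ?_, ?_⟩
      · simp only [max_lt_iff]
        exact ⟨hρ, hρ', lt_ord.1 hc⟩
      · intro θ hθ h1 hθlam
        simp only [max_lt_iff] at h1
        obtain ⟨h3, h4, h5⟩ := h1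
        have h6 := ((h7 θ hθ h4 hθlam).mul hθ h5).add hθ.aleph0_le (ihr θ hθ h3 hθlam)
        rwa [div_add_mod] at h6

end IPath
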