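import Pool.Agent.Work.MP_820435_lc.CoreG

/-!
# Ranks of functions into a set with a small covering family
-/

open Ordinal Cardinal Set Filter Order

universe u

namespace IPath

variable {ι : Type u} {Λ : Type u} {μ c θ lam ρ : Cardinal.{u}} {β γ ξ : Ordinal.{u}}

theorem rank_le_of_rkLE (𝓖 : Filter ι) [𝓖.NeBot] (w : Ordinal.{u})
    [h : IsWellFounded (ι → w.ToType) (ltF 𝓖 w)] (a : ι → w.ToType) :
    ∀ {α : Ordinal.{u}}, RkLE 𝓖 α (fun j => (a j : Ordinal.{u})) →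
      IsWellFounded.rank (ltF 𝓖 w) a ≤ α := by
  induction a using h.wf.induction with
  | _ a ih =>
    intro α hα
    rw [IsWellFounded.rank_eq]
    refine ciSup_le' ?_
    rintro ⟨b, hb⟩
    rw [succ_le_iff]
    rw [rkLE_iff] at hα
    obtain ⟨α', h1, h2⟩ := hα (fun j => (b j : Ordinal.{u})) (by
      filter_upwards [show ∀ᶠ j in 𝓖, b j < a j from hb] with j hj
      exact ToType.mk.symm.strictMono hj)
    exact (ih b hb h2).trans_lt h1

/-- The rank is small if there is a small covering family. -/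
theorem rank_card_le (𝓖 : Filter ι) [𝓖.NeBot] [CardinalInterFilter 𝓖 θ] (w : Ordinal.{u})
    [IsWellFounded (ι → w.ToType) (ltF 𝓖 w)] (hlam : ℵ₀ ≤ lam) (𝒮 : Set (Set w.ToType))
    (h𝒮 : #𝒮 ≤ lam) (hpow : ∀ s ∈ 𝒮, #s ^ #ι ≤ lam) (h2 : 2 ^ #ι ≤ lam)
    (hcov : ∀ f : ι → w.ToType, ∃ 𝒯 ⊆ 𝒮, #𝒯 < θ ∧ ∀ j, ∃ s ∈ 𝒯, f j ∈ s)
    (a : ι → w.ToType) : (IsWellFounded.rank (ltF 𝓖 w) a).card ≤ lam := by
  classical
  let Code : Type u := Σ s : 𝒮, Set ι × (ι → s.1)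
  let val : Code → Ordinal.{u} := fun c =>
    sInf {α | RkLE (𝓖 ⊓ 𝓟 c.2.1) α (fun j => (((c.2.2 j).1 : w.ToType) : Ordinal.{u}))}
  have hcode : ∀ f : ι → w.ToType, ∃ c : Code, val c = IsWellFounded.rank (ltF 𝓖 w) f := by
    intro f
    obtain ⟨𝒯, h𝒯, h𝒯c, hf⟩ := hcov f
    have hf' : ∀ j, ∃ s : 𝒯, f j ∈ s.1 := fun j => by
      obtain ⟨s, hs, h1⟩ := hf j
      exact ⟨⟨s, hs⟩, h1⟩
    choose t ht using hf'
    obtain ⟨s, hs⟩ := (rkLE_rank 𝓖 w f).pigeonhole (θ := θ) h𝒯c t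
    obtain ⟨j0, hj0⟩ : (t ⁻¹' {s}).Nonempty := by
      rw [nonempty_iff_ne_empty]
      intro h
      rw [h, principal_empty, inf_bot_eq] at hs
      exact not_rkLE_bot hs
    have hj0' : f j0 ∈ s.1 := by
      have h1 := ht j0
      rwa [show t j0 = s from hj0] at h1
    have hev : ∀ᶠ j in 𝓖 ⊓ 𝓟 (t ⁻¹' {s}), j ∈ t ⁻¹' {s} := by
      rw [eventually_inf_principal]
      exact Eventually.of_forall fun j hj => hj
    let g : ι → s.1 := fun j => if h : f j ∈ s.1 then ⟨f j, h⟩ else ⟨f j0, hj0'⟩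
    have hg : ∀ᶠ j in 𝓖 ⊓ 𝓟 (t ⁻¹' {s}), ((g j).1 : w.ToType) = f j := by
      filter_upwards [hev] with j hj
      have h1 := ht j
      rw [show t j = s from hj] at h1
      simp [g, h1]
    refine ⟨⟨⟨s.1, h𝒯 s.2⟩, t ⁻¹' {s}, g⟩, ?_⟩
    have hmem : IsWellFounded.rank (ltF 𝓖 w) f ∈
        {α | RkLE (𝓖 ⊓ 𝓟 (t ⁻¹' {s})) α (fun j => (((g j).1 : w.ToType) : Ordinal.{u}))} :=
      hs.congr (by filter_upwards [hg] with j hj; rw [hj])
    apply le_antisymm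
    · exact csInf_le' hmem
    · refine le_csInf ⟨_, hmem⟩ ?_
      intro α hα
      refine rank_le_of_rkLE 𝓖 w f (RkLE.mono_filter inf_le_left (RkLE.congr hα ?_))
      filter_upwards [hg] with j hj
      rw [hj]
  have h1 : ∀ x : (IsWellFounded.rank (ltF 𝓖 w) a).ToType, ∃ c : Code, val c = (x : Ordinal.{u}) := by
    intro x
    obtain ⟨f, hf⟩ := IsWellFounded.mem_range_rank_of_le (r := ltF 𝓖 w)
      (o := (x : Ordinal.{u})) (a := a) (le_of_lt x.toOrd.2)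
    obtain ⟨c, hc⟩ := hcode f
    exact ⟨c, hc.trans hf⟩
  choose c hc using h1
  have h3 : (IsWellFounded.rank (ltF 𝓖 w) a).card ≤ #Code := by
    rw [← mk_toType]
    refine mk_le_of_injective (f := c) ?_
    intro x y hxy
    have h4 : (x : Ordinal.{u}) = y := by rw [← hc, ← hc, hxy]
    have h5 : x.toOrd = y.toOrd := Subtype.ext h4
    exact ToType.mk.symm.injective h5
  refine h3.trans ?_
  rw [mk_sigma]
  have h4 : ∀ s : 𝒮, #(Set ι × (ι → s.1)) ≤ lam := by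
    intro s
    rw [mk_prod]
    simp only [Cardinal.lift_id, mk_set]
    have h5 : #(ι → s.1) = #s.1 ^ #ι := by
      rw [power_def]
    rw [h5]
    exact (mul_le_mul' h2 (hpow _ s.2)).trans_eq (mul_eq_self hlam)
  refine (Cardinal.sum_le_sum _ (fun _ => lam) h4).trans ?_
  rw [sum_const', mul_comm]
  exact (mul_le_mul' le_rfl h𝒮).trans_eq (mul_eq_self hlam)

end IPath
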