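import Pool.Agent.Work.MP_820435_lc.Enum

/-!
# Diamond at the successor of an uncountable cardinal (Shelah's theorem)
-/

open Ordinal Cardinal Set Order

universe u

namespace IPath

/-- Diamond for the well-order `K`. -/
def Dia (K : Type u) [LinearOrder K] : Prop :=
  ∃ S : K → Set K, ∀ (X : Set K) (f : K → K), ∃ δ, (Iio δ).Nonempty ∧ (∀ a < δ, f a < δ) ∧
    ∀ a < δ, (a ∈ S δ ↔ a ∈ X)

section shelah

variable {lam : Cardinal.{u}}

/-- A regular cardinal different from the cofinality. -/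
theorem exists_regular_ne (hlam : ℵ₀ < lam) :
    ∃ θ : Cardinal.{u}, θ.IsRegular ∧ θ ≤ lam ∧ θ ≠ lam.ord.cof := by
  by_cases h1 : lam.ord.cof = ℵ₀
  · refine ⟨ℵ₁, isRegular_aleph_one, ?_, ?_⟩
    · rw [← succ_aleph0]
      exact succ_le_of_lt hlam
    · rw [h1]
      exact aleph0_lt_aleph_one.ne'
  · exact ⟨ℵ₀, isRegular_aleph0, hlam.le, fun h => h1 h.symm⟩

/-- The enumeration of the small pieces. -/
theorem exists_enum {K Q : Type u} [LinearOrder K] [WellFoundedLT K]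
    (hK : otp K = (succ lam).ord) (hlam : ℵ₀ ≤ lam) (h2 : 2 ^ lam = succ lam) (hQ : #Q ≤ lam) :
    ∃ E : K → Set (Q × K), ∀ (Z : Set (Q × K)) (α : K), ∃ β, E β = {x | x ∈ Z ∧ x.2 < α} := by
  classical
  have hKc : #K = succ lam := by
    have := congrArg Ordinal.card hK
    rwa [card_type, card_ord] at this
  have hne : Nonempty K := by
    rw [← mk_ne_zero_iff, hKc]
    exact (Cardinal.succ_pos _).ne'
  obtain ⟨k0⟩ := hne
  have hcard : #(Σ α : K, Set (Q × Iio α)) ≤ #K := by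
    rw [mk_sigma]
    refine (Cardinal.sum_le_sum _ (fun _ => succ lam) ?_).trans ?_
    · intro α
      rw [mk_set, ← h2]
      refine power_le_power_left two_ne_zero ?_
      rw [mk_prod]
      simp only [Cardinal.lift_id]
      have h3 : #(Iio α) ≤ lam := by
        rw [← lt_succ_iff]
        exact (mk_Iio_lt α (by rw [hKc]; exact hK.symm)).trans_eq hKc
      exact (mul_le_mul' hQ h3).trans_eq (mul_eq_self hlam)
    · rw [sum_const', hKc]
      exact (mul_eq_self (hlam.trans (le_succ _))).le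
  obtain ⟨e⟩ := hcard
  have hne2 : Nonempty (Σ α : K, Set (Q × Iio α)) := ⟨⟨k0, ∅⟩⟩
  refine ⟨fun β => {x | ∃ hx : x.2 < (Function.invFun e β).1,
    (⟨x.1, ⟨x.2, hx⟩⟩ : Q × Iio (Function.invFun e β).1) ∈ (Function.invFun e β).2}, ?_⟩
  intro Z α
  refine ⟨e ⟨α, {x | (x.1, x.2.1) ∈ Z}⟩, ?_⟩
  have h3 : Function.invFun e (e ⟨α, {x | (x.1, x.2.1) ∈ Z}⟩) = ⟨α, {x | (x.1, x.2.1) ∈ Z}⟩ :=
    Function.leftInverse_invFun e.injective _
  ext ⟨q, a⟩
  rw [mem_ofPred_eq]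
  constructor
  · rintro ⟨hx, h4⟩
    have key : ∀ y : (Σ α : K, Set (Q × Iio α)), y = ⟨α, {x | (x.1, x.2.1) ∈ Z}⟩ →
        ∀ (hx : a < y.1), (⟨q, ⟨a, hx⟩⟩ : Q × Iio y.1) ∈ y.2 → (q, a) ∈ Z ∧ a < α := by
      rintro y rfl hx h5
      exact ⟨h5, hx⟩
    exact key _ h3 hx h4
  · rintro ⟨h4, h5⟩
    have key : ∀ y : (Σ α : K, Set (Q × Iio α)), y = ⟨α, {x | (x.1, x.2.1) ∈ Z}⟩ →
        ∃ (hx : a < y.1), (⟨q, ⟨a, hx⟩⟩ : Q × Iio y.1) ∈ y.2 := by
      rintro y rfl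
      exact ⟨h5, h4⟩
    exact key _ h3

/-- The pigeonhole principle for two different regular cardinals. -/
theorem exists_cofinal_index {θ : Cardinal.{u}} (hθ : θ.IsRegular) {Λ : Type u} [LinearOrder Λ]
    {s : Set Λ} (hs : IsCofinal s) (hsc : #s = Order.cof Λ) (hne : θ ≠ Order.cof Λ)
    {Θ : Type u} [LinearOrder Θ] [WellFoundedLT Θ] (hΘ : otp Θ = θ.ord) (r : Θ → s) :
    ∃ i : s, ∀ ξ : Θ, ∃ ξ' ≥ ξ, (r ξ').1 ≤ i.1 := by
  have hΘc : #Θ = θ := by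
    have := congrArg Ordinal.card hΘ
    rwa [card_type, card_ord] at this
  rcases lt_or_gt_of_ne hne with h1 | h1
  · -- few values: bounded
    have h2 : ¬ IsCofinal (range (fun ξ => (r ξ).1)) := by
      intro h3
      have h4 : Order.cof Λ ≤ #(range (fun ξ => (r ξ).1)) := Order.cof_le h3
      have h5 : #(range (fun ξ => (r ξ).1)) ≤ θ := mk_range_le.trans_eq hΘc
      exact absurd (h4.trans h5) (not_le.2 h1)
    rw [IsCofinal] at h2
    push Not at h2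
    obtain ⟨x, hx⟩ := h2
    obtain ⟨y, hy, hxy⟩ := hs x
    exact ⟨⟨y, hy⟩, fun ξ => ⟨ξ, le_rfl, ((hx _ (mem_range_self ξ)).le).trans hxy⟩⟩
  · by_contra hcon
    push Not at hcon
    choose b hb using hcon
    obtain ⟨ξ, hξ⟩ := exists_gt_all hθ hΘ (I := s) (by rw [hsc]; exact h1) b
    exact absurd (hb (r ξ) ξ (hξ _).le) (not_lt.2 le_rfl)

/-- Claim P: the approximations of a set are caught cofinally often. -/
theorem exists_catch {K Q Λ : Type u} [LinearOrder K] [WellFoundedLT K] [LinearOrder Λ]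
    [WellFoundedLT Λ] (hK : otp K = (succ lam).ord) (hlam : ℵ₀ < lam)
    (hΛ : otp Λ = lam.ord)
    {s : Set Λ} (hs : IsCofinal s) (hsc : #s = Order.cof Λ)
    (e : ∀ δ : K, Iio δ → Λ)
    (E : K → Set (Q × K)) (hE : ∀ (Z : Set (Q × K)) (α : K), ∃ β, E β = {x | x ∈ Z ∧ x.2 < α})
    (Z : Set (Q × K)) (f : K → K) :
    ∃ δ : K, (Iio δ).Nonempty ∧ (∀ a < δ, f a < δ) ∧ ∃ i : s, ∀ a < δ, ∃ α β : K,
      ∃ (hα : α < δ) (hβ : β < δ), e δ ⟨α, hα⟩ ≤ i.1 ∧ e δ ⟨β, hβ⟩ ≤ i.1 ∧ a < α ∧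
        E β = {x | x ∈ Z ∧ x.2 < α} := by
  classical
  have hreg : (succ lam).IsRegular := isRegular_succ hlam.le
  have hKc : #K = succ lam := by
    have := congrArg Ordinal.card hK
    rwa [card_type, card_ord] at this
  have hne : Nonempty K := by
    rw [← mk_ne_zero_iff, hKc]
    exact (Cardinal.succ_pos _).ne'
  obtain ⟨θ, hθ, hθlam, hθne⟩ := exists_regular_ne hlam
  have hcofΛ : Order.cof Λ = lam.ord.cof := by
    rw [← hΛ]
    exact (cof_type _).symm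
  rw [← hcofΛ] at hθne
  choose bt hbt using hE Z
  -- bounds
  have hbd : ∀ k : K, ∃ k', ∀ a ≤ k, f a < k' ∧ bt a < k' ∧ a < k' := by
    intro k
    have h1 : #(Iic k) < succ lam := mk_Iic_lt' hreg.aleph0_le hK k
    obtain ⟨k1, hk1⟩ := exists_gt_all hreg hK h1 (fun a => f a.1)
    obtain ⟨k2, hk2⟩ := exists_gt_all hreg hK h1 (fun a => bt a.1)
    obtain ⟨k3, hk3⟩ := exists_gt_all hreg hK h1 (fun a => a.1)
    refine ⟨max k1 (max k2 k3), fun a ha => ⟨?_, ?_, ?_⟩⟩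
    · exact (hk1 ⟨a, ha⟩).trans_le (le_max_left _ _)
    · exact (hk2 ⟨a, ha⟩).trans_le ((le_max_left _ _).trans (le_max_right _ _))
    · exact (hk3 ⟨a, ha⟩).trans_le ((le_max_right _ _).trans (le_max_right _ _))
  choose nx hnx using hbd
  set Θ : Type u := θ.ord.ToType with hΘdef
  have hΘ : otp Θ = θ.ord := type_toType _
  have hΘc : #Θ = θ := by rw [hΘdef, mk_toType, card_ord]
  have hrec : ∃ x : Θ → K, ∀ ξ, ∀ η < ξ, nx (x η) ≤ x ξ := by
    have := exists_rec (K := Θ) (A := K) (fun ξ x k => ∀ η < ξ, nx (x η) ≤ k) ?_ ?_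
    · exact this
    · intro j s s' x hss h1 η hη
      rw [← hss η hη]
      exact h1 η hη
    · intro ξ x _
      have h1 : #(Iio ξ) < succ lam :=
        (mk_subtype_le _).trans_lt (by rw [hΘc]; exact lt_succ_of_le hθlam)
      obtain ⟨k, hk⟩ := exists_gt_all hreg hK h1 (fun η => nx (x η.1))
      exact ⟨k, fun η hη => (hk ⟨η, hη⟩).le⟩
  obtain ⟨x, hx⟩ := hrec
  have hub : ({k : K | ∀ ξ, x ξ < k}).Nonempty := by
    have h1 : #Θ < succ lam := by rw [hΘc]; exact lt_succ_of_le hθlam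
    obtain ⟨k, hk⟩ := exists_gt_all hreg hK h1 x
    exact ⟨k, hk⟩
  obtain ⟨δ, hδ, hδmin⟩ := wellFounded_lt.has_min _ hub
  have hlim : ∀ ξ : Θ, ∃ ξ', ξ < ξ' := by
    intro ξ
    have h1 : IsSuccLimit (otp Θ) := by
      rw [hΘ]
      exact isSuccLimit_ord hθ.aleph0_le
    have h2 : NoMaxOrder Θ := isSuccPrelimit_type_lt_iff.1 h1.isSuccPrelimit
    exact exists_gt ξ
  have hlt : ∀ a < δ, ∃ ξ, a ≤ x ξ := by
    intro a ha
    by_contra h1
    push Not at h1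
    exact hδmin a h1 ha
  have hcl : ∀ a < δ, f a < δ := by
    intro a ha
    obtain ⟨ξ, hξ⟩ := hlt a ha
    obtain ⟨ξ', hξ'⟩ := hlim ξ
    exact ((hnx _ a hξ).1.trans_le (hx ξ' ξ hξ')).trans (hδ ξ')
  have hbl : ∀ ξ, bt (x ξ) < δ := by
    intro ξ
    obtain ⟨ξ', hξ'⟩ := hlim ξ
    exact ((hnx _ (x ξ) le_rfl).2.1.trans_le (hx ξ' ξ hξ')).trans (hδ ξ')
  have hmono : ∀ ξ ξ', ξ < ξ' → x ξ < x ξ' := by
    intro ξ ξ' h1
    exact (hnx _ (x ξ) le_rfl).2.2.trans_le (hx ξ' ξ h1)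
  have hr : ∀ ξ, ∃ r : s, e δ ⟨x ξ, hδ ξ⟩ ≤ r.1 ∧ e δ ⟨bt (x ξ), hbl ξ⟩ ≤ r.1 := by
    intro ξ
    obtain ⟨y, hy, h1⟩ := hs (max (e δ ⟨x ξ, hδ ξ⟩) (e δ ⟨bt (x ξ), hbl ξ⟩))
    exact ⟨⟨y, hy⟩, (le_max_left _ _).trans h1, (le_max_right _ _).trans h1⟩
  choose r hr using hr
  obtain ⟨i, hi⟩ := exists_cofinal_index hθ hs hsc hθne hΘ r
  refine ⟨δ, ?_, hcl, i, ?_⟩
  · have hΘne : Nonempty Θ := by
      rw [← mk_ne_zero_iff, hΘc]
      exact hθ.pos.ne'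
    obtain ⟨ξ⟩ := hΘne
    exact ⟨x ξ, hδ ξ⟩
  · intro a ha
    obtain ⟨ξ, hξ⟩ := hlt a ha
    obtain ⟨ξ', hξ'⟩ := hlim ξ
    obtain ⟨ξ'', h1, h2⟩ := hi ξ'
    refine ⟨x ξ'', bt (x ξ''), hδ _, hbl _, (hr ξ'').1.trans h2, (hr ξ'').2.trans h2, ?_, hbt _⟩
    exact hξ.trans_lt (hmono _ _ (hξ'.trans_le h1))

/-- **Shelah's theorem.** Diamond holds at the successor of an uncountable cardinal `lam`
with `2 ^ lam = lam⁺`. -/
theorem dia_of_two_power {K : Type u} [LinearOrder K] [WellFoundedLT K]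
    (hK : otp K = (succ lam).ord) (hlam : ℵ₀ < lam) (h2 : 2 ^ lam = succ lam) : Dia K := by
  classical
  have hreg : (succ lam).IsRegular := isRegular_succ hlam.le
  have hKc : #K = succ lam := by
    have := congrArg Ordinal.card hK
    rwa [card_type, card_ord] at this
  set Λ : Type u := lam.ord.ToType with hΛdef
  have hΛ : otp Λ = lam.ord := type_toType _
  have hΛc : #Λ = lam := by rw [hΛdef, mk_toType, card_ord]
  obtain ⟨s, hs, hsc⟩ := Order.exists_cof_eq Λ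
  have hsle : #s ≤ lam := (mk_subtype_le _).trans_eq hΛc
  have hQ : #(s × Λ) ≤ lam := by
    rw [mk_prod]
    simp only [Cardinal.lift_id]
    exact (mul_le_mul' hsle hΛc.le).trans_eq (mul_eq_self hlam.le)
  obtain ⟨E, hE⟩ := exists_enum hK hlam.le h2 hQ
  have hinj : ∀ δ : K, ∃ e : Iio δ → Λ, Function.Injective e := by
    intro δ
    have h3 : #(Iio δ) ≤ #Λ := by
      rw [hΛc, ← lt_succ_iff]
      exact (mk_Iio_lt δ (by rw [hKc]; exact hK.symm)).trans_eq hKc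
    obtain ⟨e⟩ := h3
    exact ⟨e, e.injective⟩
  choose e he using hinj
  -- the members of the small pieces
  set A : K → s → Set K := fun δ i => {a | ∃ h : a < δ, e δ ⟨a, h⟩ ≤ i.1} with hA
  have hAc : ∀ δ i, #(A δ i) < lam := by
    intro δ i
    have h3 : #(Iic i.1) < lam := mk_Iic_lt' hlam.le hΛ i.1
    refine lt_of_le_of_lt ?_ h3
    refine mk_le_of_injective (f := fun a : A δ i => (⟨e δ ⟨a.1, a.2.choose⟩, a.2.choose_spec⟩ :
      Iic i.1)) ?_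
    intro a b hab
    have h4 := he δ (congrArg Subtype.val hab)
    simp only [Subtype.mk.injEq] at h4
    exact Subtype.ext h4
  -- the uniform claim
  have hunif : ∃ i : s, ∀ (Z : Set (Λ × K)) (f : K → K), ∃ δ : K, (Iio δ).Nonempty ∧
      (∀ a < δ, f a < δ) ∧ ∀ a < δ, ∃ α ∈ A δ i, ∃ β ∈ A δ i, a < α ∧
        ∀ l x, ((i, l), x) ∈ E β ↔ (l, x) ∈ Z ∧ x < α := by
    by_contra hcon
    push Not at hcon
    choose Z f hZf using hcon
    have hfb : ∀ a : K, ∃ k, ∀ i : s, f i a < k := fun a =>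
      exists_gt_all hreg hK (hsle.trans_lt (lt_succ _)) (fun i => f i a)
    choose g hg using hfb
    obtain ⟨δ, hne, hcl, i, hi⟩ := exists_catch hK hlam hΛ hs hsc e E hE
      {x | (x.1.2, x.2) ∈ Z x.1.1} g
    obtain ⟨a, ha, h3⟩ := hZf i δ hne (fun a ha => (hg a i).trans (hcl a ha))
    obtain ⟨α, β, hα, hβ, h4, h5, h6, h7⟩ := hi a ha
    obtain ⟨l, x, h8⟩ := h3 α ⟨hα, h4⟩ β ⟨hβ, h5⟩ h6
    refine h8.elim ?_ ?_
    · rintro ⟨h9, h10⟩
      rw [h7] at h9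
      exact absurd h9.2 (not_lt.2 (h10 h9.1))
    · rintro ⟨h9, h10⟩
      apply h9
      rw [h7]
      exact h10
  obtain ⟨i, hi⟩ := hunif
  by_contra hnd
  rw [Dia] at hnd
  push Not at hnd
  -- the guesses
  set G : (Λ → Set K × (K → K)) → Λ → K → Set K := fun s l δ =>
    {a | ∃ α ∈ A δ i, ∃ β ∈ A δ i, (∀ l' < l, ∀ x, ((i, l'), x) ∈ E β ↔ x ∈ (s l').1 ∧ x < α) ∧
      ((i, l), a) ∈ E β} with hG
  have hnon : Nonempty (Set K × (K → K)) := ⟨(∅, id)⟩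
  have hrec : ∃ s : Λ → Set K × (K → K), ∀ l, ∀ δ, (Iio δ).Nonempty → (∀ a < δ, (s l).2 a < δ) →
      ∃ a < δ, ¬ (a ∈ G s l δ ↔ a ∈ (s l).1) := by
    have := exists_rec (K := Λ) (A := Set K × (K → K)) (fun l s x => ∀ δ, (Iio δ).Nonempty →
      (∀ a < δ, x.2 a < δ) → ∃ a < δ, ¬ (a ∈ G s l δ ↔ a ∈ x.1)) ?_ ?_
    · exact this
    · intro l s s' x hss h3 δ hne hcl
      have h4 : G s l δ = G s' l δ := by
        ext a
        simp only [hG, mem_ofPred_eq]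
        constructor
        · rintro ⟨α, hα, β, hβ, h5, h6⟩
          refine ⟨α, hα, β, hβ, fun l' hl' x => ?_, h6⟩
          rw [h5 l' hl' x, hss l' hl']
        · rintro ⟨α, hα, β, hβ, h5, h6⟩
          refine ⟨α, hα, β, hβ, fun l' hl' x => ?_, h6⟩
          rw [h5 l' hl' x, hss l' hl']
      rw [← h4]
      exact h3 δ hne hcl
    · intro l s _
      obtain ⟨X, f, h3⟩ := hnd (G s l)
      refine ⟨(X, f), fun δ hne hcl => ?_⟩
      obtain ⟨a, ha, h4⟩ := h3 δ hne hcl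
      refine ⟨a, ha, fun h5 => ?_⟩
      refine h4.elim ?_ ?_
      · rintro ⟨h6, h7⟩
        exact h7 (h5.1 h6)
      · rintro ⟨h6, h7⟩
        exact h6 (h5.2 h7)
  obtain ⟨z, hz⟩ := hrec
  have hfb : ∀ a : K, ∃ k, ∀ l : Λ, (z l).2 a < k := fun a =>
    exists_gt_all hreg hK (hΛc.trans_lt (lt_succ _)) (fun l => (z l).2 a)
  choose g hg using hfb
  obtain ⟨δ, hne, hcl, h3⟩ := hi {x | x.2 ∈ (z x.1).1} g
  -- the pairs
  have hpair : ∀ l : Λ, ∃ p : A δ i × A δ i, (∀ l' < l, ∀ x, ((i, l'), x) ∈ E p.2.1 ↔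
      x ∈ (z l').1 ∧ x < p.1.1) ∧ ¬ ∀ x, ((i, l), x) ∈ E p.2.1 ↔ x ∈ (z l).1 ∧ x < p.1.1 := by
    intro l
    by_contra hcon
    push Not at hcon
    obtain ⟨a, ha, h4⟩ := hz l δ hne (fun a ha => (hg a l).trans (hcl a ha))
    apply h4
    constructor
    · rintro ⟨α, hα, β, hβ, h5, h6⟩
      exact (((hcon (⟨α, hα⟩, ⟨β, hβ⟩) h5) a).1 h6).1
    · intro h5
      obtain ⟨α, hα, β, hβ, h6, h7⟩ := h3 a ha
      refine ⟨α, hα, β, hβ, fun l' _ x => ?_, ?_⟩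
      · exact h7 l' x
      · exact (h7 l a).2 ⟨h5, h6⟩
  choose p hp using hpair
  have hpi : Function.Injective p := by
    intro l l' hll
    by_contra hne'
    rcases lt_or_gt_of_ne hne' with h4 | h4
    · apply (hp l).2
      rw [hll]
      exact (hp l').1 l h4
    · apply (hp l').2
      rw [← hll]
      exact (hp l).1 l' h4
  have h4 : lam ≤ #(A δ i × A δ i) := by
    rw [← hΛc]
    exact mk_le_of_injective hpi
  refine absurd h4 (not_le.2 ?_)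
  rw [mk_prod]
  simp only [Cardinal.lift_id]
  exact mul_lt_of_lt hlam.le (hAc δ i) (hAc δ i)

end shelah

end IPath
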