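import Pool.Agent.Work.MP_820435_lc.GoodS
import Pool.Agent.Work.MP_820435_lc.Strong

/-!
# Two more exponents above a successor cardinal
-/

open Ordinal Cardinal Set Order

universe u

namespace IPath

variable {Λ : Type u} {μ c κ θ ν : Cardinal.{u}} {β γ ξ : Ordinal.{u}}

theorem exists_upper {K ι : Type u} [LinearOrder K] [WellFoundedLT K] (hκ : κ.IsRegular)
    (hK : otp K = κ.ord) (hι : #ι < κ) (F : ι → K) : ∃ k, ∀ i, F i < k := by
  have hKc : #K = κ := by
    have := congrArg Ordinal.card hK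
    rwa [card_type, card_ord] at this
  have hIic : ∀ x : K, #(Iic x) < κ := by
    intro x
    have h1 : Iic x = Iio x ∪ {x} := by
      ext y
      simp [le_iff_lt_or_eq]
    rw [h1]
    refine card_union_lt hκ.aleph0_le ?_ ?_
    · refine (mk_Iio_lt x ?_).trans_eq hKc
      rw [hKc]
      exact hK.symm
    · rw [mk_singleton]
      exact lt_of_lt_of_le one_lt_aleph0 hκ.aleph0_le
  obtain ⟨k, hk⟩ := exists_forall_notMem hκ hι hKc (fun i => Iic (F i)) (fun i => hIic _)
  exact ⟨k, fun i => not_le.1 (hk i)⟩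

/-- The refined block lemma. -/
theorem block_succ {K Z : Type u} [LinearOrder K] [WellFoundedLT K] [LinearOrder Z]
    [WellFoundedLT Z] (hκ : κ.IsRegular) (hK : otp K = κ.ord) (A : Set (K ×ₗ Z))
    (hξ : IsSuccLimit ξ) (hξκ : ξ.card < κ)
    (h : ∀ f < ξ, κ ≤ #{i : K | κ.ord ^ f ≤ otp (fib A i)}) :
    κ.ord ^ succ ξ ≤ otp A := by
  classical
  have hκ0 : κ.ord ≠ 0 := hκ.ord_pos.ne'
  have hKc : #K = κ := by
    have := congrArg Ordinal.card hK
    rwa [card_type, card_ord] at this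
  -- parts of the set
  have hpart : ∀ i : K, ∃ i' : K, i < i' ∧
      κ.ord ^ ξ ≤ otp (A ∩ {p | i ≤ (ofLex p).1 ∧ (ofLex p).1 < i'} : Set (K ×ₗ Z)) := by
    intro i
    have hex : ∀ f : ξ.ToType, ∃ k : K, i ≤ k ∧
        κ.ord ^ (ToType.mk.symm f).1 ≤ otp (fib A k) := by
      intro f
      by_contra hcon
      push Not at hcon
      have h1 := h (ToType.mk.symm f).1 (ToType.mk.symm f).2
      have h2 : {k : K | κ.ord ^ (ToType.mk.symm f).1 ≤ otp (fib A k)} ⊆ Iio i := by
        intro k hk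
        rw [mem_Iio]
        by_contra hik
        exact absurd (hcon k (not_lt.1 hik)) (not_lt.2 hk)
      have h3 := h1.trans (mk_le_mk_of_subset h2)
      have h4 : #(Iio i) < κ := by
        refine (mk_Iio_lt i ?_).trans_eq hKc
        rw [hKc]
        exact hK.symm
      exact absurd h3 (not_le.2 h4)
    choose F hF1 hF2 using hex
    obtain ⟨i', hi'⟩ := exists_upper (ι := Option ξ.ToType) hκ hK (by
      rw [mk_option, mk_toType]
      exact add_lt_of_lt hκ.aleph0_le hξκ (one_lt_aleph0.trans_le hκ.aleph0_le))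
      (fun o => o.elim i F)
    refine ⟨i', hi' none, ?_⟩
    rw [opow_le_of_isSuccLimit hκ0 hξ]
    intro f hf
    have h1 := hF2 (ToType.mk ⟨f, hf⟩)
    simp only [OrderIso.symm_apply_apply] at h1
    refine h1.trans ?_
    refine otp_le_of_strictMono (fun z => ⟨toLex (F (ToType.mk ⟨f, hf⟩), z.1), z.2,
      hF1 _, hi' (some _)⟩) ?_
    intro z z' hz
    exact Prod.Lex.lt_iff.2 (Or.inr ⟨rfl, hz⟩)
  have key : ∀ g : Ordinal.{u}, g < κ.ord → ∃ i : K,
      κ.ord ^ ξ * g ≤ otp (A ∩ {p | (ofLex p).1 < i} : Set (K ×ₗ Z)) := by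
    intro g
    induction g using limitRecOn with
    | zero =>
      intro _
      have hne : Nonempty K := by
        rw [← mk_ne_zero_iff, hKc]
        exact hκ.pos.ne'
      obtain ⟨i⟩ := hne
      exact ⟨i, by simp⟩
    | add_one g ih =>
      intro hg
      obtain ⟨i, hi⟩ := ih ((lt_add_one g).trans hg)
      obtain ⟨i', hi', h1⟩ := hpart i
      refine ⟨i', ?_⟩
      rw [mul_add_one]
      refine (add_le_add hi h1).trans (otp_add_le ?_ ?_ ?_)
      · rintro p ⟨hp1, hp2⟩
        exact ⟨hp1, hp2.trans hi'⟩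
      · rintro p ⟨hp1, hp2⟩
        exact ⟨hp1, hp2.2⟩
      · rintro p ⟨_, hp⟩ q ⟨_, hq, _⟩
        exact Prod.Lex.lt_iff.2 (Or.inl (lt_of_lt_of_le hp hq))
    | limit g hg ih =>
      intro hgκ
      have hex : ∀ x : g.ToType, ∃ i : K, κ.ord ^ ξ * (ToType.mk.symm x).1 ≤
          otp (A ∩ {p | (ofLex p).1 < i} : Set (K ×ₗ Z)) := fun x =>
        ih _ (ToType.mk.symm x).2 (lt_trans (ToType.mk.symm x).2 hgκ)
      choose F hF using hex
      obtain ⟨i', hi'⟩ := exists_upper hκ hK (by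
        rw [mk_toType]
        exact lt_ord.1 hgκ) F
      refine ⟨i', ?_⟩
      rw [mul_le_iff_of_isSuccLimit hg]
      intro x hx
      have h1 := hF (ToType.mk ⟨x, hx⟩)
      simp only [OrderIso.symm_apply_apply] at h1
      refine h1.trans (otp_set_mono ?_)
      rintro p ⟨hp1, hp2⟩
      exact ⟨hp1, lt_trans hp2 (hi' _)⟩
  rw [Ordinal.opow_succ, mul_le_iff_of_isSuccLimit (isSuccLimit_ord hκ.aleph0_le)]
  intro g hg
  obtain ⟨i, hi⟩ := key g hg
  exact hi.trans (otp_set_mono inter_subset_left)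

section

variable (hν : ℵ₀ ≤ ν) (hξ : IsSuccLimit ξ) (hξν : ξ.card ≤ ν)
  (H : ∀ ζ < ξ, GoodS μ Λ ν ((succ ν).ord ^ ζ))

include hν hξ hξν H

theorem goodS_at : GoodS μ Λ (succ ν) ((succ ν).ord ^ ξ) := by
  have hκ : (succ ν).IsRegular := isRegular_succ hν
  have hκ0 : (succ ν).ord ≠ 0 := hκ.ord_pos.ne'
  intro Y _ _ hY b hb
  by_contra hcon
  rw [not_lt] at hcon
  have hex : ∀ j : badC b, ∃ f : ξ.ToType, otp {y | j.1 ∉ b y} <
      (succ ν).ord ^ (ToType.mk.symm f).1 := by
    intro j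
    have hj : otp {y | j.1 ∉ b y} < otp Y := j.2
    rw [hY, lt_opow_of_isSuccLimit hκ0 hξ] at hj
    obtain ⟨f, hf, h1⟩ := hj
    refine ⟨ToType.mk ⟨f, hf⟩, ?_⟩
    simpa using h1
  choose f hf using hex
  obtain ⟨a, ha⟩ := infinite_pigeonhole_card f (succ ν) hcon hκ.aleph0_le (by
    rw [hκ.cof_ord, mk_toType]
    exact lt_succ_of_le hξν)
  have ha1 : (ToType.mk.symm a).1 < ξ := (ToType.mk.symm a).2
  have h1 := goodS_limit_aux b hb (f := (succ ν).ord ^ (ToType.mk.symm a).1) (by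
    rw [hY]
    exact opow_le_opow_right (pos_iff_ne_zero.2 hκ0) ha1.le) (H _ ha1)
  have h2 : (Subtype.val '' (f ⁻¹' {a})) ⊆
      {j | otp {y | j ∉ b y} < (succ ν).ord ^ (ToType.mk.symm a).1} := by
    rintro _ ⟨j, hj, rfl⟩
    rw [mem_preimage, mem_singleton_iff] at hj
    rw [mem_ofPred_eq, ← hj]
    exact hf j
  have h3 := (mk_le_mk_of_subset h2).trans_lt h1
  rw [mk_image_eq Subtype.val_injective] at h3
  exact absurd ((le_succ ν).trans ha) (not_le.2 h3)

theorem goodS_succ_at : GoodS μ Λ (succ ν) ((succ ν).ord ^ succ ξ) := by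
  have hκ : (succ ν).IsRegular := isRegular_succ hν
  have hκ0 : (succ ν).ord ≠ 0 := hκ.ord_pos.ne'
  refine goodS_of_model ((succ ν).ord.ToType ×ₗ ((succ ν).ord ^ ξ).ToType) ?_ ?_
  · rw [otp_prodLex, otp_toType, otp_toType, Ordinal.opow_succ]
  intro b hb
  by_contra hcon
  rw [not_lt] at hcon
  have hex : ∀ j : badC b, ∃ f : ξ.ToType, ∃ S : Set (succ ν).ord.ToType, #S < succ ν ∧
      ∀ i, i ∉ S → otp (fib {p | j.1 ∉ b p} i) < (succ ν).ord ^ (ToType.mk.symm f).1 := by
    intro j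
    by_contra hcon2
    push Not at hcon2
    have hj : otp {y | j.1 ∉ b y} < otp ((succ ν).ord.ToType ×ₗ ((succ ν).ord ^ ξ).ToType) := j.2
    rw [otp_prodLex, otp_toType, otp_toType, ← Ordinal.opow_succ] at hj
    apply absurd hj
    rw [not_lt]
    apply block_succ hκ (otp_toType _) _ hξ (lt_succ_of_le hξν)
    intro f hf
    by_contra hlt
    rw [not_le] at hlt
    obtain ⟨i, hi, h1⟩ := hcon2 (ToType.mk ⟨f, hf⟩) _ hlt
    simp only [OrderIso.symm_apply_apply] at h1
    exact hi h1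
  choose f S hS1 hS2 using hex
  obtain ⟨a, ha⟩ := infinite_pigeonhole_card f (succ ν) hcon hκ.aleph0_le (by
    rw [hκ.cof_ord, mk_toType]
    exact lt_succ_of_le hξν)
  have ha1 : (ToType.mk.symm a).1 < ξ := (ToType.mk.symm a).2
  obtain ⟨J, hJ, hJc⟩ := le_mk_iff_exists_subset.1 ((le_succ ν).trans ha)
  obtain ⟨i, hi⟩ := exists_forall_notMem hκ (I := J) (by rw [hJc]; exact lt_succ ν)
    (mk_ord_toType' (succ ν)) (fun j => S j.1) (fun j => hS1 j.1)
  have h1 := goodS_limit_aux (fun z : ((succ ν).ord ^ ξ).ToType => b (toLex (i, z)))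
    (fun z => hb _) (f := (succ ν).ord ^ (ToType.mk.symm a).1) (by
    rw [otp_toType]
    exact opow_le_opow_right (pos_iff_ne_zero.2 hκ0) ha1.le) (H _ ha1)
  have h2 : (Subtype.val '' J) ⊆ {j | otp {z : ((succ ν).ord ^ ξ).ToType |
      j ∉ b (toLex (i, z))} < (succ ν).ord ^ (ToType.mk.symm a).1} := by
    rintro _ ⟨j, hj, rfl⟩
    have h3 := hJ hj
    rw [mem_preimage, mem_singleton_iff] at h3
    rw [mem_ofPred_eq, ← h3]
    exact hS2 j i (hi ⟨j, hj⟩)
  have h3 := (mk_le_mk_of_subset h2).trans_lt h1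
  rw [mk_image_eq Subtype.val_injective, hJc] at h3
  exact h3.false

theorem goodS_below_two (β : Ordinal.{u}) : β < (succ ν).ord ^ (ξ + 2) →
    GoodS μ Λ (succ ν) β := by
  have hκ : (succ ν).IsRegular := isRegular_succ hν
  have hκ1 : 1 < (succ ν).ord := by
    rw [lt_ord]
    simpa using hκ.nat_lt 1
  induction β using WellFoundedLT.induction with
  | ind β ih =>
    intro hβ
    rcases eq_or_ne β 0 with rfl | h0
    · exact goodS_zero hκ.pos
    · have he : log (succ ν).ord β < ξ + 2 := by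
        have h1 := (opow_log_le_self (succ ν).ord h0).trans_lt hβ
        exact (opow_lt_opow_iff_right hκ1).1 h1
      have hgood : GoodS μ Λ (succ ν) ((succ ν).ord ^ log (succ ν).ord β) := by
        have h2 : ξ + 2 = succ (succ ξ) := by
          rw [succ_eq_add_one, succ_eq_add_one, add_assoc]
          norm_num
        rw [h2, lt_succ_iff, le_succ_iff_eq_or_le] at he
        rcases he with he | he
        · rw [he]
          exact goodS_succ_at hν hξ hξν H
        · rcases eq_or_lt_of_le he with he | he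
          · rw [he]
            exact goodS_at hν hξ hξν H
          · exact (H _ he).mono (le_succ ν)
      have hc : β / (succ ν).ord ^ log (succ ν).ord β < (succ ν).ord := div_opow_log_lt _ hκ1
      have hr : β % (succ ν).ord ^ log (succ ν).ord β < β := mod_opow_log_lt_self _ h0
      have h4 := (hgood.mul hκ (lt_ord.1 hc)).add hκ.aleph0_le (ih _ hr (hr.trans hβ))
      rwa [div_add_mod] at h4

end

/-- The exponent `ν + 2`. -/
theorem goodS_nu (hν : ℵ₀ ≤ ν) (hμ : μ ≤ ℵ₀ ∨ μ < ν) (ζ : Ordinal.{u}) (hζ : ζ < ν.ord) :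
    GoodS μ Λ ν ((succ ν).ord ^ ζ) := by
  have hκ : (succ ν).IsRegular := isRegular_succ hν
  by_cases hreg : ν.IsRegular
  · refine goodS_opow_small (hν.trans (le_succ ν)) hreg (lt_succ ν) ?_ ?_ ζ hζ
    · rw [hκ.cof_ord]
      exact (lt_succ ν).ne'
    · rcases hμ with h | h
      · exact h.trans hν
      · exact h.le
  · have hν0 : ℵ₀ < ν := by
      refine lt_of_le_of_ne hν ?_
      rintro rfl
      exact hreg isRegular_aleph0
    have hμν : μ < ν := by
      rcases hμ with h | h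
      · exact h.trans_lt hν0
      · exact h
    have hmax : max (max ℵ₀ μ) ζ.card < ν := max_lt (max_lt hν0 hμν) (lt_ord.1 hζ)
    have h1 : (succ (max (max ℵ₀ μ) ζ.card)).IsRegular :=
      isRegular_succ ((le_max_left _ _).trans (le_max_left _ _))
    have h2 : succ (max (max ℵ₀ μ) ζ.card) < ν := by
      refine lt_of_le_of_ne (succ_le_of_lt hmax) ?_
      intro h
      rw [h] at h1
      exact hreg h1
    refine (goodS_opow_small (hν.trans (le_succ ν)) h1 (h2.trans (lt_succ ν)) ?_ ?_ ζ ?_).mono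
      h2.le
    · rw [hκ.cof_ord]
      exact (h2.trans (lt_succ ν)).ne'
    · exact ((le_max_right _ _).trans (le_max_left _ _)).trans (le_succ _)
    · rw [lt_ord]
      exact lt_succ_of_le (le_max_right _ _)

end IPath
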