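import Pool.Agent.Work.MP_820435_lc.RgchG
import Pool.Agent.Work.MP_820435_lc.Two

/-!
# Exponents
-/

open Ordinal Cardinal Set Filter Order

universe u

namespace IPath

variable {Λ : Type u} {A B : Type u} {κ lam θ θ₀ c μ ρ τ τ' ν : Cardinal.{u}}
  {γ χ δ ξ ξ₀ : Ordinal.{u}}

theorem PieceCov.equiv (e : A ≃ B) (h : PieceCov A κ γ c) : PieceCov B κ γ c := by
  obtain ⟨I, d, h1, h2⟩ := h
  refine ⟨I, fun i b => d i (e.symm b), h1, fun g hg => ?_⟩
  obtain ⟨J, hJ1, hJ2⟩ := h2 (fun a => g (e a)) (fun a => hg _)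
  refine ⟨J, hJ1, fun b => ?_⟩
  obtain ⟨i, hi, h3⟩ := hJ2 (e.symm b)
  refine ⟨i, hi, ?_⟩
  rw [e.apply_symm_apply] at h3
  exact h3

theorem MClosed.equiv (e : A ≃ B) (h : MClosed A κ χ) : MClosed B κ χ := by
  intro γ hγ
  obtain ⟨c, hc, h1⟩ := h γ hγ
  exact ⟨c, hc, h1.equiv e⟩

/-- Tameness of a closed initial ordinal. -/
theorem tame_of_mclosed (hκ : ℵ₀ < κ) (hA : ℵ₀ ≤ #A) (h2 : 2 ^ #A < ν)
    (hcof : ν.ord.cof < κ ∨ #A < ν.ord.cof) (hM : MClosed A κ ν.ord) : Tame A κ ν.ord := by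
  classical
  intro 𝓕 h𝓕 h𝓕' g hg
  have hν : ℵ₀ ≤ ν := (hA.trans (cantor _).le).trans h2.le
  obtain ⟨w, hw, hfr⟩ := exists_bound_freq (κ := κ) hν hcof (𝓕 := 𝓕) (Eventually.of_forall hg)
  obtain ⟨c, hc, I, d, hI, hd⟩ := hM w hw
  rw [card_ord] at hc
  have h1 : (𝓕 ⊓ 𝓟 {j | g j < w}).NeBot := frequently_mem_iff_neBot.1 hfr
  have h3 : CountableInterFilter (𝓕 ⊓ 𝓟 {j | g j < w}) :=
    CardinalInterFilter.toCountableInterFilter (c := κ) _ hκ
  obtain ⟨j0, hj0⟩ := hfr.exists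
  have hw0 : 0 < w := pos_of_gt hj0
  have hwf := wf_ltF (𝓕 ⊓ 𝓟 {j | g j < w}) w
  set a : A → w.ToType := fun j => if h : g j < w then ToType.mk ⟨g j, h⟩ else
    ToType.mk ⟨0, hw0⟩ with ha
  set R : I → Set w.ToType := fun i => {x | ∃ b, (x : Ordinal.{u}) = d i b} with hR
  have hRc : ∀ i, #(R i) ≤ #A := by
    intro i
    have h4 : ∀ x : R i, ∃ b, ((x.1 : w.ToType) : Ordinal.{u}) = d i b := fun x => x.2
    choose f hf using h4
    refine mk_le_of_injective (f := f) ?_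
    intro x y hxy
    have h5 : ((x.1 : w.ToType) : Ordinal.{u}) = (y.1 : w.ToType) := by
      rw [hf, hf, hxy]
    exact Subtype.ext (ToType.mk.symm.injective (Subtype.ext h5))
  have hcard : (IsWellFounded.rank (ltF (𝓕 ⊓ 𝓟 {j | g j < w}) w) a).card ≤ max c (2 ^ #A) := by
    refine rank_card_le (θ := κ) _ w ((hA.trans (cantor _).le).trans (le_max_right _ _)) (range R)
      (mk_range_le.trans (hI.trans (le_max_left _ _))) ?_ (le_max_right _ _) ?_ a
    · rintro _ ⟨i, rfl⟩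
      refine (power_le_power_right (hRc i)).trans ?_
      rw [power_self_eq hA]
      exact le_max_right _ _
    · intro f
      obtain ⟨J, hJ1, hJ2⟩ := hd (fun j => (f j : Ordinal.{u})) (fun j => (f j).toOrd.2)
      refine ⟨R '' J, image_subset_range _ _, mk_image_le.trans_lt hJ1, ?_⟩
      intro j
      obtain ⟨i, hi, h4⟩ := hJ2 j
      exact ⟨R i, mem_image_of_mem _ hi, j, h4⟩
  refine ⟨IsWellFounded.rank (ltF (𝓕 ⊓ 𝓟 {j | g j < w}) w) a, ?_, ?_⟩
  · rw [lt_ord]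
    exact hcard.trans_lt (max_lt hc h2)
  · refine RkLE.mono_filter (𝓖 := 𝓕 ⊓ 𝓟 {j | g j < w}) inf_le_left
      ((rkLE_rank (𝓕 ⊓ 𝓟 {j | g j < w}) w a).congr ?_)
    rw [eventually_inf_principal]
    refine Eventually.of_forall fun j hj => ?_
    have hj' : g j < w := hj
    simp [ha, hj']

/-- Limits of a cofinality different from the index. -/
theorem goodS_opow_limit (hlam : ℵ₀ ≤ lam) (hθ : θ.IsRegular) (hδ : IsSuccLimit δ)
    (hcof : δ.cof ≠ θ)
    (H : ∀ e < δ, ∃ e', e ≤ e' ∧ e' < δ ∧ GoodS μ Λ θ (lam.ord ^ e')) :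
    GoodS μ Λ θ (lam.ord ^ δ) := by
  intro Y _ _ hY b hb
  by_contra hcon
  rw [not_lt, le_mk_iff_exists_subset] at hcon
  obtain ⟨J, hJ, hJc⟩ := hcon
  have hlam0 : lam.ord ≠ 0 := by
    rw [Ne, ord_eq_zero]
    exact (aleph0_pos.trans_le hlam).ne'
  have h1 : ∀ j : J, ∃ F < δ, otp {y : Y | j.1 ∉ b y} < lam.ord ^ F := by
    intro j
    have hj := hJ j.2
    simp only [badC, mem_ofPred_eq] at hj
    rw [hY, lt_opow_of_isSuccLimit hlam0 hδ] at hj
    exact hj
  choose F hF1 hF2 using h1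
  obtain ⟨e, he, heθ⟩ : ∃ e < δ, θ ≤ #{j : J | F j < e} := by
    by_contra hcon
    push Not at hcon
    rcases lt_or_gt_of_ne hcof with hc | hc
    · obtain ⟨s, hs1, hs2⟩ := exists_cof_eq (α := δ.ToType)
      rw [cof_toType] at hs2
      have h2 : (⋃ x : s, {j : J | F j < succ ((x.1 : δ.ToType) : Ordinal.{u})}) =
          (Set.univ : Set J) := by
        rw [eq_univ_iff_forall]
        intro j
        obtain ⟨i, hi, hji⟩ := hs1 (ToType.mk ⟨F j, hF1 j⟩)
        rw [mem_iUnion]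
        refine ⟨⟨i, hi⟩, ?_⟩
        rw [mem_ofPred_eq, lt_succ_iff]
        have h3 := ToType.mk.symm.monotone hji
        rw [OrderIso.symm_apply_apply] at h3
        exact h3
      have h3 : #(⋃ x : s, {j : J | F j < succ ((x.1 : δ.ToType) : Ordinal.{u})} : Set J) < θ := by
        rw [card_iUnion_lt_iff_forall_of_isRegular hθ (by rwa [hs2])]
        intro x
        exact hcon _ (hδ.succ_lt (mem_Iio.1 (x.1 : δ.ToType).toOrd.2))
      rw [h2, mk_univ, hJc] at h3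
      exact h3.false
    · have h2 : (⨆ j : J, F j + 1) < δ :=
        iSup_add_one_lt_of_lt_cof (by rwa [hJc]) hF1
      have h3 := hcon _ h2
      have h4 : {j : J | F j < ⨆ j : J, F j + 1} = Set.univ := by
        rw [eq_univ_iff_forall]
        intro j
        exact Ordinal.lt_iSup_add_one F j
      rw [h4, mk_univ, hJc] at h3
      exact h3.false
  obtain ⟨e', hee', he', hgood⟩ := H e he
  have h2 := goodS_limit_aux b hb (f := lam.ord ^ e') (by
    rw [hY]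
    exact opow_le_opow_right (pos_iff_ne_zero.2 hlam0) he'.le) hgood
  have h3 : (Subtype.val '' {j : J | F j < e}) ⊆ {j | otp {y | j ∉ b y} < lam.ord ^ e'} := by
    rintro _ ⟨j, hj, rfl⟩
    rw [mem_ofPred_eq] at hj ⊢
    exact (hF2 j).trans_le (opow_le_opow_right (pos_iff_ne_zero.2 hlam0) (hj.le.trans hee'))
  have h4 := (mk_le_mk_of_subset h3).trans_lt h2
  rw [mk_image_eq Subtype.val_injective] at h4
  exact absurd heθ (not_le.2 h4)

/-- Small ordinals may be added to an exponent. -/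
theorem goodS_opow_add (hlam : ℵ₀ ≤ lam) (hθ : θ.IsRegular) (hθlam : θ < lam)
    (hcof : lam.ord.cof ≠ θ) (h0 : GoodS μ Λ θ (lam.ord ^ ξ₀)) (ξ : Ordinal.{u}) :
    ξ < θ.ord → GoodS μ Λ θ (lam.ord ^ (ξ₀ + ξ)) := by
  induction ξ using limitRecOn with
  | zero =>
    intro _
    rwa [add_zero]
  | add_one ξ ih =>
    intro h
    rw [← add_assoc]
    exact (ih ((lt_add_one ξ).trans h)).opow_succ hlam hθ hθlam hcof
  | limit ξ hξ ih =>
    intro h
    refine goodS_opow_limit hlam hθ (isSuccLimit_add _ hξ) ?_ ?_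
    · rw [Ordinal.cof_add _ hξ.ne_bot]
      exact ((Ordinal.cof_le_card ξ).trans_lt (lt_ord.1 h)).ne
    · intro e he
      rcases lt_or_ge e ξ₀ with h1 | h1
      · refine ⟨ξ₀, h1.le, ?_, h0⟩
        exact lt_add_of_pos_right _ hξ.bot_lt
      · obtain ⟨f, rfl⟩ := exists_add_of_le h1
        have h2 : f < ξ := (add_lt_add_iff_left _).1 he
        exact ⟨ξ₀ + f, le_rfl, he, ih f h2 (h2.trans h)⟩

end IPath
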