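import Pool.Agent.Work.MP_820435_lc.SumRel

/-!
# A fusion of length `ω`
-/

open Ordinal Cardinal Set Order

universe u

namespace IPath

section basic

variable {V : Type u} [LinearOrder V] [WellFoundedLT V]

theorem cover_set {W A A' : Set V} (h : W ⊆ A ∪ A') {τ : Ordinal.{u}} (hW : ω ^ τ ≤ otp W) :
    ω ^ τ ≤ otp (W ∩ A : Set V) ∨ ω ^ τ ≤ otp (W ∩ A' : Set V) := by
  have h1 := cover_opow τ W hW {x : W | x.1 ∈ A} {x : W | x.1 ∈ A'} (by
    rw [eq_univ_iff_forall]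
    intro x
    exact h x.2)
  rw [otp_subtype W (fun y => y ∈ A), otp_subtype W (fun y => y ∈ A')] at h1
  exact h1

theorem otp_lt_ord_of_card {T : Set V} {c : Cardinal.{u}} (h : #T < c) : otp T < c.ord := by
  rw [lt_ord, card_type]
  exact h

/-- Initial segments. -/
theorem exists_initial (W : Set V) {o : Ordinal.{u}} (ho : o ≤ otp W) :
    ∃ C ⊆ W, otp C = o ∧ ∀ x ∈ C, ∀ y ∈ W, y ∉ C → x < y := by
  rw [← otp_toType o, type_le_iff] at ho
  obtain ⟨f⟩ := ho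
  have hf : StrictMono (fun x : o.ToType => (f x : V)) := by
    intro x y hxy
    exact f.map_rel_iff.2 hxy
  refine ⟨range (fun x : o.ToType => (f x : V)), ?_, ?_, ?_⟩
  · rintro _ ⟨x, rfl⟩
    exact (f x).2
  · rw [← image_univ, otp_image _ hf, otp_univ, otp_toType]
  · rintro _ ⟨x, rfl⟩ y hy hyC
    by_contra hcon
    rw [not_lt] at hcon
    rcases eq_or_lt_of_le hcon with h | h
    · exact hyC ⟨x, h.symm⟩
    · obtain ⟨z, hz⟩ := f.mem_range_of_rel (a := x) (b := ⟨y, hy⟩) h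
      exact hyC ⟨z, by simp [hz]⟩

theorem otp_add_le {A B C : Set V} (hA : A ⊆ C) (hB : B ⊆ C) (h : ∀ x ∈ A, ∀ y ∈ B, x < y) :
    otp A + otp B ≤ otp C := by
  rw [← otp_sumLex]
  refine otp_le_of_strictMono (fun p => match (ofLex p) with
    | Sum.inl y => ⟨y.1, hA y.2⟩
    | Sum.inr y => ⟨y.1, hB y.2⟩) ?_
  intro p q hpq
  cases hpq with
  | inl h7 => exact h7
  | inr h7 => exact h7
  | sep a b => exact h _ a.2 _ b.2

theorem otp_le_add_of_subset {A B C : Set V} (hC : C ⊆ A ∪ B)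
    (h : ∀ x ∈ A, ∀ y ∈ B, x < y) : otp C ≤ otp A + otp B := by
  classical
  rw [← otp_sumLex]
  have hex : ∀ x : C, ∃ p : A ⊕ₗ B, x.1 = match (ofLex p) with
      | Sum.inl y => y.1
      | Sum.inr y => y.1 := by
    intro x
    rcases hC x.2 with hx | hx
    · exact ⟨toLex (Sum.inl ⟨x.1, hx⟩), rfl⟩
    · exact ⟨toLex (Sum.inr ⟨x.1, hx⟩), rfl⟩
  choose f hf using hex
  refine otp_le_of_strictMono f ?_
  intro x y hxy
  have h1 : x.1 < y.1 := hxy
  rw [hf x, hf y] at h1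
  by_contra hcon
  rw [not_lt] at hcon
  revert h1
  rw [imp_false, not_lt]
  generalize f x = a at hcon ⊢
  generalize f y = b at hcon ⊢
  cases hcon with
  | inl h => exact h
  | inr h => exact h
  | sep => exact (h _ (Subtype.property _) _ (Subtype.property _)).le

end basic

section points

variable {V : Type u} {G : SimpleGraph V} {P : V → List V}

/-- Many incomparable points in a few large sets. -/
theorem exists_points (hG : ¬ HasRay G) (hP1 : Function.Injective P)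
    (hP2 : ∀ v, (P v).IsChain G.Adj ∧ (P v).Nodup) {κ : Cardinal.{u}} (hκ : κ.IsRegular)
    {ι K : Type u} (hι : #ι < κ) (hK : #K = κ) (W : ι → Set V) (hW : ∀ i, κ ≤ #(W i)) :
    ∃ a : ι → K → V, (∀ i k, a i k ∈ W i) ∧
      ∀ i k i' k', P (a i k) <:+ P (a i' k') → i = i' ∧ k = k' := by
  classical
  choose L hL1 hL2 using fun i => exists_stop P hκ.pos.ne' hG hP2 (W i) (hW i)
  have hN := fun i => card_children P hκ hP1 (W i) (L i) (hL1 i) (hL2 i)
  have hT : #(K × ι × K) ≤ κ := by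
    rw [mk_prod, mk_prod]
    simp only [Cardinal.lift_id]
    rw [hK]
    exact (mul_le_mul' le_rfl (mul_le_mul' hι.le le_rfl)).trans
      (by rw [mul_eq_self hκ.aleph0_le, mul_eq_self hκ.aleph0_le])
  obtain ⟨g, hg1, hg2⟩ := exists_injective_choice hT
    (fun t => {L' : List V | (∃ a, L' = a :: L t.2.1) ∧ (W t.2.1 ∩ cone P L').Nonempty})
    (fun t => hN t.2.1)
  have hfin : ∀ i, ({t : K × ι × K | g t <:+ L i}).Finite := by
    intro i
    have h1 : ({L' : List V | L' <:+ L i}).Finite := by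
      refine (List.finite_toSet (L i).tails).subset ?_
      intro L' hL'
      exact (List.mem_tails L' (L i)).2 hL'
    exact Set.Finite.preimage (f := g) hg1.injOn h1
  obtain ⟨j, hj⟩ := exists_forall_notMem hκ hι hK (fun i => Prod.fst '' {t : K × ι × K | g t <:+ L i})
    (fun i => ((hfin i).image _).lt_aleph0.trans_le hκ.aleph0_le)
  have hj' : ∀ i i' k, ¬ g (j, i', k) <:+ L i := by
    intro i i' k h
    exact hj i ⟨(j, i', k), h, rfl⟩
  choose p hp1 hp2 using fun t => (hg2 t).2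
  refine ⟨fun i k => p (j, i, k), fun i k => hp1 (j, i, k), ?_⟩
  intro i k i' k' hsuf
  have h1 : g (j, i, k) <:+ P (p (j, i', k')) := (hp2 (j, i, k)).trans hsuf
  have h2 : g (j, i', k') <:+ P (p (j, i', k')) := hp2 (j, i', k')
  obtain ⟨a, ha⟩ := (hg2 (j, i, k)).1
  obtain ⟨a', ha'⟩ := (hg2 (j, i', k')).1
  have h3 : g (j, i, k) = g (j, i', k') := by
    rcases List.suffix_or_suffix_of_suffix h1 h2 with h | h
    · rw [ha'] at h ⊢
      rcases List.suffix_cons_iff.1 h with h3 | h3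
      · exact h3
      · exact absurd h3 (hj' _ _ _)
    · rw [ha] at h ⊢
      rcases List.suffix_cons_iff.1 h with h3 | h3
      · exact h3.symm
      · exact absurd h3 (hj' _ _ _)
  have h4 := hg1 h3
  simpa using h4

/-- the points above a set -/
def up (P : V → List V) (S : Set V) : Set V := {v | ∃ x ∈ S, P x <:+ P v}

/-- the points below a set -/
def dn (P : V → List V) (S : Set V) : Set V := {v | ∃ x ∈ S, P v <:+ P x}

theorem dn_card (hP1 : Function.Injective P) {κ : Cardinal.{u}} (hκ : κ.IsRegular) {S : Set V}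
    (hS : #S < κ) : #(dn P S) < κ := by
  have h1 : dn P S = ⋃ x : S, {v | P v <:+ P x.1} := by
    ext v
    simp [dn]
  rw [h1, card_iUnion_lt_iff_forall_of_isRegular hκ hS]
  intro x
  have h2 : ({L' : List V | L' <:+ P x.1}).Finite := by
    refine (List.finite_toSet (P x.1).tails).subset ?_
    intro L' hL'
    exact (List.mem_tails L' (P x.1)).2 hL'
  exact (Set.Finite.preimage (f := P) hP1.injOn h2).lt_aleph0.trans_le hκ.aleph0_le

end points

section step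

variable {V : Type u} [LinearOrder V] [WellFoundedLT V] {G : SimpleGraph V} {P : V → List V}

/-- One step of the fusion. -/
theorem exists_step (hG : ¬ HasRay G) (hP1 : Function.Injective P)
    (hP2 : ∀ v, (P v).IsChain G.Adj ∧ (P v).Nodup) {κ : Cardinal.{u}} (hκ : κ.IsRegular)
    {D : Type u} (hD : #D < κ) (𝒜 : Set (Set V)) (h𝒜 : #𝒜 < κ)
    (hW : ∀ W ∈ 𝒜, κ ≤ #W ∧ ∃ τ : Ordinal.{u}, otp W = ω ^ τ) :
    ∃ S : Set V, (∀ x ∈ S, ∀ y ∈ S, P x <:+ P y → x = y) ∧ S ⊆ ⋃₀ 𝒜 ∧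
      (∀ W ∈ 𝒜, #D ≤ #(S ∩ W : Set V)) ∧
      ∀ W ∈ 𝒜, otp (W \ (up P S ∪ dn P S) : Set V) = otp W := by
  classical
  have hO : #(Option D) < κ := by
    rw [mk_option]
    exact add_lt_of_lt hκ.aleph0_le hD (lt_of_lt_of_le one_lt_aleph0 hκ.aleph0_le)
  have hKK : #(κ.ord.ToType × Option D) = κ := by
    rw [mk_prod]
    simp only [Cardinal.lift_id]
    rw [mk_ord_toType']
    exact mul_eq_left hκ.aleph0_le hO.le (by simp)
  obtain ⟨a, ha1, ha2⟩ := exists_points hG hP1 hP2 hκ h𝒜 hKK (fun W : 𝒜 => W.1)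
    (fun W => (hW W.1 W.2).1)
  set S : κ.ord.ToType → Set V := fun γ => {x | ∃ W : 𝒜, ∃ d, x = a W (γ, d)} with hS
  have hSc : ∀ γ, #(S γ) < κ := by
    intro γ
    have h1 : S γ = range (fun q : 𝒜 × Option D => a q.1 (γ, q.2)) := by
      ext x
      simp only [hS, mem_ofPred_eq, mem_range, Prod.exists]
      constructor
      · rintro ⟨W, d, rfl⟩
        exact ⟨W, d, rfl⟩
      · rintro ⟨W, d, rfl⟩
        exact ⟨W, d, rfl⟩
    rw [h1]
    refine mk_range_le.trans_lt ?_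
    rw [mk_prod]
    simp only [Cardinal.lift_id]
    exact mul_lt_of_lt hκ.aleph0_le h𝒜 hO
  -- at most one bad part
  have hbad : ∀ W : 𝒜, ({γ | otp (W.1 \ up P (S γ) : Set V) < otp W.1}).Subsingleton := by
    intro W γ hγ γ' hγ'
    by_contra hne
    obtain ⟨τ, hτ⟩ := (hW W.1 W.2).2
    have hcov : W.1 ⊆ (up P (S γ))ᶜ ∪ (up P (S γ'))ᶜ := by
      intro v _
      by_contra hv
      rw [mem_union, not_or, notMem_compl_iff, notMem_compl_iff] at hv
      obtain ⟨⟨x, ⟨W1, d1, rfl⟩, hx⟩, ⟨x', ⟨W2, d2, rfl⟩, hx'⟩⟩ := hv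
      rcases List.suffix_or_suffix_of_suffix hx hx' with h | h
      · exact hne (congrArg Prod.fst (ha2 _ _ _ _ h).2)
      · exact hne (congrArg Prod.fst (ha2 _ _ _ _ h).2).symm
    rw [mem_ofPred_eq, hτ] at hγ hγ'
    rcases cover_set hcov hτ.ge with h | h
    · exact absurd hγ (not_lt.2 h)
    · exact absurd hγ' (not_lt.2 h)
  obtain ⟨γ, hγ⟩ := exists_forall_notMem hκ h𝒜 (mk_ord_toType' κ)
    (fun W : 𝒜 => {γ | otp (W.1 \ up P (S γ) : Set V) < otp W.1}) (fun W => by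
      refine lt_of_le_of_lt (mk_le_one_iff_set_subsingleton.2 (hbad W)) ?_
      exact lt_of_lt_of_le one_lt_aleph0 hκ.aleph0_le)
  refine ⟨S γ, ?_, ?_, ?_, ?_⟩
  · rintro _ ⟨W1, d1, rfl⟩ _ ⟨W2, d2, rfl⟩ h
    obtain ⟨h1, h2⟩ := ha2 _ _ _ _ h
    rw [h1, h2]
  · rintro _ ⟨W1, d1, rfl⟩
    exact ⟨W1.1, W1.2, ha1 _ _⟩
  · intro W hWA
    refine mk_le_of_injective (f := fun d : D => (⟨a ⟨W, hWA⟩ (γ, some d),
      ⟨⟨W, hWA⟩, some d, rfl⟩, ha1 ⟨W, hWA⟩ (γ, some d)⟩ : (S γ ∩ W : Set V))) ?_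
    intro d d' h
    have h1 : a ⟨W, hWA⟩ (γ, some d) = a ⟨W, hWA⟩ (γ, some d') := congrArg Subtype.val h
    have h2 := (ha2 _ _ _ _ (by rw [h1] : P (a ⟨W, hWA⟩ (γ, some d)) <:+
      P (a ⟨W, hWA⟩ (γ, some d')))).2
    simpa using h2
  · intro W hWA
    obtain ⟨hc, τ, hτ⟩ := hW W hWA
    have h1 := hγ ⟨W, hWA⟩
    rw [mem_ofPred_eq, not_lt] at h1
    refine le_antisymm (otp_set_mono sdiff_subset) ?_
    rw [hτ] at h1 ⊢
    have hcov : (W \ up P (S γ)) ⊆ (dn P (S γ))ᶜ ∪ dn P (S γ) := by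
      intro v _
      rw [compl_union_self]
      trivial
    rcases cover_set hcov h1 with h | h
    · refine h.trans (otp_set_mono ?_)
      rintro v ⟨⟨hv1, hv2⟩, hv3⟩
      exact ⟨hv1, fun h => h.elim hv2 hv3⟩
    · exfalso
      have h2 : otp ((W \ up P (S γ)) ∩ dn P (S γ) : Set V) < κ.ord := by
        apply otp_lt_ord_of_card
        exact (mk_le_mk_of_subset inter_subset_right).trans_lt (dn_card hP1 hκ (hSc γ))
      have h3 : κ.ord ≤ ω ^ τ := by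
        rw [← hτ]
        exact ord_le_otp_of_card hc
      exact absurd (h.trans_lt h2) (not_lt.2 h3)

end step

section machine

variable {V : Type u} [LinearOrder V] [WellFoundedLT V]

theorem card_union_lt {κ : Cardinal.{u}} (hκ : ℵ₀ ≤ κ) {α : Type u} {A B : Set α} (hA : #A < κ)
    (hB : #B < κ) : #(A ∪ B : Set α) < κ :=
  (mk_union_le A B).trans_lt (add_lt_of_lt hκ hA hB)

/-- The new reservoirs. -/
theorem exists_children {lam κ : Cardinal.{u}} (hκ : ℵ₀ ≤ κ)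
    {Λ : Type u} (D : Set Λ) (hD : #D < κ) (τ : Ordinal.{u}) (idx : Ordinal.{u} → Λ)
    (hidx : Set.InjOn idx (Iio τ)) (W : Set V) (hW : otp W = ω ^ τ) (hlamW : lam.ord ≤ ω ^ τ) :
    ∃ 𝒞 : Set (Set V), #𝒞 < κ ∧
      (∀ C ∈ 𝒞, C ⊆ W ∧ (∃ σ ≤ τ, otp C = ω ^ σ) ∧ lam.ord ≤ otp C) ∧
      (∃ W' ∈ 𝒞, otp W' = ω ^ τ ∧ ∀ σ, τ = succ σ → lam.ord ≤ ω ^ σ →
        ∃ C ∈ 𝒞, otp C = ω ^ σ ∧ ∀ x ∈ C, ∀ y ∈ W', x < y) ∧
      ∀ σ < τ, idx σ ∈ D → lam.ord ≤ ω ^ σ → ∃ C ∈ 𝒞, otp C = ω ^ σ := by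
  classical
  have hini : ∀ σ : Ordinal.{u}, ∃ C : Set V, σ ≤ τ → C ⊆ W ∧ otp C = ω ^ σ ∧
      ∀ x ∈ C, ∀ y ∈ W, y ∉ C → x < y := by
    intro σ
    by_cases h : σ ≤ τ
    · obtain ⟨C, hC1, hC2, hC3⟩ := exists_initial W (o := ω ^ σ) (by
        rw [hW]
        exact opow_le_opow_right omega0_pos h)
      exact ⟨C, fun _ => ⟨hC1, hC2, hC3⟩⟩
    · exact ⟨∅, fun h' => absurd h' h⟩
  choose Cf hCf using hini
  set 𝒞₁ : Set (Set V) := {C | ∃ σ, σ < τ ∧ idx σ ∈ D ∧ lam.ord ≤ ω ^ σ ∧ C = Cf σ} with h𝒞₁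
  have hc1 : #𝒞₁ < κ := by
    refine lt_of_le_of_lt ?_ hD
    have hex : ∀ C : 𝒞₁, ∃ σ, σ < τ ∧ idx σ ∈ D ∧ lam.ord ≤ ω ^ σ ∧ C.1 = Cf σ := fun C => C.2
    choose s hs using hex
    refine mk_le_of_injective (f := fun C : 𝒞₁ => (⟨idx (s C), (hs C).2.1⟩ : D)) ?_
    intro C C' h
    have h1 : idx (s C) = idx (s C') := congrArg Subtype.val h
    have h2 := hidx (hs C).1 (hs C').1 h1
    apply Subtype.ext
    rw [(hs C).2.2.2, (hs C').2.2.2, h2]
  have hp1 : ∀ C ∈ 𝒞₁, C ⊆ W ∧ (∃ σ ≤ τ, otp C = ω ^ σ) ∧ lam.ord ≤ otp C := by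
    rintro C ⟨σ, h1, h2, h3, rfl⟩
    obtain ⟨h4, h5, -⟩ := hCf σ h1.le
    exact ⟨h4, ⟨σ, h1.le, h5⟩, by rw [h5]; exact h3⟩
  have hp2 : ∀ σ < τ, idx σ ∈ D → lam.ord ≤ ω ^ σ → ∃ C ∈ 𝒞₁, otp C = ω ^ σ :=
    fun σ h1 h2 h3 => ⟨Cf σ, ⟨σ, h1, h2, h3, rfl⟩, (hCf σ h1.le).2.1⟩
  have hone : ∀ C : Set V, #({C} : Set (Set V)) < κ := by
    intro C
    rw [mk_singleton]
    exact lt_of_lt_of_le one_lt_aleph0 hκ
  by_cases hs : ∃ σ, τ = succ σ ∧ lam.ord ≤ ω ^ σ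
  · obtain ⟨σ, hσ, hlamσ⟩ := hs
    have hστ : σ ≤ τ := by rw [hσ]; exact (lt_succ σ).le
    obtain ⟨hC1, hC2, hC3⟩ := hCf σ hστ
    have hW'' : otp (W \ Cf σ : Set V) = ω ^ τ := by
      refine le_antisymm ((otp_set_mono sdiff_subset).trans_eq hW) ?_
      by_contra hcon
      rw [not_le] at hcon
      have h1 : otp W ≤ otp (Cf σ) + otp (W \ Cf σ : Set V) :=
        otp_le_add_of_subset (fun x hx => by
          by_cases h : x ∈ Cf σ
          · exact Or.inl h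
          · exact Or.inr ⟨hx, h⟩) (fun x hx y hy => hC3 x hx y hy.1 hy.2)
      have h2 : otp (Cf σ) < ω ^ τ := by
        rw [hC2, hσ]
        exact (opow_lt_opow_iff_right one_lt_omega0).2 (lt_succ σ)
      have h3 := isPrincipal_add_omega0_opow τ h2 hcon
      rw [← hW] at h3
      exact absurd h3 (not_lt.2 h1)
    refine ⟨𝒞₁ ∪ ({Cf σ} ∪ {W \ Cf σ}), ?_, ?_, ?_, ?_⟩
    · exact card_union_lt hκ hc1 (card_union_lt hκ (hone _) (hone _))
    · rintro C (hC | hC | hC)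
      · exact hp1 C hC
      · rw [mem_singleton_iff] at hC
        rw [hC]
        exact ⟨hC1, ⟨σ, hστ, hC2⟩, by rw [hC2]; exact hlamσ⟩
      · rw [mem_singleton_iff] at hC
        rw [hC]
        exact ⟨sdiff_subset, ⟨τ, le_rfl, hW''⟩, by rw [hW'']; exact hlamW⟩
    · refine ⟨W \ Cf σ, Or.inr (Or.inr rfl), hW'', ?_⟩
      intro σ' hσ' _
      have : σ' = σ := succ_injective (hσ'.symm.trans hσ)
      rw [this]
      exact ⟨Cf σ, Or.inr (Or.inl rfl), hC2, fun x hx y hy => hC3 x hx y hy.1 hy.2⟩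
    · intro σ' h1 h2 h3
      obtain ⟨C, hC, hC'⟩ := hp2 σ' h1 h2 h3
      exact ⟨C, Or.inl hC, hC'⟩
  · refine ⟨𝒞₁ ∪ {W}, card_union_lt hκ hc1 (hone _), ?_, ?_, ?_⟩
    · rintro C (hC | hC)
      · exact hp1 C hC
      · rw [mem_singleton_iff] at hC
        rw [hC]
        exact ⟨subset_rfl, ⟨τ, le_rfl, hW⟩, by rw [hW]; exact hlamW⟩
    · exact ⟨W, Or.inr rfl, hW, fun σ h1 h2 => absurd ⟨σ, h1, h2⟩ hs⟩
    · intro σ' h1 h2 h3
      obtain ⟨C, hC, hC'⟩ := hp2 σ' h1 h2 h3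
      exact ⟨C, Or.inl hC, hC'⟩

theorem card_biUnion_lt {κ : Cardinal.{u}} (hκ : κ.IsRegular) {α β : Type u} (𝒜 : Set α)
    (h𝒜 : #𝒜 < κ) (F : α → Set β) (hF : ∀ a ∈ 𝒜, #(F a) < κ) :
    #({b | ∃ a ∈ 𝒜, b ∈ F a} : Set β) < κ := by
  have h1 : {b | ∃ a ∈ 𝒜, b ∈ F a} = ⋃ a : 𝒜, F a.1 := by
    ext b
    simp
  rw [h1, card_iUnion_lt_iff_forall_of_isRegular hκ h𝒜]
  exact fun a => hF a.1 a.2

/-- The fusion. -/
theorem fusion_aux {lam : Cardinal.{u}} (hlam : ℵ₀ ≤ lam) {Λ : Type u}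
    (κ : ℕ → Cardinal.{u}) (hreg : ∀ n, (κ n).IsRegular) (hmono : Monotone κ)
    (hκlam : ∀ n, κ n ≤ lam) (D : ℕ → Set Λ) (hD : ∀ n, #(D n) < κ n) (hDm : Monotone D)
    (hDU : ∀ i, ∃ n, i ∈ D n) (hsup : ∀ c : Cardinal.{u}, (∀ n, #(D n) ≤ c) → lam ≤ c)
    {τ : Ordinal.{u}} (hτ : lam.ord ≤ ω ^ τ) (idx : Ordinal.{u} → Λ)
    (hidx : Set.InjOn idx (Iio τ)) {G : SimpleGraph V} {P : V → List V}
    (hG : ¬ HasRay G) (hP1 : Function.Injective P)
    (hP2 : ∀ v, (P v).IsChain G.Adj ∧ (P v).Nodup) (hV : otp V = ω ^ τ) :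
    ∃ S : Set V, ω ^ τ ≤ otp S ∧ ∀ x ∈ S, ∀ y ∈ S, P x <:+ P y → x = y := by
  classical
  obtain ⟨e, he⟩ : ∃ e : Ordinal.{u}, lam.ord = ω ^ e := by
    rcases isPrincipal_add_iff_zero_or_omega0_opow.1 (isPrincipal_add_ord hlam) with
      h | ⟨e, he⟩
    · rw [ord_eq_zero] at h
      rw [h] at hlam
      exact absurd aleph0_pos (not_lt.2 hlam)
    · exact ⟨e, he.symm⟩
  -- states
  let ok : ℕ → Set (Set V) → Prop := fun n 𝒜 =>
    #𝒜 < κ n ∧ ∀ W ∈ 𝒜, lam.ord ≤ otp W ∧ ∃ σ ≤ τ, otp W = ω ^ σ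
  let R : ℕ → Set (Set V) → Set V → Set (Set V) → Prop := fun n 𝒜 S 𝒜' =>
    (∀ x ∈ S, ∀ y ∈ S, P x <:+ P y → x = y) ∧ S ⊆ ⋃₀ 𝒜 ∧
    (∀ W' ∈ 𝒜', ∃ W ∈ 𝒜, W' ⊆ W \ (up P S ∪ dn P S)) ∧
    (∀ W ∈ 𝒜, #(D n) ≤ #(S ∩ W : Set V)) ∧
    ∀ W ∈ 𝒜, ∀ σ : Ordinal.{u}, otp W = ω ^ σ →
      (∃ W' ∈ 𝒜', W' ⊆ W ∧ otp W' = ω ^ σ ∧ ∀ ρ, σ = succ ρ → lam.ord ≤ ω ^ ρ →
        ∃ C ∈ 𝒜', C ⊆ W ∧ otp C = ω ^ ρ ∧ ∀ x ∈ C, ∀ y ∈ W', x < y) ∧
      ∀ ρ < σ, idx ρ ∈ D n → lam.ord ≤ ω ^ ρ → ∃ C ∈ 𝒜', C ⊆ W ∧ otp C = ω ^ ρ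
  have hstep : ∀ n 𝒜, ok n 𝒜 → ∃ S 𝒜', ok (n + 1) 𝒜' ∧ R n 𝒜 S 𝒜' := by
    rintro n 𝒜 ⟨h𝒜1, h𝒜2⟩
    obtain ⟨S, hS1, hS2, hS3, hS4⟩ := exists_step hG hP1 hP2 (hreg n) (hD n) 𝒜 h𝒜1
      (fun W hW => by
        obtain ⟨h1, σ, -, h2⟩ := h𝒜2 W hW
        refine ⟨(hκlam n).trans ?_, σ, h2⟩
        have h3 := Ordinal.card_le_card h1
        rwa [card_ord, card_type] at h3)
    have hch : ∀ W : Set V, ∃ 𝒞 : Set (Set V), W ∈ 𝒜 → #𝒞 < κ n ∧
        (∀ C ∈ 𝒞, C ⊆ W \ (up P S ∪ dn P S) ∧ (∃ σ ≤ τ, otp C = ω ^ σ) ∧ lam.ord ≤ otp C) ∧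
        ∀ σ : Ordinal.{u}, otp W = ω ^ σ →
        (∃ W' ∈ 𝒞, otp W' = ω ^ σ ∧ ∀ ρ, σ = succ ρ → lam.ord ≤ ω ^ ρ →
          ∃ C ∈ 𝒞, otp C = ω ^ ρ ∧ ∀ x ∈ C, ∀ y ∈ W', x < y) ∧
        ∀ ρ < σ, idx ρ ∈ D n → lam.ord ≤ ω ^ ρ → ∃ C ∈ 𝒞, otp C = ω ^ ρ := by
      intro W
      by_cases hW : W ∈ 𝒜
      · obtain ⟨h1, σ, h2, h3⟩ := h𝒜2 W hW
        obtain ⟨𝒞, hc1, hc2, hc3, hc4⟩ := exists_children (lam := lam) (hreg n).aleph0_le (D n)
          (hD n) σ idx (hidx.mono (Iio_subset_Iio h2)) (W \ (up P S ∪ dn P S))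
          ((hS4 W hW).trans h3) (by rw [← h3]; exact h1)
        refine ⟨𝒞, fun _ => ⟨hc1, ?_, ?_⟩⟩
        · intro C hC
          obtain ⟨h4, ⟨ρ, h5, h6⟩, h7⟩ := hc2 C hC
          exact ⟨h4, ⟨ρ, h5.trans h2, h6⟩, h7⟩
        · intro σ' hσ'
          have : σ' = σ := by
            rw [h3] at hσ'
            exact (opow_right_inj one_lt_omega0).1 hσ'.symm
          rw [this]
          exact ⟨hc3, hc4⟩
      · exact ⟨∅, fun h => absurd h hW⟩
    choose Ch hCh using hch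
    refine ⟨S, {C | ∃ W ∈ 𝒜, C ∈ Ch W}, ⟨?_, ?_⟩, hS1, hS2, ?_, hS3, ?_⟩
    · exact (card_biUnion_lt (hreg n) 𝒜 h𝒜1 Ch (fun W hW => (hCh W hW).1)).trans_le
        (hmono (Nat.le_succ n))
    · rintro C ⟨W, hW, hC⟩
      obtain ⟨-, h1, h2⟩ := (hCh W hW).2.1 C hC
      exact ⟨h2, h1⟩
    · rintro C ⟨W, hW, hC⟩
      exact ⟨W, hW, ((hCh W hW).2.1 C hC).1⟩
    · intro W hW σ hσ
      obtain ⟨h1, h2⟩ := (hCh W hW).2.2 σ hσ
      have hsub : ∀ C ∈ Ch W, C ⊆ W := fun C hC =>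
        ((hCh W hW).2.1 C hC).1.trans sdiff_subset
      constructor
      · obtain ⟨W', hW', h3, h4⟩ := h1
        refine ⟨W', ⟨W, hW, hW'⟩, hsub _ hW', h3, ?_⟩
        intro ρ hρ1 hρ2
        obtain ⟨C, hC, h5, h6⟩ := h4 ρ hρ1 hρ2
        exact ⟨C, ⟨W, hW, hC⟩, hsub _ hC, h5, h6⟩
      · intro ρ hρ1 hρ2 hρ3
        obtain ⟨C, hC, h5⟩ := h2 ρ hρ1 hρ2 hρ3
        exact ⟨C, ⟨W, hW, hC⟩, hsub _ hC, h5⟩
  choose! Sf Af hA hR using hstep
  have h0 : ok 0 {Set.univ} := by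
    refine ⟨?_, ?_⟩
    · rw [mk_singleton]
      exact lt_of_lt_of_le one_lt_aleph0 (hreg 0).aleph0_le
    · intro W hW
      rw [mem_singleton_iff] at hW
      have h1 : otp (Set.univ : Set V) = ω ^ τ := by rw [otp_univ, hV]
      rw [hW]
      exact ⟨by rw [h1]; exact hτ, τ, le_rfl, h1⟩
  let A : ℕ → Set (Set V) := fun n => Nat.rec {Set.univ} (fun n 𝒜 => Af n 𝒜) n
  have hA0 : A 0 = {Set.univ} := rfl
  have hAs : ∀ n, A (n + 1) = Af n (A n) := fun n => rfl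
  have hok : ∀ n, ok n (A n) := by
    intro n
    induction n with
    | zero => exact h0
    | succ n ih => rw [hAs]; exact hA n _ ih
  have hRn : ∀ n, R n (A n) (Sf n (A n)) (A (n + 1)) := fun n => by
    rw [hAs]
    exact hR n _ (hok n)
  set S : Set V := {x | ∃ n, x ∈ Sf n (A n)} with hSdef
  refine ⟨S, ?_, ?_⟩
  · -- the type
    have hchain : ∀ n, ∀ W ∈ A n, ∀ σ : Ordinal.{u}, otp W = ω ^ σ → ∀ m, n ≤ m →
        ∃ W' ∈ A m, W' ⊆ W ∧ otp W' = ω ^ σ := by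
      intro n W hW σ hσ m hm
      induction m, hm using Nat.le_induction with
      | base => exact ⟨W, hW, subset_rfl, hσ⟩
      | succ m _ ih =>
        obtain ⟨W', hW', h1, h2⟩ := ih
        obtain ⟨⟨W'', hW'', h3, h4, -⟩, -⟩ := (hRn m).2.2.2.2 W' hW' σ h2
        exact ⟨W'', hW'', h3.trans h1, h4⟩
    have key : ∀ σ : Ordinal.{u}, ∀ n, ∀ W ∈ A n, otp W = ω ^ σ →
        ω ^ σ ≤ otp (S ∩ W : Set V) := by
      intro σ
      induction σ using WellFoundedLT.induction with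
      | ind σ ih =>
        intro n W hW hσ
        have hlamσ : lam.ord ≤ ω ^ σ := by
          rw [← hσ]
          exact ((hok n).2 W hW).1
        have hσ0 : σ ≠ 0 := by
          rintro rfl
          rw [opow_zero] at hlamσ
          have h1 : (1 : Ordinal.{u}) < lam.ord := by
            rw [lt_ord]
            simpa using one_lt_aleph0.trans_le hlam
          exact absurd h1 (not_lt.2 hlamσ)
        rcases eq_or_lt_of_le hlamσ with hleaf | hnl
        · -- a leaf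
          rw [← hleaf]
          apply ord_le_otp_of_card
          apply hsup
          intro m
          obtain ⟨W', hW', h1, h2⟩ := hchain n W hW σ hσ (max n m) (le_max_left _ _)
          have h3 := (hRn (max n m)).2.2.2.1 W' hW'
          refine (mk_le_mk_of_subset (hDm (le_max_right n m))).trans (h3.trans ?_)
          apply mk_le_mk_of_subset
          rintro x ⟨hx1, hx2⟩
          exact ⟨⟨_, hx1⟩, h1 hx2⟩
        · rcases zero_or_succ_or_isSuccLimit σ with rfl | ⟨ρ, rfl⟩ | hlim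
          · exact absurd rfl hσ0
          · -- successor
            have hlamρ : lam.ord ≤ ω ^ ρ := by
              rw [he] at hnl ⊢
              have h1 := (opow_lt_opow_iff_right one_lt_omega0).1 hnl
              exact opow_le_opow_right omega0_pos (lt_succ_iff.1 h1)
            have hk : ∀ k : ℕ, ∀ n, ∀ W ∈ A n, otp W = ω ^ succ ρ →
                ω ^ ρ * (k : Ordinal.{u}) ≤ otp (S ∩ W : Set V) := by
              intro k
              induction k with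
              | zero =>
                intro n W _ _
                simp
              | succ k ihk =>
                intro n W hW hσ
                obtain ⟨⟨W', hW', h1, h2, h3⟩, -⟩ := (hRn n).2.2.2.2 W hW _ hσ
                obtain ⟨C, hC, h4, h5, h6⟩ := h3 ρ rfl hlamρ
                have h7 := ih ρ (lt_succ ρ) (n + 1) C hC h5
                have h8 := ihk (n + 1) W' hW' h2
                have h9 : ω ^ ρ * ((k + 1 : ℕ) : Ordinal.{u}) = ω ^ ρ + ω ^ ρ * (k : Ordinal.{u}) := by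
                  rw [← mul_one_add]
                  congr 1
                  exact_mod_cast (add_comm k 1)
                rw [h9]
                refine (add_le_add h7 h8).trans (otp_add_le ?_ ?_ ?_)
                · exact inter_subset_inter_right _ h4
                · exact inter_subset_inter_right _ h1
                · exact fun x hx y hy => h6 x hx.2 y hy.2
            rw [Ordinal.opow_succ, mul_le_iff_of_isSuccLimit isSuccLimit_omega0]
            intro b hb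
            obtain ⟨k, rfl⟩ := lt_omega0.1 hb
            exact hk k n W hW hσ
          · -- limit
            rw [opow_le_of_isSuccLimit omega0_ne_zero hlim]
            intro ρ hρ
            have heσ : e < σ := by
              rw [he] at hnl
              exact (opow_lt_opow_iff_right one_lt_omega0).1 hnl
            have hm : max ρ e < σ := max_lt hρ heσ
            refine (opow_le_opow_right omega0_pos (le_max_left ρ e)).trans ?_
            obtain ⟨m, hm'⟩ := hDU (idx (max ρ e))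
            obtain ⟨W', hW', h1, h2⟩ := hchain n W hW σ hσ (max n m) (le_max_left _ _)
            obtain ⟨C, hC, h3, h4⟩ := ((hRn (max n m)).2.2.2.2 W' hW' σ h2).2 (max ρ e) hm
              (hDm (le_max_right n m) hm') (by
                rw [he]
                exact opow_le_opow_right omega0_pos (le_max_right _ _))
            refine (ih _ hm (max n m + 1) C hC h4).trans (otp_set_mono ?_)
            exact inter_subset_inter_right _ (h3.trans h1)
    have := key τ 0 Set.univ (by rw [hA0]; rfl) (by rw [otp_univ, hV])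
    rwa [inter_univ] at this
  · -- independence
    have hsep : ∀ n m, n < m → ∀ W ∈ A m, ∃ W' ∈ A (n + 1), W ⊆ W' := by
      intro n m hm
      induction m, hm using Nat.le_induction with
      | base => exact fun W hW => ⟨W, hW, subset_rfl⟩
      | succ m _ ih =>
        intro W hW
        obtain ⟨W', hW', h1⟩ := (hRn m).2.2.1 W hW
        obtain ⟨W'', hW'', h2⟩ := ih W' hW'
        exact ⟨W'', hW'', (h1.trans sdiff_subset).trans h2⟩
    have hsep2 : ∀ n m, n < m → ∀ x ∈ Sf n (A n), ∀ y ∈ Sf m (A m),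
        ¬ P x <:+ P y ∧ ¬ P y <:+ P x := by
      intro n m hnm x hx y hy
      obtain ⟨W, hW, hyW⟩ := (hRn m).2.1 hy
      obtain ⟨W', hW', h1⟩ := hsep n m hnm W hW
      obtain ⟨W'', -, h2⟩ := (hRn n).2.2.1 W' hW'
      have h3 := (h2 (h1 hyW)).2
      exact ⟨fun h => h3 (Or.inl ⟨x, hx, h⟩), fun h => h3 (Or.inr ⟨x, hx, h⟩)⟩
    rintro x ⟨n, hn⟩ y ⟨m, hm⟩ h
    rcases lt_trichotomy n m with hnm | rfl | hnm
    · exact absurd h (hsep2 n m hnm x hn y hm).1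
    · exact (hRn n).1 x hn y hm h
    · exact absurd h (hsep2 m n hnm y hm x hn).2

end machine

end IPath
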