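import Pool.Agent.Work.MP_820435_lc.GoodC
import Pool.Agent.Work.MP_820435_lc.Fusion

/-!
# Set mappings with values of bounded size
-/

open Ordinal Cardinal Set Order

universe u

namespace IPath

/-- Every set mapping on a well-ordered set of type `β` whose values have size less than `μ` has
fewer than `c` bad indices. -/
def GoodS (μ : Cardinal.{u}) (Λ : Type u) (c : Cardinal.{u}) (β : Ordinal.{u}) : Prop :=
  ∀ (Y : Type u) [LinearOrder Y] [WellFoundedLT Y], otp Y = β → ∀ b : Y → Set Λ,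
    (∀ y, #(b y) < μ) → #(badC b) < c

variable {Λ : Type u} {μ c c' κ θ lam ν : Cardinal.{u}} {β β₁ β₂ γ q ξ : Ordinal.{u}}

theorem GoodS.mono (h : GoodS μ Λ c β) (hc : c ≤ c') : GoodS μ Λ c' β :=
  fun Y _ _ hY b hb => (h Y hY b hb).trans_le hc

theorem GoodS.goodLT (h : GoodS ℵ₀ Λ c β) : GoodLT Λ c β := by
  intro Y _ _ hY b
  exact h Y hY (fun y => (b y : Set Λ)) (fun y => finset_card_lt_aleph0 _)

theorem GoodS.goodC (h : GoodS (succ ℵ₀) Λ c β) : GoodC Λ c β := by
  intro Y _ _ hY b hb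
  exact h Y hY b (fun y => lt_succ_of_le (le_aleph0_iff_set_countable.2 (hb y)))

theorem goodS_of_model (Y : Type u) [LinearOrder Y] [WellFoundedLT Y] (hY : otp Y = β)
    (h : ∀ b : Y → Set Λ, (∀ y, #(b y) < μ) → #(badC b) < c) : GoodS μ Λ c β := by
  intro X _ _ hX b hb
  obtain ⟨e⟩ := exists_orderIso_of_otp_eq (hY.trans hX.symm)
  rw [← badC_comp e b]
  exact h _ (fun y => hb _)

theorem GoodS.add (hc : ℵ₀ ≤ c) (h1 : GoodS μ Λ c β₁) (h2 : GoodS μ Λ c β₂) :
    GoodS μ Λ c (β₁ + β₂) := by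
  refine goodS_of_model (β₁.ToType ⊕ₗ β₂.ToType) ?_ ?_
  · rw [otp_sumLex, otp_toType, otp_toType]
  · intro b hb
    refine (mk_le_mk_of_subset (badC_sum b)).trans_lt ((mk_union_le _ _).trans_lt ?_)
    exact add_lt_of_lt hc (h1 _ (otp_toType _) _ (fun y => hb _))
      (h2 _ (otp_toType _) _ (fun y => hb _))

theorem GoodS.mul (hκ : κ.IsRegular) (h : GoodS μ Λ κ γ) (hq : q.card < κ) :
    GoodS μ Λ κ (γ * q) := by
  refine goodS_of_model (q.ToType ×ₗ γ.ToType) ?_ ?_
  · rw [otp_prodLex, otp_toType, otp_toType]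
  · intro b hb
    have hsub : badC b ⊆ ⋃ i : q.ToType, badC (fun z : γ.ToType => b (toLex (i, z))) := by
      intro j hj
      by_contra hcon
      simp only [badC, mem_iUnion, mem_ofPred_eq, not_exists, not_lt] at hcon
      apply absurd hj
      simp only [badC, mem_ofPred_eq, not_lt]
      rw [otp_prodLex, ← otp_univ q.ToType]
      exact mul_le_otp_of_fib {y | j ∉ b y} Set.univ _ (fun i _ => hcon i)
    refine (mk_le_mk_of_subset hsub).trans_lt ?_
    rw [card_iUnion_lt_iff_forall_of_isRegular hκ (by simpa using hq)]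
    intro i
    exact h _ (otp_toType _) _ (fun y => hb _)

theorem goodS_one (hμ : μ ≤ θ) : GoodS μ Λ θ 1 := by
  intro Y _ _ hY b hb
  have hne : Nonempty Y := by
    rw [← type_ne_zero_iff_nonempty (α := Y) (r := (· < ·))]
    change otp Y ≠ 0
    rw [hY]
    exact one_ne_zero
  obtain ⟨y⟩ := hne
  have hsub : badC b ⊆ b y := by
    intro j hj
    simp only [badC, mem_ofPred_eq] at hj
    rw [hY, lt_one_iff, type_eq_zero_iff_isEmpty] at hj
    by_contra hcon
    exact hj.false ⟨y, hcon⟩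
  exact (mk_le_mk_of_subset hsub).trans_lt ((hb y).trans_le hμ)

theorem goodS_zero (hc : 0 < c) : GoodS μ Λ c 0 := by
  intro Y _ _ hY b _
  rw [badC_zero hY]
  simpa using hc

/-- Bad indices of a restriction. -/
theorem mem_badC_restrict {Y : Type u} [LinearOrder Y] [WellFoundedLT Y] (b : Y → Set Λ)
    (C : Set Y) {j : Λ} (h : otp {y | j ∉ b y} < otp C) : j ∈ badC (fun y : C => b y.1) := by
  rw [badC, mem_ofPred_eq, otp_subtype C (fun y => j ∉ b y)]
  exact (otp_set_mono inter_subset_right).trans_lt h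

/-- Few small sets have a common point outside many of them. -/
theorem exists_common (hlam : ℵ₀ ≤ lam) (hθ : θ.IsRegular) (hθlam : θ < lam)
    (hcof : lam.ord.cof ≠ θ) {J K : Type u} (hJ : #J = θ) (hK : #K = lam) (S : J → Set K)
    (hS : ∀ j, #(S j) < lam) : ∃ i, θ ≤ #{j | i ∉ S j} := by
  classical
  -- a point of the cardinal coding the size
  have hpt : ∀ j, ∃ t : lam.ord.ToType, #(Iio t) = #(S j) := by
    intro j
    have h1 : (#(S j)).ord < typeLT lam.ord.ToType := by
      rw [type_toType]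
      exact ord_lt_ord.2 (hS j)
    obtain ⟨t, ht⟩ := typein_surj (α := lam.ord.ToType) (· < ·) h1
    refine ⟨t, ?_⟩
    have h2 := card_typein (r := ((· < ·) : lam.ord.ToType → lam.ord.ToType → Prop)) t
    rw [ht, card_ord] at h2
    exact h2.symm
  choose t ht using hpt
  have hIio : ∀ t : lam.ord.ToType, #(Iio t) < lam := fun t =>
    (mk_Iio_lt t (by simp)).trans_eq (mk_ord_toType' lam)
  have hclaim : ∃ c < lam, θ ≤ #{j | #(S j) ≤ c} := by
    by_contra hcon
    push Not at hcon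
    rcases lt_or_gt_of_ne hcof with h | h
    · obtain ⟨s, hs1, hs2⟩ := exists_cof_eq (α := lam.ord.ToType)
      rw [cof_toType] at hs2
      have h1 : (⋃ t : s, {j | #(S j) ≤ #(Iio t.1)}) = (Set.univ : Set J) := by
        rw [eq_univ_iff_forall]
        intro j
        obtain ⟨i, hi, hji⟩ := hs1 (t j)
        rw [mem_iUnion]
        refine ⟨⟨i, hi⟩, ?_⟩
        rw [mem_ofPred_eq, ← ht j]
        exact mk_le_mk_of_subset (Iio_subset_Iio hji)
      have h2 : #(⋃ t : s, {j | #(S j) ≤ #(Iio t.1)} : Set J) < θ := by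
        rw [card_iUnion_lt_iff_forall_of_isRegular hθ (by rw [hs2]; exact h)]
        intro t
        exact hcon _ (hIio t.1)
      rw [h1, mk_univ, hJ] at h2
      exact h2.false
    · have h1 : ¬ IsCofinal (range t) := by
        intro hc
        have h2 := Order.cof_le hc
        rw [cof_toType] at h2
        exact absurd (h2.trans (mk_range_le.trans_eq hJ)) (not_le.2 h)
      rw [not_isCofinal_iff] at h1
      obtain ⟨x, hx⟩ := h1
      have h2 := hcon _ (hIio x)
      have h3 : {j | #(S j) ≤ #(Iio x)} = (Set.univ : Set J) := by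
        rw [eq_univ_iff_forall]
        intro j
        rw [mem_ofPred_eq, ← ht j]
        exact mk_le_mk_of_subset (Iio_subset_Iio (hx _ (mem_range_self j)).le)
      rw [h3, mk_univ, hJ] at h2
      exact h2.false
  obtain ⟨c, hc, hθc⟩ := hclaim
  rw [le_mk_iff_exists_subset] at hθc
  obtain ⟨J', hJ', hJ'c⟩ := hθc
  have h1 : #(⋃ j : J', S j.1 : Set K) < lam := by
    refine (mk_iUnion_le (fun j : J' => S j.1)).trans_lt ?_
    have h2 : ⨆ j : J', #(S j.1) ≤ c := ciSup_le' (fun j => hJ' j.2)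
    exact (mul_le_mul' hJ'c.le h2).trans_lt (mul_lt_of_lt hlam hθlam hc)
  have h2 : ∃ i, i ∉ (⋃ j : J', S j.1 : Set K) := by
    by_contra hcon
    push Not at hcon
    rw [eq_univ_of_forall hcon, mk_univ, hK] at h1
    exact h1.false
  obtain ⟨i, hi⟩ := h2
  refine ⟨i, ?_⟩
  rw [← hJ'c]
  apply mk_le_mk_of_subset
  intro j hj
  rw [mem_ofPred_eq]
  intro hij
  exact hi (mem_iUnion.2 ⟨⟨j, hj⟩, hij⟩)

theorem GoodS.opow_succ (hlam : ℵ₀ ≤ lam) (hθ : θ.IsRegular) (hθlam : θ < lam)
    (hcof : lam.ord.cof ≠ θ) (h : GoodS μ Λ θ (lam.ord ^ ξ)) :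
    GoodS μ Λ θ (lam.ord ^ succ ξ) := by
  have hlam0 : lam ≠ 0 := (aleph0_pos.trans_le hlam).ne'
  have hpos : 0 < lam.ord := by
    rw [pos_iff_ne_zero, Ne, ord_eq_zero]
    exact hlam0
  refine goodS_of_model (lam.ord.ToType ×ₗ (lam.ord ^ ξ).ToType) ?_ ?_
  · rw [otp_prodLex, otp_toType, otp_toType, Ordinal.opow_succ]
  · intro b hb
    by_contra hcon
    rw [not_lt, le_mk_iff_exists_subset] at hcon
    obtain ⟨J, hJ, hJc⟩ := hcon
    have hbl : ∀ j : J, ∃ S : Set lam.ord.ToType, #S < lam ∧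
        ∀ i, i ∉ S → otp (fib {p | j.1 ∉ b p} i) < lam.ord ^ ξ := by
      intro j
      have hj := hJ j.2
      simp only [badC, mem_ofPred_eq] at hj
      rw [otp_prodLex, otp_toType, otp_toType, ← Ordinal.opow_succ] at hj
      obtain ⟨f, hf, hS⟩ := block hlam0 _ (succ_ne_bot ξ) hj
      refine ⟨_, hS, fun i hi => (not_le.1 hi).trans_le ?_⟩
      exact opow_le_opow_right hpos (lt_succ_iff.1 hf)
    choose S hS1 hS2 using hbl
    obtain ⟨i, hi⟩ := exists_common hlam hθ hθlam hcof hJc (mk_ord_toType' lam) S hS1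
    have hsub : (Subtype.val '' {j : J | i ∉ S j}) ⊆
        badC (fun z : (lam.ord ^ ξ).ToType => b (toLex (i, z))) := by
      rintro _ ⟨j, hj, rfl⟩
      simp only [badC, mem_ofPred_eq]
      rw [otp_toType]
      exact hS2 j i hj
    have h2 := (mk_le_mk_of_subset hsub).trans_lt (h _ (otp_toType _) _ (fun y => hb _))
    rw [mk_image_eq Subtype.val_injective] at h2
    exact absurd hi (not_le.2 h2)

/-- A common small bound for many bad indices contradicts goodness below. -/
theorem goodS_limit_aux {Y : Type u} [LinearOrder Y] [WellFoundedLT Y] (b : Y → Set Λ)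
    (hb : ∀ y, #(b y) < μ) {f : Ordinal.{u}} (hf : f ≤ otp Y) (h : GoodS μ Λ θ f) :
    #{j | otp {y | j ∉ b y} < f} < θ := by
  obtain ⟨C, -, hC2, -⟩ := exists_initial (Set.univ : Set Y) (o := f) (by rwa [otp_univ])
  refine lt_of_le_of_lt (mk_le_mk_of_subset ?_) (h C hC2 (fun y => b y.1) (fun y => hb _))
  intro j hj
  apply mem_badC_restrict
  rw [hC2]
  exact hj

/-- Small exponents. -/
theorem goodS_opow_small (hlam : ℵ₀ ≤ lam) (hθ : θ.IsRegular) (hθlam : θ < lam)
    (hcof : lam.ord.cof ≠ θ) (hμ : μ ≤ θ) (ξ : Ordinal.{u}) :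
    ξ < θ.ord → GoodS μ Λ θ (lam.ord ^ ξ) := by
  have hlam0 : lam.ord ≠ 0 := by
    rw [Ne, ord_eq_zero]
    exact (aleph0_pos.trans_le hlam).ne'
  induction ξ using limitRecOn with
  | zero =>
    intro _
    rw [opow_zero]
    exact goodS_one hμ
  | add_one ξ ih =>
    intro h
    exact (ih ((lt_add_one ξ).trans h)).opow_succ hlam hθ hθlam hcof
  | limit ξ hξ ih =>
    intro hξθ Y _ _ hY b hb
    by_contra hcon
    rw [not_lt] at hcon
    have hex : ∀ j : badC b, ∃ f : ξ.ToType, otp {y | j.1 ∉ b y} <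
        lam.ord ^ (ToType.mk.symm f).1 := by
      intro j
      have hj : otp {y | j.1 ∉ b y} < otp Y := j.2
      rw [hY, lt_opow_of_isSuccLimit hlam0 hξ] at hj
      obtain ⟨f, hf, h1⟩ := hj
      refine ⟨ToType.mk ⟨f, hf⟩, ?_⟩
      simpa using h1
    choose f hf using hex
    obtain ⟨a, ha⟩ := infinite_pigeonhole_card f θ hcon hθ.aleph0_le (by
      rw [hθ.cof_ord, mk_toType]
      exact lt_ord.1 hξθ)
    have ha1 : (ToType.mk.symm a).1 < ξ := (ToType.mk.symm a).2
    have h1 := goodS_limit_aux b hb (f := lam.ord ^ (ToType.mk.symm a).1) (by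
      rw [hY]
      exact opow_le_opow_right (pos_iff_ne_zero.2 hlam0) ha1.le) (ih _ ha1 (ha1.trans hξθ))
    have h2 : (Subtype.val '' (f ⁻¹' {a})) ⊆
        {j | otp {y | j ∉ b y} < lam.ord ^ (ToType.mk.symm a).1} := by
      rintro _ ⟨j, hj, rfl⟩
      rw [mem_preimage, mem_singleton_iff] at hj
      rw [mem_ofPred_eq, ← hj]
      exact hf j
    have h3 := (mk_le_mk_of_subset h2).trans_lt h1
    rw [mk_image_eq Subtype.val_injective] at h3
    exact absurd ha (not_le.2 h3)

/-- Limit cardinals: all ordinals below `lam ^ lam`. -/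
theorem goodS_limit_card (hlam : ℵ₀ < lam) (hμ : μ < lam)
    (β : Ordinal.{u}) : β < lam.ord ^ lam.ord → ∃ ρ < lam, ∀ θ : Cardinal.{u}, θ.IsRegular →
      ρ < θ → θ < lam → GoodS μ Λ θ β := by
  have hlam1 : 1 < lam.ord := by
    rw [lt_ord]
    simpa using one_lt_aleph0.trans hlam
  induction β using WellFoundedLT.induction with
  | ind β ih =>
    intro hβ
    rcases eq_or_ne β 0 with rfl | h0
    · exact ⟨0, pos_of_gt hlam, fun θ hθ _ _ => goodS_zero hθ.pos⟩
    · have he : log lam.ord β < lam.ord := by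
        have h1 := (opow_log_le_self lam.ord h0).trans_lt hβ
        exact (opow_lt_opow_iff_right hlam1).1 h1
      have hc : β / lam.ord ^ log lam.ord β < lam.ord := div_opow_log_lt _ hlam1
      have hr : β % lam.ord ^ log lam.ord β < β := mod_opow_log_lt_self _ h0
      obtain ⟨ρ, hρ, ihr⟩ := ih _ hr (hr.trans hβ)
      obtain ⟨ρ', hρ', hcof⟩ : ∃ ρ' < lam, ∀ θ : Cardinal.{u}, ρ' < θ → θ < lam →
          lam.ord.cof ≠ θ := by
        rcases lt_or_ge lam.ord.cof lam with h | h
        · exact ⟨_, h, fun θ h1 _ => h1.ne⟩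
        · exact ⟨0, pos_of_gt hlam, fun θ _ h2 => (h2.trans_le h).ne'⟩
      refine ⟨max (max μ ρ') (max ρ (max (log lam.ord β).card
        (β / lam.ord ^ log lam.ord β).card)), ?_, ?_⟩
      · simp only [max_lt_iff]
        exact ⟨⟨hμ, hρ'⟩, hρ, lt_ord.1 he, lt_ord.1 hc⟩
      · intro θ hθ h1 hθlam
        simp only [max_lt_iff] at h1
        obtain ⟨⟨h1, h2⟩, h3, h4, h5⟩ := h1
        have h6 := ((goodS_opow_small (Λ := Λ) hlam.le hθ hθlam (hcof θ h2 hθlam) h1.le _
          (lt_ord.2 h4)).mul hθ h5).add hθ.aleph0_le (ihr θ hθ h3 hθlam)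
        rwa [div_add_mod] at h6

end IPath
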