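import Mathlib

/-!
# A graph without infinite paths that kills all rich independent sets
-/

open Set Order

universe u

namespace IPath

section kill

variable {V K O J : Type u} [LinearOrder K] [WellFoundedLT K] [LinearOrder O]
variable (h : V → K) (z : J → K) (lev : V → List O) (S : J → Set V)

/-- `p` lies in the `j`-th guess, its chain extends `T`, and its levels extend `t` by a level
with property `P`. -/
def Ext (L : V → List V) (T : List V) (t : List O) (P : O → Prop) (j : J) (p : V) : Prop :=
  p ∈ S j ∧ T <+: L p ∧ ∃ β, P β ∧ t ++ [β] <+: lev p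

/-- the pair `(j, p)` may be served -/
def Srv (L : V → List V) (st : List V × Finset J) (t : List O) (α : O) (jp : J × V) : Prop :=
  jp.1 ∈ st.2 ∧ Ext lev S L st.1 t (fun β => α < β) jp.1 jp.2 ∧
    ∀ j ∈ st.2, (∃ q, Ext lev S L st.1 t (fun β => α ≤ β) j q) → h jp.2 < z j

open Classical in
/-- one step -/
noncomputable def stp (L : V → List V) (P : J × V → Prop) (st : List V × Finset J) :
    List V × Finset J :=
  if hx : ∃ jp, P jp then (L hx.choose.2 ++ [hx.choose.2], st.2.erase hx.choose.1) else st

/-- the run along a list of levels -/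
noncomputable def run (L : V → List V) : List O → List O → List V × Finset J → List V × Finset J
  | _, [], st => st
  | t, α :: l, st => run L (t ++ [α]) l (stp L (Srv h z lev S L st t α) st)

variable {h z lev S}

theorem stp_cases (L : V → List V) (st : List V × Finset J) (t : List O) (α : O) :
    stp L (Srv h z lev S L st t α) st = st ∧ (¬ ∃ jp, Srv h z lev S L st t α jp) ∨
    ∃ j p, Srv h z lev S L st t α (j, p) ∧
      (stp L (Srv h z lev S L st t α) st).1 = L p ++ [p] ∧
      (stp L (Srv h z lev S L st t α) st).2 ⊆ st.2 ∧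
      (∀ i ∈ st.2, i ≠ j → i ∈ (stp L (Srv h z lev S L st t α) st).2) ∧
      (stp L (Srv h z lev S L st t α) st).2.card < st.2.card := by
  classical
  by_cases hx : ∃ jp, Srv h z lev S L st t α jp
  · right
    refine ⟨hx.choose.1, hx.choose.2, hx.choose_spec, ?_, ?_, ?_, ?_⟩
    · simp only [stp, dif_pos hx]
    · simp only [stp, dif_pos hx]
      exact Finset.erase_subset _ _
    · intro i hi hne
      simp only [stp, dif_pos hx]
      exact Finset.mem_erase.2 ⟨hne, hi⟩
    · simp only [stp, dif_pos hx]
      exact Finset.card_erase_lt_of_mem hx.choose_spec.1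
  · left
    exact ⟨by simp only [stp, dif_neg hx], hx⟩

theorem stp_snd_subset (L : V → List V) (st : List V × Finset J) (t : List O) (α : O) :
    (stp L (Srv h z lev S L st t α) st).2 ⊆ st.2 := by
  rcases stp_cases (h := h) (z := z) (lev := lev) (S := S) L st t α with h1 | ⟨j, p, -, -, h1, -⟩
  · rw [h1.1]
  · exact h1

theorem run_snd_subset (L : V → List V) (l : List O) : ∀ (t : List O) (st : List V × Finset J),
    (run h z lev S L t l st).2 ⊆ st.2 := by
  induction l with
  | nil => intro t st; exact subset_rfl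
  | cons α l ih =>
    intro t st
    exact (ih _ _).trans (stp_snd_subset L st t α)

theorem run_append (L : V → List V) (l m : List O) : ∀ (t : List O) (st : List V × Finset J),
    run h z lev S L t (l ++ m) st = run h z lev S L (t ++ l) m (run h z lev S L t l st) := by
  induction l with
  | nil => intro t st; simp [run]
  | cons α l ih =>
    intro t st
    simp only [List.cons_append, run]
    rw [ih, List.append_assoc, List.singleton_append]

theorem ext_congr {L L' : V → List V} {k : K} (hS : ∀ j, ∀ p ∈ S j, h p < z j)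
    (hL : ∀ p, h p < k → L p = L' p) {T : List V} {t : List O} {P : O → Prop} {j : J} (hj : z j ≤ k)
    {p : V} : Ext lev S L T t P j p ↔ Ext lev S L' T t P j p := by
  constructor
  · rintro ⟨h1, h2, h3⟩
    refine ⟨h1, ?_, h3⟩
    rwa [← hL p ((hS j p h1).trans_le hj)]
  · rintro ⟨h1, h2, h3⟩
    refine ⟨h1, ?_, h3⟩
    rwa [hL p ((hS j p h1).trans_le hj)]

theorem srv_congr {L L' : V → List V} {k : K} (hS : ∀ j, ∀ p ∈ S j, h p < z j)
    (hL : ∀ p, h p < k → L p = L' p) {st : List V × Finset J} (hst : ∀ j ∈ st.2, z j ≤ k)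
    (t : List O) (α : O) : Srv h z lev S L st t α = Srv h z lev S L' st t α := by
  funext jp
  apply propext
  unfold Srv
  constructor
  · rintro ⟨h1, h2, h3⟩
    refine ⟨h1, (ext_congr hS hL (hst _ h1)).1 h2, fun j hj hq => h3 j hj ?_⟩
    obtain ⟨q, hq⟩ := hq
    exact ⟨q, (ext_congr hS hL (hst _ hj)).2 hq⟩
  · rintro ⟨h1, h2, h3⟩
    refine ⟨h1, (ext_congr hS hL (hst _ h1)).2 h2, fun j hj hq => h3 j hj ?_⟩
    obtain ⟨q, hq⟩ := hq
    exact ⟨q, (ext_congr hS hL (hst _ hj)).1 hq⟩

theorem stp_congr {L L' : V → List V} {k : K} (hS : ∀ j, ∀ p ∈ S j, h p < z j)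
    (hL : ∀ p, h p < k → L p = L' p) {st : List V × Finset J} (hst : ∀ j ∈ st.2, z j ≤ k)
    (t : List O) (α : O) :
    stp L (Srv h z lev S L st t α) st = stp L' (Srv h z lev S L' st t α) st := by
  classical
  rw [← srv_congr hS hL hst]
  by_cases hx : ∃ jp, Srv h z lev S L st t α jp
  · simp only [stp, dif_pos hx]
    have h1 : Srv h z lev S L st t α hx.choose := hx.choose_spec
    have h2 : h hx.choose.2 < k := (hS _ _ h1.2.1.1).trans_le (hst _ h1.1)
    rw [hL _ h2]
  · simp only [stp, dif_neg hx]

theorem run_congr {L L' : V → List V} {k : K} (hS : ∀ j, ∀ p ∈ S j, h p < z j)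
    (hL : ∀ p, h p < k → L p = L' p) (l : List O) : ∀ (t : List O) (st : List V × Finset J),
    (∀ j ∈ st.2, z j ≤ k) → run h z lev S L t l st = run h z lev S L' t l st := by
  induction l with
  | nil => intro t st _; rfl
  | cons α l ih =>
    intro t st hst
    simp only [run]
    rw [stp_congr hS hL hst]
    refine ih _ _ ?_
    intro j hj
    exact hst j (stp_snd_subset L' st t α hj)

theorem exists_chain (hS : ∀ j, ∀ p ∈ S j, h p < z j) (u : V → Finset J)
    (hu : ∀ v, ∀ j ∈ u v, z j ≤ h v) :
    ∃ L : V → List V, ∀ v, L v = (run h z lev S L [] (lev v) ([], u v)).1 := by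
  classical
  have hwf : WellFounded (fun a b : V => h a < h b) := InvImage.wf h wellFounded_lt
  set F : ∀ v : V, (∀ w, h w < h v → List V) → List V := fun v ih =>
    (run h z lev S (fun p => if hp : h p < h v then ih p hp else []) [] (lev v) ([], u v)).1 with hF
  refine ⟨hwf.fix F, fun v => ?_⟩
  rw [hwf.fix_eq, hF]
  simp only
  congr 1
  refine run_congr (k := h v) hS ?_ _ _ _ (hu v)
  intro p hp
  simp [hp]

/-- the list `l` is lexicographically above `t` -/
def LexGt (t l : List O) : Prop := ∃ t0 α β, α < β ∧ t0 ++ [α] <+: t ∧ t0 ++ [β] <+: l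

theorem LexGt.mono {t t' l : List O} (h1 : LexGt t l) (h2 : t <+: t') : LexGt t' l := by
  obtain ⟨t0, α, β, h3, h4, h5⟩ := h1
  exact ⟨t0, α, β, h3, h4.trans h2, h5⟩

theorem LexGt.trans' {t lp lq : List O} {α β : O} (hαβ : α < β) (hp : t ++ [β] <+: lp)
    (hq : LexGt lp lq) : LexGt (t ++ [α]) lq := by
  obtain ⟨t0, α', β', h3, h4, h5⟩ := hq
  rcases lt_trichotomy t0.length t.length with h6 | h6 | h6
  · refine ⟨t0, α', β', h3, ?_, h5⟩
    have h7 : t0 ++ [α'] <+: t ++ [β] := by
      refine List.prefix_of_prefix_length_le h4 hp ?_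
      simp; omega
    have h8 : t0 ++ [α'] <+: t := by
      refine List.prefix_of_prefix_length_le h4 ((List.prefix_append t [β]).trans hp) ?_
      simp; omega
    exact h8.trans (List.prefix_append _ _)
  · have h7 : t0 ++ [α'] = t ++ [β] := by
      have h8 : t0 ++ [α'] <+: t ++ [β] := by
        refine List.prefix_of_prefix_length_le h4 hp ?_
        simp; omega
      exact h8.eq_of_length (by simp; omega)
    obtain ⟨h8, h9⟩ := List.append_inj' h7 rfl
    rw [List.singleton_inj] at h9
    subst h8 h9
    exact ⟨t0, α, β', hαβ.trans h3, List.prefix_rfl, h5⟩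
  · refine ⟨t, α, β, hαβ, List.prefix_rfl, ?_⟩
    have h7 : t ++ [β] <+: t0 ++ [α'] := by
      refine List.prefix_of_prefix_length_le hp h4 ?_
      simp; omega
    have h8 : t ++ [β] <+: t0 := by
      refine List.prefix_of_prefix_length_le hp ((List.prefix_append t0 [α']).trans h4) ?_
      simp; omega
    exact (h8.trans (List.prefix_append _ _)).trans h5

/-- coherence of a chain -/
def Coh (L : V → List V) (T : List V) : Prop := ∀ l1 q l2, T = l1 ++ q :: l2 → L q = l1

theorem Coh.snoc {L : V → List V} {p : V} (hp : Coh L (L p)) : Coh L (L p ++ [p]) := by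
  intro l1 q l2 h1
  rcases List.eq_nil_or_concat l2 with rfl | ⟨l3, r, rfl⟩
  · obtain ⟨h2, h3⟩ := List.append_inj' h1 rfl
    rw [List.singleton_inj] at h3
    rw [← h3, ← h2]
  · have h2 : L p ++ [p] = (l1 ++ q :: l3) ++ [r] := by
      rw [h1]; simp
    obtain ⟨h3, h4⟩ := List.append_inj' h2 rfl
    exact hp l1 q l3 h3

theorem run_fst_prefix (L : V → List V) (l : List O) :
    ∀ (t : List O) (st : List V × Finset J), st.1 <+: (run h z lev S L t l st).1 := by
  induction l with
  | nil => intro t st; exact List.prefix_rfl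
  | cons α l ih =>
    intro t st
    simp only [run]
    refine List.IsPrefix.trans ?_ (ih _ _)
    rcases stp_cases (h := h) (z := z) (lev := lev) (S := S) L st t α with h1 | ⟨j, p, h1, h2, -⟩
    · rw [h1.1]
    · rw [h2]
      exact h1.2.1.2.1.trans (List.prefix_append _ _)

theorem chain_spec (hS : ∀ j, ∀ p ∈ S j, h p < z j) {u : V → Finset J}
    (hu : ∀ v, ∀ j ∈ u v, z j ≤ h v) {L : V → List V}
    (hL : ∀ v, L v = (run h z lev S L [] (lev v) ([], u v)).1) (v : V) :
    Coh L (L v) ∧ ∀ q ∈ L v, LexGt (lev v) (lev q) ∧ h q < h v := by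
  have hwf : WellFounded (fun a b : V => h a < h b) := InvImage.wf h wellFounded_lt
  induction v using hwf.induction with
  | _ v ih =>
    have key : ∀ (l t : List O) (st : List V × Finset J), (∀ j ∈ st.2, z j ≤ h v) →
        (Coh L st.1 ∧ ∀ q ∈ st.1, LexGt t (lev q) ∧ h q < h v) →
        Coh L (run h z lev S L t l st).1 ∧
          ∀ q ∈ (run h z lev S L t l st).1, LexGt (t ++ l) (lev q) ∧ h q < h v := by
      intro l
      induction l with
      | nil =>
        intro t st _ h1
        simpa [run] using h1
      | cons α l ihl =>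
        intro t st hst h1
        simp only [run]
        have h2 := ihl (t ++ [α]) (stp L (Srv h z lev S L st t α) st)
          (fun j hj => hst j (stp_snd_subset L st t α hj)) ?_
        · rwa [List.append_assoc, List.singleton_append] at h2
        · rcases stp_cases (h := h) (z := z) (lev := lev) (S := S) L st t α with h3 | ⟨j, p, h3, h4, -⟩
          · rw [h3.1]
            refine ⟨h1.1, fun q hq => ⟨(h1.2 q hq).1.mono (List.prefix_append _ _), (h1.2 q hq).2⟩⟩
          · rw [h4]
            obtain ⟨hj, ⟨hpS, hpT, β, hβ, hpβ⟩, -⟩ := h3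
            have hpv : h p < h v := (hS j p hpS).trans_le (hst j hj)
            obtain ⟨h5, h6⟩ := ih p hpv
            refine ⟨h5.snoc, ?_⟩
            intro q hq
            rw [List.mem_append, List.mem_singleton] at hq
            rcases hq with hq | rfl
            · exact ⟨LexGt.trans' hβ hpβ (h6 q hq).1, (h6 q hq).2.trans hpv⟩
            · exact ⟨⟨t, α, β, hβ, List.prefix_rfl, hpβ⟩, hpv⟩
    have h1 := key (lev v) [] ([], u v) (hu v)
      ⟨fun l1 q l2 h => by simp at h, fun q hq => by simp at hq⟩
    rw [← hL v, List.nil_append] at h1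
    exact h1

end kill

end IPath
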