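import Pool.Agent.Work.MP_820435_lc.Kill
import Pool.Agent.Work.MP_820435_lc.Tree

/-!
# A graph without infinite paths that kills all rich independent sets, second part
-/

open Set Order

universe u

namespace IPath

section graph

variable {V O : Type u} [LinearOrder O]

/-- The graph of a system of chains. -/
def chainGraph (L : V → List V) (hirr : ∀ v, v ∉ L v) : SimpleGraph V where
  Adj v w := v ∈ L w ∨ w ∈ L v
  symm := ⟨fun v w h => h.symm⟩
  loopless := ⟨fun v h => by
    rcases h with h | h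
    · exact hirr v h
    · exact hirr v h⟩

theorem Coh.of_mem {L : V → List V} {T : List V} (hT : Coh L T) {q : V} (hq : q ∈ T) :
    L q ++ [q] <+: T := by
  obtain ⟨l1, l2, rfl⟩ := List.append_of_mem hq
  rw [hT l1 q l2 rfl]
  exact ⟨l2, by simp⟩

/-- The paths above a common list stabilise. -/
theorem path_step {L : V → List V} (hcoh : ∀ v, Coh L (L v)) {x : ℕ → V}
    (hx : Function.Injective x) (hadj : ∀ n, x n ∈ L (x (n + 1)) ∨ x (n + 1) ∈ L (x n))
    {l : List V} (hl : ∀ n, l <+: L (x n) ++ [x n]) :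
    ∃ (q : V) (N : ℕ), ∀ n, l ++ [q] <+: L (x (n + N)) ++ [x (n + N)] := by
  have h1 : ∃ N, ∀ n, N ≤ n → l ≠ L (x n) ++ [x n] := by
    by_cases h2 : ∃ m, l = L (x m) ++ [x m]
    · obtain ⟨m, hm⟩ := h2
      refine ⟨m + 1, fun n hn h3 => ?_⟩
      rw [hm] at h3
      obtain ⟨-, h4⟩ := List.append_inj' h3 rfl
      rw [List.singleton_inj] at h4
      have := hx h4
      omega
    · push Not at h2
      exact ⟨0, fun n _ => h2 n⟩
  obtain ⟨N, hN⟩ := h1
  have h2 : ∀ n, ∃ q, l ++ [q] <+: L (x (n + N)) ++ [x (n + N)] := by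
    intro n
    obtain ⟨m, hm⟩ := hl (n + N)
    cases m with
    | nil => exact absurd (by simpa using hm) (hN (n + N) (by omega))
    | cons q m => exact ⟨q, m, by simpa using hm⟩
  choose q hq using h2
  have h3 : ∀ n, q n = q (n + 1) := by
    intro n
    have h4 : L (x (n + N)) ++ [x (n + N)] <+: L (x (n + N + 1)) ++ [x (n + N + 1)] ∨
        L (x (n + N + 1)) ++ [x (n + N + 1)] <+: L (x (n + N)) ++ [x (n + N)] := by
      rcases hadj (n + N) with h5 | h5
      · exact Or.inl (((hcoh _).of_mem h5).trans (List.prefix_append _ _))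
      · exact Or.inr (((hcoh _).of_mem h5).trans (List.prefix_append _ _))
    have h5 := hq n
    have h6 := hq (n + 1)
    have h7 : n + 1 + N = n + N + 1 := by omega
    rw [h7] at h6
    have h8 : l ++ [q n] = l ++ [q (n + 1)] := by
      rcases h4 with h4 | h4
      · have h9 := h5.trans h4
        have h10 : l ++ [q n] <+: l ++ [q (n + 1)] :=
          List.prefix_of_prefix_length_le h9 h6 (by simp)
        exact h10.eq_of_length (by simp)
      · have h9 := h6.trans h4
        have h10 : l ++ [q n] <+: l ++ [q (n + 1)] :=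
          List.prefix_of_prefix_length_le h5 h9 (by simp)
        exact h10.eq_of_length (by simp)
    exact List.singleton_inj.1 (List.append_cancel_left h8)
  have h4 : ∀ n, q n = q 0 := by
    intro n
    induction n with
    | zero => rfl
    | succ n ih => rw [← h3 n, ih]
  refine ⟨q 0, N, fun n => ?_⟩
  rw [← h4 n]
  exact hq n

theorem wf_lexGt [WellFoundedLT O] (lev : V → List O) (hlev : ∀ v, (lev v).IsChain (· > ·)) :
    WellFounded (fun q' q : V => LexGt (lev q') (lev q)) := by
  have hwf := WellFounded.list_chain' (r := ((· < ·) : O → O → Prop)) wellFounded_lt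
  have h1 : ∀ v, (lev v).IsChain (flip ((· < ·) : O → O → Prop)) := by
    intro v
    exact hlev v
  refine Subrelation.wf (r := InvImage (List.lex_chains ((· < ·) : O → O → Prop))
    (fun v => ⟨lev v, h1 v⟩)) ?_ (InvImage.wf _ hwf)
  rintro q' q ⟨t0, α, β, h3, ⟨m, hm⟩, ⟨m', hm'⟩⟩
  change List.Lex (· < ·) (lev q') (lev q)
  rw [← hm, ← hm', List.append_assoc, List.append_assoc]
  exact List.Lex.append_left _ (List.Lex.rel h3) t0

theorem no_ray {K : Type u} [LinearOrder K] [WellFoundedLT O] {L : V → List V} (lev : V → List O)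
    (hlev : ∀ v, (lev v).IsChain (· > ·)) (hcoh : ∀ v, Coh L (L v))
    (hgt : ∀ v, ∀ q ∈ L v, LexGt (lev v) (lev q)) (hirr : ∀ v, v ∉ L v) :
    ¬ HasRay (chainGraph L hirr) := by
  have key : ∀ q : V, ∀ x : ℕ → V, Function.Injective x →
      (∀ n, x n ∈ L (x (n + 1)) ∨ x (n + 1) ∈ L (x n)) →
      (∀ n, L q ++ [q] <+: L (x n) ++ [x n]) → False := by
    intro q
    induction q using (wf_lexGt lev hlev).induction with
    | _ q ih =>
      intro x hx hadj hl
      obtain ⟨q', N, h1⟩ := path_step hcoh hx hadj hl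
      have h2 : L q' = L q ++ [q] := by
        have h3 := (hcoh (x (0 + N))).snoc
        obtain ⟨m, hm⟩ := h1 0
        exact h3 (L q ++ [q]) q' m (by rw [← hm]; simp)
      have h4 : LexGt (lev q') (lev q) := hgt q' q (by rw [h2]; simp)
      refine ih q' h4 (fun n => x (n + N)) (fun a b hab => by simpa using hx hab)
        (fun n => ?_) (fun n => ?_)
      · have := hadj (n + N)
        have h5 : n + 1 + N = n + N + 1 := by omega
        simpa only [h5] using this
      · rw [h2]
        exact h1 n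
  rintro ⟨x, hx, hadj⟩
  obtain ⟨q', N, h1⟩ := path_step hcoh hx hadj (l := []) (fun n => List.nil_prefix)
  refine key q' (fun n => x (n + N)) (fun a b hab => by simpa using hx hab)
        (fun n => ?_) (fun n => ?_)
  · have h6 : x (n + N) ∈ L (x (n + N + 1)) ∨ x (n + N + 1) ∈ L (x (n + N)) := hadj (n + N)
    have h5 : n + 1 + N = n + N + 1 := by omega
    simpa only [h5] using h6
  · have h2 : L q' = [] := by
      have h3 := (hcoh (x (0 + N))).snoc
      obtain ⟨m, hm⟩ := h1 0
      exact h3 [] q' m (by rw [← hm]; simp)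
    rw [h2]
    exact h1 n

end graph

section kill2

variable {V K O J : Type u} [LinearOrder K] [WellFoundedLT K] [LinearOrder O]
variable {h : V → K} {z : J → K} {lev : V → List O} {S : J → Set V}

/-- The set `D` branches `k` times above the level list `t`. -/
def Br (lev : V → List O) (D : Set V) : ℕ → List O → Prop
  | 0, t => ∃ v ∈ D, t <+: lev v
  | k + 1, t => ∃ t', t <+: t' ∧ ∃ β : ℕ → O, StrictMono β ∧ ∀ i, Br lev D k (t' ++ [β i])

omit [WellFoundedLT K] in
theorem Br.exists_mem {D : Set V} : ∀ {k : ℕ} {t : List O}, Br lev D k t → ∃ v ∈ D, t <+: lev v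
  | 0, _, hb => hb
  | k + 1, t, ⟨t', h1, β, _, h3⟩ => by
    obtain ⟨v, hv, h4⟩ := (h3 0).exists_mem
    exact ⟨v, hv, h1.trans ((List.prefix_append _ _).trans h4)⟩

/-- the state at a level list -/
noncomputable def sta (h : V → K) (z : J → K) (lev : V → List O) (S : J → Set V)
    (L : V → List V) (R0 : Finset J) (t : List O) : List V × Finset J :=
  run h z lev S L [] t ([], R0)

theorem sta_snoc (L : V → List V) (R0 : Finset J) (t : List O) (α : O) :
    sta h z lev S L R0 (t ++ [α]) =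
      stp L (Srv h z lev S L (sta h z lev S L R0 t) t α) (sta h z lev S L R0 t) := by
  unfold sta
  rw [run_append]
  rfl

/-- A set of vertices is rich for `δ` if it contains a set of vertices with the same set of tasks,
containing `δ`, which branches as many times as there are tasks. -/
def Rich (lev : V → List O) (u : V → Finset J) (S0 : Set V) (δ : J) : Prop :=
  ∃ D ⊆ S0, ∃ R0 : Finset J, (∀ v ∈ D, u v = R0) ∧ δ ∈ R0 ∧ Br lev D R0.card []

theorem kill (hS : ∀ j, ∀ p ∈ S j, h p < z j) {u : V → Finset J}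
    (hu : ∀ v, ∀ j ∈ u v, z j ≤ h v) {L : V → List V}
    (hL : ∀ v, L v = (run h z lev S L [] (lev v) ([], u v)).1) {S0 : Set V}
    (hind : ∀ v ∈ S0, ∀ w ∈ S0, v ∉ L w) {δ : J}
    (hδ : ∀ p, p ∈ S δ ↔ p ∈ S0 ∧ h p < z δ)
    (hrefl : ∀ (T : List V) (t : List O), (∀ q ∈ T, h q < z δ) →
      (∃ y ∈ S0, T <+: L y ∧ t <+: lev y) → ∃ p ∈ S0, h p < z δ ∧ T <+: L p ∧ t <+: lev p) :
    ¬ Rich lev u S0 δ := by
  classical
  rintro ⟨D, hDS, R0, hDu, hδR, hBr⟩
  have hsp := chain_spec hS hu hL
  set st : List O → List V × Finset J := sta h z lev S L R0 with hst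
  have hLst : ∀ v ∈ D, ∀ t, t <+: lev v → (st t).1 <+: L v := by
    rintro v hv t ⟨m, hm⟩
    rw [hL v, hDu v hv, ← hm, run_append]
    exact run_fst_prefix _ _ _ _
  -- the invariant
  set I : List O → Prop := fun t => δ ∈ (st t).2 ∧ ∀ q ∈ (st t).1, h q < z δ with hI
  have halive : ∀ t α, I t → (∃ v ∈ D, t ++ [α] <+: lev v) →
      ∃ q, Ext lev S L (st t).1 t (fun β => α ≤ β) δ q := by
    rintro t α ⟨h1, h2⟩ ⟨v, hv, h3⟩
    obtain ⟨p, hp, h4, h5, h6⟩ := hrefl (st t).1 (t ++ [α]) h2
      ⟨v, hDS hv, hLst v hv t ((List.prefix_append _ _).trans h3), h3⟩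
    exact ⟨p, (hδ p).2 ⟨hp, h4⟩, h5, α, le_rfl, h6⟩
  have hstep : ∀ t α, I t → (∃ v ∈ D, t ++ [α] <+: lev v) →
      I (t ++ [α]) ∧ ((∃ jp, Srv h z lev S L (st t) t α jp) →
        (st (t ++ [α])).2.card < (st t).2.card) := by
    rintro t α hIt hv
    have hal := halive t α hIt hv
    obtain ⟨v, hv, h3⟩ := hv
    have hsn : st (t ++ [α]) = stp L (Srv h z lev S L (st t) t α) (st t) := sta_snoc L R0 t α
    rcases stp_cases (h := h) (z := z) (lev := lev) (S := S) L (st t) t α with
      h4 | ⟨j, p, ⟨h5, ⟨h6, h7, β, h8, h9⟩, h10⟩, h11, h12, h13, h14⟩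
    · refine ⟨?_, fun h5 => absurd h5 h4.2⟩
      rw [hI]
      simp only
      rw [hsn, h4.1]
      exact hIt
    · have hpδ : h p < z δ := h10 δ hIt.1 hal
      have hpL : p ∈ L v := by
        have h15 := hLst v hv (t ++ [α]) h3
        rw [hsn, h11] at h15
        exact h15.subset (by simp)
      have hpS : p ∉ S0 := fun hp => hind p hp v (hDS hv) hpL
      have hj : j ≠ δ := by
        rintro rfl
        exact hpS ((hδ p).1 h6).1
      refine ⟨⟨?_, ?_⟩, fun _ => by rw [hsn]; exact h14⟩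
      · rw [hsn]
        exact h13 δ hIt.1 hj.symm
      · intro q hq
        rw [hsn, h11, List.mem_append, List.mem_singleton] at hq
        rcases hq with hq | rfl
        · exact ((hsp p).2 q hq).2.trans hpδ
        · exact hpδ
  have hpersist : ∀ (m t : List O), I t → (∃ v ∈ D, t ++ m <+: lev v) →
      I (t ++ m) ∧ (st (t ++ m)).2.card ≤ (st t).2.card := by
    intro m
    induction m with
    | nil =>
      intro t h1 _
      simpa using h1
    | cons α m ih =>
      rintro t h1 ⟨v, hv, h2⟩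
      have h3 : t ++ α :: m = (t ++ [α]) ++ m := by simp
      have h4 := (hstep t α h1 ⟨v, hv, by
        refine List.IsPrefix.trans ?_ h2
        rw [h3]
        exact List.prefix_append _ _⟩).1
      obtain ⟨h5, h6⟩ := ih (t ++ [α]) h4 ⟨v, hv, by rwa [← h3]⟩
      rw [h3]
      refine ⟨h5, h6.trans ?_⟩
      have hsn : st (t ++ [α]) = stp L (Srv h z lev S L (st t) t α) (st t) := sta_snoc L R0 t α
      rw [hsn]
      exact Finset.card_le_card (stp_snd_subset L (st t) t α)
  have hbranch : ∀ (t : List O) (β : ℕ → O), I t → StrictMono β →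
      (∀ i, ∃ v ∈ D, t ++ [β i] <+: lev v) →
      ∃ i, I (t ++ [β i]) ∧ (st (t ++ [β i])).2.card < (st t).2.card := by
    intro t β hIt hβ hD
    -- bounded tasks
    have h1 : ∀ j, ∃ i0 : ℕ, ∀ i ≥ i0,
        (∃ q, Ext lev S L (st t).1 t (fun γ => β i ≤ γ) j q) →
          ∃ q, Ext lev S L (st t).1 t (fun γ => β i < γ) j q := by
      intro j
      by_cases h2 : ∃ i0, ∀ q γ, q ∈ S j → (st t).1 <+: L q → t ++ [γ] <+: lev q → γ < β i0
      · obtain ⟨i0, h2⟩ := h2
        refine ⟨i0, fun i hi hq => ?_⟩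
        obtain ⟨q, h3, h4, γ, h5, h6⟩ := hq
        have h7 := h2 q γ h3 h4 h6
        have h8 : β i0 ≤ β i := hβ.monotone hi
        exact absurd (h5.trans_lt h7) (not_lt.2 h8)
      · push Not at h2
        refine ⟨0, fun i _ _ => ?_⟩
        obtain ⟨q, γ, h3, h4, h5, h6⟩ := h2 (i + 1)
        exact ⟨q, h3, h4, γ, (hβ (Nat.lt_succ_self i)).trans_le h6, h5⟩
    choose i0 hi0 using h1
    set i : ℕ := (st t).2.sup i0 with hi
    have h2 : ∀ j ∈ (st t).2, (∃ q, Ext lev S L (st t).1 t (fun γ => β i ≤ γ) j q) →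
          ∃ q, Ext lev S L (st t).1 t (fun γ => β i < γ) j q := by
      intro j hj
      exact hi0 j i (Finset.le_sup hj)
    obtain ⟨h3, h4⟩ := hstep t (β i) hIt (hD i)
    refine ⟨i, h3, h4 ?_⟩
    -- a servable pair exists
    have hal := h2 δ hIt.1 (halive t (β i) hIt (hD i))
    obtain ⟨q0, hq0⟩ := hal
    set C : Set V := {p | ∃ j ∈ (st t).2, Ext lev S L (st t).1 t (fun γ => β i < γ) j p} with hC
    have hCne : C.Nonempty := ⟨q0, δ, hIt.1, hq0⟩
    have hwf : WellFounded (fun a b : V => h a < h b) := InvImage.wf h wellFounded_lt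
    obtain ⟨p, ⟨j, hj, hp⟩, hmin⟩ := hwf.has_min C hCne
    refine ⟨(j, p), hj, hp, ?_⟩
    intro j' hj' hq'
    obtain ⟨q', hq''⟩ := h2 j' hj' hq'
    have h5 := hmin q' ⟨j', hj', hq''⟩
    exact (not_lt.1 h5).trans_lt (hS j' q' hq''.1)
  -- the conclusion
  have hmain : ∀ (k : ℕ) (t : List O), I t → (st t).2.card ≤ k → Br lev D k t → False := by
    intro k
    induction k with
    | zero =>
      intro t h1 h2 _
      have h3 := Finset.card_pos.2 ⟨δ, h1.1⟩
      omega
    | succ k ih =>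
      rintro t h1 h2 ⟨t', ⟨m, rfl⟩, β, hβ, h3⟩
      have h4 : ∀ i, ∃ v ∈ D, (t ++ m) ++ [β i] <+: lev v := fun i => (h3 i).exists_mem
      obtain ⟨v, hv, h5⟩ := h4 0
      obtain ⟨h6, h7⟩ := hpersist m t h1 ⟨v, hv, (List.prefix_append _ _).trans h5⟩
      obtain ⟨i, h8, h9⟩ := hbranch (t ++ m) β h6 hβ h4
      exact ih _ h8 (by omega) (h3 i)
  refine hmain R0.card [] ⟨hδR, fun q hq => ?_⟩ le_rfl hBr
  simp [hst, sta, run] at hq

end kill2

end IPath
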