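import Pool.Agent.Work.MP_820435_lc.Mult

/-!
# Well-ordered trees of lists
-/

open Ordinal Cardinal Set Order

universe u

namespace IPath

/-- An upper bound for the type by the types of the fibres of a monotone map. -/
theorem otp_le_mul_of_fib {X I : Type u} [LinearOrder X] [WellFoundedLT X] [LinearOrder I]
    [WellFoundedLT I] (f : X → I) (hf : Monotone f) (γ : Ordinal.{u})
    (h : ∀ i, otp {x | f x = i} ≤ γ) : otp X ≤ γ * otp I := by
  have h' : ∀ i, ∃ e : {x | f x = i} → γ.ToType, StrictMono e := by
    intro i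
    apply exists_strictMono_of_otp_le
    rw [otp_toType]
    exact h i
  choose e he using h'
  have h1 : otp X ≤ otp (I ×ₗ γ.ToType) := by
    refine otp_le_of_strictMono (fun x => toLex (f x, e (f x) ⟨x, rfl⟩)) ?_
    intro x y hxy
    rw [Prod.Lex.toLex_lt_toLex]
    rcases lt_or_eq_of_le (hf hxy.le) with h2 | h2
    · exact Or.inl h2
    · right
      refine ⟨h2, ?_⟩
      have key : ∀ (i : I) (hx : f x = i) (hy : f y = i),
          e i ⟨x, hx⟩ < e i ⟨y, hy⟩ := by
        intro i hx hy
        exact he i (by exact hxy)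
      have key2 : ∀ (i : I) (hy : f y = i), e (f y) ⟨y, rfl⟩ = e i ⟨y, hy⟩ := by
        rintro i rfl
        rfl
      rw [key2 (f x) h2.symm]
      exact key (f x) rfl h2.symm
  rwa [otp_prodLex, otp_toType] at h1

section lists

variable {A C : Type u} [LinearOrder A] [LinearOrder C]

/-- level list of a list of pairs -/
def lv (l : List (A ×ₗ C)) : List A := l.map (fun p => (ofLex p).1)

variable (C) in
/-- The space of lists whose level list extends `t` in `T`. -/
def Ls (T : List A → Prop) (t : List A) : Type u := {l : List (A ×ₗ C) // T (t ++ lv l)}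

noncomputable instance (T : List A → Prop) (t : List A) : LinearOrder (Ls C T t) :=
  inferInstanceAs (LinearOrder {l : List (A ×ₗ C) // T (t ++ lv l)})

/-- A rank function for a tree of lists. -/
structure IsRk (T : List A → Prop) (r : List A → Ordinal.{u}) : Prop where
  pre : ∀ t s, T (t ++ s) → T t
  dec : ∀ t z, T (t ++ [z]) → r (t ++ [z]) < r t
  sup : ∀ t, T t → ∀ ρ < r t, ∃ z, T (t ++ [z]) ∧ ρ ≤ r (t ++ [z])

variable {T : List A → Prop} {r : List A → Ordinal.{u}}

theorem Ls.lt_iff {t : List A} {l l' : Ls C T t} : l < l' ↔ l.1 < l'.1 := Iff.rfl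

/-- adding an element in front -/
def Ls.cons {t : List A} (z : A) (c : C) (l : Ls C T (t ++ [z])) : Ls C T t :=
  ⟨toLex (z, c) :: l.1, by
    have := l.2
    rw [List.append_assoc] at this
    exact this⟩

omit [LinearOrder A] [LinearOrder C] in
theorem Ls.exists_cons {t : List A} (l : Ls C T t) (h : l.1 ≠ []) :
    ∃ (z : A) (c : C) (l' : Ls C T (t ++ [z])), l = Ls.cons z c l' := by
  obtain ⟨l, hl⟩ := l
  cases l with
  | nil => exact absurd rfl h
  | cons a l =>
    refine ⟨(ofLex a).1, (ofLex a).2, ⟨l, ?_⟩, ?_⟩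
    · rw [List.append_assoc]
      exact hl
    · rfl

theorem Ls.cons_lt_cons {t : List A} {z z' : A} {c c' : C} {l : Ls C T (t ++ [z])}
    {l' : Ls C T (t ++ [z'])} : Ls.cons z c l < Ls.cons z' c' l' ↔
      (z < z' ∨ z = z' ∧ c < c') ∨ (z = z' ∧ c = c') ∧ l.1 < l'.1 := by
  rw [Ls.lt_iff]
  change toLex (z, c) :: l.1 < toLex (z', c') :: l'.1 ↔ _
  rw [List.cons_lt_cons_iff, Prod.Lex.toLex_lt_toLex]
  simp only [toLex_inj, Prod.mk.injEq]

theorem wf_Ls [WellFoundedLT A] [WellFoundedLT C] (h : IsRk T r) (t : List A) :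
    WellFoundedLT (Ls C T t) := by
  have key : ∀ (ρ : Ordinal.{u}) (t : List A), r t = ρ → WellFoundedLT (Ls C T t) := by
    intro ρ
    induction ρ using WellFoundedLT.induction with
    | ind ρ ih =>
      rintro t rfl
      refine ⟨WellFounded.wellFounded_iff_has_min.2 ?_⟩
      intro S hS
      by_cases h1 : ∃ l ∈ S, l.1 = []
      · obtain ⟨l, hl, h2⟩ := h1
        refine ⟨l, hl, fun x _ hx => ?_⟩
        rw [Ls.lt_iff, h2] at hx
        exact List.not_lt_nil _ hx
      · push Not at h1
        set S1 : Set (A ×ₗ C) := {p | ∃ l' : Ls C T (t ++ [(ofLex p).1]),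
          Ls.cons (ofLex p).1 (ofLex p).2 l' ∈ S} with hS1
        have hS1ne : S1.Nonempty := by
          obtain ⟨l, hl⟩ := hS
          obtain ⟨z, c, l', rfl⟩ := l.exists_cons (h1 l hl)
          exact ⟨toLex (z, c), l', hl⟩
        obtain ⟨p, ⟨l0, hl0⟩, hpmin⟩ := wellFounded_lt.has_min S1 hS1ne
        have hT : T (t ++ [(ofLex p).1]) := h.pre _ _ l0.2
        have hwf := ih _ (h.dec _ _ hT) _ rfl
        obtain ⟨l, hl, hlmin⟩ := hwf.wf.has_min {l' : Ls C T (t ++ [(ofLex p).1]) |
          Ls.cons (ofLex p).1 (ofLex p).2 l' ∈ S} ⟨l0, hl0⟩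
        refine ⟨_, hl, ?_⟩
        intro x hx hlt
        obtain ⟨z, c, l', rfl⟩ := x.exists_cons (h1 x hx)
        rw [Ls.cons_lt_cons] at hlt
        rcases hlt with h2 | ⟨⟨rfl, rfl⟩, h3⟩
        · exact hpmin (toLex (z, c)) ⟨l', hx⟩ (Prod.Lex.lt_iff.2 h2)
        · exact hlmin l' hx h3
  exact key _ t rfl

variable [WellFoundedLT A] [WellFoundedLT C]

/-- lower bound for the type -/
theorem Ls.le_otp (h : IsRk T r) (hC : otp C ≠ 0) (t : List A) [WellFoundedLT (Ls C T t)]
    (ht : T t) : otp C ^ r t ≤ otp (Ls C T t) := by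
  have key : ∀ (ρ : Ordinal.{u}) (t : List A) [WellFoundedLT (Ls C T t)], T t → ρ ≤ r t →
      otp C ^ ρ ≤ otp (Ls C T t) := by
    intro ρ
    induction ρ using WellFoundedLT.induction with
    | ind ρ ih =>
      intro t hwf ht hρ
      rcases eq_or_ne ρ 0 with rfl | h0
      · rw [opow_zero, Order.one_le_iff_ne_zero, type_ne_zero_iff_nonempty]
        exact ⟨⟨[], by simpa [lv] using ht⟩⟩
      · refine opow_le_of_forall_mul hC h0 ?_
        intro ρ' hρ'
        obtain ⟨z, hz, h1⟩ := h.sup t ht ρ' (hρ'.trans_le hρ)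
        have hwf' : WellFoundedLT (Ls C T (t ++ [z])) := wf_Ls h _
        refine (mul_le_mul_left (ih ρ' hρ' _ hz h1) _).trans ?_
        rw [← otp_prodLex]
        refine otp_le_of_strictMono (fun x => Ls.cons z (ofLex x).1 (ofLex x).2) ?_
        intro x y hxy
        rw [Ls.cons_lt_cons]
        rcases Prod.Lex.lt_iff.1 hxy with h2 | ⟨h2, h3⟩
        · exact Or.inl (Or.inr ⟨rfl, h2⟩)
        · exact Or.inr ⟨⟨rfl, h2⟩, h3⟩
  exact key _ t ht le_rfl

/-- the first level -/
def Ls.head {t : List A} (l : Ls C T t) : WithBot A :=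
  match l.1 with
  | [] => ⊥
  | p :: _ => ((ofLex p).1 : WithBot A)

omit [LinearOrder A] [LinearOrder C] [WellFoundedLT A] [WellFoundedLT C] in
theorem Ls.head_cons {t : List A} {z : A} {c : C} {l : Ls C T (t ++ [z])} :
    (Ls.cons z c l).head = (z : WithBot A) := rfl

omit [LinearOrder A] [LinearOrder C] [WellFoundedLT A] [WellFoundedLT C] in
theorem Ls.head_eq_bot {t : List A} {l : Ls C T t} : l.head = ⊥ ↔ l.1 = [] := by
  constructor
  · intro h
    by_contra h1
    obtain ⟨z, c, l', rfl⟩ := l.exists_cons h1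
    rw [Ls.head_cons] at h
    exact WithBot.coe_ne_bot h
  · intro h
    rw [Ls.head, h]

omit [WellFoundedLT A] [WellFoundedLT C] in
theorem Ls.head_mono {t : List A} : Monotone (Ls.head : Ls C T t → WithBot A) := by
  intro l l' hl
  rcases eq_or_lt_of_le hl with rfl | hl
  · exact le_rfl
  by_cases h1 : l.1 = []
  · rw [Ls.head_eq_bot.2 h1]
    exact bot_le
  · have h2 : l'.1 ≠ [] := by
      intro h2
      rw [Ls.lt_iff, h2] at hl
      exact List.not_lt_nil _ hl
    obtain ⟨z, c, m, rfl⟩ := l.exists_cons h1
    obtain ⟨z', c', m', rfl⟩ := l'.exists_cons h2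
    rw [Ls.cons_lt_cons] at hl
    rw [Ls.head_cons, Ls.head_cons, WithBot.coe_le_coe]
    rcases hl with (h3 | ⟨rfl, -⟩) | ⟨⟨rfl, -⟩, -⟩
    · exact h3.le
    · exact le_rfl
    · exact le_rfl

/-- upper bound for the type -/
theorem Ls.otp_le (h : IsRk T r) {M : Ordinal.{u}} (h1 : 1 ≤ M) (hM : M * otp C ≤ otp C)
    (hA : otp (WithBot A) ≤ M) (t : List A) [WellFoundedLT (Ls C T t)] (hC : otp C ≠ 0) :
    otp (Ls C T t) ≤ otp C ^ r t * M := by
  have key : ∀ (ρ : Ordinal.{u}) (t : List A) [WellFoundedLT (Ls C T t)], r t = ρ →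
      otp (Ls C T t) ≤ otp C ^ r t * M := by
    intro ρ
    induction ρ using WellFoundedLT.induction with
    | ind ρ ih =>
      rintro t hwf rfl
      refine (otp_le_mul_of_fib Ls.head Ls.head_mono (otp C ^ r t) ?_).trans
        (mul_le_mul_right hA _)
      intro z
      induction z using WithBot.recBotCoe with
      | bot =>
        have h2 : otp {x : Ls C T t | x.head = ⊥} ≤ otp PUnit.{u + 1} := by
          refine otp_le_of_strictMono (fun _ => PUnit.unit) ?_
          rintro ⟨x, hx⟩ ⟨y, hy⟩ hxy
          have h3 : x.1 = [] := Ls.head_eq_bot.1 hx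
          have h4 : y.1 = [] := Ls.head_eq_bot.1 hy
          have h5 : x < y := hxy
          rw [Ls.lt_iff, h3, h4] at h5
          exact absurd h5 (lt_irrefl _)
        refine h2.trans ?_
        have h3 : otp PUnit.{u + 1} = 1 := type_eq_one_of_unique _
        rw [h3, Order.one_le_iff_ne_zero]
        exact opow_ne_zero _ hC
      | coe z =>
        by_cases hz : T (t ++ [z])
        · have hwf' : WellFoundedLT (Ls C T (t ++ [z])) := wf_Ls h _
          have h2 : otp {x : Ls C T t | x.head = (z : WithBot A)} ≤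
              otp (C ×ₗ Ls C T (t ++ [z])) := by
            have hx : ∀ x : {x : Ls C T t | x.head = (z : WithBot A)}, ∃ (c : C)
                (l : Ls C T (t ++ [z])), x.1 = Ls.cons z c l := by
              rintro ⟨x, hx⟩
              have h3 : x.1 ≠ [] := by
                intro h3
                rw [← Ls.head_eq_bot] at h3
                have h4 : x.head = (z : WithBot A) := hx
                rw [h3] at h4
                exact WithBot.bot_ne_coe h4
              obtain ⟨z', c, l, h4⟩ := x.exists_cons h3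
              subst h4
              have h5 : (z' : WithBot A) = (z : WithBot A) := hx
              rw [WithBot.coe_inj] at h5
              subst h5
              exact ⟨c, l, rfl⟩
            choose c l hcl using hx
            refine otp_le_of_strictMono (fun x => toLex (c x, l x)) ?_
            intro x y hxy
            have h3 : x.1 < y.1 := hxy
            rw [hcl x, hcl y, Ls.cons_lt_cons] at h3
            rw [Prod.Lex.toLex_lt_toLex]
            rcases h3 with (h3 | ⟨-, h3⟩) | ⟨⟨-, h3⟩, h4⟩
            · exact absurd h3 (lt_irrefl _)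
            · exact Or.inl h3
            · exact Or.inr ⟨h3, h4⟩
          refine h2.trans ?_
          rw [otp_prodLex]
          have h3 := ih _ (h.dec t z hz) (t ++ [z]) rfl
          refine (mul_le_mul_left h3 _).trans ?_
          rw [mul_assoc]
          refine (mul_le_mul_right hM _).trans ?_
          rw [← opow_succ]
          exact opow_le_opow_right (pos_iff_ne_zero.2 hC)
            (Order.succ_le_of_lt (h.dec t z hz))
        · have h2 : IsEmpty {x : Ls C T t | x.head = (z : WithBot A)} := by
            constructor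
            rintro ⟨x, hx⟩
            have h3 : x.1 ≠ [] := by
              intro h3
              rw [← Ls.head_eq_bot] at h3
              have h4 : x.head = (z : WithBot A) := hx
              rw [h3] at h4
              exact WithBot.bot_ne_coe h4
            obtain ⟨z', c, l, h4⟩ := x.exists_cons h3
            subst h4
            have h5 : (z' : WithBot A) = (z : WithBot A) := hx
            rw [WithBot.coe_inj] at h5
            subst h5
            exact hz (h.pre _ _ l.2)
          have h3 : otp {x : Ls C T t | x.head = (z : WithBot A)} = 0 := type_eq_zero_of_empty _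
          rw [h3]
          exact bot_le
  exact key _ t rfl

end lists

end IPath
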