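import Pool.Agent.Work.MP_820435_lc.Pat
import Pool.Agent.Work.MP_820435_lc.Tft
import Pool.Agent.Work.MP_820435_lc.Enum
import Pool.Agent.Work.MP_820435_lc.Kill2
import Pool.Agent.Work.MP_820435_lc.InjChoice

/-!
# The negative theorem
-/

open Ordinal Cardinal Set Order

universe u

namespace IPath

theorem otp_le_mul_fib {I Z : Type u} [LinearOrder I] [WellFoundedLT I] [LinearOrder Z]
    [WellFoundedLT Z] (S : Set (I ×ₗ Z)) (I' : Set I) (hI : ∀ x ∈ S, (ofLex x).1 ∈ I')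
    (γ : Ordinal.{u}) (h : ∀ i ∈ I', otp (fib S i) ≤ γ) : otp S ≤ γ * otp I' := by
  refine otp_le_mul_of_fib (X := S) (I := I') (fun x => ⟨(ofLex x.1).1, hI x.1 x.2⟩) ?_ γ ?_
  · intro x y hxy
    have h1 : x.1 ≤ y.1 := hxy
    rw [Prod.Lex.le_iff] at h1
    rcases h1 with h1 | ⟨h1, -⟩
    · exact h1.le
    · exact h1.le
  · rintro ⟨i, hi⟩
    refine le_trans ?_ (h i hi)
    have h2 : ∀ x : {x : S | (⟨(ofLex x.1).1, hI x.1 x.2⟩ : I') = ⟨i, hi⟩},
        (ofLex x.1.1).1 = i := fun x => congrArg Subtype.val x.2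
    refine otp_le_of_strictMono (fun x => ⟨(ofLex x.1.1).2, ?_⟩) ?_
    · have h3 : toLex ((ofLex x.1.1).1, (ofLex x.1.1).2) ∈ S := x.1.2
      have key : ∀ i', (ofLex x.1.1).1 = i' → toLex (i', (ofLex x.1.1).2) ∈ S := by
        rintro _ rfl
        exact h3
      exact key i (h2 x)
    · intro x y hxy
      have h3 : x.1.1 < y.1.1 := hxy
      rw [Prod.Lex.lt_iff, h2 x, h2 y] at h3
      rcases h3 with h3 | h3
      · exact absurd h3 (lt_irrefl _)
      · exact h3.2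

theorem otp_le_mul_fib' {I Z : Type u} [LinearOrder I] [WellFoundedLT I] [LinearOrder Z]
    [WellFoundedLT Z] (S : Set (I ×ₗ Z)) (γ : Ordinal.{u}) (h : ∀ i, otp (fib S i) ≤ γ) :
    otp S ≤ γ * otp I := by
  refine (otp_le_mul_fib S Set.univ (fun _ _ => mem_univ _) γ (fun i _ => h i)).trans ?_
  exact mul_le_mul_right (otp_set_le _) _

theorem exists_large {K Y W Q : Type u} [LinearOrder K] [WellFoundedLT K] [LinearOrder Y]
    [WellFoundedLT Y] [LinearOrder W] [WellFoundedLT W] [LinearOrder Q] [WellFoundedLT Q]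
    {κ e Ξ q η θ : Ordinal.{u}} (hκ : κ = ω ^ e) (hκ1 : 1 < κ) (hK : otp K = κ)
    (hY : otp Y = κ ^ Ξ) (hW : otp W = κ ^ η) (hQ : otp Q = κ ^ q)
    (hη : θ + Ξ + 2 < η + Ξ + 2) (good : K → Y → Prop) (δ : K) (hδ : otp (Iic δ) < κ)
    (hgood : ∀ γ, δ < γ → otp {y | ¬ good γ y} * κ ≤ κ ^ Ξ)
    (S : Set (K ×ₗ (K ×ₗ (Y ×ₗ (W ×ₗ Q))))) (hS : κ ^ (q + (η + Ξ + 2)) ≤ otp S) :
    ∃ γ c y, good γ y ∧ κ ^ θ ≤ otp {w : W | ∃ p : Q,
      toLex (γ, toLex (c, toLex (y, toLex (w, p)))) ∈ S} := by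
  by_contra hcon
  push Not at hcon
  have hκ0 : 0 < κ := zero_lt_one.trans hκ1
  have h2 : ∀ x : Ordinal.{u}, κ ^ (x + 2) = κ ^ x * κ * κ := by
    intro x
    rw [Ordinal.opow_add, ← one_add_one_eq_two, Ordinal.opow_add, opow_one, mul_assoc]
  set S1 : Set (K ×ₗ (K ×ₗ (Y ×ₗ (W ×ₗ Q)))) := {x | x ∈ S ∧ (ofLex x).1 ∈ Iic δ} with hS1
  set S2 : Set (K ×ₗ (K ×ₗ (Y ×ₗ (W ×ₗ Q)))) := {x | x ∈ S ∧ (ofLex x).1 ∉ Iic δ ∧
    ¬ good (ofLex x).1 (ofLex (ofLex (ofLex x).2).2).1} with hS2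
  set S3 : Set (K ×ₗ (K ×ₗ (Y ×ₗ (W ×ₗ Q)))) := {x | x ∈ S ∧
    good (ofLex x).1 (ofLex (ofLex (ofLex x).2).2).1} with hS3
  have hcov : S ⊆ S1 ∪ (S2 ∪ S3) := by
    intro x hx
    by_cases h3 : (ofLex x).1 ∈ Iic δ
    · exact Or.inl ⟨hx, h3⟩
    · by_cases h4 : good (ofLex x).1 (ofLex (ofLex (ofLex x).2).2).1
      · exact Or.inr (Or.inr ⟨hx, h4⟩)
      · exact Or.inr (Or.inl ⟨hx, h3, h4⟩)
  have hpow : ∀ x, κ ^ x = ω ^ (e * x) := by
    intro x
    rw [hκ, ← Ordinal.opow_mul]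
  have hcov1 : κ ^ (q + (η + Ξ + 2)) ≤ otp S1 ∨ κ ^ (q + (η + Ξ + 2)) ≤ otp S2 ∨
      κ ^ (q + (η + Ξ + 2)) ≤ otp S3 := by
    rw [hpow] at hS ⊢
    rcases cover2 hcov hS with h3 | h3
    · exact Or.inl h3
    · exact Or.inr (cover2 subset_rfl h3)
  have hWQ : otp (W ×ₗ Q) = κ ^ (q + η) := by
    rw [otp_prodLex, hW, hQ, Ordinal.opow_add]
  have hYWQ : otp (Y ×ₗ (W ×ₗ Q)) = κ ^ (q + η + Ξ) := by
    rw [otp_prodLex, hWQ, hY, ← Ordinal.opow_add]
  have hassoc : q + (η + Ξ + 2) = q + η + Ξ + 2 := by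
    rw [← add_assoc, ← add_assoc]
  rcases hcov1 with h3 | h3 | h3
  · -- small first coordinate
    have h4 : otp S1 ≤ κ ^ (q + η + Ξ) * κ * otp (Iic δ) := by
      refine otp_le_mul_fib S1 (Iic δ) (fun x hx => hx.2) _ (fun i _ => ?_)
      refine (otp_set_le _).trans_eq ?_
      rw [otp_prodLex, hYWQ, hK]
    have h5 := h3.trans h4
    rw [hassoc, h2] at h5
    refine absurd h5 (not_le.2 ?_)
    exact (mul_lt_mul_iff_right₀ (mul_pos (opow_pos _ hκ0) hκ0)).2 hδ
  · have h4 : otp S2 ≤ κ ^ (q + η + Ξ) * κ := by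
      refine (otp_le_mul_fib' S2 (κ ^ (q + η + Ξ)) ?_).trans (mul_le_mul_right hK.le _)
      intro γ
      by_cases hγ : δ < γ
      · have h5 : otp (fib S2 γ) ≤ κ ^ (q + η) * otp {y | ¬ good γ y} * κ := by
          refine (otp_le_mul_fib' _ (κ ^ (q + η) * otp {y | ¬ good γ y}) ?_).trans
            (mul_le_mul_right hK.le _)
          intro c
          refine otp_le_mul_fib _ {y | ¬ good γ y} ?_ _ ?_
          · rintro x hx
            exact hx.2.2
          · intro y _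
            exact (otp_set_le _).trans_eq hWQ
        refine h5.trans ?_
        rw [mul_assoc, Ordinal.opow_add _ (q + η) Ξ]
        exact mul_le_mul_right (hgood γ hγ) _
      · have h5 : IsEmpty (fib S2 γ) := by
          constructor
          rintro ⟨x, hx⟩
          exact hx.2.1 (not_lt.1 hγ)
        have h6 : otp (fib S2 γ) = 0 := type_eq_zero_of_empty _
        rw [h6]
        exact bot_le
    have h5 := h3.trans h4
    rw [hassoc, h2] at h5
    refine absurd h5 (not_le.2 ?_)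
    have h6 : κ ^ (q + η + Ξ) * κ * 1 < κ ^ (q + η + Ξ) * κ * κ :=
      (mul_lt_mul_iff_right₀ (mul_pos (opow_pos _ hκ0) hκ0)).2 hκ1
    rwa [mul_one] at h6
  · have h4 : otp S3 ≤ κ ^ q * κ ^ θ * κ ^ Ξ * κ * κ := by
      refine (otp_le_mul_fib' S3 (κ ^ q * κ ^ θ * κ ^ Ξ * κ) ?_).trans
        (mul_le_mul_right hK.le _)
      intro γ
      refine (otp_le_mul_fib' _ (κ ^ q * κ ^ θ * κ ^ Ξ) ?_).trans
        (mul_le_mul_right hK.le _)
      intro c
      refine (otp_le_mul_fib' _ (κ ^ q * κ ^ θ) ?_).trans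
        (mul_le_mul_right hY.le _)
      intro y
      by_cases hy : good γ y
      · have h5 := hcon γ c y hy
        refine (otp_le_mul_fib _ {w : W | ∃ p : Q,
          toLex (γ, toLex (c, toLex (y, toLex (w, p)))) ∈ S} ?_ (κ ^ q) ?_).trans
          (mul_le_mul_right h5.le _)
        · intro x hx
          exact ⟨(ofLex x).2, hx.1⟩
        · intro w _
          exact (otp_set_le _).trans_eq hQ
      · have h5 : IsEmpty (fib (fib (fib S3 γ) c) y) := by
          constructor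
          rintro ⟨x, hx⟩
          exact hy hx.2
        have h6 : otp (fib (fib (fib S3 γ) c) y) = 0 := type_eq_zero_of_empty _
        rw [h6]
        exact bot_le
    have h5 := h3.trans h4
    have h6 : κ ^ q * κ ^ θ * κ ^ Ξ * κ * κ = κ ^ (q + (θ + Ξ + 2)) := by
      rw [← add_assoc, h2, ← add_assoc, Ordinal.opow_add, Ordinal.opow_add]
    rw [h6] at h5
    refine absurd h5 (not_le.2 ?_)
    rw [opow_lt_opow_iff_right hκ1]
    exact (add_lt_add_iff_left q).2 hη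

/-- Transfer of branching. -/
theorem Br.transfer {V V' O : Type u} [LinearOrder O] {lev : V → List O} {lev' : V' → List O}
    {D : Set V} {D' : Set V'} (h : ∀ w ∈ D, ∃ v ∈ D', lev' v = lev w) :
    ∀ (k : ℕ) (t : List O), Br lev D k t → Br lev' D' k t
  | 0, t, ⟨w, hw, h1⟩ => by
    obtain ⟨v, hv, h2⟩ := h w hw
    exact ⟨v, hv, by rwa [h2]⟩
  | k + 1, t, ⟨t', h1, β, h2, h3⟩ => ⟨t', h1, β, h2, fun i => (h3 i).transfer h k _⟩

theorem exists_inj_above {V K : Type u} [LinearOrder K] [WellFoundedLT K] {κ : Cardinal.{u}}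
    (hκ : ℵ₀ ≤ κ) (hK : otp K = κ.ord) (hV : #V ≤ κ) (c : V → K) :
    ∃ h : V → K, Function.Injective h ∧ ∀ v, c v ≤ h v := by
  classical
  have hKc : #K = κ := by
    have := congrArg Ordinal.card hK
    rwa [card_type, card_ord] at this
  rw [← hKc] at hV
  obtain ⟨i⟩ := hV
  have hr : ∀ t : range i, ∃ v, i v = t.1 := fun t => t.2
  choose r hr using hr
  obtain ⟨g, hg1, hg2⟩ := inj_choice_of_order (T := range i) (W := K)
    (fun t => Ici (c (r t))) (by
      intro t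
      have h1 : #(Iio t) < κ := by
        refine lt_of_le_of_lt ?_ ((mk_Iio_lt t.1 (by rw [hKc]; exact hK.symm)).trans_eq hKc)
        refine mk_le_of_injective (f := fun x : Iio t => (⟨x.1.1, x.2⟩ : Iio t.1)) ?_
        intro x y hxy
        simp only [Subtype.mk.injEq] at hxy
        exact Subtype.ext (Subtype.ext hxy)
      have h2 : #(Iio (c (r t))) < κ :=
        (mk_Iio_lt (c (r t)) (by rw [hKc]; exact hK.symm)).trans_eq hKc
      have h3 : κ ≤ #(Ici (c (r t))) := by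
        by_contra h3
        push Not at h3
        have h4 := mk_sum_compl (Iio (c (r t)))
        rw [compl_Iio, hKc] at h4
        exact absurd h4 (add_lt_of_lt hκ h2 h3).ne
      exact h1.trans_le h3)
  refine ⟨fun v => g ⟨i v, mem_range_self v⟩, ?_, ?_⟩
  · intro x y hxy
    have h1 := hg1 hxy
    simp only [Subtype.mk.injEq] at h1
    exact i.injective h1
  · intro v
    have h1 := hg2 ⟨i v, mem_range_self v⟩
    have h2 : r ⟨i v, mem_range_self v⟩ = v := i.injective (hr ⟨i v, mem_range_self v⟩)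
    rw [h2] at h1
    exact h1

/-- The core of the negative theorem: if all full sets are rich and the guesses are given. -/
theorem not_pathRel_core {V K O : Type u} [LinearOrder K] [WellFoundedLT K] [LinearOrder O]
    [WellFoundedLT O] [LinearOrder V] [WellFoundedLT V] {κ : Cardinal.{u}} (hκ : κ.IsRegular)
    (hK : otp K = κ.ord) {z : K → K} {B : K → Set K} (hB : EnumBdd K z B) (hO : #O < κ)
    (hκ1 : ℵ₀ < κ)
    (h : V → K) (hinj : Function.Injective h) (lev : V → List O)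
    (hlev : ∀ v, (lev v).IsChain (· > ·)) (u : V → Finset K) (hu : ∀ v, ∀ j ∈ u v, z j ≤ h v)
    (hrich : ∀ S0 : Set V, otp S0 = otp V → ∀ δ, Rich lev u S0 δ) : ¬ PathRel (otp V) := by
  classical
  intro hrel
  set S : K → Set V := fun j => {v | h v ∈ B j ∧ h v < z j} with hS
  have hS1 : ∀ j, ∀ p ∈ S j, h p < z j := fun j p hp => hp.2
  obtain ⟨L, hL⟩ := exists_chain (h := h) (z := z) (lev := lev) (S := S) hS1 u hu
  have hsp := chain_spec hS1 hu hL
  have hirr : ∀ v, v ∉ L v := fun v hv => lt_irrefl _ ((hsp v).2 v hv).2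
  have hnr := no_ray lev hlev (fun v => (hsp v).1) (fun v q hq => ((hsp v).2 q hq).1) hirr
    (K := K)
  rcases hrel V rfl (chainGraph L hirr) with ⟨S0, hS0, hind⟩ | hray
  · have hind' : ∀ v ∈ S0, ∀ w ∈ S0, v ∉ L w := by
      intro v hv w hw hvw
      exact hind v hv w hw (Or.inl hvw)
    -- the reflection function
    have hw : ∀ Tt : List V × List O, ∃ k : K, (∃ y ∈ S0, Tt.1 <+: L y ∧ Tt.2 <+: lev y) →
        ∃ y ∈ S0, Tt.1 <+: L y ∧ Tt.2 <+: lev y ∧ h y = k := by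
      rintro ⟨T, t⟩
      by_cases h1 : ∃ y ∈ S0, T <+: L y ∧ t <+: lev y
      · obtain ⟨y, hy, h2, h3⟩ := h1
        exact ⟨h y, fun _ => ⟨y, hy, h2, h3, rfl⟩⟩
      · have hne : Nonempty K := by
          have hKc : #K = κ := by
            have := congrArg Ordinal.card hK
            rwa [card_type, card_ord] at this
          rw [← mk_ne_zero_iff, hKc]
          exact hκ.pos.ne'
        exact ⟨hne.some, fun h2 => absurd h2 h1⟩
    choose wt hwt using hw
    have hbd : ∀ a : K, ∃ k, ∀ (T : List V) (t : List O), (∀ q ∈ T, h q ≤ a) → wt (T, t) < k := by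
      intro a
      have h1 : #(List {v : V | h v ≤ a} × List O) < κ := by
        rw [mk_prod]
        simp only [Cardinal.lift_id]
        refine mul_lt_of_lt hκ.aleph0_le ?_ ?_
        · refine (mk_list_le_max _).trans_lt (max_lt hκ1 ?_)
          refine lt_of_le_of_lt ?_ (mk_Iic_lt' hκ.aleph0_le hK a)
          refine mk_le_of_injective (f := fun x : {v : V | h v ≤ a} => (⟨h x.1, x.2⟩ : Iic a)) ?_
          intro x y hxy
          simp only [Subtype.mk.injEq] at hxy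
          exact Subtype.ext (hinj hxy)
        · exact (mk_list_le_max _).trans_lt (max_lt hκ1 hO)
      obtain ⟨k, hk⟩ := exists_gt_all hκ hK h1 (fun x => wt (x.1.map Subtype.val, x.2))
      refine ⟨k, fun T t hT => ?_⟩
      have h2 := hk (T.attach.map (fun q => (⟨q.1, hT q.1 q.2⟩ : {v : V | h v ≤ a})), t)
      simp only [List.map_map] at h2
      have h3 : T.attach.map (Subtype.val ∘ fun q => (⟨q.1, hT q.1 q.2⟩ : {v : V | h v ≤ a})) =
          T := by
        have h4 : (Subtype.val ∘ fun q : {x // x ∈ T} =>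
            (⟨q.1, hT q.1 q.2⟩ : {v : V | h v ≤ a})) = Subtype.val := rfl
        rw [h4, List.attach_map_subtype_val]
      rwa [h3] at h2
    choose f hf using hbd
    obtain ⟨ζ, ⟨a0, ha0⟩, hcl⟩ := exists_closure_point hκ hκ1 hK f
    obtain ⟨δ, rfl, hg⟩ := hB ζ (h '' S0)
    refine kill hS1 hu hL hind' (δ := δ) ?_ ?_ (hrich S0 hS0 δ)
    · intro p
      constructor
      · rintro ⟨h1, h2⟩
        obtain ⟨v, hv, h3⟩ := (hg _ h2).1 h1
        rw [← hinj h3]
        exact ⟨hv, by rw [hinj h3]; exact h2⟩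
      · rintro ⟨h1, h2⟩
        exact ⟨(hg _ h2).2 ⟨p, h1, rfl⟩, h2⟩
    · intro T t hT hy
      -- a common bound
      have h1 : ∃ a < z δ, ∀ q ∈ T, h q ≤ a := by
        clear hy
        induction T with
        | nil => exact ⟨a0, ha0, fun q hq => by simp at hq⟩
        | cons v T ih =>
          obtain ⟨a, ha, h2⟩ := ih (fun q hq => hT q (List.mem_cons_of_mem _ hq))
          refine ⟨max a (h v), max_lt ha (hT v (by simp)), ?_⟩
          intro q hq
          rw [List.mem_cons] at hq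
          rcases hq with rfl | hq
          · exact le_max_right _ _
          · exact (h2 q hq).trans (le_max_left _ _)
      obtain ⟨a, ha, h2⟩ := h1
      obtain ⟨y, hy1, hy2, hy3, hy4⟩ := hwt (T, t) hy
      refine ⟨y, hy1, ?_, hy2, hy3⟩
      rw [hy4]
      exact (hf a T t h2).trans (hcl a ha)
  · exact hnr hray

theorem neg_abs {K N Y O W Q : Type u} [LinearOrder K] [WellFoundedLT K] [LinearOrder Y]
    [WellFoundedLT Y] [LinearOrder O] [WellFoundedLT O] [LinearOrder W] [WellFoundedLT W]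
    [LinearOrder Q] [WellFoundedLT Q] {κ : Cardinal.{u}} {Ξ q η θ : Ordinal.{u}}
    (hκ : κ.IsRegular) (hκ1 : ℵ₀ < κ) (hK : otp K = κ.ord) {z : K → K} {B : K → Set K}
    (hB : EnumBdd K z B) (hY : otp Y = κ.ord ^ Ξ) (hYc : #Y ≤ κ) (hWc : #W ≤ κ) (hQc : #Q ≤ κ)
    (e : ∀ γ : K, Iio γ → N) (he : ∀ γ, Function.Injective (e γ)) (b : Y → Finset N)
    (hb : ∀ j, otp {y | j ∉ b y} * κ.ord ≤ κ.ord ^ Ξ) (hO : #O < κ) (lw : W → List O)
    (hlw : ∀ w, (lw w).IsChain (· > ·))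
    (hbr : ∀ D : Set W, κ.ord ^ θ ≤ otp D → ∀ k, Br lw D k [])
    (hW : otp W = κ.ord ^ η) (hQ : otp Q = κ.ord ^ q) (hη : θ + Ξ + 2 < η + Ξ + 2) :
    ¬ PathRel (κ.ord ^ (q + (η + Ξ + 2))) := by
  classical
  have hV : otp (K ×ₗ (K ×ₗ (Y ×ₗ (W ×ₗ Q)))) = κ.ord ^ (q + (η + Ξ + 2)) := by
    rw [otp_prodLex, otp_prodLex, otp_prodLex, otp_prodLex, hQ, hW, hY, hK, Ordinal.opow_add,
      Ordinal.opow_add, Ordinal.opow_add, ← one_add_one_eq_two, Ordinal.opow_add, opow_one]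
    simp only [mul_assoc]
  have hKc : #K = κ := by
    have := congrArg Ordinal.card hK
    rwa [card_type, card_ord] at this
  have hpr : ∀ A B : Type u, #A ≤ κ → #B ≤ κ → #(A × B) ≤ κ := by
    intro A B hA hB
    rw [mk_prod]
    simp only [Cardinal.lift_id]
    exact (mul_le_mul' hA hB).trans_eq (mul_eq_self hκ.aleph0_le)
  have hVc : #(K ×ₗ (K ×ₗ (Y ×ₗ (W ×ₗ Q)))) ≤ κ :=
    hpr _ _ hKc.le (hpr _ _ hKc.le (hpr _ _ hYc (hpr _ _ hWc hQc)))
  -- the tasks
  have hfin : ∀ (γ : K) (y : Y), {j : K | ∃ hj : j < γ, e γ ⟨j, hj⟩ ∈ b y}.Finite := by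
    intro γ y
    have h1 : {x : Iio γ | e γ x ∈ b y}.Finite :=
      (b y).finite_toSet.preimage (he γ).injOn
    refine (h1.image Subtype.val).subset ?_
    rintro j ⟨hj, h2⟩
    exact ⟨⟨j, hj⟩, h2, rfl⟩
  set R : K → Y → Finset K := fun γ y => (hfin γ y).toFinset with hR
  have hmem : ∀ γ y j, j ∈ R γ y ↔ ∃ hj : j < γ, e γ ⟨j, hj⟩ ∈ b y := by
    intro γ y j
    rw [hR, Finite.mem_toFinset]
    rfl
  have hbdd : ∀ (γ : K) (y : Y), ∃ k : K, ∀ j ∈ R γ y, z j < k := by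
    intro γ y
    obtain ⟨k, hk⟩ := exists_gt_all hκ hK (I := {j // j ∈ R γ y})
      ((mk_lt_aleph0).trans hκ1) (fun j => z j.1)
    exact ⟨k, fun j hj => hk ⟨j, hj⟩⟩
  choose bd hbd using hbdd
  obtain ⟨h, hinj, hge⟩ := exists_inj_above (V := K ×ₗ (K ×ₗ (Y ×ₗ (W ×ₗ Q)))) hκ.aleph0_le hK hVc
    (fun v => bd (ofLex v).1 (ofLex (ofLex (ofLex v).2).2).1)
  rw [← hV]
  refine not_pathRel_core hκ hK hB hO hκ1 h hinj
    (fun v => lw (ofLex (ofLex (ofLex (ofLex v).2).2).2).1) (fun v => hlw _)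
    (fun v => R (ofLex v).1 (ofLex (ofLex (ofLex v).2).2).1) ?_ ?_
  · intro v j hj
    exact (hbd _ _ j hj).le.trans (hge v)
  · intro S0 hS0 δ
    obtain ⟨e', he'⟩ : ∃ e' : Ordinal.{u}, κ.ord = ω ^ e' := by
      rcases isPrincipal_add_iff_zero_or_omega0_opow.1 (isPrincipal_add_ord hκ.aleph0_le) with
        h0 | ⟨e', he'⟩
      · exfalso
        rw [ord_eq_zero] at h0
        exact hκ.pos.ne' h0
      · exact ⟨e', he'.symm⟩
    obtain ⟨γ, c, y, hg, hbig⟩ := exists_large (κ := κ.ord) (e := e')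
      he' (by
        have : (1 : Ordinal.{u}) < ω := one_lt_omega0
        refine this.trans_le ?_
        rw [← ord_aleph0]
        exact ord_le_ord.2 hκ1.le) hK hY hW hQ hη
      (fun γ y => δ ∈ R γ y) δ (by
        rw [lt_ord, card_type]
        exact mk_Iic_lt' hκ.aleph0_le hK δ) (by
        intro γ hγ
        refine le_trans (mul_le_mul_left (otp_set_mono ?_) _) (hb (e γ ⟨δ, hγ⟩))
        intro y hy hy'
        apply hy
        rw [hmem]
        exact ⟨hγ, hy'⟩) S0 (by rw [← hV]; exact hS0.ge)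
    refine ⟨{v | v ∈ S0 ∧ (ofLex v).1 = γ ∧ (ofLex (ofLex (ofLex v).2).2).1 = y},
      fun v hv => hv.1, R γ y, ?_, hg, ?_⟩
    · rintro v ⟨-, rfl, rfl⟩
      rfl
    · refine (hbr _ hbig (R γ y).card).transfer ?_ _ _
      rintro w ⟨p, hp⟩
      exact ⟨_, ⟨hp, rfl, rfl⟩, rfl⟩

open Pool.Agent.W820 in
/-- **The negative theorem.** If `κ` is a regular uncountable cardinal without tail-free sequences
and `2 ^ ρ ≤ κ` for all `ρ < κ` then the relation fails at `κ ^ (q + ε)`, for a fixed `ε < κ⁺` and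
all `q` of cardinality at most `κ`. -/
theorem not_pathRel_regular {κ : Cardinal.{u}} (hκ : κ.IsRegular) (hκ1 : ℵ₀ < κ)
    (hpow : ∀ ρ < κ, 2 ^ ρ ≤ κ) (hTF : ¬ TailFree κ.ord.ToType) :
    ∃ ε < (succ κ).ord, (∃ ε', ε = ε' + 1) ∧
      ∀ q : Ordinal.{u}, q.card ≤ κ → ¬ PathRel (κ.ord ^ (q + ε)) := by
  classical
  have hκω : ω < κ.ord := by
    rw [← ord_aleph0, ord_lt_ord]
    exact hκ1
  have hone : 1 < κ.ord := one_lt_omega0.trans hκω
  have hpos : 0 < κ.ord := zero_lt_one.trans hone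
  obtain ⟨z, B, hB⟩ := exists_enumBdd (K := κ.ord.ToType) hκ.aleph0_le (otp_toType _) hpow
  obtain ⟨Ξ, b, hΞ, hb⟩ := exists_tasks_gen hκ1 (N := κ.ord.ToType) (by
    rw [otp_withBot, otp_toType, one_add_of_omega0_le hκω.le]) hTF
  have hΞ' : Ξ < (succ κ).ord := by
    rw [lt_ord]
    refine hΞ.trans_lt (lt_succ_of_le (max_le hκ.aleph0_le ?_))
    rw [mk_toType, card_ord]
  have hκ' : ℵ₀ ≤ succ κ := hκ.aleph0_le.trans (le_succ κ)
  have hadd : ∀ x y : Ordinal.{u}, x < (succ κ).ord → y < (succ κ).ord → x + y < (succ κ).ord :=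
    fun x y hx hy => isPrincipal_add_ord hκ' hx hy
  have hmul : ∀ x y : Ordinal.{u}, x < (succ κ).ord → y < (succ κ).ord → x * y < (succ κ).ord :=
    fun x y hx hy => isPrincipal_mul_ord hκ' hx hy
  have hsucc : κ.ord < (succ κ).ord := ord_lt_ord.2 (lt_succ κ)
  have h2 : (2 : Ordinal.{u}) < (succ κ).ord := by
    refine lt_trans ?_ (hκω.trans hsucc)
    exact_mod_cast natCast_lt_omega0 2
  have h1 : (1 : Ordinal.{u}) < (succ κ).ord := hone.trans hsucc
  have hωω : ω * ω < κ.ord := isPrincipal_mul_ord hκ.aleph0_le hκω hκω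
  obtain ⟨c, hc⟩ : ∃ c : Ordinal.{u}, c = Ξ + 2 + 1 := ⟨_, rfl⟩
  have hc' : c < (succ κ).ord := by
    rw [hc]
    exact hadd _ _ (hadd _ _ hΞ' h2) h1
  have hc0 : 0 < c := by
    rw [hc]
    exact lt_of_lt_of_le zero_lt_one le_add_self
  obtain ⟨η, hη⟩ : ∃ η : Ordinal.{u}, η = c * (ω * ω + 1) := ⟨_, rfl⟩
  have hη1 : η < (succ κ).ord := by
    rw [hη]
    exact hmul _ _ hc' (hadd _ _ (hωω.trans hsucc) h1)
  have hη2 : c * (ω * ω) + Ξ + 2 < η + Ξ + 2 := by
    rw [hη, mul_add, mul_one, add_assoc (c * (ω * ω)) Ξ 2, add_assoc (c * (ω * ω) + c) Ξ 2]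
    refine lt_of_lt_of_le ?_ le_self_add
    rw [add_lt_add_iff_left, hc]
    exact lt_add_one _
  refine ⟨η + Ξ + 2, hadd _ _ (hadd _ _ hη1 hΞ') h2, ⟨η + Ξ + 1, by
    rw [add_assoc (η + Ξ), one_add_one_eq_two]⟩, fun q hq => ?_⟩
  have hcard' : ∀ x : Ordinal.{u}, x < (succ κ).ord → x.card ≤ κ := fun x hx =>
    lt_succ_iff.1 (lt_ord.1 hx)
  have hcard : ∀ x : Ordinal.{u}, x.card ≤ κ → #(κ.ord ^ x).ToType ≤ κ := by
    intro x hx
    rw [mk_toType]
    refine (card_opow_le _ _).trans ?_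
    rw [card_ord]
    exact max_le hκ.aleph0_le (max_le le_rfl hx)
  -- the levels
  obtain ⟨o, ho⟩ : ∃ o : Ordinal.{u}, o = ω * ω + 1 := ⟨_, rfl⟩
  have hoκ : o < κ.ord := by
    rw [ho]
    exact isPrincipal_add_ord hκ.aleph0_le hωω hone
  have hone' : 1 < κ.ord ^ c := one_lt_opow.2 ⟨hone, hc0.ne'⟩ 
  have hWO : otp (WithBot o.ToType) ≤ κ.ord ^ c := by
    rw [otp_withBot, otp_toType]
    refine (isPrincipal_add_ord hκ.aleph0_le hone hoκ).le.trans ?_
    exact left_le_opow _ hc0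
  have hwf : WellFoundedLT (Ls (κ.ord ^ c).ToType (fun t : List o.ToType => t.IsChain (· > ·)) []) :=
    wf_Ls isRk_des []
  have hle : otp (κ.ord ^ η).ToType ≤
      otp (Ls (κ.ord ^ c).ToType (fun t : List o.ToType => t.IsChain (· > ·)) []) := by
    have h1 := Ls.le_otp (C := (κ.ord ^ c).ToType) (isRk_des (O := o.ToType)) (by
      rw [otp_toType]; exact (zero_lt_one.trans hone').ne') [] (by simp)
    have h3 : desRk ([] : List o.ToType) = o := by
      simp only [desRk, List.getLast?_nil]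
      exact otp_toType _
    rw [otp_toType] at h1 ⊢
    rw [h3, ← Ordinal.opow_mul] at h1
    have h4 : κ.ord ^ η = κ.ord ^ (c * o) := by rw [ho, ← hη]
    rw [h4]
    exact h1
  obtain ⟨fW, hfW⟩ := exists_strictMono_of_otp_le hle
  obtain ⟨e', he'⟩ : ∃ e' : Ordinal.{u}, κ.ord = ω ^ e' := by
    rcases isPrincipal_add_iff_zero_or_omega0_opow.1 (isPrincipal_add_ord hκ.aleph0_le) with
      h0 | ⟨e', he'⟩
    · exfalso
      rw [ord_eq_zero] at h0
      exact hκ.pos.ne' h0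
    · exact ⟨e', he'.symm⟩
  have he'' : κ.ord ^ c = ω ^ (e' * c) := by rw [he', Ordinal.opow_mul]
  refine neg_abs (K := κ.ord.ToType) (N := κ.ord.ToType) (Y := (κ.ord ^ Ξ).ToType)
    (O := o.ToType) (W := (κ.ord ^ η).ToType) (Q := (κ.ord ^ q).ToType) (θ := c * (ω * ω))
    hκ hκ1 (otp_toType _) hB (otp_toType _) (hcard _ (hcard' _ hΞ')) (hcard _ (hcard' _ hη1))
    (hcard _ hq) (fun γ => Subtype.val) (fun γ => Subtype.val_injective) b hb
    (by rw [mk_toType]; exact lt_ord.1 hoκ)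
    (fun w => lv (fW w).1) (fun w => (fW w).2) ?_ (otp_toType _) (otp_toType _) hη2
  intro D hD k
  have h3 : (κ.ord ^ c) ^ (ω * (k : Ordinal.{u})) ≤ otp {w | w ∈ fW '' D ∧ [] <+: lv w.1} := by
    have h4 : {w | w ∈ fW '' D ∧ [] <+: lv w.1} = fW '' D := by
      ext w
      simp
    rw [h4, otp_image fW hfW]
    refine le_trans ?_ hD
    rw [← Ordinal.opow_mul]
    refine opow_le_opow_right hpos ?_
    exact mul_le_mul_right (mul_le_mul_right (natCast_lt_omega0 k).le _) _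
  refine (br_of_otp he'' hone' hWO (by rw [otp_toType]) isRk_des (fW '' D) k [] h3).transfer ?_ _ _
  rintro _ ⟨w, hw, rfl⟩
  exact ⟨w, hw, rfl⟩

end IPath
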