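import Pool.Agent.Work.MP_820435_lc.Lst
import Pool.Agent.Work.MP_820435_lc.Kill2

/-!
# Branching in large sets of lists
-/

open Ordinal Cardinal Set Order

universe u

namespace IPath

theorem cover2 {X : Type u} [LinearOrder X] [WellFoundedLT X] {τ : Ordinal.{u}} {D A B : Set X}
    (hD : D ⊆ A ∪ B) (h : ω ^ τ ≤ otp D) : ω ^ τ ≤ otp A ∨ ω ^ τ ≤ otp B := by
  have h1 := cover_opow τ D h {x | x.1 ∈ A} {x | x.1 ∈ B} (by
    ext x
    simpa using hD x.2)
  rcases h1 with h1 | h1
  · left
    refine h1.trans ?_
    rw [otp_subtype D (fun x => x ∈ A)]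
    exact otp_set_mono inter_subset_right
  · right
    refine h1.trans ?_
    rw [otp_subtype D (fun x => x ∈ B)]
    exact otp_set_mono inter_subset_right

theorem cover_finset {X A : Type u} [LinearOrder X] [WellFoundedLT X] {τ : Ordinal.{u}}
    (Dz : A → Set X) (R : Set X) (s : Finset A) : ∀ D : Set X, D ⊆ R ∪ ⋃ z ∈ s, Dz z →
    ω ^ τ ≤ otp D → ω ^ τ ≤ otp R ∨ ∃ z ∈ s, ω ^ τ ≤ otp (Dz z) := by
  classical
  induction s using Finset.induction with
  | empty =>
    intro D hD h
    left
    refine h.trans (otp_set_mono ?_)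
    simpa using hD
  | insert a s ha ih =>
    intro D hD h
    have h1 : D ⊆ (R ∪ ⋃ z ∈ s, Dz z) ∪ Dz a := by
      refine hD.trans ?_
      intro x hx
      simp only [Finset.mem_insert, mem_union, mem_iUnion, exists_prop] at hx ⊢
      rcases hx with hx | ⟨z, rfl | hz, hx⟩
      · exact Or.inl (Or.inl hx)
      · exact Or.inr hx
      · exact Or.inl (Or.inr ⟨z, hz, hx⟩)
    rcases cover2 h1 h with h2 | h2
    · rcases ih _ subset_rfl h2 with h3 | ⟨z, hz, h3⟩
      · exact Or.inl h3
      · exact Or.inr ⟨z, Finset.mem_insert_of_mem hz, h3⟩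
    · exact Or.inr ⟨a, Finset.mem_insert_self _ _, h2⟩

section branch

variable {A C : Type u} [LinearOrder A] [LinearOrder C] [WellFoundedLT A] [WellFoundedLT C]
variable {T : List A → Prop} {r : List A → Ordinal.{u}}

/-- The branching lemma. Here `k` is a power of `ω` and `k ≥ A, C`. -/
theorem branch {κ e : Ordinal.{u}} (hκ : κ = ω ^ e) (hκ1 : 1 < κ) (hA : otp (WithBot A) ≤ κ)
    (hC : otp C ≤ κ) (h : IsRk T r) (k : ℕ) (ρ : Ordinal.{u}) :
    ∀ (t : List A) [WellFoundedLT (Ls C T t)], r t = ρ →
    ∀ (P : Type u) [LinearOrder P] [WellFoundedLT P], otp P < κ ^ ω →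
    ∀ D : Set (P ×ₗ Ls C T t), κ ^ (ω * ((k + 1 : ℕ) : Ordinal.{u})) ≤ otp D →
    ∃ t', t <+: t' ∧ ∃ β : ℕ → A, StrictMono β ∧ ∀ i,
      κ ^ (ω * (k : Ordinal.{u})) ≤ otp {x : P ×ₗ Ls C T t | x ∈ D ∧
        t' ++ [β i] <+: t ++ lv (ofLex x).2.1} := by
  classical
  induction ρ using WellFoundedLT.induction with
  | ind ρ ih =>
    rintro t hwft rfl P _ _ hP D hD
    set Dz : A → Set (P ×ₗ Ls C T t) := fun z => {x | x ∈ D ∧ [z] <+: lv (ofLex x).2.1} with hDz
    by_cases hbig : {z | κ ^ (ω * (k : Ordinal.{u})) ≤ otp (Dz z)}.Infinite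
    · obtain ⟨β, hβ, h1⟩ := exists_strictMono_of_infinite hbig
      refine ⟨t, List.prefix_rfl, β, hβ, fun i => (h1 i).trans (otp_set_mono ?_)⟩
      rintro x ⟨hx, h2⟩
      exact ⟨hx, List.prefix_append_right_inj _ |>.2 h2⟩
    · rw [not_infinite] at hbig
      set R : Set (P ×ₗ Ls C T t) := {x | x ∈ D ∧ ∀ z, [z] <+: lv (ofLex x).2.1 →
        z ∉ hbig.toFinset} with hR
      have hcov : D ⊆ R ∪ ⋃ z ∈ hbig.toFinset, Dz z := by
        intro x hx
        by_cases h1 : ∀ z, [z] <+: lv (ofLex x).2.1 → z ∉ hbig.toFinset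
        · exact Or.inl ⟨hx, h1⟩
        · push Not at h1
          obtain ⟨z, hz, h2⟩ := h1
          right
          simp only [mem_iUnion, exists_prop]
          exact ⟨z, h2, hx, hz⟩
      have hpow : κ ^ (ω * ((k + 1 : ℕ) : Ordinal.{u})) =
          ω ^ (e * (ω * ((k + 1 : ℕ) : Ordinal.{u}))) := by
        rw [hκ, ← Ordinal.opow_mul]
      have h1 := cover_finset (τ := e * (ω * ((k + 1 : ℕ) : Ordinal.{u}))) Dz R hbig.toFinset D
        hcov (by rw [← hpow]; exact hD)
      rw [← hpow] at h1
      rcases h1 with h1 | ⟨z, hz, h1⟩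
      · exfalso
        set f : R → P ×ₗ WithBot A := fun x => toLex ((ofLex x.1).1, (ofLex x.1).2.head) with hf
        have hfm : Monotone f := by
          intro x y hxy
          rcases eq_or_lt_of_le hxy with rfl | hxy
          · exact le_rfl
          have h2 : x.1 < y.1 := hxy
          rw [Prod.Lex.lt_iff] at h2
          simp only [hf]
          rw [Prod.Lex.toLex_le_toLex]
          rcases h2 with h2 | ⟨h2, h3⟩
          · exact Or.inl h2
          · exact Or.inr ⟨h2, Ls.head_mono h3.le⟩
        have hfib : ∀ i, otp {x | f x = i} ≤ κ ^ (ω * (k : Ordinal.{u})) := by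
          intro i
          rcases isEmpty_or_nonempty {x | f x = i} with he | ⟨⟨x0, hx0⟩⟩
          · have h3 : otp {x | f x = i} = 0 := type_eq_zero_of_empty _
            rw [h3]
            exact bot_le
          have hx0' : f x0 = i := hx0
          by_cases h2 : (ofLex x0.1).2.1 = []
          · have h3 : otp {x | f x = i} ≤ otp PUnit.{u + 1} := by
              refine otp_le_of_strictMono (fun _ => PUnit.unit) ?_
              have h4 : ∀ x : {x | f x = i}, (ofLex x.1.1).1 = (ofLex x0.1).1 ∧
                  (ofLex x.1.1).2.1 = [] := by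
                rintro ⟨x, hx⟩
                have hx' : f x = f x0 := by rw [hx0']; exact hx
                simp only [hf, toLex_inj, Prod.mk.injEq] at hx'
                refine ⟨hx'.1, ?_⟩
                rw [← Ls.head_eq_bot, hx'.2, Ls.head_eq_bot]
                exact h2
              intro x y hxy
              exfalso
              have h5 : x.1.1 < y.1.1 := hxy
              rw [Prod.Lex.lt_iff, Ls.lt_iff, (h4 x).1, (h4 y).1, (h4 x).2, (h4 y).2] at h5
              rcases h5 with h5 | h5
              · exact lt_irrefl _ h5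
              · exact lt_irrefl _ h5.2
            refine h3.trans ?_
            have h4 : otp PUnit.{u + 1} = 1 := type_eq_one_of_unique _
            rw [h4, Order.one_le_iff_ne_zero]
            exact opow_ne_zero _ (zero_lt_one.trans hκ1).ne'
          · obtain ⟨z, c, l, h3⟩ := (ofLex x0.1).2.exists_cons h2
            have h4 : ∀ x : {x | f x = i}, [z] <+: lv (ofLex x.1.1).2.1 := by
              rintro ⟨x, hx⟩
              have hx' : f x = f x0 := by rw [hx0']; exact hx
              simp only [hf, toLex_inj, Prod.mk.injEq] at hx'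
              have h5 := hx'.2
              rw [h3, Ls.head_cons] at h5
              have h6 : (ofLex x.1).2.1 ≠ [] := by
                intro h6
                rw [Ls.head_eq_bot.2 h6] at h5
                exact WithBot.bot_ne_coe h5
              obtain ⟨z', c', l', h7⟩ := (ofLex x.1).2.exists_cons h6
              rw [h7, Ls.head_cons, WithBot.coe_inj] at h5
              subst h5
              change [z'] <+: lv (ofLex x.1).2.1
              rw [h7]
              exact ⟨lv l'.1, rfl⟩
            have h5 : z ∉ hbig.toFinset := by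
              refine x0.2.2 z ?_
              exact h4 ⟨x0, hx0⟩
            rw [Finite.mem_toFinset] at h5
            have h6 : otp (Dz z) < κ ^ (ω * (k : Ordinal.{u})) := not_le.1 h5
            refine le_trans ?_ h6.le
            refine otp_le_of_strictMono (fun x => ⟨x.1.1, x.1.2.1, h4 x⟩) ?_
            intro x y hxy
            exact hxy
        have h2 := otp_le_mul_of_fib f hfm _ hfib
        rw [otp_prodLex] at h2
        obtain ⟨n, hn, h3⟩ := (lt_opow_of_isSuccLimit (zero_lt_one.trans hκ1).ne'
          isSuccLimit_omega0).1 hP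
        rw [lt_omega0] at hn
        obtain ⟨n, rfl⟩ := hn
        have h4 : otp (WithBot A) * otp P < κ ^ ω := by
          refine (mul_le_mul' hA h3.le).trans_lt ?_
          have h5 : κ * κ ^ (n : Ordinal.{u}) = κ ^ ((n + 1 : ℕ) : Ordinal.{u}) := by
            have h6 : ((n + 1 : ℕ) : Ordinal.{u}) = 1 + (n : Ordinal.{u}) := by
              rw [add_comm n 1]
              push_cast
              rfl
            rw [h6, Ordinal.opow_add, opow_one]
          rw [h5]
          exact (opow_lt_opow_iff_right hκ1).2 (natCast_lt_omega0 _)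
        have h5 : κ ^ (ω * ((k + 1 : ℕ) : Ordinal.{u})) =
            κ ^ (ω * (k : Ordinal.{u})) * κ ^ ω := by
          rw [← Ordinal.opow_add]
          congr 1
          push_cast
          rw [← mul_succ]
          rfl
        have h6 : κ ^ (ω * (k : Ordinal.{u})) * (otp (WithBot A) * otp P) <
            κ ^ (ω * (k : Ordinal.{u})) * κ ^ ω :=
          (mul_lt_mul_iff_right₀ (opow_pos _ (zero_lt_one.trans hκ1))).2 h4
        rw [← h5] at h6
        exact absurd ((h1.trans h2).trans_lt h6) (lt_irrefl _)
      · have hne : (Dz z).Nonempty := by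
          by_contra h2
          rw [not_nonempty_iff_eq_empty] at h2
          rw [h2] at h1
          have h3 : otp (∅ : Set (P ×ₗ Ls C T t)) = 0 := type_eq_zero_of_empty _
          rw [h3] at h1
          exact absurd h1 (not_le.2 (opow_pos _ (zero_lt_one.trans hκ1)))
        have hx : ∀ x : Dz z, ∃ (c : C) (l : Ls C T (t ++ [z])), (ofLex x.1).2 = Ls.cons z c l := by
          rintro ⟨x, hx1, hx2⟩
          have h3 : (ofLex x).2.1 ≠ [] := by
            intro h3
            rw [h3] at hx2
            have h4 := hx2.length_le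
            simp [lv] at h4
          obtain ⟨z', c, l, h4⟩ := (ofLex x).2.exists_cons h3
          rw [h4] at hx2
          have h5 : [z] <+: z' :: lv l.1 := hx2
          rw [List.cons_prefix_cons] at h5
          obtain ⟨rfl, -⟩ := h5
          exact ⟨c, l, h4⟩
        choose c l hcl using hx
        have hTz : T (t ++ [z]) := by
          obtain ⟨x, hx⟩ := hne
          exact h.pre _ _ (l ⟨x, hx⟩).2
        have hwf' : WellFoundedLT (Ls C T (t ++ [z])) := wf_Ls h _
        set g : Dz z → (P ×ₗ C) ×ₗ Ls C T (t ++ [z]) := fun x =>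
          toLex (toLex ((ofLex x.1).1, c x), l x) with hg
        have hgm : StrictMono g := by
          intro x y hxy
          have h2 : x.1 < y.1 := hxy
          rw [Prod.Lex.lt_iff, hcl x, hcl y, Ls.cons_lt_cons] at h2
          simp only [hg]
          rw [Prod.Lex.toLex_lt_toLex, Prod.Lex.toLex_lt_toLex, toLex_inj, Prod.mk.injEq]
          rcases h2 with h2 | ⟨h2, (h3 | ⟨-, h3⟩) | ⟨⟨-, h3⟩, h4⟩⟩
          · exact Or.inl (Or.inl h2)
          · exact absurd h3 (lt_irrefl _)
          · exact Or.inl (Or.inr ⟨h2, h3⟩)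
          · exact Or.inr ⟨⟨h2, h3⟩, h4⟩
        have hP' : otp (P ×ₗ C) < κ ^ ω := by
          rw [otp_prodLex]
          obtain ⟨n, hn, h3⟩ := (lt_opow_of_isSuccLimit (zero_lt_one.trans hκ1).ne'
            isSuccLimit_omega0).1 hP
          rw [lt_omega0] at hn
          obtain ⟨n, rfl⟩ := hn
          refine (mul_le_mul' hC h3.le).trans_lt ?_
          have h5 : κ * κ ^ (n : Ordinal.{u}) = κ ^ ((n + 1 : ℕ) : Ordinal.{u}) := by
            have h6 : ((n + 1 : ℕ) : Ordinal.{u}) = 1 + (n : Ordinal.{u}) := by
              rw [add_comm n 1]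
              push_cast
              rfl
            rw [h6, Ordinal.opow_add, opow_one]
          rw [h5]
          exact (opow_lt_opow_iff_right hκ1).2 (natCast_lt_omega0 _)
        have hD' : κ ^ (ω * ((k + 1 : ℕ) : Ordinal.{u})) ≤ otp (range g) := by
          refine h1.trans ?_
          refine otp_le_of_strictMono (fun x => ⟨g x, mem_range_self x⟩) ?_
          intro x y hxy
          exact hgm hxy
        obtain ⟨t', ht', β, hβ, h2⟩ := ih _ (h.dec t z hTz) (t ++ [z]) rfl (P ×ₗ C) hP' (range g) hD'
        refine ⟨t', (List.prefix_append _ _).trans ht', β, hβ, fun i => (h2 i).trans ?_⟩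
        have hch : ∀ x : {x : (P ×ₗ C) ×ₗ Ls C T (t ++ [z]) | x ∈ range g ∧
            t' ++ [β i] <+: t ++ [z] ++ lv (ofLex x).2.1}, ∃ y : Dz z, g y = x.1 := fun x => x.2.1
        choose y hy using hch
        refine otp_le_of_strictMono (fun x => ⟨(y x).1, (y x).2.1, ?_⟩) ?_
        · have h3 := x.2.2
          rw [← hy x] at h3
          have h4 : (ofLex (y x).1).2 = Ls.cons z (c (y x)) (l (y x)) := hcl (y x)
          rw [h4]
          rw [List.append_assoc] at h3
          exact h3
        · intro x x' hxx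
          have h3 : x.1 < x'.1 := hxx
          rw [← hy x, ← hy x', hgm.lt_iff_lt] at h3
          exact h3

/-- Large sets branch. -/
theorem br_of_otp {κ e : Ordinal.{u}} (hκ : κ = ω ^ e) (hκ1 : 1 < κ) (hA : otp (WithBot A) ≤ κ)
    (hC : otp C ≤ κ) (h : IsRk T r) [WellFoundedLT (Ls C T [])] (D : Set (Ls C T [])) (k : ℕ) :
    ∀ t : List A, κ ^ (ω * (k : Ordinal.{u})) ≤ otp {w : Ls C T [] | w ∈ D ∧ t <+: lv w.1} →
    Br (fun w : Ls C T [] => lv w.1) D k t := by
  induction k with
  | zero =>
    intro t h1
    rw [Nat.cast_zero, mul_zero, opow_zero, Order.one_le_iff_ne_zero,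
      type_ne_zero_iff_nonempty] at h1
    obtain ⟨w, hw1, hw2⟩ := h1
    exact ⟨w, hw1, hw2⟩
  | succ k ih =>
    intro t h1
    have hP : otp PUnit.{u + 1} < κ ^ ω := by
      have h4 : otp PUnit.{u + 1} = 1 := type_eq_one_of_unique _
      rw [h4]
      exact hκ1.trans_le (left_le_opow κ omega0_pos)
    obtain ⟨t', -, β, hβ, h2⟩ := branch hκ hκ1 hA hC h k _ [] rfl PUnit.{u + 1} hP
      {x | (ofLex x).2 ∈ {w : Ls C T [] | w ∈ D ∧ t <+: lv w.1}} (h1.trans (by
        refine otp_le_of_strictMono (fun w => ⟨toLex (PUnit.unit, w.1), w.2⟩) ?_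
        intro x y hxy
        have h3 : x.1 < y.1 := hxy
        change toLex (PUnit.unit, x.1) < toLex (PUnit.unit, y.1)
        rw [Prod.Lex.toLex_lt_toLex]
        exact Or.inr ⟨rfl, h3⟩))
    have h3 : ∀ i, κ ^ (ω * (k : Ordinal.{u})) ≤ otp {w : Ls C T [] | (w ∈ D ∧ t <+: lv w.1) ∧
        t' ++ [β i] <+: lv w.1} := by
      intro i
      refine (h2 i).trans ?_
      refine otp_le_of_strictMono (fun x => ⟨(ofLex x.1).2, x.2.1, by simpa using x.2.2⟩) ?_
      intro x y hxy
      have h3 : x.1 < y.1 := hxy
      rw [Prod.Lex.lt_iff] at h3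
      rcases h3 with h3 | h3
      · exact absurd h3 (by simp)
      · exact h3.2
    have h4 : ∀ i, ∃ w : Ls C T [], (w ∈ D ∧ t <+: lv w.1) ∧ t' ++ [β i] <+: lv w.1 := by
      intro i
      by_contra h5
      have h6 : {w : Ls C T [] | (w ∈ D ∧ t <+: lv w.1) ∧ t' ++ [β i] <+: lv w.1} = ∅ := by
        rw [← not_nonempty_iff_eq_empty]
        exact h5
      have h7 := h3 i
      rw [h6] at h7
      have h8 : otp (∅ : Set (Ls C T [])) = 0 := type_eq_zero_of_empty _
      rw [h8] at h7
      exact absurd h7 (not_le.2 (opow_pos _ (zero_lt_one.trans hκ1)))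
    refine ⟨t', ?_, β, hβ, fun i => ?_⟩
    · rcases le_or_gt t.length t'.length with h5 | h5
      · obtain ⟨w, ⟨-, h6⟩, h7⟩ := h4 0
        exact List.prefix_of_prefix_length_le h6 ((List.prefix_append _ _).trans h7) h5
      · exfalso
        have h6 : ∀ i, t' ++ [β i] <+: t := by
          intro i
          obtain ⟨w, ⟨-, h6⟩, h7⟩ := h4 i
          refine List.prefix_of_prefix_length_le h7 h6 ?_
          simpa using h5
        have h7 : t' ++ [β 0] = t' ++ [β 1] :=
          (List.prefix_of_prefix_length_le (h6 0) (h6 1) (by simp)).eq_of_length (by simp)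
        have h8 := List.append_cancel_left h7
        rw [List.singleton_inj] at h8
        exact (hβ zero_lt_one).ne h8
    · refine ih _ ((h3 i).trans (otp_set_mono ?_))
      rintro w ⟨⟨h5, -⟩, h6⟩
      exact ⟨h5, h6⟩

end branch

section descending

variable {O : Type u} [LinearOrder O] [WellFoundedLT O]

/-- the rank of a descending list -/
noncomputable def desRk (t : List O) : Ordinal.{u} :=
  match t.getLast? with
  | none => otp O
  | some a => typein (α := O) (· < ·) a

theorem isRk_des : IsRk (fun t : List O => t.IsChain (· > ·)) desRk := by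
  constructor
  · intro t s h
    exact h.left_of_append
  · intro t z h
    have h1 : desRk (t ++ [z]) = typein (α := O) (· < ·) z := by simp [desRk]
    rw [h1]
    rcases List.eq_nil_or_concat t with rfl | ⟨s, a, rfl⟩
    · exact typein_lt_type _ _
    · have h2 : desRk (s ++ [a]) = typein (α := O) (· < ·) a := by simp [desRk]
      rw [List.concat_eq_append] at h ⊢
      rw [h2, typein_lt_typein]
      rw [List.append_assoc, List.isChain_append] at h
      simpa using h.2.1
  · intro t h ρ hρ
    rcases List.eq_nil_or_concat t with rfl | ⟨s, a, rfl⟩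
    · obtain ⟨z, hz⟩ := typein_surj (α := O) (· < ·) (o := ρ) (by simpa [desRk] using hρ)
      refine ⟨z, by simp, ?_⟩
      simp [desRk, hz]
    · have h2 : desRk (s ++ [a]) = typein (α := O) (· < ·) a := by simp [desRk]
      rw [List.concat_eq_append] at h hρ ⊢
      rw [h2] at hρ
      obtain ⟨z, hz⟩ := typein_surj (α := O) (· < ·) (o := ρ) (hρ.trans (typein_lt_type _ _))
      rw [← hz, typein_lt_typein] at hρ
      refine ⟨z, ?_, ?_⟩
      · rw [List.isChain_append]
        refine ⟨h, by simp, ?_⟩
        intro x hx y hy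
        simp at hx hy
        subst hx hy
        exact hρ
      · simp [desRk, hz]

end descending

end IPath
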