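import Pool.Agent.Work.MP_820435_lc.GoodC
import Pool.Agent.Work.MP_820435_lc.Enum

/-!
# The set mapping lemma at a regular tail-free cardinal: models
-/

open Ordinal Cardinal Set Order

universe u

namespace IPath

open Pool.Agent.W820

section closure

variable {K : Type u} (Φ : List K → Set K)

/-- stages of the closure -/
def stg (S : Set K) : ℕ → Set K
  | 0 => S
  | n + 1 => stg S n ∪ {x | ∃ l : List K, (∀ z ∈ l, z ∈ stg S n) ∧ x ∈ Φ l}

/-- the closure -/
def clo (S : Set K) : Set K := ⋃ n, stg Φ S n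

variable {Φ}

theorem stg_mono {S : Set K} {n m : ℕ} (h : n ≤ m) : stg Φ S n ⊆ stg Φ S m := by
  induction m, h using Nat.le_induction with
  | base => exact subset_rfl
  | succ m _ ih => exact ih.trans subset_union_left

theorem subset_clo (S : Set K) : S ⊆ clo Φ S := fun _ hx => mem_iUnion.2 ⟨0, hx⟩

theorem clo_closed {S : Set K} {l : List K} (hl : ∀ z ∈ l, z ∈ clo Φ S) : Φ l ⊆ clo Φ S := by
  have h1 : ∃ n, ∀ z ∈ l, z ∈ stg Φ S n := by
    induction l with
    | nil => exact ⟨0, fun z hz => by simp at hz⟩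
    | cons a l ih =>
      obtain ⟨n, hn⟩ := ih (fun z hz => hl z (List.mem_cons_of_mem _ hz))
      obtain ⟨m, hm⟩ := mem_iUnion.1 (hl a (by simp))
      refine ⟨max n m, fun z hz => ?_⟩
      rw [List.mem_cons] at hz
      rcases hz with rfl | hz
      · exact stg_mono (le_max_right _ _) hm
      · exact stg_mono (le_max_left _ _) (hn z hz)
  obtain ⟨n, hn⟩ := h1
  intro x hx
  exact mem_iUnion.2 ⟨n + 1, Or.inr ⟨l, hn, hx⟩⟩

theorem clo_min {S T : Set K} (hS : S ⊆ T) (hT : ∀ l : List K, (∀ z ∈ l, z ∈ T) → Φ l ⊆ T) :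
    clo Φ S ⊆ T := by
  have h1 : ∀ n, stg Φ S n ⊆ T := by
    intro n
    induction n with
    | zero => exact hS
    | succ n ih =>
      rintro x (hx | ⟨l, hl, hx⟩)
      · exact ih hx
      · exact hT l (fun z hz => ih (hl z hz)) hx
  exact iUnion_subset h1

theorem clo_mono {S T : Set K} (h : S ⊆ T) : clo Φ S ⊆ clo Φ T :=
  clo_min (h.trans (subset_clo T)) (fun _ hl => clo_closed hl)

theorem clo_countable (hΦ : ∀ l, (Φ l).Countable) {S : Set K} (hS : S.Countable) :
    (clo Φ S).Countable := by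
  refine countable_iUnion fun n => ?_
  induction n with
  | zero => exact hS
  | succ n ih =>
    refine ih.union ?_
    have h1 : {x | ∃ l : List K, (∀ z ∈ l, z ∈ stg Φ S n) ∧ x ∈ Φ l} ⊆
        ⋃ l : List (stg Φ S n), Φ (l.map Subtype.val) := by
      rintro x ⟨l, hl, hx⟩
      refine mem_iUnion.2 ⟨l.attach.map (fun z => ⟨z.1, hl z.1 z.2⟩), ?_⟩
      have h2 : (l.attach.map (fun z => (⟨z.1, hl z.1 z.2⟩ : stg Φ S n))).map Subtype.val = l := by
        rw [List.map_map]
        have h4 : (Subtype.val ∘ fun z : {x // x ∈ l} => (⟨z.1, hl z.1 z.2⟩ : stg Φ S n)) =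
            Subtype.val := rfl
        rw [h4, List.attach_map_subtype_val]
      rwa [h2]
    have : Countable (stg Φ S n) := ih.to_subtype
    exact (countable_iUnion fun l => hΦ _).mono h1

variable [LinearOrder K] [WellFoundedLT K]

/-- A decreasing sequence of models. -/
theorem exists_models (hTF : TailFreeC K) (Φ : List K → Set K) (hΦ : ∀ l, (Φ l).Countable) :
    ∃ (M : ℕ → Set K) (y : ℕ → K), (∀ i, M (i + 1) ⊆ M i) ∧ (∀ i, y i ∈ M i) ∧
      (∀ i, y i ∉ M (i + 1)) ∧ (∀ i l, (∀ z ∈ l, z ∈ M i) → Φ l ⊆ M i) ∧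
      ∀ i, ∀ a ∈ M i, ∃ c ∈ M (i + 1), a ≤ c := by
  obtain ⟨y, hy⟩ := hTF (fun l => clo Φ {z | z ∈ l})
    (fun l => clo_countable hΦ (List.finite_toSet l).countable)
  set M : ℕ → Set K := fun i => clo Φ {z | ∃ j, i ≤ j ∧ z = y j} with hM
  have hMm : ∀ i j, i ≤ j → M j ⊆ M i := by
    intro i j hij
    refine clo_mono ?_
    rintro z ⟨j', hj', rfl⟩
    exact ⟨j', hij.trans hj', rfl⟩
  have hyM : ∀ i, y i ∈ M i := fun i => subset_clo _ ⟨i, le_rfl, rfl⟩
  have hyM' : ∀ i, y i ∉ M (i + 1) := by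
    intro i hi
    have h1 : M (i + 1) ⊆ ⋃ n, clo Φ {z | z ∈ (List.range n).map (fun k => y (i + 1 + k))} := by
      refine clo_min ?_ ?_
      · rintro z ⟨j, hj, rfl⟩
        refine mem_iUnion.2 ⟨j - (i + 1) + 1, subset_clo _ ?_⟩
        simp only [mem_ofPred_eq, List.mem_map, List.mem_range]
        exact ⟨j - (i + 1), by omega, by congr 1; omega⟩
      · intro l hl x hx
        have h2 : ∃ n, ∀ z ∈ l, z ∈ clo Φ {z | z ∈ (List.range n).map (fun k => y (i + 1 + k))} := by
          clear hx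
          induction l with
          | nil => exact ⟨0, fun z hz => by simp at hz⟩
          | cons a l ih =>
            obtain ⟨n, hn⟩ := ih (fun z hz => hl z (List.mem_cons_of_mem _ hz))
            obtain ⟨m, hm⟩ := mem_iUnion.1 (hl a (by simp))
            have hmono : ∀ n m : ℕ, n ≤ m →
                clo Φ {z | z ∈ (List.range n).map (fun k => y (i + 1 + k))} ⊆
                clo Φ {z | z ∈ (List.range m).map (fun k => y (i + 1 + k))} := by
              intro n m hnm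
              refine clo_mono ?_
              intro z hz
              simp only [mem_ofPred_eq, List.mem_map, List.mem_range] at hz ⊢
              obtain ⟨k, hk, rfl⟩ := hz
              exact ⟨k, by omega, rfl⟩
            refine ⟨max n m, fun z hz => ?_⟩
            rw [List.mem_cons] at hz
            rcases hz with rfl | hz
            · exact hmono _ _ (le_max_right _ _) hm
            · exact hmono _ _ (le_max_left _ _) (hn z hz)
        obtain ⟨n, hn⟩ := h2
        exact mem_iUnion.2 ⟨n, clo_closed hn hx⟩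
    obtain ⟨n, hn⟩ := mem_iUnion.1 (h1 hi)
    exact hy i n hn
  have hcof : ∃ i0, ∀ i, i0 ≤ i → ∀ a ∈ M i, ∃ c ∈ M (i + 1), a ≤ c := by
    by_contra hcon
    push Not at hcon
    obtain ⟨i1, -, a1, ha1, hc1⟩ := hcon 0
    obtain ⟨a, ⟨i, ha, hc⟩, hmin⟩ := wellFounded_lt.has_min
      {a : K | ∃ i, a ∈ M i ∧ ∀ c ∈ M (i + 1), c < a} ⟨a1, i1, ha1, hc1⟩
    obtain ⟨i', hi', a', ha', hc'⟩ := hcon (i + 1)
    exact hmin a' ⟨i', ha', hc'⟩ (hc a' (hMm _ _ hi' ha'))
  obtain ⟨i0, hi0⟩ := hcof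
  refine ⟨fun i => M (i0 + i), fun i => y (i0 + i), fun i => hMm _ _ (by omega),
    fun i => hyM _, fun i => hyM' _, fun i l hl => clo_closed hl, fun i => hi0 _ (by omega)⟩

end closure

section blocks

variable {K Y : Type u} [LinearOrder K] [WellFoundedLT K] [LinearOrder Y] [WellFoundedLT Y]

/-- the type of a small part -/
noncomputable def xr (κ : Cardinal.{u}) (b : Y → Set K) (A : Set Y) (j : K) : Ordinal.{u} :=
  sInf {o | otp (A ∩ {y | j ∉ b y} : Set Y) < κ.ord ^ succ o}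

theorem xr_spec {κ : Cardinal.{u}} (hκ : 1 < κ.ord) (b : Y → Set K) (A : Set Y) (j : K) :
    otp (A ∩ {y | j ∉ b y} : Set Y) < κ.ord ^ succ (xr κ b A j) := by
  have hne : {o : Ordinal.{u} | otp (A ∩ {y | j ∉ b y} : Set Y) < κ.ord ^ succ o}.Nonempty := by
    refine ⟨succ (otp (A ∩ {y | j ∉ b y} : Set Y)), ?_⟩
    rw [mem_ofPred_eq]
    exact (lt_succ _).trans_le ((right_le_opow _ hκ).trans
      (opow_le_opow_right (zero_lt_one.trans hκ) (le_succ _)))
  exact csInf_mem hne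

theorem xr_le {κ : Cardinal.{u}} {b : Y → Set K} {A : Set Y} {j : K} {o : Ordinal.{u}}
    (h : otp (A ∩ {y | j ∉ b y} : Set Y) < κ.ord ^ succ o) : xr κ b A j ≤ o :=
  csInf_le' h

theorem xr_lt {κ : Cardinal.{u}} (hκ : 1 < κ.ord) {b : Y → Set K} {A : Set Y} {j : K}
    {o : Ordinal.{u}} (h : otp (A ∩ {y | j ∉ b y} : Set Y) < κ.ord ^ o)
    (hne : (A ∩ {y | j ∉ b y} : Set Y).Nonempty) : xr κ b A j < o := by
  have hκ0 : κ.ord ≠ 0 := (zero_lt_one.trans hκ).ne'
  rcases zero_or_succ_or_isSuccLimit o with rfl | ⟨o', rfl⟩ | hlim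
  · rw [opow_zero, lt_one_iff, type_eq_zero_iff_isEmpty] at h
    exact (h.false hne.to_subtype.some).elim
  · exact (xr_le h).trans_lt (lt_succ _)
  · rw [lt_opow_of_isSuccLimit hκ0 hlim] at h
    obtain ⟨o', ho', h1⟩ := h
    exact (xr_le (h1.trans_le (opow_le_opow_right (pos_iff_ne_zero.2 hκ0)
      (le_succ o')))).trans_lt ho'

/-- Small sets are bounded. -/
theorem exists_bound_of_small {κ : Cardinal.{u}} (hκ : κ.IsRegular) (hK : otp K = κ.ord)
    (S : Set K) (hS : #S < κ) : ∃ c0, ∀ c, c0 ≤ c → c ∉ S := by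
  obtain ⟨k, hk⟩ := exists_gt_all hκ hK hS (fun x : S => x.1)
  exact ⟨k, fun c hc hcS => absurd (hk ⟨c, hcS⟩) (not_lt.2 hc)⟩

theorem exists_blocks {κ : Cardinal.{u}} (hκ : κ.IsRegular) (hK : otp K = κ.ord)
    (b : Y → Set K) (A : Set Y) (x : Ordinal.{u}) (hA : κ.ord ^ x * κ.ord ≤ otp A) :
    ∃ B : K → Set Y, (∀ c, B c ⊆ A ∧ otp (B c) = κ.ord ^ x) ∧
      ∀ j : K, ∀ F : Ordinal.{u}, F ≠ 0 → otp (A ∩ {y | j ∉ b y} : Set Y) < κ.ord ^ F →
        ∃ f < F, ∃ c0, ∀ c, c0 ≤ c → otp (B c ∩ {y | j ∉ b y} : Set Y) < κ.ord ^ f := by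
  have hKZ : otp (K ×ₗ (κ.ord ^ x).ToType) ≤ otp A := by
    rw [otp_prodLex, hK, otp_toType]
    exact hA
  obtain ⟨e, he⟩ := exists_strictMono_of_otp_le hKZ
  have hmono : ∀ c : K, StrictMono (fun z : (κ.ord ^ x).ToType => (e (toLex (c, z))).1) := by
    intro c z z' hz
    exact he (Prod.Lex.lt_iff.2 (Or.inr ⟨rfl, hz⟩))
  refine ⟨fun c => range (fun z : (κ.ord ^ x).ToType => (e (toLex (c, z))).1), ?_, ?_⟩
  · intro c
    refine ⟨?_, ?_⟩
    · rintro _ ⟨z, rfl⟩
      exact (e (toLex (c, z))).2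
    · change otp (range fun z : (κ.ord ^ x).ToType => (e (toLex (c, z))).1) = _
      rw [← image_univ, otp_image _ (hmono c), otp_univ, otp_toType]
  · intro j F hF h
    have h1 : otp {p : K ×ₗ (κ.ord ^ x).ToType | j ∉ b (e p)} < κ.ord ^ F := by
      refine lt_of_le_of_lt ?_ h
      exact otp_le_of_strictMono
        (fun p => (⟨(e p.1).1, (e p.1).2, p.2⟩ : (A ∩ {y | j ∉ b y} : Set Y)))
        fun p p' hpp => he hpp
    obtain ⟨f, hf, hS⟩ := block hκ.pos.ne' _ hF h1
    obtain ⟨c0, hc0⟩ := exists_bound_of_small hκ hK _ hS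
    refine ⟨f, hf, c0, fun c hc => ?_⟩
    have h2 := hc0 c hc
    rw [mem_ofPred_eq, not_le] at h2
    refine lt_of_le_of_lt ?_ h2
    rw [← otp_image _ (hmono c)]
    apply otp_set_mono
    rintro _ ⟨⟨z, rfl⟩, hz⟩
    exact ⟨z, hz, rfl⟩

open Classical in
/-- the blocks -/
noncomputable def Bk (κ : Cardinal.{u}) (b : Y → Set K) (A : Set Y) (x : Ordinal.{u}) (c : K) :
    Set Y :=
  if h : ∃ B : K → Set Y, (∀ c, B c ⊆ A ∧ otp (B c) = κ.ord ^ x) ∧
      ∀ j : K, ∀ F : Ordinal.{u}, F ≠ 0 → otp (A ∩ {y | j ∉ b y} : Set Y) < κ.ord ^ F →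
        ∃ f < F, ∃ c0, ∀ c, c0 ≤ c → otp (B c ∩ {y | j ∉ b y} : Set Y) < κ.ord ^ f
  then h.choose c else ∅

theorem Bk_spec {κ : Cardinal.{u}} (hκ : κ.IsRegular) (hK : otp K = κ.ord)
    (b : Y → Set K) (A : Set Y) (x : Ordinal.{u}) (hA : κ.ord ^ x * κ.ord ≤ otp A) :
    (∀ c, Bk κ b A x c ⊆ A ∧ otp (Bk κ b A x c) = κ.ord ^ x) ∧
      ∀ j : K, ∀ F : Ordinal.{u}, F ≠ 0 → otp (A ∩ {y | j ∉ b y} : Set Y) < κ.ord ^ F →
        ∃ f < F, ∃ c0, ∀ c, c0 ≤ c → otp (Bk κ b A x c ∩ {y | j ∉ b y} : Set Y) < κ.ord ^ f := by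
  have h := exists_blocks hκ hK b A x hA
  have h1 := h.choose_spec
  have h2 : ∀ c, Bk κ b A x c = h.choose c := by
    intro c
    rw [Bk, dif_pos h]
  refine ⟨fun c => by rw [h2]; exact h1.1 c, fun j F hF h3 => ?_⟩
  obtain ⟨f, hf, c0, hc0⟩ := h1.2 j F hF h3
  refine ⟨f, hf, c0, fun c hc => ?_⟩
  rw [h2]
  exact hc0 c hc

/-- the bound for the coefficients -/
theorem exists_cst {κ : Cardinal.{u}} (hκ : κ.IsRegular) (hκ1 : 1 < κ.ord) (hK : otp K = κ.ord)
    (b : Y → Set K) : ∃ cst : Set Y → Ordinal.{u} → K → K, ∀ (A : Set Y) (x : Ordinal.{u}) (j : K),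
      κ.ord ^ x * κ.ord ≤ otp A → ∀ c, cst A x j ≤ c →
        (Bk κ b A x c ∩ {y | j ∉ b y} : Set Y).Nonempty →
          xr κ b (Bk κ b A x c) j < xr κ b A j := by
  have hne : Nonempty K := by
    rw [← type_ne_zero_iff_nonempty (α := K) (r := (· < ·))]
    change otp K ≠ 0
    rw [hK]
    exact (zero_lt_one.trans hκ1).ne'
  have h1 : ∀ (A : Set Y) (x : Ordinal.{u}) (j : K), ∃ c0 : K, κ.ord ^ x * κ.ord ≤ otp A →
      ∀ c, c0 ≤ c → (Bk κ b A x c ∩ {y | j ∉ b y} : Set Y).Nonempty →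
          xr κ b (Bk κ b A x c) j < xr κ b A j := by
    intro A x j
    by_cases hA : κ.ord ^ x * κ.ord ≤ otp A
    · obtain ⟨f, hf, c0, hc0⟩ := (Bk_spec hκ hK b A x hA).2 j (succ (xr κ b A j))
        (succ_ne_bot _) (xr_spec hκ1 b A j)
      refine ⟨c0, fun _ c hc hne => ?_⟩
      have h2 := (hc0 c hc).trans_le (opow_le_opow_right (zero_lt_one.trans hκ1)
        (lt_succ_iff.1 hf))
      exact xr_lt hκ1 h2 hne
    · exact ⟨hne.some, fun h => absurd h hA⟩
  choose cst hcst using h1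
  exact ⟨cst, hcst⟩

/-- the block of a state -/
noncomputable def bl (κ : Cardinal.{u}) (b : Y → Set K) (s : List (Ordinal.{u} × K)) : Set Y :=
  s.foldl (fun A p => Bk κ b A p.1 p.2) univ

theorem bl_append (κ : Cardinal.{u}) (b : Y → Set K) (s : List (Ordinal.{u} × K))
    (p : Ordinal.{u} × K) : bl κ b (s ++ [p]) = Bk κ b (bl κ b s) p.1 p.2 := by
  unfold bl
  rw [List.foldl_append]
  rfl

end blocks

section main

variable {K : Type u}

/-- decoding of a state -/
def decS (dec : K → Ordinal.{u}) : List K → List (Ordinal.{u} × K)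
  | a :: c :: l => (dec a, c) :: decS dec l
  | _ => []

/-- coding of a state -/
def encS (cod : Ordinal.{u} → K) : List (Ordinal.{u} × K) → List K
  | [] => []
  | p :: l => cod p.1 :: p.2 :: encS cod l

theorem decS_encS {dec : K → Ordinal.{u}} {cod : Ordinal.{u} → K} :
    ∀ {s : List (Ordinal.{u} × K)}, (∀ p ∈ s, dec (cod p.1) = p.1) →
      decS dec (encS cod s) = s
  | [], _ => rfl
  | p :: l, h => by
    rw [encS, decS, decS_encS (fun q hq => h q (List.mem_cons_of_mem _ hq)), h p (by simp)]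

theorem mem_encS {cod : Ordinal.{u} → K} {z : K} :
    ∀ {s : List (Ordinal.{u} × K)}, z ∈ encS cod s → ∃ p ∈ s, z = cod p.1 ∨ z = p.2
  | [], h => by simp [encS] at h
  | p :: l, h => by
    rw [encS, List.mem_cons, List.mem_cons] at h
    rcases h with h | h | h
    · exact ⟨p, by simp, Or.inl h⟩
    · exact ⟨p, by simp, Or.inr h⟩
    · obtain ⟨q, hq, h1⟩ := mem_encS h
      exact ⟨q, List.mem_cons_of_mem _ hq, h1⟩

variable [LinearOrder K] [WellFoundedLT K]

/-- The main lemma: at a regular tail-free cardinal not all indices are bad. -/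
theorem not_all_bad {κ : Cardinal.{u}} (hκ : κ.IsRegular) (hK : otp K = κ.ord)
    (hTF : TailFreeC K) {ξ : Ordinal.{u}} (hξ : ξ.card ≤ κ) {Y : Type u} [LinearOrder Y]
    [WellFoundedLT Y] (hY : otp Y = κ.ord ^ ξ) (b : Y → Set K) (hb : ∀ y, (b y).Countable)
    (hbad : ∀ j, otp {y | j ∉ b y} < κ.ord ^ ξ) : False := by
  classical
  have hKu : Uncountable K := hTF.uncountable
  have hKc : #K = κ := by
    have := congrArg Ordinal.card hK
    rwa [card_type, card_ord] at this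
  have hκu : ℵ₀ < κ := by
    rw [← hKc]
    exact aleph0_lt_mk_iff.2 hKu
  have hκ1 : 1 < κ.ord := by
    rw [lt_ord]
    simpa using one_lt_aleph0.trans hκu
  have hκ0 : 0 < κ.ord := zero_lt_one.trans hκ1
  have hYne : Nonempty Y := by
    rw [← type_ne_zero_iff_nonempty (α := Y) (r := (· < ·))]
    change otp Y ≠ 0
    rw [hY]
    exact opow_ne_zero _ hκ0.ne'
  have hKne : Nonempty K := by
    rw [← mk_ne_zero_iff, hKc]
    exact hκ.pos.ne'
  obtain ⟨y0⟩ := hYne
  obtain ⟨k0⟩ := hKne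
  rcases eq_or_ne ξ 0 with rfl | hξ0
  · -- the trivial case
    have h1 : ∀ j, j ∈ b y0 := by
      intro j
      have h2 := hbad j
      rw [opow_zero, lt_one_iff, type_eq_zero_iff_isEmpty] at h2
      by_contra h3
      exact h2.false ⟨y0, h3⟩
    have h2 : (Set.univ : Set K).Countable := (hb y0).mono (fun j _ => h1 j)
    exact not_countable_univ h2
  -- the codes
  obtain ⟨cod, dec, hdec⟩ : ∃ (cod : Ordinal.{u} → K) (dec : K → Ordinal.{u}),
      ∀ x < ξ, dec (cod x) = x := by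
    have h1 : #ξ.ToType ≤ #K := by
      rw [mk_toType, hKc]
      exact hξ
    obtain ⟨e⟩ := h1
    refine ⟨fun x => if h : x < ξ then e (ToType.mk ⟨x, h⟩) else k0,
      fun k => if h : ∃ z : ξ.ToType, e z = k then (ToType.mk.symm h.choose).1 else 0, ?_⟩
    intro x hx
    have h2 : ∃ z : ξ.ToType, e z = e (ToType.mk ⟨x, hx⟩) := ⟨_, rfl⟩
    simp only [dif_pos hx, dif_pos h2]
    have h3 : h2.choose = ToType.mk ⟨x, hx⟩ := e.injective h2.choose_spec
    rw [h3]
    simp
  obtain ⟨cst, hcst⟩ := exists_cst hκ hκ1 hK b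
  set pt : Set Y → Y := fun A => if h : A.Nonempty then h.some else y0 with hpt
  have hptm : ∀ A : Set Y, A.Nonempty → pt A ∈ A := by
    intro A hA
    simp only [hpt, dif_pos hA]
    exact hA.some_mem
  -- the operations
  set Φ : List K → Set K := fun m => b (pt (bl κ b (decS dec m))) ∪
    ((match m with
      | j :: m' => {cod (xr κ b (bl κ b (decS dec m')) j)}
      | _ => ∅) ∪
    (match m with
      | j :: a :: m' => {cst (bl κ b (decS dec m')) (dec a) j}
      | _ => ∅)) with hΦ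
  have hΦc : ∀ m, (Φ m).Countable := by
    intro m
    simp only [hΦ]
    refine (hb _).union (Set.Countable.union ?_ ?_)
    · split
      · exact countable_singleton _
      · exact countable_empty
    · split
      · exact countable_singleton _
      · exact countable_empty
  obtain ⟨M, y, hM1, hM2, hM3, hM4, hM5⟩ := exists_models hTF Φ hΦc
  -- states of a model
  set St : ℕ → List (Ordinal.{u} × K) → Prop := fun i s =>
    ∀ p ∈ s, p.1 < ξ ∧ cod p.1 ∈ M i ∧ p.2 ∈ M i with hSt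
  have hds : ∀ i s, St i s → decS dec (encS cod s) = s :=
    fun i s hs => decS_encS (fun p hp => hdec _ (hs p hp).1)
  have hes : ∀ i s, St i s → ∀ z ∈ encS cod s, z ∈ M i := by
    intro i s hs z hz
    obtain ⟨p, hp, rfl | rfl⟩ := mem_encS hz
    · exact (hs p hp).2.1
    · exact (hs p hp).2.2
  have hF1 : ∀ i s j, St i s → j ∈ M i → cod (xr κ b (bl κ b s) j) ∈ M i := by
    intro i s j hs hj
    refine hM4 i (j :: encS cod s) ?_ (Or.inr (Or.inl ?_))
    · intro z hz
      rw [List.mem_cons] at hz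
      rcases hz with rfl | hz
      · exact hj
      · exact hes i s hs z hz
    · simp only [mem_singleton_iff]
      rw [hds i s hs]
  have hF2 : ∀ i s x j, St i s → x < ξ → cod x ∈ M i → j ∈ M i →
      cst (bl κ b s) x j ∈ M i := by
    intro i s x j hs hx hxM hj
    refine hM4 i (j :: cod x :: encS cod s) ?_ (Or.inr (Or.inr ?_))
    · intro z hz
      rw [List.mem_cons, List.mem_cons] at hz
      rcases hz with rfl | rfl | hz
      · exact hj
      · exact hxM
      · exact hes i s hs z hz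
    · simp only [mem_singleton_iff]
      rw [hds i s hs, hdec x hx]
  have hF3 : ∀ i s, St i s → b (pt (bl κ b s)) ⊆ M i := by
    intro i s hs z hz
    refine hM4 i (encS cod s) (hes i s hs) (Or.inl ?_)
    rw [hds i s hs]
    exact hz
  have hStm : ∀ i s, St (i + 1) s → St i s :=
    fun i s hs p hp => ⟨(hs p hp).1, hM1 i (hs p hp).2.1, hM1 i (hs p hp).2.2⟩
  -- the coefficients
  have hch : ∀ (i : ℕ) (a : K), ∃ c, c ∈ M (i + 1) ∧ (a ∈ M i → a ≤ c) := by
    intro i a
    by_cases ha : a ∈ M i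
    · obtain ⟨c, hc, hac⟩ := hM5 i a ha
      exact ⟨c, hc, fun _ => hac⟩
    · exact ⟨y (i + 1), hM2 _, fun h => absurd h ha⟩
  choose ch hch1 hch2 using hch
  -- the states
  let st : ℕ → ℕ → List (Ordinal.{u} × K) := fun k => Nat.rec (fun _ => [])
    (fun _ s i => s i ++ [(xr κ b (bl κ b (s (i + 1))) (y i),
      match i with
      | 0 => y 0
      | i' + 1 => ch i' (cst (bl κ b (s (i' + 1)))
          (xr κ b (bl κ b (s (i' + 2))) (y (i' + 1))) (y i')))]) k
  set X : ℕ → ℕ → Ordinal.{u} := fun k i => xr κ b (bl κ b (st k (i + 1))) (y i) with hX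
  have hst0 : ∀ i, st 0 i = [] := fun _ => rfl
  have hst0' : ∀ k, st (k + 1) 0 = st k 0 ++ [(X k 0, y 0)] := fun _ => rfl
  have hsts : ∀ k i, st (k + 1) (i + 1) = st k (i + 1) ++
      [(X k (i + 1), ch i (cst (bl κ b (st k (i + 1))) (X k (i + 1)) (y i)))] := fun _ _ => rfl
  have hbl : ∀ k i, ∃ c ∈ M i, st (k + 1) i = st k i ++ [(X k i, c)] := by
    intro k i
    cases i with
    | zero => exact ⟨y 0, hM2 0, hst0' k⟩
    | succ i => exact ⟨_, hch1 _ _, hsts k i⟩
  set Q : ℕ → Prop := fun k => ∀ i, St i (st k i) ∧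
    κ.ord ^ X k i * κ.ord ≤ otp (bl κ b (st k i)) ∧ X k i < ξ with hQ
  have hQ0 : Q 0 := by
    intro i
    have h1 : X 0 i < ξ := by
      simp only [hX, hst0]
      refine xr_lt hκ1 ?_ ?_
      · refine lt_of_le_of_lt (otp_set_mono inter_subset_right) (hbad (y i))
      · refine ⟨pt (bl κ b []), mem_univ _, fun h2 => hM3 i (hF3 (i + 1) [] ?_ h2)⟩
        intro p hp
        simp at hp
    refine ⟨?_, ?_, h1⟩
    · intro p hp
      simp [hst0] at hp
    · have h2 : otp (bl κ b (st 0 i)) = κ.ord ^ ξ := by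
        rw [hst0]
        exact (otp_univ Y).trans hY
      rw [h2, ← opow_succ]
      exact opow_le_opow_right hκ0 (Order.succ_le_of_lt h1)
  have hstep : ∀ k, Q k → Q (k + 1) ∧ ∀ i, X (k + 1) i < X k i := by
    intro k hk
    -- states
    have hS : ∀ i, St i (st (k + 1) i) := by
      intro i
      obtain ⟨c, hc, h1⟩ := hbl k i
      rw [h1]
      intro p hp
      rw [List.mem_append, List.mem_singleton] at hp
      rcases hp with hp | rfl
      · exact (hk i).1 p hp
      · exact ⟨(hk i).2.2, hF1 i _ _ (hStm i _ (hk (i + 1)).1) (hM2 i), hc⟩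
    have hotp : ∀ i, otp (bl κ b (st (k + 1) i)) = κ.ord ^ X k i := by
      intro i
      obtain ⟨c, hc, h1⟩ := hbl k i
      rw [h1, bl_append]
      exact ((Bk_spec hκ hK b _ _ (hk i).2.1).1 c).2
    have hlt : ∀ i, X (k + 1) i < X k i := by
      intro i
      have h1 : bl κ b (st (k + 1) (i + 1)) = Bk κ b (bl κ b (st k (i + 1))) (X k (i + 1))
          (ch i (cst (bl κ b (st k (i + 1))) (X k (i + 1)) (y i))) := by
        rw [hsts k i, bl_append]
      change xr κ b (bl κ b (st (k + 1) (i + 1))) (y i) < xr κ b (bl κ b (st k (i + 1))) (y i)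
      rw [h1]
      refine hcst _ _ _ (hk (i + 1)).2.1 _ ?_ ?_
      · apply hch2
        refine hF2 i _ _ _ (hStm i _ (hk (i + 1)).1) (hk (i + 1)).2.2 ?_ (hM2 i)
        exact hM1 i (hF1 (i + 1) _ _ (hStm _ _ (hk (i + 2)).1) (hM2 (i + 1)))
      · rw [← h1]
        have hne : (bl κ b (st (k + 1) (i + 1))).Nonempty := by
          rw [nonempty_iff_ne_empty]
          intro h2
          have h3 := hotp (i + 1)
          rw [h2] at h3
          have h4 : otp (∅ : Set Y) = 0 := type_eq_zero_of_empty _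
          rw [h4] at h3
          exact opow_ne_zero _ hκ0.ne' h3.symm
        exact ⟨pt _, hptm _ hne, fun h2 => hM3 i (hF3 (i + 1) _ (hS (i + 1)) h2)⟩
    refine ⟨fun i => ⟨hS i, ?_, (hlt i).trans (hk i).2.2⟩, hlt⟩
    rw [hotp i, ← opow_succ]
    exact opow_le_opow_right hκ0 (Order.succ_le_of_lt (hlt i))
  have hall : ∀ k, Q k := by
    intro k
    induction k with
    | zero => exact hQ0
    | succ k ih => exact (hstep k ih).1
  obtain ⟨_, ⟨k, rfl⟩, hmin⟩ := wellFounded_lt.has_min (range (fun k => X k 0)) ⟨_, 0, rfl⟩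
  exact hmin _ ⟨k + 1, rfl⟩ ((hstep k (hall k)).2 0)

end main

end IPath
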