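import Mathlib

/-! Ranks of ordinal valued functions modulo a filter. -/

open Ordinal Cardinal Set Filter Order

universe u

namespace IPath

variable {ι : Type u}

/-- `RkLE 𝓕 α F`: the rank of `F` in the relation `F' < F` modulo `𝓕` is at most `α`. -/
def RkLE (𝓕 : Filter ι) (α : Ordinal.{u}) (F : ι → Ordinal.{u}) : Prop :=
  ∀ F' : ι → Ordinal.{u}, (∀ᶠ j in 𝓕, F' j < F j) → ∃ α', ∃ _h : α' < α, RkLE 𝓕 α' F'
termination_by α

theorem rkLE_iff {𝓕 : Filter ι} {α : Ordinal.{u}} {F : ι → Ordinal.{u}} :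
    RkLE 𝓕 α F ↔
      ∀ F' : ι → Ordinal.{u}, (∀ᶠ j in 𝓕, F' j < F j) → ∃ α' < α, RkLE 𝓕 α' F' := by
  rw [RkLE]
  simp only [exists_prop]

theorem RkLE.mono_ord {𝓕 : Filter ι} {α β : Ordinal.{u}} {F : ι → Ordinal.{u}}
    (h : RkLE 𝓕 α F) (hle : α ≤ β) : RkLE 𝓕 β F := by
  rw [rkLE_iff] at h ⊢
  intro F' hF'
  obtain ⟨α', h1, h2⟩ := h F' hF'
  exact ⟨α', h1.trans_le hle, h2⟩

theorem RkLE.mono_fun {𝓕 : Filter ι} {α : Ordinal.{u}} {F F₂ : ι → Ordinal.{u}}
    (h : RkLE 𝓕 α F) (hF : ∀ᶠ j in 𝓕, F₂ j ≤ F j) : RkLE 𝓕 α F₂ := by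
  rw [rkLE_iff] at h ⊢
  intro F' hF'
  exact h F' (by filter_upwards [hF, hF'] with j h1 h2 using h2.trans_le h1)

theorem RkLE.congr {𝓕 : Filter ι} {α : Ordinal.{u}} {F F₂ : ι → Ordinal.{u}}
    (h : RkLE 𝓕 α F) (hF : ∀ᶠ j in 𝓕, F₂ j = F j) : RkLE 𝓕 α F₂ :=
  h.mono_fun (hF.mono fun _ h => h.le)

theorem RkLE.mono_filter {𝓕 𝓖 : Filter ι} (hle : 𝓖 ≤ 𝓕) {α : Ordinal.{u}} :
    ∀ {F : ι → Ordinal.{u}}, RkLE 𝓖 α F → RkLE 𝓕 α F := by
  induction α using WellFoundedLT.induction with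
  | ind α ih =>
    intro F h
    rw [rkLE_iff] at h ⊢
    intro F' hF'
    obtain ⟨α', h1, h2⟩ := h F' (hF'.filter_mono hle)
    exact ⟨α', h1, ih α' h1 h2⟩

theorem not_rkLE_bot {α : Ordinal.{u}} : ∀ {F : ι → Ordinal.{u}}, ¬ RkLE ⊥ α F := by
  induction α using WellFoundedLT.induction with
  | ind α ih =>
    intro F h
    rw [rkLE_iff] at h
    obtain ⟨α', h1, h2⟩ := h F (by simp)
    exact ih α' h1 h2

theorem RkLE.neBot {𝓕 : Filter ι} {α : Ordinal.{u}} {F : ι → Ordinal.{u}} (h : RkLE 𝓕 α F) :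
    𝓕.NeBot := by
  rw [neBot_iff]
  rintro rfl
  exact not_rkLE_bot h

theorem rkLE_zero {𝓕 : Filter ι} [𝓕.NeBot] : RkLE 𝓕 0 (fun _ => 0) := by
  rw [rkLE_iff]
  intro F' hF'
  obtain ⟨j, hj⟩ := hF'.exists
  exact absurd hj (by simp)

/-- Pigeonhole for ranks. -/
theorem RkLE.pigeonhole {𝓕 : Filter ι} {θ : Cardinal.{u}} [CardinalInterFilter 𝓕 θ]
    {I : Type u} (hI : #I < θ) (c : ι → I) {α : Ordinal.{u}} :
    ∀ {F : ι → Ordinal.{u}}, RkLE 𝓕 α F → ∃ i, RkLE (𝓕 ⊓ 𝓟 (c ⁻¹' {i})) α F := by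
  induction α using WellFoundedLT.induction with
  | ind α ih =>
    intro F h
    by_contra hcon
    push Not at hcon
    have h1 : ∀ i, ∃ F' : ι → Ordinal.{u}, (∀ᶠ j in 𝓕 ⊓ 𝓟 (c ⁻¹' {i}), F' j < F j) ∧
        ∀ α' < α, ¬ RkLE (𝓕 ⊓ 𝓟 (c ⁻¹' {i})) α' F' := by
      intro i
      have := hcon i
      rw [rkLE_iff] at this
      push Not at this
      exact this
    choose G hG1 hG2 using h1
    rw [rkLE_iff] at h
    obtain ⟨α', hα', h3⟩ := h (fun j => G (c j) j) (by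
      have : ∀ᶠ j in 𝓕, ∀ i, c j = i → G i j < F j := by
        rw [eventually_cardinal_forall hI]
        intro i
        have := hG1 i
        rw [eventually_inf_principal] at this
        filter_upwards [this] with j hj hji using hj hji
      filter_upwards [this] with j hj using hj _ rfl)
    obtain ⟨i, hi⟩ := ih α' hα' h3
    refine hG2 i α' hα' (hi.congr ?_)
    rw [eventually_inf_principal]
    exact Eventually.of_forall fun j hj => by
      have : c j = i := hj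
      simp [this]

/-- A version for two pieces. -/
theorem RkLE.or {𝓕 : Filter ι} (M : Set ι) {α : Ordinal.{u}} :
    ∀ {F : ι → Ordinal.{u}}, RkLE 𝓕 α F → RkLE (𝓕 ⊓ 𝓟 M) α F ∨ RkLE (𝓕 ⊓ 𝓟 Mᶜ) α F := by
  classical
  induction α using WellFoundedLT.induction with
  | ind α ih =>
    intro F h
    by_contra hcon
    push Not at hcon
    obtain ⟨h1, h2⟩ := hcon
    rw [rkLE_iff] at h1 h2 h
    push Not at h1 h2
    obtain ⟨G1, hG1, hG1'⟩ := h1
    obtain ⟨G2, hG2, hG2'⟩ := h2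
    obtain ⟨α', hα', h3⟩ := h (fun j => if j ∈ M then G1 j else G2 j) (by
      rw [eventually_inf_principal] at hG1 hG2
      filter_upwards [hG1, hG2] with j h1 h2
      by_cases hj : j ∈ M
      · simpa [hj] using h1 hj
      · simpa [hj] using h2 hj)
    rcases ih α' hα' h3 with h4 | h4
    · refine hG1' α' hα' (h4.congr ?_)
      rw [eventually_inf_principal]
      exact Eventually.of_forall fun j hj => by simp [hj]
    · refine hG2' α' hα' (h4.congr ?_)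
      rw [eventually_inf_principal]
      exact Eventually.of_forall fun j hj => by
        have : j ∉ M := hj
        simp [this]

end IPath
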