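import Pool.Agent.Work.MP_820435_lc.Cover

/-!
# Small families that meet all functions below a given one
-/

open Ordinal Cardinal Set Filter Order

universe u

namespace IPath

variable {A : Type u} {κ lam θ : Cardinal.{u}} {𝓕 𝓖 : Filter A} {h k : A → Ordinal.{u}}
  {α : Ordinal.{u}}

/-- A family of at most `lam` functions meets every function below `h`. -/
def SmallCov (𝓕 : Filter A) (h : A → Ordinal.{u}) (lam : Cardinal.{u}) : Prop :=
  ∃ (I : Type u) (d : I → A → Ordinal.{u}), #I ≤ lam ∧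
    ∀ g : A → Ordinal.{u}, (∀ᶠ a in 𝓕, g a < h a) → ∃ i, ∃ᶠ a in 𝓕, g a = d i a

theorem SmallCov.mono_filter (hle : 𝓖 ≤ 𝓕) (h1 : SmallCov 𝓖 h lam) : SmallCov 𝓕 h lam := by
  obtain ⟨I, d, h2, h3⟩ := h1
  refine ⟨I, d, h2, fun g hg => ?_⟩
  obtain ⟨i, hi⟩ := h3 g (hg.filter_mono hle)
  exact ⟨i, hi.filter_mono hle⟩

theorem SmallCov.mono_fun (h1 : SmallCov 𝓕 h lam) (hle : ∀ᶠ a in 𝓕, k a ≤ h a) :
    SmallCov 𝓕 k lam := by
  obtain ⟨I, d, h2, h3⟩ := h1
  refine ⟨I, d, h2, fun g hg => h3 g ?_⟩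
  filter_upwards [hle, hg] with a h4 h5 using h5.trans_le h4

theorem SmallCov.mono_card (h1 : SmallCov 𝓕 h lam) (hle : lam ≤ κ) : SmallCov 𝓕 h κ := by
  obtain ⟨I, d, h2, h3⟩ := h1
  exact ⟨I, d, h2.trans hle, h3⟩

theorem exists_ordinal_inj {x y : Ordinal.{u}} (h : x.card ≤ y.card) :
    ∃ e : Ordinal.{u} → Ordinal.{u}, (∀ z < x, e z < y) ∧ InjOn e (Iio x) := by
  classical
  have h1 : #x.ToType ≤ #y.ToType := by simpa using h
  obtain ⟨i⟩ := h1
  refine ⟨fun z => if hz : z < x then ((i (ToType.mk ⟨z, hz⟩) : y.ToType) : Ordinal.{u}) else 0,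
    ?_, ?_⟩
  · intro z hz
    simp only [hz, dif_pos]
    exact (i (ToType.mk ⟨z, hz⟩)).toOrd.2
  · intro z hz z' hz' hzz
    rw [mem_Iio] at hz hz'
    simp only [hz, hz', dif_pos] at hzz
    have h2 : i (ToType.mk ⟨z, hz⟩) = i (ToType.mk ⟨z', hz'⟩) :=
      ToType.mk.symm.injective (Subtype.ext hzz)
    have h3 := ToType.mk.injective (i.injective h2)
    exact congrArg Subtype.val h3

theorem SmallCov.of_card_le (h1 : SmallCov 𝓕 h lam) (hle : ∀ᶠ a in 𝓕, (k a).card ≤ (h a).card) :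
    SmallCov 𝓕 k lam := by
  classical
  obtain ⟨I, d, h2, h3⟩ := h1
  have h4 : ∀ a, ∃ e : Ordinal.{u} → Ordinal.{u}, (k a).card ≤ (h a).card →
      (∀ z < k a, e z < h a) ∧ InjOn e (Iio (k a)) := by
    intro a
    by_cases hc : (k a).card ≤ (h a).card
    · obtain ⟨e, he⟩ := exists_ordinal_inj hc
      exact ⟨e, fun _ => he⟩
    · exact ⟨id, fun h => absurd h hc⟩
  choose e he using h4
  refine ⟨I, fun i a => Function.invFunOn (e a) (Iio (k a)) (d i a), h2, fun g hg => ?_⟩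
  obtain ⟨i, hi⟩ := h3 (fun a => e a (g a)) (by
    filter_upwards [hle, hg] with a h5 h6 using (he a h5).1 _ h6)
  refine ⟨i, ?_⟩
  refine (hi.and_eventually (hle.and hg)).mono ?_
  rintro a ⟨h5, h6, h7⟩
  change g a = Function.invFunOn (e a) (Iio (k a)) (d i a)
  rw [← h5]
  exact ((he a h6).2.leftInvOn_invFunOn h7).symm

/-- A family of pairwise different functions. -/
theorem exists_family (h1 : ¬ SmallCov 𝓕 h lam) (T : Type u) (hT : #T ≤ succ lam) :
    ∃ f : T → A → Ordinal.{u}, (∀ t, ∀ᶠ a in 𝓕, f t a < h a) ∧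
      ∀ t s, t ≠ s → ∀ᶠ a in 𝓕, f t a ≠ f s a := by
  classical
  have hord : (#((succ lam).ord.ToType)).ord = typeLT (succ lam).ord.ToType := by simp
  set T0 := (succ lam).ord.ToType with hT0
  let step : (t : T0) → ((s : T0) → s < t → (A → Ordinal.{u})) → (A → Ordinal.{u}) :=
    fun t prev => Classical.epsilon (fun g => (∀ᶠ a in 𝓕, g a < h a) ∧
      ∀ s (hs : s < t), ∀ᶠ a in 𝓕, g a ≠ prev s hs a)
  let F : T0 → A → Ordinal.{u} := WellFounded.fix (wellFounded_lt (α := T0)) step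
  have hF : ∀ t, F t = step t (fun s _ => F s) := fun t => WellFounded.fix_eq _ _ _
  have hF2 : ∀ t, (∀ᶠ a in 𝓕, F t a < h a) ∧ ∀ s < t, ∀ᶠ a in 𝓕, F t a ≠ F s a := by
    intro t
    have hex : ∃ g : A → Ordinal.{u}, (∀ᶠ a in 𝓕, g a < h a) ∧
        ∀ s (_ : s < t), ∀ᶠ a in 𝓕, g a ≠ F s a := by
      by_contra hcon
      push Not at hcon
      apply h1
      refine ⟨Iio t, fun s => F s.1, ?_, fun g hg => ?_⟩
      · have h2 : #(Iio t) < succ lam := by
          refine (mk_Iio_lt t hord).trans_eq ?_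
          exact (mk_toType _).trans (card_ord _)
        exact lt_succ_iff.1 h2
      · obtain ⟨s, hs, h2⟩ := hcon g hg
        exact ⟨⟨s, hs⟩, h2⟩
    have h2 := Classical.epsilon_spec hex
    rw [hF t]
    exact h2
  obtain ⟨i⟩ : Nonempty (T ↪ T0) := by
    have : #T ≤ #T0 := by
      rw [hT0, mk_toType, card_ord]
      exact hT
    exact this
  refine ⟨fun t => F (i t), fun t => (hF2 _).1, fun t s hts => ?_⟩
  have hne : i t ≠ i s := fun h => hts (i.injective h)
  rcases lt_or_gt_of_ne hne with h2 | h2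
  · filter_upwards [(hF2 (i s)).2 _ h2] with a ha using ha.symm
  · exact (hF2 (i t)).2 _ h2

/-- Gluing small families. -/
theorem smallCov_of_union (hlam : ℵ₀ ≤ lam) (T : Type u) (hT : #T ≤ lam) (𝓖 : T → Filter A)
    (k : T → A → Ordinal.{u}) (hle : ∀ t, 𝓖 t ≤ 𝓕) (hS : ∀ t, SmallCov (𝓖 t) (k t) lam)
    (H : ∀ g : A → Ordinal.{u}, (∀ᶠ a in 𝓕, g a < h a) → ∃ t, ∀ᶠ a in 𝓖 t, g a < k t a) :
    SmallCov 𝓕 h lam := by
  choose I d h1 h2 using hS
  refine ⟨Σ t, I t, fun x => d x.1 x.2, ?_, fun g hg => ?_⟩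
  · rw [mk_sigma]
    refine (Cardinal.sum_le_sum _ (fun _ => lam) h1).trans ?_
    rw [sum_const', mul_comm]
    exact (mul_le_mul' le_rfl hT).trans_eq (mul_eq_self hlam)
  · obtain ⟨t, ht⟩ := H g hg
    obtain ⟨i, hi⟩ := h2 t g ht
    exact ⟨⟨t, i⟩, hi.filter_mono (hle t)⟩

/-- Homogeneity: the filter of sets of full rank preserves the rank of functions with large
cofinalities. -/
theorem posFilter_homog {hθ : ℵ₀ ≤ θ} [CardinalInterFilter 𝓕 θ]
    (hadd : ∀ a, ∀ x < h a, ∀ y < h a, x + y < h a) (hcof : ∀ a, 2 ^ #A < (h a).cof)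
    {M : Set A} (hM : RkLE (𝓕 ⊓ 𝓟 M) α h) : RkLE (posFilter 𝓕 hθ α h ⊓ 𝓟 M) α h := by
  classical
  set 𝓙 := posFilter 𝓕 hθ α h with h𝓙
  have hpos : ∀ a, 0 < h a := by
    intro a
    rw [pos_iff_ne_zero]
    intro h0
    have := hcof a
    rw [h0, cof_zero] at this
    exact absurd this (by simp)
  -- witnesses for the null sets
  have hwit : ∀ C : {C : Set A // ¬ RkLE (𝓕 ⊓ 𝓟 C) α h}, ∃ g : A → Ordinal.{u},
      (∀ a, g a < h a) ∧ ∀ α' < α, ¬ RkLE (𝓕 ⊓ 𝓟 C.1) α' g := by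
    intro C
    have h1 := C.2
    rw [rkLE_iff] at h1
    push Not at h1
    obtain ⟨g, hg1, hg2⟩ := h1
    refine ⟨fun a => if g a < h a then g a else 0, fun a => ?_, fun α' hα' hcon => ?_⟩
    · dsimp only
      split_ifs with h2
      · exact h2
      · exact hpos a
    · refine hg2 α' hα' (hcon.congr ?_)
      filter_upwards [hg1] with a ha
      simp [ha]
  choose gC hgC1 hgC2 using hwit
  set G : A → Ordinal.{u} := fun a => ⨆ C : {C : Set A // ¬ RkLE (𝓕 ⊓ 𝓟 C) α h}, gC C a + 1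
    with hG
  have hG1 : ∀ a, G a < h a := by
    intro a
    refine iSup_add_one_lt_of_lt_cof (lt_of_le_of_lt ?_ (hcof a)) (fun C => hgC1 C a)
    rw [← mk_set]
    exact mk_subtype_le _
  have hG2 : ∀ C a, gC C a < G a := fun C a => Ordinal.lt_iSup_add_one (fun C => gC C a) C
  by_contra hcon
  rw [rkLE_iff] at hcon
  push Not at hcon
  obtain ⟨g0, hg01, hg02⟩ := hcon
  have claim : ∀ β ≤ α, ∀ u : A → Ordinal.{u}, (∀ α' < β, ¬ RkLE (𝓙 ⊓ 𝓟 M) α' u) →
      ∀ α' < β, ¬ RkLE (𝓕 ⊓ 𝓟 M) α' (fun a => G a + u a) := by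
    intro β
    induction β using WellFoundedLT.induction with
    | ind β ih =>
      intro hβ u hu α' hα' hcon
      have h1 := hu α' hα'
      rw [rkLE_iff] at h1
      push Not at h1
      obtain ⟨u', hu1, hu2⟩ := h1
      have h2 := ih α' hα' (hα'.le.trans hβ) u' hu2
      have hC : ¬ RkLE (𝓕 ⊓ 𝓟 {a | a ∈ M ∧ ¬ u' a < u a}) α h := by
        have h3 : {a | a ∈ M ∧ ¬ u' a < u a}ᶜ ∈ 𝓙 := by
          rw [eventually_inf_principal] at hu1
          filter_upwards [hu1] with a ha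
          intro hmem
          exact hmem.2 (ha hmem.1)
        rw [h𝓙, mem_posFilter, compl_compl] at h3
        exact h3
      set C : {C : Set A // ¬ RkLE (𝓕 ⊓ 𝓟 C) α h} := ⟨{a | a ∈ M ∧ ¬ u' a < u a}, hC⟩ with hCdef
      rw [rkLE_iff] at hcon
      obtain ⟨α'', hα'', h3⟩ := hcon (fun a => if a ∈ C.1 then gC C a else G a + u' a) (by
        rw [eventually_inf_principal]
        refine Eventually.of_forall fun a ha => ?_
        by_cases hac : a ∈ C.1
        · simp only [hac, if_true]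
          exact (hG2 C a).trans_le le_self_add
        · simp only [hac, if_false]
          have h4 : u' a < u a := by
            by_contra h5
            exact hac ⟨ha, h5⟩
          gcongr)
      rcases h3.or C.1 with h4 | h4
      · refine hgC2 C α'' (hα''.trans (hα'.trans_le hβ)) ?_
        refine RkLE.mono_filter (𝓖 := 𝓕 ⊓ 𝓟 M ⊓ 𝓟 C.1) ?_ (h4.congr ?_)
        · exact inf_le_inf_right _ inf_le_left
        · rw [eventually_inf_principal]
          refine Eventually.of_forall fun a ha => ?_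
          simp [ha]
      · refine h2 α'' hα'' (RkLE.mono_filter (𝓖 := 𝓕 ⊓ 𝓟 M ⊓ 𝓟 C.1ᶜ) inf_le_left
          (h4.congr ?_))
        rw [eventually_inf_principal]
        refine Eventually.of_forall fun a ha => ?_
        have ha' : a ∉ C.1 := ha
        simp [ha']
  -- the final contradiction
  set g : A → Ordinal.{u} := fun a => if g0 a < h a then g0 a else 0 with hg
  have hg1 : ∀ a, g a < h a := by
    intro a
    simp only [hg]
    split_ifs with h2
    · exact h2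
    · exact hpos a
  have hg2 : ∀ α' < α, ¬ RkLE (𝓙 ⊓ 𝓟 M) α' g := by
    intro α' hα' hcon
    refine hg02 α' hα' (hcon.congr ?_)
    filter_upwards [hg01] with a ha
    simp [hg, ha]
  rw [rkLE_iff] at hM
  obtain ⟨α', hα', h3⟩ := hM (fun a => G a + g a)
    (Eventually.of_forall fun a => hadd a _ (hG1 a) _ (hg1 a))
  exact claim α le_rfl g hg2 α' hα' h3

end IPath
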