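import Pool.Agent.Work.MP_820435_lc.Rgch1

/-!
# Functions of minimal rank without a small family
-/

open Ordinal Cardinal Set Filter Order

universe u

namespace IPath

variable {A : Type u} {κ lam θ c : Cardinal.{u}} {𝓕 𝓖 𝓙 : Filter A} {h k : A → Ordinal.{u}}
  {α γ : Ordinal.{u}}

theorem smallCov_const [𝓕.NeBot] (hc : γ.card ^ #A ≤ lam) : SmallCov 𝓕 (fun _ => γ) lam := by
  classical
  refine ⟨A → γ.ToType, fun i a => (i a : Ordinal.{u}), ?_, fun g hg => ?_⟩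
  · rwa [← power_def, mk_toType]
  · obtain ⟨a0, ha0⟩ := hg.exists
    refine ⟨fun a => if h : g a < γ then ToType.mk ⟨g a, h⟩ else ToType.mk ⟨g a0, ha0⟩, ?_⟩
    refine hg.frequently.mono fun a ha => ?_
    simp [ha]

theorem smallCov_of_card_le (hc : c ^ #A ≤ lam) (hf : ∃ᶠ a in 𝓕, (h a).card ≤ c) :
    SmallCov 𝓕 h lam := by
  have h1 : (𝓕 ⊓ 𝓟 {a | (h a).card ≤ c}).NeBot := frequently_mem_iff_neBot.1 hf
  have h2 : SmallCov (𝓕 ⊓ 𝓟 {a | (h a).card ≤ c}) (fun _ => c.ord) lam :=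
    smallCov_const (by rwa [card_ord])
  refine (h2.of_card_le ?_).mono_filter inf_le_left
  rw [eventually_inf_principal]
  refine Eventually.of_forall fun a ha => ?_
  rw [card_ord]
  exact ha

/-- A function without a small family, such that every smaller function has a small family,
hereditarily. -/
structure NicePair (κ lam : Cardinal.{u}) (𝓙 : Filter A) (h : A → Ordinal.{u}) : Prop where
  neBot : 𝓙.NeBot
  inter : CardinalInterFilter 𝓙 κ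
  lt : ∀ᶠ a in 𝓙, h a < lam.ord
  cof : ∀ a, 2 ^ #A < (h a).cof
  ini : ∀ a, (h a).card.ord = h a
  notSmall : ¬ SmallCov 𝓙 h lam
  small : ∀ M : Set A, (𝓙 ⊓ 𝓟 M).NeBot → ∀ u : A → Ordinal.{u},
    (∀ᶠ a in 𝓙 ⊓ 𝓟 M, u a < h a) → SmallCov (𝓙 ⊓ 𝓟 M) u lam

theorem NicePair.restrict (hp : NicePair κ lam 𝓙 h) (M : Set A) (hM : (𝓙 ⊓ 𝓟 M).NeBot) :
    NicePair κ lam (𝓙 ⊓ 𝓟 M) h := by
  have := hp.inter
  refine ⟨hM, inferInstance, hp.lt.filter_mono inf_le_left, hp.cof, hp.ini,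
    fun h1 => hp.notSmall (h1.mono_filter inf_le_left), ?_⟩
  intro M' hM' u hu
  rw [inf_assoc, inf_principal] at hM' hu ⊢
  exact hp.small _ hM' u hu

theorem isSuccLimit_of_one_lt_cof {o : Ordinal.{u}} (ho : 1 < o.cof) : IsSuccLimit o := by
  rcases zero_or_succ_or_isSuccLimit o with rfl | ⟨x, rfl⟩ | h
  · rw [cof_zero] at ho
    exact absurd ho (by simp)
  · rw [succ_eq_add_one, cof_add_one] at ho
    exact absurd ho (lt_irrefl _)
  · exact h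

theorem NicePair.lim (hp : NicePair κ lam 𝓙 h) (a : A) : IsSuccLimit (h a) := by
  refine isSuccLimit_of_one_lt_cof (lt_of_le_of_lt ?_ (hp.cof a))
  exact Cardinal.one_le_iff_ne_zero.2 (power_ne_zero _ two_ne_zero)

theorem NicePair.directed (hp : NicePair κ lam 𝓙 h) (hlam : ℵ₀ ≤ lam) (h2 : 2 ^ #A ≤ lam)
    (X : Type u) (hX : #X ≤ lam) (f : X → A → Ordinal.{u}) (hf : ∀ x, ∀ᶠ a in 𝓙, f x a < h a) :
    ∃ u : A → Ordinal.{u}, (∀ a, u a < h a) ∧ ∀ x, ∀ᶠ a in 𝓙, f x a ≤ u a := by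
  classical
  have hpos : ∀ a, 0 < h a := fun a => (hp.lim a).bot_lt
  have hS : ∀ p : X × {M : Set A // (𝓙 ⊓ 𝓟 M).NeBot}, SmallCov (𝓙 ⊓ 𝓟 p.2.1) (f p.1) lam :=
    fun p => hp.small _ p.2.2 _ ((hf p.1).filter_mono inf_le_left)
  choose I d hI hd using hS
  have hcard : #(Σ p : X × {M : Set A // (𝓙 ⊓ 𝓟 M).NeBot}, I p) ≤ lam := by
    rw [mk_sigma]
    refine (Cardinal.sum_le_sum _ (fun _ => lam) hI).trans ?_
    rw [sum_const', mk_prod]
    simp only [Cardinal.lift_id]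
    have h3 : #{M : Set A // (𝓙 ⊓ 𝓟 M).NeBot} ≤ lam := by
      refine (mk_subtype_le _).trans ?_
      rwa [mk_set]
    exact (mul_le_mul' ((mul_le_mul' hX h3).trans_eq (mul_eq_self hlam)) le_rfl).trans_eq
      (mul_eq_self hlam)
  have h3 := hp.notSmall
  rw [SmallCov] at h3
  push Not at h3
  obtain ⟨g, hg1, hg2⟩ := h3 (Σ p : X × {M : Set A // (𝓙 ⊓ 𝓟 M).NeBot}, I p)
    (fun x => d x.1 x.2) hcard
  set u : A → Ordinal.{u} := fun a => if g a < h a then g a else 0 with hu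
  have hu1 : ∀ a, u a < h a := by
    intro a
    simp only [hu]
    split_ifs with h4
    · exact h4
    · exact hpos a
  have hu2 : ∀ᶠ a in 𝓙, u a = g a := by
    filter_upwards [hg1] with a ha
    simp [hu, ha]
  refine ⟨u, hu1, fun x => ?_⟩
  by_contra hcon
  rw [not_eventually] at hcon
  have hne : (𝓙 ⊓ 𝓟 {a | ¬ f x a ≤ u a}).NeBot := frequently_mem_iff_neBot.1 hcon
  obtain ⟨i, hi⟩ := hd (x, ⟨_, hne⟩) u (by
    rw [eventually_inf_principal]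
    exact Eventually.of_forall fun a ha => not_le.1 ha)
  obtain ⟨a, h4, h5, h6⟩ := ((hi.filter_mono inf_le_left).and_eventually
    (hu2.and (hg2 ⟨(x, ⟨_, hne⟩), i⟩))).exists
  exact h6 (h5.symm.trans h4)

theorem exists_nicePair (hκ : ℵ₀ < κ) (hA : ℵ₀ ≤ #A) (h2 : 2 ^ #A ≤ lam) [𝓖.NeBot]
    [CardinalInterFilter 𝓖 κ] (hγ : γ < lam.ord) (h1 : ¬ SmallCov 𝓖 (fun _ => γ) lam) :
    ∃ (𝓙 : Filter A) (h : A → Ordinal.{u}), NicePair κ lam 𝓙 h := by
  classical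
  have hlam : ℵ₀ ≤ lam := hA.trans ((cantor _).le.trans h2)
  set P : Ordinal.{u} → Prop := fun α => ∃ (𝓕 : Filter A) (h : A → Ordinal.{u}), 𝓕.NeBot ∧
    CardinalInterFilter 𝓕 κ ∧ (∀ᶠ a in 𝓕, h a < lam.ord) ∧ ¬ SmallCov 𝓕 h lam ∧ RkLE 𝓕 α h
    with hP
  have hPne : ∃ α, P α := by
    have : CountableInterFilter 𝓖 := CardinalInterFilter.toCountableInterFilter (c := κ) _ hκ
    obtain ⟨s, -, hs⟩ := exists_rkLE_of_lt (ρ := succ ((γ + 1).card ^ #A)) 𝓖 (γ + 1) (lt_succ _)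
      (fun _ => γ) (fun _ => lt_add_one γ)
    exact ⟨s, 𝓖, _, inferInstance, inferInstance, Eventually.of_forall fun _ => hγ, h1, hs⟩
  obtain ⟨α₀, hα₀, hmin⟩ : ∃ α₀, P α₀ ∧ ∀ α' < α₀, ¬ P α' := by
    refine ⟨sInf {α | P α}, csInf_mem hPne, fun α' h3 h4 => ?_⟩
    exact absurd h3 (not_lt.2 (csInf_le' h4))
  obtain ⟨𝓕, h0, hne, hci, hlt, hns, hrk⟩ := hα₀
  set h₁ : A → Ordinal.{u} := fun a => (h0 a).card.ord with hh₁
  have hle₁ : ∀ a, h₁ a ≤ h0 a := fun a => ord_card_le _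
  have hrk₁ : RkLE 𝓕 α₀ h₁ := hrk.mono_fun (Eventually.of_forall hle₁)
  have hlt₁ : ∀ᶠ a in 𝓕, h₁ a < lam.ord := by
    filter_upwards [hlt] with a ha using (hle₁ a).trans_lt ha
  have hns₁ : ¬ SmallCov 𝓕 h₁ lam := by
    intro h3
    refine hns (h3.of_card_le (Eventually.of_forall fun a => ?_))
    rw [hh₁]
    simp
  have hinf : ∀ᶠ a in 𝓕, ℵ₀ < (h₁ a).card := by
    by_contra hcon
    rw [not_eventually] at hcon
    refine hns₁ (smallCov_of_card_le (c := ℵ₀) ?_ (hcon.mono fun a ha => not_lt.1 ha))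
    refine le_trans ?_ h2
    calc ℵ₀ ^ #A ≤ (2 ^ ℵ₀) ^ #A := power_le_power_right (cantor _).le
      _ = 2 ^ #A := by rw [← power_mul, aleph0_mul_eq hA]
  have hini₁ : ∀ a, (h₁ a).card.ord = h₁ a := by
    intro a
    simp [hh₁]
  -- smaller functions have small families
  have hsm : ∀ 𝓖 : Filter A, 𝓖.NeBot → CardinalInterFilter 𝓖 κ → ∀ α' < α₀,
      ∀ u : A → Ordinal.{u}, RkLE 𝓖 α' u → (∀ᶠ a in 𝓖, u a < lam.ord) → SmallCov 𝓖 u lam := by
    intro 𝓖 h3 h4 α' hα' u h5 h6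
    by_contra hcon
    exact hmin α' hα' ⟨𝓖, u, h3, h4, h6, hcon, h5⟩
  -- the places with small cofinality
  set M₂ : Set A := {a | (h₁ a).cof ≤ 2 ^ #A} with hM₂
  have hM₂' : ¬ RkLE (𝓕 ⊓ 𝓟 M₂) α₀ h₁ := by
    intro hcon
    have hne₂ : (𝓕 ⊓ 𝓟 M₂).NeBot := hcon.neBot
    have he : ∀ a, ∃ e : Set A → Ordinal.{u}, a ∈ M₂ → ℵ₀ < (h₁ a).card →
        (∀ t, e t < h₁ a) ∧ ∀ β < h₁ a, ∃ t, β ≤ e t := by
      intro a
      by_cases ha : a ∈ M₂ ∧ ℵ₀ < (h₁ a).card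
      · obtain ⟨ha1, ha2⟩ := ha
        obtain ⟨s, hs1, hs2⟩ := exists_cof_eq (α := (h₁ a).ToType)
        rw [cof_toType] at hs2
        have hpos : 0 < h₁ a := by
          rw [pos_iff_ne_zero]
          intro h3
          rw [h3, card_zero] at ha2
          exact absurd ha2 (by simp)
        obtain ⟨i0, hi0, -⟩ := hs1 (ToType.mk ⟨0, hpos⟩)
        have hsne : Nonempty s := ⟨⟨i0, hi0⟩⟩
        have h3 : #s ≤ #(Set A) := by
          rw [hs2, mk_set]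
          exact ha1
        obtain ⟨j⟩ := h3
        refine ⟨fun t => (((Function.invFun j t : s) : (h₁ a).ToType) : Ordinal.{u}),
          fun _ _ => ⟨fun t => ?_, fun β hβ => ?_⟩⟩
        · exact ((Function.invFun j t : s) : (h₁ a).ToType).toOrd.2
        · obtain ⟨i, hi, hβi⟩ := hs1 (ToType.mk ⟨β, hβ⟩)
          refine ⟨j ⟨i, hi⟩, ?_⟩
          change β ≤ (((Function.invFun j (j ⟨i, hi⟩) : s) : (h₁ a).ToType) : Ordinal.{u})
          rw [Function.leftInverse_invFun j.injective]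
          have h4 := ToType.mk.symm.monotone hβi
          rw [OrderIso.symm_apply_apply] at h4
          exact h4
      · exact ⟨fun _ => 0, fun h3 h4 => absurd ⟨h3, h4⟩ ha⟩
    choose e he using he
    have hev : ∀ᶠ a in 𝓕 ⊓ 𝓟 M₂, a ∈ M₂ ∧ ℵ₀ < (h₁ a).card ∧ h₁ a < lam.ord := by
      rw [eventually_inf_principal]
      filter_upwards [hinf, hlt₁] with a h3 h4 h5 using ⟨h5, h3, h4⟩
    have hlimit : ∀ a, ℵ₀ < (h₁ a).card → IsSuccLimit (h₁ a) := by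
      intro a ha
      rw [← hini₁]
      exact isSuccLimit_ord ha.le
    have hSm : SmallCov (𝓕 ⊓ 𝓟 M₂) h₁ lam := by
      refine smallCov_of_union hlam (A → Set A) ?_ (fun _ => 𝓕 ⊓ 𝓟 M₂)
        (fun s a => e a (s a) + 1) (fun _ => le_rfl) ?_ ?_
      · rw [← power_def, mk_set, ← power_mul, mul_eq_self hA]
        exact h2
      · intro s
        have h3 : ∀ᶠ a in 𝓕 ⊓ 𝓟 M₂, e a (s a) + 1 < h₁ a := by
          filter_upwards [hev] with a ha
          rw [← succ_eq_add_one]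
          exact (hlimit a ha.2.1).succ_lt ((he a ha.1 ha.2.1).1 _)
        rw [rkLE_iff] at hcon
        obtain ⟨α', hα', h4⟩ := hcon _ h3
        refine hsm _ hne₂ inferInstance α' hα' _ h4 ?_
        filter_upwards [h3, hev] with a h5 h6 using h5.trans h6.2.2
      · intro g hg
        have h3 : ∀ a, ∃ t, a ∈ M₂ → ℵ₀ < (h₁ a).card → g a < h₁ a → g a ≤ e a t := by
          intro a
          by_cases ha : a ∈ M₂ ∧ ℵ₀ < (h₁ a).card ∧ g a < h₁ a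
          · obtain ⟨t, ht⟩ := (he a ha.1 ha.2.1).2 _ ha.2.2
            exact ⟨t, fun _ _ _ => ht⟩
          · exact ⟨∅, fun h3 h4 h5 => absurd ⟨h3, h4, h5⟩ ha⟩
        choose s hs using h3
        refine ⟨s, ?_⟩
        filter_upwards [hev, hg] with a h4 h5
        rw [lt_add_one_iff]
        exact hs a h4.1 h4.2.1 h5
    exact hns₁ (hSm.mono_filter inf_le_left)
  have hrk₃ : RkLE (𝓕 ⊓ 𝓟 M₂ᶜ) α₀ h₁ := (hrk₁.or M₂).resolve_left hM₂'
  have hne₃ : (𝓕 ⊓ 𝓟 M₂ᶜ).NeBot := hrk₃.neBot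
  have h2inf : ℵ₀ ≤ 2 ^ #A := hA.trans (cantor _).le
  set h₂ : A → Ordinal.{u} := fun a => if a ∈ M₂ then (succ ((2 : Cardinal.{u}) ^ #A)).ord else h₁ a with hh₂
  have heq : ∀ᶠ a in 𝓕 ⊓ 𝓟 M₂ᶜ, h₂ a = h₁ a := by
    rw [eventually_inf_principal]
    refine Eventually.of_forall fun a ha => ?_
    have ha' : a ∉ M₂ := ha
    simp [hh₂, ha']
  have heq' : ∀ᶠ a in 𝓕 ⊓ 𝓟 M₂ᶜ, h₁ a = h₂ a := heq.mono fun a ha => ha.symm
  have hcof₂ : ∀ a, 2 ^ #A < (h₂ a).cof := by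
    intro a
    by_cases ha : a ∈ M₂
    · simp only [hh₂, ha, if_true]
      rw [(isRegular_succ h2inf).cof_ord]
      exact lt_succ _
    · simp only [hh₂, ha, if_false]
      exact not_le.1 ha
  have hini₂ : ∀ a, (h₂ a).card.ord = h₂ a := by
    intro a
    by_cases ha : a ∈ M₂
    · simp [hh₂, ha]
    · simp only [hh₂, ha, if_false]
      exact hini₁ a
  have hadd : ∀ a, ∀ x < h₂ a, ∀ y < h₂ a, x + y < h₂ a := by
    intro a x hx y hy
    have h3 : ℵ₀ ≤ (h₂ a).card :=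
      h2inf.trans ((hcof₂ a).le.trans (Ordinal.cof_le_card _))
    have h4 := isPrincipal_add_ord h3
    rw [hini₂ a] at h4
    exact h4 hx hy
  have hrk₂ : RkLE (𝓕 ⊓ 𝓟 M₂ᶜ) α₀ h₂ := hrk₃.congr heq
  refine ⟨posFilter (𝓕 ⊓ 𝓟 M₂ᶜ) hκ.le α₀ h₂, h₂, posFilter_neBot hrk₂, inferInstance, ?_, hcof₂,
    hini₂, ?_, ?_⟩
  · have h3 : ∀ᶠ a in 𝓕 ⊓ 𝓟 M₂ᶜ, h₂ a < lam.ord := by
      filter_upwards [heq, hlt₁.filter_mono inf_le_left] with a h3 h4
      rwa [h3]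
    exact h3.filter_mono posFilter_le
  · intro h3
    have h4 := h3.mono_filter posFilter_le
    exact hns₁ ((h4.mono_fun (heq'.mono fun a ha => ha.le)).mono_filter inf_le_left)
  · intro M hM u hu
    have h3 : RkLE (𝓕 ⊓ 𝓟 M₂ᶜ ⊓ 𝓟 M) α₀ h₂ := by
      by_contra hcon
      have h4 : Mᶜ ∈ posFilter (𝓕 ⊓ 𝓟 M₂ᶜ) hκ.le α₀ h₂ := by
        rw [mem_posFilter, compl_compl]
        exact hcon
      have h5 : posFilter (𝓕 ⊓ 𝓟 M₂ᶜ) hκ.le α₀ h₂ ⊓ 𝓟 M = ⊥ := by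
        rw [← disjoint_iff, disjoint_principal_right]
        exact h4
      exact hM.ne h5
    have h4 := posFilter_homog (hθ := hκ.le) hadd hcof₂ h3
    rw [rkLE_iff] at h4
    obtain ⟨α', hα', h5⟩ := h4 u hu
    refine hsm _ hM inferInstance α' hα' u h5 ?_
    have h6 : ∀ᶠ a in 𝓕 ⊓ 𝓟 M₂ᶜ, h₂ a < lam.ord := by
      filter_upwards [heq, hlt₁.filter_mono inf_le_left] with a h3 h4
      rwa [h3]
    filter_upwards [hu, (h6.filter_mono posFilter_le).filter_mono inf_le_left] with a h7 h8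
      using h7.trans h8

end IPath
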