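import Pool.Agent.Work.MP_820435_lc.Rgch2

/-!
# The two step argument
-/

open Ordinal Cardinal Set Filter Order

universe u

namespace IPath

variable {A B : Type u} {κ κ' lam θ c μ : Cardinal.{u}} {h k : A → Ordinal.{u}}
  {α γ γ' χ : Ordinal.{u}}

/-- Every complete filter on the index set has a small family for the cardinal `lam`. -/
def GoodAt (A : Type u) (κ lam : Cardinal.{u}) : Prop :=
  ∀ 𝓖 : Filter A, 𝓖.NeBot → CardinalInterFilter 𝓖 κ → SmallCov 𝓖 (fun _ => lam.ord) lam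

/-- Every function below `γ` is covered by fewer than `κ` members of a family of size `c`. -/
def PieceCov (A : Type u) (κ : Cardinal.{u}) (γ : Ordinal.{u}) (c : Cardinal.{u}) : Prop :=
  ∃ (I : Type u) (d : I → A → Ordinal.{u}), #I ≤ c ∧ ∀ g : A → Ordinal.{u}, (∀ a, g a < γ) →
    ∃ J : Set I, #J < κ ∧ ∀ a, ∃ i ∈ J, g a = d i a

/-- Functions below smaller ordinals have smaller families. -/
def MClosed (A : Type u) (κ : Cardinal.{u}) (χ : Ordinal.{u}) : Prop :=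
  ∀ γ < χ, ∃ c < χ.card, PieceCov A κ γ c

theorem exists_frequently_eq {𝓖 : Filter B} [𝓖.NeBot] [CardinalInterFilter 𝓖 κ] {J : Type u}
    (hJ : #J < κ) (f : B → J) : ∃ s, ∃ᶠ b in 𝓖, f b = s := by
  by_contra hcon
  push Not at hcon
  have h1 : ∀ᶠ b in 𝓖, ∀ s, f b ≠ s := by
    rw [eventually_cardinal_forall hJ]
    exact hcon
  obtain ⟨b, hb⟩ := h1.exists
  exact hb _ rfl

theorem exists_bound_freq (hκ : ℵ₀ ≤ lam) (hcof : lam.ord.cof < κ ∨ #A < lam.ord.cof)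
    {𝓕 : Filter A} [𝓕.NeBot] [CardinalInterFilter 𝓕 κ] {g : A → Ordinal.{u}}
    (hg : ∀ᶠ j in 𝓕, g j < lam.ord) : ∃ w < lam.ord, ∃ᶠ j in 𝓕, g j < w := by
  classical
  have hlim : IsSuccLimit lam.ord := isSuccLimit_ord hκ
  rcases hcof with hcof | hcof
  · obtain ⟨s, hs, hs'⟩ := exists_cof_eq lam.ord.ToType
    rw [cof_toType] at hs'
    by_contra hcon
    push Not at hcon
    have h1 : ∀ i : s, ∀ᶠ j in 𝓕, ¬ g j < succ ((i : lam.ord.ToType) : Ordinal.{u}) := by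
      intro i
      filter_upwards [hcon _ (hlim.succ_lt (mem_Iio.1 (i : lam.ord.ToType).toOrd.2))] with j hj
      exact not_lt.2 hj
    have hs2 : #s < κ := by rw [hs']; exact hcof
    rw [← eventually_cardinal_forall hs2] at h1
    obtain ⟨j, hj, hgj⟩ := (h1.and hg).exists
    obtain ⟨y, hy, hxy⟩ := hs (ToType.mk ⟨g j, hgj⟩)
    apply hj ⟨y, hy⟩
    rw [lt_succ_iff]
    have h3 := ToType.mk.symm.monotone hxy
    rw [OrderIso.symm_apply_apply] at h3
    exact h3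
  · refine ⟨⨆ j, (if g j < lam.ord then g j else 0) + 1, iSup_add_one_lt_of_lt_cof hcof ?_, ?_⟩
    · intro j
      split_ifs with h1
      · exact h1
      · exact hlim.bot_lt
    · refine hg.frequently.mono fun j hj => ?_
      have h1 := Ordinal.lt_iSup_add_one (fun j => if g j < lam.ord then g j else 0) j
      simpa only [hj, if_true] using h1

theorem goodAt_of_cofinal (hlam : ℵ₀ ≤ lam) (h2 : 2 ^ #A ≤ lam)
    (hcof : lam.ord.cof < κ ∨ #A < lam.ord.cof)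
    (H : ∀ γ < lam.ord, ∀ 𝓖 : Filter A, 𝓖.NeBot → CardinalInterFilter 𝓖 κ →
      SmallCov 𝓖 (fun _ => γ) lam) : GoodAt A κ lam := by
  intro 𝓖 h3 h4
  refine smallCov_of_union hlam (lam.ord.ToType × {M : Set A // (𝓖 ⊓ 𝓟 M).NeBot}) ?_
    (fun t => 𝓖 ⊓ 𝓟 t.2.1) (fun t _ => (t.1 : Ordinal.{u})) (fun _ => inf_le_left) ?_ ?_
  · rw [mk_prod]
    simp only [Cardinal.lift_id]
    have h5 : #{M : Set A // (𝓖 ⊓ 𝓟 M).NeBot} ≤ lam := by
      refine (mk_subtype_le _).trans ?_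
      rwa [mk_set]
    refine (mul_le_mul' ?_ h5).trans_eq (mul_eq_self hlam)
    rw [mk_toType, card_ord]
  · intro t
    exact H _ t.1.toOrd.2 _ t.2.2 inferInstance
  · intro g hg
    obtain ⟨w, hw, hfr⟩ := exists_bound_freq (κ := κ) hlam hcof hg
    refine ⟨(ToType.mk ⟨w, hw⟩, ⟨{a | g a < w}, frequently_mem_iff_neBot.1 hfr⟩), ?_⟩
    rw [eventually_inf_principal]
    refine Eventually.of_forall fun a ha => ?_
    simpa using ha

theorem PieceCov.mono (h1 : PieceCov A κ γ c) (hγ : γ' ≤ γ) (hc : c ≤ μ) :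
    PieceCov A κ γ' μ := by
  obtain ⟨I, d, h2, h3⟩ := h1
  exact ⟨I, d, h2.trans hc, fun g hg => h3 g fun a => (hg a).trans_le hγ⟩

theorem PieceCov.of_card_le (h1 : PieceCov A κ γ c) (hγ : γ'.card ≤ γ.card) :
    PieceCov A κ γ' c := by
  obtain ⟨I, d, h2, h3⟩ := h1
  obtain ⟨e, he1, he2⟩ := exists_ordinal_inj hγ
  refine ⟨I, fun i a => Function.invFunOn e (Iio γ') (d i a), h2, fun g hg => ?_⟩
  obtain ⟨J, hJ1, hJ2⟩ := h3 (fun a => e (g a)) (fun a => he1 _ (hg a))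
  refine ⟨J, hJ1, fun a => ?_⟩
  obtain ⟨i, hi, h4⟩ := hJ2 a
  refine ⟨i, hi, ?_⟩
  change g a = Function.invFunOn e (Iio γ') (d i a)
  rw [← h4]
  exact (he2.leftInvOn_invFunOn (mem_Iio.2 (hg a))).symm

theorem PieceCov.smallCov (h1 : PieceCov A κ γ c) {𝓖 : Filter A} [𝓖.NeBot]
    [CardinalInterFilter 𝓖 κ] (hc : c ≤ lam) : SmallCov 𝓖 (fun _ => γ) lam := by
  classical
  obtain ⟨I, d, h2, h3⟩ := h1
  refine ⟨I, d, h2.trans hc, fun g hg => ?_⟩
  obtain ⟨a0, ha0⟩ := hg.exists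
  obtain ⟨J, hJ1, hJ2⟩ := h3 (fun a => if g a < γ then g a else 0) (by
    intro a
    split_ifs with h4
    · exact h4
    · exact pos_of_gt ha0)
  choose i hi h4 using hJ2
  obtain ⟨s, hs⟩ := exists_frequently_eq (𝓖 := 𝓖) (κ := κ) hJ1 (fun a => (⟨i a, hi a⟩ : J))
  refine ⟨s.1, (hs.and_eventually hg).mono ?_⟩
  rintro a ⟨h5, h6⟩
  have h7 := h4 a
  simp only [h6, if_true] at h7
  rw [h7, ← h5]

theorem pieceCov_of_goodAt (hκ : κ.IsRegular) (hlam : ℵ₀ ≤ lam) (h3 : (2 : Cardinal.{u}) ^ ((2 : Cardinal.{u}) ^ #A) ≤ lam)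
    (h : GoodAt A κ lam) : PieceCov A κ lam.ord lam := by
  classical
  have h0 : ∀ 𝓖 : {𝓖 : Filter A // 𝓖.NeBot ∧ CardinalInterFilter 𝓖 κ},
      SmallCov 𝓖.1 (fun _ => lam.ord) lam := fun 𝓖 => h 𝓖.1 𝓖.2.1 𝓖.2.2
  choose I d hI hd using h0
  have hF : #{𝓖 : Filter A // 𝓖.NeBot ∧ CardinalInterFilter 𝓖 κ} ≤ lam := by
    refine le_trans ?_ h3
    rw [← mk_set, ← mk_set]
    refine mk_le_of_injective (f := fun 𝓖 => 𝓖.1.sets) ?_
    intro 𝓖 𝓖' h4
    exact Subtype.ext (Filter.filter_eq h4)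
  refine ⟨Σ 𝓖, I 𝓖, fun x => d x.1 x.2, ?_, fun g hg => ?_⟩
  · rw [mk_sigma]
    refine (Cardinal.sum_le_sum _ (fun _ => lam) hI).trans ?_
    rw [sum_const', mul_comm]
    exact (mul_le_mul' le_rfl hF).trans_eq (mul_eq_self hlam)
  · by_contra hcon
    set D : (Σ 𝓖, I 𝓖) → A → Ordinal.{u} := fun x => d x.1 x.2 with hD
    set 𝓘 : Set (Set A) := {s | ∃ J : Set (Σ 𝓖, I 𝓖), #J < κ ∧ ∀ a ∈ s, ∃ i ∈ J, g a = D i a}
      with h𝓘
    have hun : ∀ S : Set (Set A), #S < κ → (∀ s ∈ S, s ∈ 𝓘) → ⋃₀ S ∈ 𝓘 := by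
      intro S hS hS2
      choose J hJ1 hJ2 using hS2
      refine ⟨⋃ s : S, J s.1 s.2, ?_, ?_⟩
      · rw [card_iUnion_lt_iff_forall_of_isRegular hκ hS]
        exact fun s => hJ1 s.1 s.2
      · rintro a ⟨s, hs, has⟩
        obtain ⟨i, hi, h5⟩ := hJ2 s hs a has
        exact ⟨i, mem_iUnion.2 ⟨⟨s, hs⟩, hi⟩, h5⟩
    have hmono : ∀ s ∈ 𝓘, ∀ t ⊆ s, t ∈ 𝓘 := by
      rintro s ⟨J, hJ1, hJ2⟩ t hts
      exact ⟨J, hJ1, fun a ha => hJ2 a (hts ha)⟩
    set 𝓖 : Filter A := Filter.ofCardinalUnion (c := κ) 𝓘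
      (natCast_lt_aleph0.trans_le hκ.aleph0_le) hun hmono with h𝓖
    have hmem : ∀ s, s ∈ 𝓖 ↔ sᶜ ∈ 𝓘 := fun s => Iff.rfl
    have hinter : CardinalInterFilter 𝓖 κ := cardinalInter_ofCardinalUnion _ _ _ _
    have hne : 𝓖.NeBot := by
      rw [neBot_iff]
      intro hbot
      have h5 : (∅ : Set A) ∈ 𝓖 := by rw [hbot]; exact mem_bot
      rw [hmem, compl_empty] at h5
      obtain ⟨J, hJ1, hJ2⟩ := h5
      exact hcon ⟨J, hJ1, fun a => hJ2 a (mem_univ a)⟩
    obtain ⟨i, hi⟩ := hd ⟨𝓖, hne, hinter⟩ g (Eventually.of_forall hg)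
    apply hi
    change {a | ¬ g a = d ⟨𝓖, hne, hinter⟩ i a} ∈ 𝓖
    rw [hmem]
    refine ⟨{⟨⟨𝓖, hne, hinter⟩, i⟩}, ?_, ?_⟩
    · rw [mk_singleton]
      exact one_lt_aleph0.trans_le hκ.aleph0_le
    · intro a ha
      refine ⟨_, mem_singleton _, ?_⟩
      by_contra h5
      exact ha h5

/-- The two step argument. -/
theorem two_step {𝓙 : Filter A} {h : A → Ordinal.{u}} (hp : NicePair κ lam 𝓙 h)
    (hM : ∀ᶠ a in 𝓙, MClosed B (succ μ) (h a)) (hlam : ℵ₀ ≤ lam) (h2A : 2 ^ #A ≤ lam)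
    (h2B : 2 ^ #B ≤ lam) (hμ0 : μ ≠ 0) (hμ : μ ^ #A ≤ μ) (𝓖 : Filter B) [𝓖.NeBot]
    [CardinalInterFilter 𝓖 (succ μ)] (hγ : γ < lam.ord) :
    SmallCov 𝓖 (fun _ => γ) lam := by
  classical
  by_contra hns
  have hJne := hp.neBot
  -- the first family
  have hγc : #γ.ToType ≤ lam := by
    rw [mk_toType]
    exact (lt_ord.1 hγ).le
  obtain ⟨f, hf1, hf2⟩ := exists_family hp.notSmall γ.ToType (hγc.trans (le_succ _))
  obtain ⟨u, hu1, hu2⟩ := hp.directed hlam h2A γ.ToType hγc f hf1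
  set f' : γ.ToType → A → Ordinal.{u} := fun x a => if f x a ≤ u a then f x a else 0 with hf'
  have hf'1 : ∀ x a, f' x a ≤ u a := by
    intro x a
    simp only [hf']
    split_ifs with h1
    · exact h1
    · exact zero_le
  have hf'2 : ∀ x, ∀ᶠ a in 𝓙, f' x a = f x a := by
    intro x
    filter_upwards [hu2 x] with a ha
    simp [hf', ha]
  -- the second family
  obtain ⟨g, hg1, hg2⟩ := exists_family hns (succ lam).ord.ToType (by
    rw [mk_toType, card_ord])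
  have hYne : Nonempty (succ lam).ord.ToType := by
    rw [← mk_ne_zero_iff, mk_toType, card_ord]
    exact (Cardinal.succ_pos _).ne'
  obtain ⟨y0⟩ := hYne
  obtain ⟨b0, hb0⟩ := (hg1 y0).exists
  have hγ0 : 0 < γ := pos_of_gt hb0
  set g' : (succ lam).ord.ToType → B → γ.ToType := fun y b =>
    if hb : g y b < γ then ToType.mk ⟨g y b, hb⟩ else ToType.mk ⟨0, hγ0⟩ with hg'
  set E : Set A := {a | MClosed B (succ μ) (h a)} with hE
  have hIex : ∀ a, ∃ (I : Type u) (d : I → B → Ordinal.{u}), (a ∈ E → #I < (h a).card) ∧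
      (a ∈ E → ∀ φ : B → Ordinal.{u}, (∀ b, φ b ≤ u a) →
        ∃ J : Set I, #J < succ μ ∧ ∀ b, ∃ i ∈ J, φ b = d i b) := by
    intro a
    by_cases ha : a ∈ E
    · have h1 : u a + 1 < h a := by
        rw [← succ_eq_add_one]
        exact (hp.lim a).succ_lt (hu1 a)
      obtain ⟨c, hc, I, d, hI, hd⟩ := ha _ h1
      refine ⟨I, d, fun _ => hI.trans_lt hc, fun _ φ hφ => hd φ fun b => ?_⟩
      rw [lt_add_one_iff]
      exact hφ b
    · exact ⟨PUnit, fun _ _ => 0, fun h => absurd h ha, fun h => absurd h ha⟩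
  choose I d hI hd using hIex
  have hJex : ∀ (y : (succ lam).ord.ToType) (a : E), ∃ J : Set (I a.1), #J < succ μ ∧
      ∀ b, ∃ i ∈ J, f' (g' y b) a.1 = d a.1 i b := fun y a =>
    hd a.1 a.2 (fun b => f' (g' y b) a.1) (fun b => hf'1 _ _)
  choose J hJ1 hJ2 using hJex
  choose i hi1 hi2 using hJ2
  have hs : ∀ y, ∃ s : (a : E) → J y a, ∃ᶠ b in 𝓖, (fun a => (⟨i y a b, hi1 y a b⟩ : J y a)) = s := by
    intro y
    refine exists_frequently_eq (κ := succ μ) ?_ (fun b (a : E) => (⟨i y a b, hi1 y a b⟩ : J y a))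
    rw [lt_succ_iff, mk_pi]
    calc (prod fun a : E => #(J y a)) ≤ prod fun _ : E => μ :=
          prod_le_prod _ _ fun a => lt_succ_iff.1 (hJ1 y a)
      _ = μ ^ #E := prod_const' _ _
      _ ≤ μ ^ #A := power_le_power_left hμ0 (mk_set_le _)
      _ ≤ μ := hμ
  choose s hs using hs
  set W : (succ lam).ord.ToType → Set B := fun y =>
    {b | (fun a => (⟨i y a b, hi1 y a b⟩ : J y a)) = s y} with hW
  have hW2 : ∀ y, ∀ b ∈ W y, ∀ a : E, f' (g' y b) a.1 = d a.1 (s y a).1 b := by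
    intro y b hb a
    have h1 : (fun a => (⟨i y a b, hi1 y a b⟩ : J y a)) = s y := hb
    rw [← h1]
    exact hi2 y a b
  -- coding
  set w : A → Ordinal.{u} := fun a => if a ∈ E then (#(I a)).ord else 0 with hw
  have hwh : ∀ᶠ a in 𝓙, w a < h a := by
    filter_upwards [hM] with a ha
    have ha' : a ∈ E := ha
    simp only [hw, ha', if_true]
    rw [← hp.ini a, ord_lt_ord]
    exact hI a ha'
  have hemb : ∀ a, ∃ e : I a → Ordinal.{u}, (∀ x, e x < (#(I a)).ord) ∧ Function.Injective e := by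
    intro a
    have h1 : #(I a) ≤ #((#(I a)).ord.ToType) := by
      rw [mk_toType, card_ord]
    obtain ⟨e⟩ := h1
    refine ⟨fun x => ((e x : (#(I a)).ord.ToType) : Ordinal.{u}), fun x => (e x).toOrd.2, ?_⟩
    intro x x' hxx
    exact e.injective (ToType.mk.symm.injective (Subtype.ext hxx))
  choose e he1 he2 using hemb
  set code : (succ lam).ord.ToType → A → Ordinal.{u} := fun y a =>
    if ha : a ∈ E then e a (s y ⟨a, ha⟩).1 else 0 with hcode
  have hJJ : 𝓙 ⊓ 𝓟 univ = 𝓙 := by rw [principal_univ, inf_top_eq]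
  have hsm : SmallCov 𝓙 w lam := by
    have h1 := hp.small univ (by rwa [hJJ]) w (by rwa [hJJ])
    rwa [hJJ] at h1
  obtain ⟨K, dK, hK, hdK⟩ := hsm
  have hcodew : ∀ y, ∃ x, ∃ᶠ a in 𝓙, code y a = dK x a := by
    intro y
    refine hdK _ ?_
    filter_upwards [hM] with a ha
    have ha' : a ∈ E := ha
    simp only [hcode, hw, ha', dif_pos, if_true]
    exact he1 _ _
  choose x hx using hcodew
  -- pigeonhole
  obtain ⟨y, y', hne, hyy⟩ : ∃ y y', y ≠ y' ∧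
      (W y, {a | code y a = dK (x y) a}, x y) = (W y', {a | code y' a = dK (x y') a}, x y') := by
    by_contra hcon
    push Not at hcon
    have hinj : Function.Injective (fun y : (succ lam).ord.ToType =>
        ((W y, {a | code y a = dK (x y) a}, x y) : Set B × Set A × K)) := by
      intro y y' h1
      by_contra h2
      exact hcon y y' h2 h1
    have h1 := mk_le_of_injective hinj
    rw [mk_toType, card_ord, mk_prod, mk_prod] at h1
    simp only [Cardinal.lift_id, mk_set] at h1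
    have h3 : (2 : Cardinal.{u}) ^ #B * (2 ^ #A * #K) ≤ lam :=
      (mul_le_mul' h2B ((mul_le_mul' h2A hK).trans_eq (mul_eq_self hlam))).trans_eq
        (mul_eq_self hlam)
    exact absurd (h1.trans h3) (not_le.2 (lt_succ _))
  simp only [Prod.mk.injEq] at hyy
  obtain ⟨hWW, hBB, hxx⟩ := hyy
  -- the contradiction
  have hfreq : ∃ᶠ b in 𝓖, b ∈ W y := hs y
  obtain ⟨b, hbW, hb1, hb2, hb3⟩ := (hfreq.and_eventually
    ((hg1 y).and ((hg1 y').and (hg2 y y' hne)))).exists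
  have hgne : g' y b ≠ g' y' b := by
    simp only [hg', hb1, hb2, dif_pos]
    intro h1
    exact hb3 (congrArg Subtype.val (ToType.mk.injective h1))
  obtain ⟨a, ha1, ha2, ha3, ha4, ha5⟩ := ((hx y).and_eventually (hM.and ((hf'2 (g' y b)).and
    ((hf'2 (g' y' b)).and (hf2 _ _ hgne))))).exists
  have haE : a ∈ E := ha2
  have ha6 : code y' a = dK (x y') a := by
    have : a ∈ {a | code y a = dK (x y) a} := ha1
    rw [hBB] at this
    exact this
  have hcc : code y a = code y' a := by rw [ha1, ha6, hxx]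
  simp only [hcode, haE, dif_pos] at hcc
  have hss := he2 a hcc
  have h1 := hW2 y b hbW ⟨a, haE⟩
  have h2 := hW2 y' b (by rwa [← hWW]) ⟨a, haE⟩
  rw [hss, ← h2, ha3, ha4] at h1
  exact ha5 h1

end IPath
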