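import Pool.Agent.Work.MP_820435_lc.Rgch3
import Pool.Agent.Work.MP_820435_lc.Club2

/-!
# Small covering families above `ℶ_ω`
-/

open Ordinal Cardinal Set Filter Order

universe u

namespace IPath

variable {lam θ c μ : Cardinal.{u}} {γ χ : Ordinal.{u}} {n m : ℕ}

/-- The successor of `ℶ_n`. -/
noncomputable def kap (n : ℕ) : Cardinal.{u} := succ (ℶ_ (n : Ordinal.{u}))

/-- A set of size `kap n`. -/
abbrev Ax (n : ℕ) : Type u := (kap.{u} n).ord.ToType

theorem mk_Ax (n : ℕ) : #(Ax.{u} n) = kap.{u} n := by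
  rw [mk_toType, card_ord]

theorem kap_regular (n : ℕ) : (kap.{u} n).IsRegular := isRegular_succ (aleph0_le_beth _)

theorem aleph0_lt_kap (n : ℕ) : ℵ₀ < kap.{u} n := (aleph0_le_beth _).trans_lt (lt_succ _)

theorem kap_le (n : ℕ) : kap.{u} n ≤ ℶ_ ((n + 1 : ℕ) : Ordinal.{u}) := by
  rw [kap, Nat.cast_add_one, beth_add_one]
  exact succ_le_of_lt (cantor _)

theorem strongLimit_beth_omega : (ℶ_ (ω : Ordinal.{u})).IsStrongLimit :=
  isStrongLimit_beth.2 isSuccLimit_omega0.isSuccPrelimit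

theorem beth_nat_lt (n : ℕ) : ℶ_ (n : Ordinal.{u}) < ℶ_ (ω : Ordinal.{u}) :=
  beth_strictMono (natCast_lt_omega0 n)

theorem kap_lt (n : ℕ) : kap.{u} n < ℶ_ (ω : Ordinal.{u}) := (kap_le n).trans_lt (beth_nat_lt _)

theorem exists_lt_beth (hc : c < ℶ_ (ω : Ordinal.{u})) : ∃ n : ℕ, c < ℶ_ (n : Ordinal.{u}) := by
  rw [beth_limit isSuccLimit_omega0, lt_ciSup_iff' Cardinal.bddAbove_of_small] at hc
  obtain ⟨⟨a, ha⟩, h1⟩ := hc
  obtain ⟨n, rfl⟩ := lt_omega0.1 ha
  exact ⟨n, h1⟩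

theorem kap_injective : Function.Injective kap.{u} := by
  refine StrictMono.injective (strictMono_nat_of_lt_succ fun n => ?_)
  exact (kap_le n).trans_lt (lt_succ _)

theorem cof_beth_omega : (ℶ_ (ω : Ordinal.{u})).ord.cof ≤ ℵ₀ := by
  have h1 : ∀ n : ℕ, (ℶ_ (n : Ordinal.{u})).ord < (ℶ_ (ω : Ordinal.{u})).ord := fun n =>
    ord_lt_ord.2 (beth_nat_lt n)
  have h2 : IsCofinal (range (fun n : ULift.{u} ℕ =>
      (ToType.mk ⟨(ℶ_ (n.down : Ordinal.{u})).ord, h1 n.down⟩ :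
        (ℶ_ (ω : Ordinal.{u})).ord.ToType))) := by
    intro x
    have h3 : (x : Ordinal.{u}).card < ℶ_ (ω : Ordinal.{u}) := by
      rw [← lt_ord]
      exact x.toOrd.2
    obtain ⟨n, hn⟩ := exists_lt_beth h3
    refine ⟨_, ⟨⟨n⟩, rfl⟩, ?_⟩
    have h4 : (x : Ordinal.{u}) ≤ (ℶ_ (n : Ordinal.{u})).ord := (lt_ord.2 hn).le
    rw [← ToType.mk.symm.le_iff_le, OrderIso.symm_apply_apply]
    exact h4
  have h3 := Order.cof_le h2
  rw [cof_toType] at h3
  refine h3.trans (mk_range_le.trans ?_)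
  simp

theorem power_lt_beth_omega (hc : c < ℶ_ (ω : Ordinal.{u})) (n : ℕ) :
    c ^ kap.{u} n < ℶ_ (ω : Ordinal.{u}) :=
  power_lt_of_strongLimit strongLimit_beth_omega hc (kap_lt n) (aleph0_lt_kap n).le

theorem two_power_lt (n : ℕ) : (2 : Cardinal.{u}) ^ kap.{u} n < ℶ_ (ω : Ordinal.{u}) :=
  strongLimit_beth_omega.isStrongPrelimit (kap_lt n)

theorem two_power_power_lt (n : ℕ) :
    (2 : Cardinal.{u}) ^ ((2 : Cardinal.{u}) ^ kap.{u} n) < ℶ_ (ω : Ordinal.{u}) :=
  strongLimit_beth_omega.isStrongPrelimit (two_power_lt n)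

theorem beth_pow (hmn : n + 2 ≤ m) :
    (ℶ_ (m : Ordinal.{u})) ^ kap.{u} n ≤ ℶ_ (m : Ordinal.{u}) := by
  obtain ⟨k, rfl⟩ : ∃ k, m = k + 1 := ⟨m - 1, by omega⟩
  rw [Nat.cast_add_one, beth_add_one, ← power_mul]
  refine power_le_power_left two_ne_zero ?_
  have h1 : kap.{u} n ≤ ℶ_ (k : Ordinal.{u}) := by
    refine (kap_le n).trans (beth_mono ?_)
    exact_mod_cast (by omega : n + 1 ≤ k)
  exact (mul_le_mul' le_rfl h1).trans_eq (mul_eq_self (aleph0_le_beth _))

/-- Closed ordinals of uncountable cofinality. -/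
theorem exists_mclosed (IH : ∀ ν < lam, ℶ_ (ω : Ordinal.{u}) ≤ ν → ∃ N : ℕ, ∀ n ≥ N,
    GoodAt (Ax.{u} n) (kap.{u} n) ν) (hχ : χ.card.ord = χ) (hχ1 : ℶ_ (ω : Ordinal.{u}) < χ.card)
    (hχ2 : χ.card ≤ lam) (hcof : ℵ₀ < χ.cof) :
    ∃ N : ℕ, ∀ n ≥ N, MClosed (Ax.{u} n) (kap.{u} n) χ := by
  have h1 : ∀ γ : Ordinal.{u}, ∃ N : ℕ, γ < χ → ∀ n ≥ N, ∃ c < χ.card,
      PieceCov (Ax.{u} n) (kap.{u} n) γ c := by
    intro γ
    by_cases hγ : γ < χ
    · have hγc : γ.card < χ.card := by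
        rw [← hχ, lt_ord] at hγ
        exact hγ
      have hν : max γ.card (ℶ_ (ω : Ordinal.{u})) < χ.card := max_lt hγc hχ1
      obtain ⟨N, hN⟩ := IH _ (hν.trans_le hχ2) (le_max_right _ _)
      refine ⟨N, fun _ n hn => ⟨_, hν, ?_⟩⟩
      have h2 := pieceCov_of_goodAt (kap_regular n)
        ((aleph0_le_beth _).trans (le_max_right γ.card _)) (by
          rw [mk_Ax]
          exact (two_power_power_lt n).le.trans (le_max_right _ _)) (hN n hn)
      refine h2.of_card_le ?_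
      rw [card_ord]
      exact le_max_left _ _
    · exact ⟨0, fun h => absurd h hγ⟩
  choose N hN using h1
  by_contra hcon
  push Not at hcon
  have h2 : ∀ k : ULift.{u} ℕ, ∃ n ≥ k.down, ∃ γ < χ, ∀ c < χ.card,
      ¬ PieceCov (Ax.{u} n) (kap.{u} n) γ c := by
    intro k
    obtain ⟨n, hn, h3⟩ := hcon k.down
    rw [MClosed] at h3
    push Not at h3
    exact ⟨n, hn, h3⟩
  choose n hn γ hγ hc using h2
  have h3 : ⨆ k, γ k + 1 < χ := iSup_add_one_lt_of_lt_cof (by simpa using hcof) hγ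
  obtain ⟨c, hc1, hc2⟩ := hN _ h3 (n ⟨N (⨆ k, γ k + 1)⟩) (hn ⟨N (⨆ k, γ k + 1)⟩)
  exact hc _ c hc1 (hc2.mono (Ordinal.lt_iSup_add_one γ _).le le_rfl)

theorem eventually_goodAt (lam : Cardinal.{u}) : ℶ_ (ω : Ordinal.{u}) ≤ lam →
    ∃ N : ℕ, ∀ n ≥ N, GoodAt (Ax.{u} n) (kap.{u} n) lam := by
  classical
  induction lam using WellFoundedLT.induction with
  | ind lam IH =>
    intro hlamω
    have hlam : ℵ₀ ≤ lam := (aleph0_le_beth _).trans hlamω
    have h2 : ∀ n, (2 : Cardinal.{u}) ^ #(Ax.{u} n) ≤ lam := by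
      intro n
      rw [mk_Ax]
      exact (two_power_lt n).le.trans hlamω
    have hcof0 : ℵ₀ ≤ lam.ord.cof := Ordinal.aleph0_le_cof_iff.2 (Ordinal.one_lt_cof_iff.2 (isSuccLimit_ord hlam))
    rcases hcof0.lt_or_eq with hcof | hcof
    · -- uncountable cofinality
      have hlt : ℶ_ (ω : Ordinal.{u}) < lam := by
        refine lt_of_le_of_ne hlamω ?_
        rintro rfl
        exact absurd cof_beth_omega (not_le.2 hcof)
      obtain ⟨N, hN⟩ := exists_mclosed (lam := lam) (χ := lam.ord) IH (by rw [card_ord])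
        (by rwa [card_ord]) (by rw [card_ord]) hcof
      obtain ⟨N', hN'⟩ : ∃ N' : ℕ, ∀ n ≥ N', kap.{u} n ≠ lam.ord.cof := by
        by_cases h3 : ∃ n, kap.{u} n = lam.ord.cof
        · obtain ⟨n, hn⟩ := h3
          refine ⟨n + 1, fun m hm h4 => ?_⟩
          have h5 := kap_injective (h4.trans hn.symm)
          omega
        · push Not at h3
          exact ⟨0, fun n _ => h3 n⟩
      refine ⟨max N N', fun n hn => ?_⟩
      refine goodAt_of_cofinal hlam (h2 n) ?_ ?_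
      · rw [mk_Ax]
        exact (lt_or_gt_of_ne (hN' n ((le_max_right _ _).trans hn))).symm
      · intro γ hγ 𝓖 h3 h4
        obtain ⟨c, hc, h5⟩ := hN n ((le_max_left _ _).trans hn) γ hγ
        rw [card_ord] at hc
        exact h5.smallCov hc.le
    · -- countable cofinality
      by_contra hcon
      push Not at hcon
      have hcofn : ∀ n, lam.ord.cof < kap.{u} n ∨ #(Ax.{u} n) < lam.ord.cof := by
        intro n
        rw [← hcof]
        exact Or.inl (aleph0_lt_kap n)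
      obtain ⟨n, -, hn⟩ := hcon 0
      obtain ⟨γ, hγ, 𝓖, h3, h4, h5⟩ : ∃ γ < lam.ord, ∃ 𝓖 : Filter (Ax.{u} n), 𝓖.NeBot ∧
          CardinalInterFilter 𝓖 (kap.{u} n) ∧ ¬ SmallCov 𝓖 (fun _ => γ) lam := by
        by_contra h6
        push Not at h6
        exact hn (goodAt_of_cofinal hlam (h2 n) (hcofn n) h6)
      obtain ⟨𝓙, h, hp⟩ := exists_nicePair (aleph0_lt_kap n)
        ((aleph0_lt_kap n).le.trans_eq (mk_Ax n).symm) (h2 n) hγ h5
      have hne := hp.neBot
      have hci : CountableInterFilter 𝓙 := by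
        have := hp.inter
        exact CardinalInterFilter.toCountableInterFilter (c := kap.{u} n) _ (aleph0_lt_kap n)
      have hbig : ∀ᶠ a in 𝓙, ℶ_ (ω : Ordinal.{u}) < (h a).card := by
        have h6 : ∀ᶠ a in 𝓙, ∀ i : ℕ, ℶ_ (i : Ordinal.{u}) < (h a).card := by
          rw [eventually_countable_forall]
          intro i
          by_contra h7
          rw [not_eventually] at h7
          refine hp.notSmall (smallCov_of_card_le (c := ℶ_ (i : Ordinal.{u})) ?_
            (h7.mono fun a ha => not_lt.1 ha))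
          rw [mk_Ax]
          exact (power_lt_beth_omega (beth_nat_lt i) n).le.trans hlamω
        filter_upwards [h6] with a ha
        refine lt_of_le_of_ne ?_ ?_
        · by_contra h7
          rw [not_le] at h7
          obtain ⟨i, hi⟩ := exists_lt_beth h7
          exact absurd (ha i) (not_lt.2 hi.le)
        · intro h7
          have h8 := hp.cof a
          rw [← hp.ini a, ← h7, mk_Ax] at h8
          have h9 : ℵ₀ ≤ (2 : Cardinal.{u}) ^ kap.{u} n :=
            (aleph0_lt_kap n).le.trans (cantor _).le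
          exact absurd (h9.trans_lt h8) (not_lt.2 cof_beth_omega)
      have hsm : ∀ a, ∃ N : ULift.{u} ℕ, ℶ_ (ω : Ordinal.{u}) < (h a).card → h a < lam.ord →
          ∀ m ≥ N.down, MClosed (Ax.{u} m) (kap.{u} m) (h a) := by
        intro a
        by_cases h6 : ℶ_ (ω : Ordinal.{u}) < (h a).card ∧ h a < lam.ord
        · obtain ⟨N, hN⟩ := exists_mclosed (lam := lam) IH (hp.ini a) h6.1 (lt_ord.1 h6.2).le (by
            refine lt_of_le_of_lt ?_ (hp.cof a)
            rw [mk_Ax]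
            exact (aleph0_lt_kap n).le.trans (cantor _).le)
          exact ⟨⟨N⟩, fun _ _ => hN⟩
        · exact ⟨⟨0⟩, fun h7 h8 => absurd ⟨h7, h8⟩ h6⟩
      choose p hpp using hsm
      have hinter := hp.inter
      obtain ⟨p₀, hp₀⟩ := exists_frequently_eq (𝓖 := 𝓙) (κ := kap.{u} n) (by
        simpa using aleph0_lt_kap.{u} n) p
      have hne' : (𝓙 ⊓ 𝓟 {a | p a = p₀}).NeBot := frequently_mem_iff_neBot.1 hp₀
      have hp' := hp.restrict _ hne'
      obtain ⟨m, hm, hm2⟩ := hcon (max p₀.down (n + 2))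
      refine hm2 (goodAt_of_cofinal hlam (h2 m) (hcofn m) ?_)
      intro γ' hγ' 𝓖' h6 h7
      have h7' : CardinalInterFilter 𝓖' (succ (ℶ_ (m : Ordinal.{u}))) := h7
      refine two_step (B := Ax.{u} m) (μ := ℶ_ (m : Ordinal.{u})) hp' ?_ hlam (h2 n) (h2 m)
        (beth_ne_zero _) ?_ 𝓖' hγ'
      · rw [eventually_inf_principal]
        filter_upwards [hbig, hp.lt] with a h8 h9 h10
        have h11 := hpp a h8 h9 m
        rw [show p a = p₀ from h10] at h11
        exact h11 ((le_max_left _ _).trans hm)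
      · rw [mk_Ax]
        exact beth_pow ((le_max_right _ _).trans hm)

theorem covering_of_pieceCov {A : Type u} (hA : #A = θ) (hθ : ℵ₀ ≤ θ) (h2 : 2 ^ θ ≤ lam)
    (h : PieceCov A θ lam.ord lam) : Covering lam θ := by
  intro X hX
  obtain ⟨I, d, hI, hd⟩ := h
  obtain ⟨e⟩ : Nonempty (X ≃ lam.ord.ToType) := by
    rw [← Cardinal.eq, hX, mk_toType, card_ord]
  set R : I → Set X := fun i => {x | ∃ a, ((e x : lam.ord.ToType) : Ordinal.{u}) = d i a} with hR
  refine ⟨range R, mk_range_le.trans hI, ?_, ?_⟩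
  · rintro _ ⟨i, rfl⟩
    have h3 : #(R i) ≤ θ := by
      rw [← hA]
      have h4 : ∀ x : R i, ∃ a, ((e x.1 : lam.ord.ToType) : Ordinal.{u}) = d i a := fun x => x.2
      choose f hf using h4
      refine mk_le_of_injective (f := f) ?_
      intro x y hxy
      have h5 : ((e x.1 : lam.ord.ToType) : Ordinal.{u}) = (e y.1 : lam.ord.ToType) := by
        rw [hf, hf, hxy]
      exact Subtype.ext (e.injective (ToType.mk.symm.injective (Subtype.ext h5)))
    refine (power_le_power_right h3).trans ?_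
    rw [power_self_eq hθ]
    exact h2
  · intro B hB
    rcases B.eq_empty_or_nonempty with rfl | ⟨b0, hb0⟩
    · refine ⟨∅, empty_subset _, ?_, empty_subset _⟩
      rw [mk_eq_zero]
      exact aleph0_pos.trans_le hθ
    · have h3 : #B ≤ #A := hB.trans_eq hA.symm
      obtain ⟨j⟩ := h3
      have hBne : Nonempty B := ⟨⟨b0, hb0⟩⟩
      obtain ⟨J, hJ1, hJ2⟩ := hd (fun a => ((e (Function.invFun j a : B).1 : lam.ord.ToType) :
        Ordinal.{u})) (fun a => (e (Function.invFun j a : B).1).toOrd.2)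
      refine ⟨R '' J, image_subset_range _ _, mk_image_le.trans_lt hJ1, ?_⟩
      intro b hb
      obtain ⟨i, hi, h4⟩ := hJ2 (j ⟨b, hb⟩)
      refine ⟨R i, mem_image_of_mem _ hi, j ⟨b, hb⟩, ?_⟩
      rw [← h4, Function.leftInverse_invFun j.injective]

theorem eventually_covering (hlam : ℶ_ (ω : Ordinal.{u}) ≤ lam) :
    ∃ N : ℕ, ∀ n ≥ N, Covering lam (kap.{u} n) := by
  obtain ⟨N, hN⟩ := eventually_goodAt lam hlam
  refine ⟨N, fun n hn => ?_⟩
  refine covering_of_pieceCov (mk_Ax n) (aleph0_lt_kap n).le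
    ((two_power_lt n).le.trans hlam) (pieceCov_of_goodAt (kap_regular n)
    ((aleph0_le_beth _).trans hlam) ?_ (hN n hn))
  rw [mk_Ax]
  exact (two_power_power_lt n).le.trans hlam

/-- Above `ℶ_ω` the relation holds at closed unbounded many ordinals. -/
theorem pathRel_club_beth (hlam : ℶ_ (ω : Ordinal.{u}) ≤ lam) :
    ∃ C : Set Ordinal.{u}, (∀ δ ∈ C, δ < (succ lam).ord) ∧
      (∀ γ < (succ lam).ord, ∃ δ ∈ C, γ < δ) ∧
      (∀ δ < (succ lam).ord, IsSuccLimit δ → (∀ γ < δ, ∃ δ' ∈ C, γ < δ' ∧ δ' < δ) → δ ∈ C) ∧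
      ∀ δ ∈ C, ∀ q : Ordinal.{u}, q.card < lam → PathRel (δ * q) := by
  obtain ⟨N, hN⟩ := eventually_covering hlam
  exact pathRel_club (kap_regular N) (aleph0_lt_kap N) ((two_power_lt N).le.trans hlam)
    (hN N le_rfl)

end IPath
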