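import Pool.Agent.Work.MP_820435_lc.Rgch4

/-!
# Small covering families above a singular strong limit cardinal
-/

open Ordinal Cardinal Set Filter Order

universe u

namespace IPath

variable {lam θ c μ ρ τ τ' ν : Cardinal.{u}} {γ χ : Ordinal.{u}} {n m : ℕ}

/-- The successor of `2 ^ τ`. -/
noncomputable def kt (τ : Cardinal.{u}) : Cardinal.{u} := succ (2 ^ τ)

/-- A set of size `kt τ`. -/
abbrev At (τ : Cardinal.{u}) : Type u := (kt τ).ord.ToType

theorem mk_At (τ : Cardinal.{u}) : #(At τ) = kt τ := by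
  rw [mk_toType, card_ord]

theorem aleph0_le_two_power (hτ : ℵ₀ ≤ τ) : ℵ₀ ≤ (2 : Cardinal.{u}) ^ τ :=
  hτ.trans (cantor _).le

theorem kt_regular (hτ : ℵ₀ ≤ τ) : (kt τ).IsRegular := isRegular_succ (aleph0_le_two_power hτ)

theorem lt_kt (τ : Cardinal.{u}) : τ < kt τ := (cantor _).trans (lt_succ _)

theorem aleph0_lt_kt (hτ : ℵ₀ ≤ τ) : ℵ₀ < kt τ := hτ.trans_lt (lt_kt τ)

theorem kt_lt (hρ : ρ.IsStrongLimit) (hτ : τ < ρ) : kt τ < ρ :=
  hρ.isSuccLimit.succ_lt (hρ.isStrongPrelimit hτ)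

theorem two_power_kt_lt (hρ : ρ.IsStrongLimit) (hτ : τ < ρ) : (2 : Cardinal.{u}) ^ kt τ < ρ :=
  hρ.isStrongPrelimit (kt_lt hρ hτ)

theorem two_power_power_kt_lt (hρ : ρ.IsStrongLimit) (hτ : τ < ρ) :
    (2 : Cardinal.{u}) ^ ((2 : Cardinal.{u}) ^ kt τ) < ρ :=
  hρ.isStrongPrelimit (two_power_kt_lt hρ hτ)

theorem two_power_kt (hτ : ℵ₀ ≤ τ') (h : kt τ ≤ τ') :
    ((2 : Cardinal.{u}) ^ τ') ^ kt τ ≤ 2 ^ τ' := by
  rw [← power_mul]
  refine power_le_power_left two_ne_zero ?_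
  exact (mul_le_mul' le_rfl h).trans_eq (mul_eq_self hτ)

/-- A small cofinal set of ordinals below a cardinal. -/
theorem exists_cofinal_cards (hρ : ℵ₀ ≤ ρ) : ∃ (R : Type u) (r : R → Cardinal.{u}),
    #R = ρ.ord.cof ∧ (∀ i, r i < ρ) ∧ ∀ c < ρ, ∃ i, c ≤ r i := by
  obtain ⟨s, hs1, hs2⟩ := exists_cof_eq (α := ρ.ord.ToType)
  rw [cof_toType] at hs2
  refine ⟨s, fun i => ((i.1 : ρ.ord.ToType) : Ordinal.{u}).card, hs2, fun i => ?_, fun c hc => ?_⟩
  · rw [← lt_ord]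
    exact i.1.toOrd.2
  · obtain ⟨i, hi, hci⟩ := hs1 (ToType.mk ⟨c.ord, ord_lt_ord.2 hc⟩)
    refine ⟨⟨i, hi⟩, ?_⟩
    have h3 := ToType.mk.symm.monotone hci
    rw [OrderIso.symm_apply_apply] at h3
    have h4 : c.ord ≤ ((i : ρ.ord.ToType) : Ordinal.{u}) := h3
    have h5 := Ordinal.card_le_card h4
    rwa [card_ord] at h5

/-- All large indices below `ρ` are good at `ν`. -/
def EvGood (ρ ν : Cardinal.{u}) : Prop :=
  ∃ σ < ρ, ∀ τ < ρ, σ ≤ τ → GoodAt (At τ) (kt τ) ν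

/-- Closed ordinals whose cofinality differs from that of `ρ`. -/
theorem exists_mclosedG (hρ : ρ.IsStrongLimit) (hρ0 : ℵ₀ < ρ)
    (IH : ∀ ν < lam, ρ ≤ ν → EvGood ρ ν) (hχ : χ.card.ord = χ) (hχ1 : ρ < χ.card)
    (hχ2 : χ.card ≤ lam) (hcof : χ.cof ≠ ρ.ord.cof) :
    ∃ σ < ρ, ∀ τ < ρ, σ ≤ τ → MClosed (At τ) (kt τ) χ := by
  have hχinf : ℵ₀ ≤ χ.card := hρ0.le.trans hχ1.le
  have h1 : ∀ γ : Ordinal.{u}, ∃ N < ρ, γ < χ → ∀ τ < ρ, N ≤ τ → ∃ c < χ.card,
      PieceCov (At τ) (kt τ) γ c := by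
    intro γ
    by_cases hγ : γ < χ
    · have hγc : γ.card < χ.card := by
        rw [← hχ, lt_ord] at hγ
        exact hγ
      have hν : max γ.card ρ < χ.card := max_lt hγc hχ1
      obtain ⟨N, hN1, hN⟩ := IH _ (hν.trans_le hχ2) (le_max_right _ _)
      refine ⟨max N ℵ₀, max_lt hN1 hρ0, fun _ τ hτ hNτ => ⟨_, hν, ?_⟩⟩
      have hτ0 : ℵ₀ ≤ τ := (le_max_right _ _).trans hNτ
      have h2 := pieceCov_of_goodAt (kt_regular hτ0)
        (hρ0.le.trans (le_max_right γ.card _)) (by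
          rw [mk_At]
          exact (two_power_power_kt_lt hρ hτ).le.trans (le_max_right _ _))
        (hN τ hτ ((le_max_left _ _).trans hNτ))
      refine h2.of_card_le ?_
      rw [card_ord]
      exact le_max_left _ _
    · exact ⟨0, (aleph0_pos.trans hρ0), fun h => absurd h hγ⟩
  choose N hN1 hN using h1
  rcases lt_or_gt_of_ne hcof with hlt | hlt
  · -- small cofinality
    obtain ⟨s, hs1, hs2⟩ := exists_cof_eq (α := χ.ToType)
    rw [cof_toType] at hs2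
    refine ⟨⨆ i : s, N ((i.1 : χ.ToType) : Ordinal.{u}),
      iSup_lt_of_lt_cof_ord (by rwa [hs2]) (fun i => hN1 _), fun τ hτ hNτ γ hγ => ?_⟩
    obtain ⟨i, hi, hγi⟩ := hs1 (ToType.mk ⟨γ, hγ⟩)
    have h3 := ToType.mk.symm.monotone hγi
    rw [OrderIso.symm_apply_apply] at h3
    have h4 : γ ≤ ((i : χ.ToType) : Ordinal.{u}) := h3
    have h5 : N ((i : χ.ToType) : Ordinal.{u}) ≤ ⨆ i : s, N ((i.1 : χ.ToType) : Ordinal.{u}) :=
      le_ciSup (f := fun i : s => N ((i.1 : χ.ToType) : Ordinal.{u}))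
        Cardinal.bddAbove_of_small ⟨i, hi⟩
    obtain ⟨c, hc, h6⟩ := hN _ i.toOrd.2 τ hτ (h5.trans hNτ)
    exact ⟨c, hc, h6.mono h4 le_rfl⟩
  · -- large cofinality
    by_contra hcon
    push Not at hcon
    obtain ⟨R, r, hR, hr1, hr2⟩ := exists_cofinal_cards hρ0.le
    have h2 : ∀ k : R, ∃ τ < ρ, r k ≤ τ ∧ ∃ γ < χ, ∀ c < χ.card,
        ¬ PieceCov (At τ) (kt τ) γ c := by
      intro k
      obtain ⟨τ, hτ, h3, h4⟩ := hcon (r k) (hr1 k)
      rw [MClosed] at h4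
      push Not at h4
      exact ⟨τ, hτ, h3, h4⟩
    choose τ hτ hrτ γ hγ hc using h2
    have h3 : ⨆ k, γ k + 1 < χ := iSup_add_one_lt_of_lt_cof (by rwa [hR]) hγ
    obtain ⟨k, hk⟩ := hr2 _ (hN1 (⨆ k, γ k + 1))
    obtain ⟨c, hc1, hc2⟩ := hN _ h3 (τ k) (hτ k) (hk.trans (hrτ k))
    exact hc _ c hc1 (hc2.mono (Ordinal.lt_iSup_add_one γ _).le le_rfl)

theorem evGood (hρ : ρ.IsStrongLimit) (hsing : ρ.ord.cof < ρ) (lam : Cardinal.{u}) :
    ρ ≤ lam → EvGood ρ lam := by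
  classical
  have hρinf : ℵ₀ ≤ ρ := hρ.aleph0_le
  have hcofρ : ℵ₀ ≤ ρ.ord.cof :=
    Ordinal.aleph0_le_cof_iff.2 (Ordinal.one_lt_cof_iff.2 (isSuccLimit_ord hρinf))
  have hρ0 : ℵ₀ < ρ := hcofρ.trans_lt hsing
  induction lam using WellFoundedLT.induction with
  | ind lam IH =>
    intro hlamρ
    have hlam : ℵ₀ ≤ lam := hρ0.le.trans hlamρ
    have h2 : ∀ τ < ρ, (2 : Cardinal.{u}) ^ #(At τ) ≤ lam := by
      intro τ hτ
      rw [mk_At]
      exact (two_power_kt_lt hρ hτ).le.trans hlamρ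
    rcases ne_or_eq lam.ord.cof ρ.ord.cof with hcof | hcof
    · -- different cofinalities
      have hlt : ρ < lam := by
        refine lt_of_le_of_ne hlamρ ?_
        rintro rfl
        exact hcof rfl
      obtain ⟨N, hN1, hN⟩ := exists_mclosedG (lam := lam) (χ := lam.ord) hρ hρ0 IH
        (by rw [card_ord]) (by rwa [card_ord]) (by rw [card_ord]) hcof
      obtain ⟨N', hN'1, hN'⟩ : ∃ N' < ρ, ∀ τ < ρ, N' ≤ τ →
          lam.ord.cof < kt τ ∨ #(At τ) < lam.ord.cof := by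
        rcases lt_or_ge lam.ord.cof ρ with h3 | h3
        · exact ⟨lam.ord.cof, h3, fun τ _ h4 => Or.inl (h4.trans_lt (lt_kt τ))⟩
        · refine ⟨0, aleph0_pos.trans hρ0, fun τ hτ _ => Or.inr ?_⟩
          rw [mk_At]
          exact (kt_lt hρ hτ).trans_le h3
      refine ⟨max N N', max_lt hN1 hN'1, fun τ hτ hNτ => ?_⟩
      refine goodAt_of_cofinal hlam (h2 τ hτ) (hN' τ hτ ((le_max_right _ _).trans hNτ)) ?_
      intro γ hγ 𝓖 h3 h4
      obtain ⟨c, hc, h5⟩ := hN τ hτ ((le_max_left _ _).trans hNτ) γ hγ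
      rw [card_ord] at hc
      exact h5.smallCov hc.le
    · -- the cofinality of `ρ`
      by_contra hcon
      rw [EvGood] at hcon
      push Not at hcon
      obtain ⟨R, r, hR, hr1, hr2⟩ := exists_cofinal_cards hρ0.le
      have hcofn : ∀ τ, ρ.ord.cof ≤ τ → lam.ord.cof < kt τ ∨ #(At τ) < lam.ord.cof := by
        intro τ hτ
        rw [hcof]
        exact Or.inl (hτ.trans_lt (lt_kt τ))
      obtain ⟨τ, hτ, hτc, hn⟩ := hcon ρ.ord.cof hsing
      have hτ0 : ℵ₀ ≤ τ := hcofρ.trans hτc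
      obtain ⟨γ, hγ, 𝓖, h3, h4, h5⟩ : ∃ γ < lam.ord, ∃ 𝓖 : Filter (At τ), 𝓖.NeBot ∧
          CardinalInterFilter 𝓖 (kt τ) ∧ ¬ SmallCov 𝓖 (fun _ => γ) lam := by
        by_contra h6
        push Not at h6
        exact hn (goodAt_of_cofinal hlam (h2 τ hτ) (hcofn τ hτc) h6)
      obtain ⟨𝓙, h, hp⟩ := exists_nicePair (aleph0_lt_kt hτ0)
        ((aleph0_lt_kt hτ0).le.trans_eq (mk_At τ).symm) (h2 τ hτ) hγ h5
      have hne := hp.neBot
      have hinter := hp.inter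
      have hRk : #R < kt τ := by
        rw [hR]
        exact hτc.trans_lt (lt_kt τ)
      have hcofh : ∀ a, ρ.ord.cof < (h a).cof := by
        intro a
        refine lt_of_le_of_lt ?_ (hp.cof a)
        rw [mk_At]
        exact hτc.trans ((lt_kt τ).le.trans (cantor _).le)
      have hbig : ∀ᶠ a in 𝓙, ρ < (h a).card := by
        have h6 : ∀ᶠ a in 𝓙, ∀ i : R, r i < (h a).card := by
          rw [eventually_cardinal_forall hRk]
          intro i
          by_contra h7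
          rw [not_eventually] at h7
          refine hp.notSmall (smallCov_of_card_le (c := r i) ?_
            (h7.mono fun a ha => not_lt.1 ha))
          rw [mk_At]
          exact (power_lt_of_strongLimit hρ (hr1 i) (kt_lt hρ hτ)
            (aleph0_lt_kt hτ0).le).le.trans hlamρ
        filter_upwards [h6] with a ha
        refine lt_of_le_of_ne ?_ ?_
        · by_contra h7
          rw [not_le] at h7
          obtain ⟨i, hi⟩ := hr2 _ h7
          exact absurd (ha i) (not_lt.2 hi)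
        · intro h7
          have h8 := hcofh a
          rw [← hp.ini a, ← h7] at h8
          exact h8.false
      have hsm : ∀ a, ∃ i : R, ρ < (h a).card → h a < lam.ord →
          ∀ τ' < ρ, r i ≤ τ' → MClosed (At τ') (kt τ') (h a) := by
        intro a
        by_cases h6 : ρ < (h a).card ∧ h a < lam.ord
        · obtain ⟨N, hN1, hN⟩ := exists_mclosedG (lam := lam) hρ hρ0 IH (hp.ini a) h6.1
            (lt_ord.1 h6.2).le (hcofh a).ne'
          obtain ⟨i, hi⟩ := hr2 _ hN1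
          exact ⟨i, fun _ _ τ' hτ' h7 => hN τ' hτ' (hi.trans h7)⟩
        · obtain ⟨i, -⟩ := hr2 0 (aleph0_pos.trans hρ0)
          exact ⟨i, fun h7 h8 => absurd ⟨h7, h8⟩ h6⟩
      choose p hpp using hsm
      obtain ⟨p₀, hp₀⟩ := exists_frequently_eq (𝓖 := 𝓙) (κ := kt τ) hRk p
      have hne' : (𝓙 ⊓ 𝓟 {a | p a = p₀}).NeBot := frequently_mem_iff_neBot.1 hp₀
      have hp' := hp.restrict _ hne'
      obtain ⟨τ', hτ', hm, hm2⟩ := hcon (max (r p₀) (kt τ)) (max_lt (hr1 p₀) (kt_lt hρ hτ))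
      have hkτ' : kt τ ≤ τ' := (le_max_right _ _).trans hm
      have hτ'0 : ℵ₀ ≤ τ' := (aleph0_lt_kt hτ0).le.trans hkτ'
      refine hm2 (goodAt_of_cofinal hlam (h2 τ' hτ')
        (hcofn τ' (hτc.trans ((lt_kt τ).le.trans hkτ'))) ?_)
      intro γ' hγ' 𝓖' h6 h7
      have h7' : CardinalInterFilter 𝓖' (succ ((2 : Cardinal.{u}) ^ τ')) := h7
      refine two_step (B := At τ') (μ := (2 : Cardinal.{u}) ^ τ') hp' ?_ hlam (h2 τ hτ)
        (h2 τ' hτ') (power_ne_zero _ two_ne_zero) ?_ 𝓖' hγ'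
      · rw [eventually_inf_principal]
        filter_upwards [hbig, hp.lt] with a h8 h9 h10
        have h11 := hpp a h8 h9 τ' hτ'
        rw [show p a = p₀ from h10] at h11
        exact h11 ((le_max_left _ _).trans hm)
      · rw [mk_At]
        exact two_power_kt hτ'0 hkτ'

/-- Initial ordinals above `ρ` are closed. -/
theorem exists_mclosed_ord (hρ : ρ.IsStrongLimit) (hsing : ρ.ord.cof < ρ) (hν : ρ < ν)
    (hcof : ν.ord.cof ≠ ρ.ord.cof) :
    ∃ σ < ρ, ∀ τ < ρ, σ ≤ τ → MClosed (At τ) (kt τ) ν.ord := by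
  have hρ0 : ℵ₀ < ρ := (Ordinal.aleph0_le_cof_iff.2 (Ordinal.one_lt_cof_iff.2
    (isSuccLimit_ord hρ.aleph0_le))).trans_lt hsing
  exact exists_mclosedG (lam := ν) hρ hρ0 (fun ν' _ h => evGood hρ hsing ν' h)
    (by rw [card_ord]) (by rwa [card_ord]) (by rw [card_ord]) hcof

end IPath
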