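import Pool.Agent.Work.MP_820435_lc.Core

/-! The set mapping lemma. -/

open Ordinal Cardinal Set Filter Order

universe u

namespace IPath

variable {Λ : Type u}

/-- The indices whose avoiding set is small. -/
def badSet {Y : Type u} [LinearOrder Y] [WellFoundedLT Y] (b : Y → Finset Λ) : Set Λ :=
  {j | otp {y : Y | j ∉ b y} < otp Y}

/-- Every set mapping on a well-ordered set of type `β` has fewer than `c` bad indices. -/
def GoodLT (Λ : Type u) (c : Cardinal.{u}) (β : Ordinal.{u}) : Prop :=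
  ∀ (Y : Type u) [LinearOrder Y] [WellFoundedLT Y], otp Y = β → ∀ b : Y → Finset Λ,
    #(badSet b) < c

variable {c c' κ θ : Cardinal.{u}} {β β₁ β₂ γ q ξ : Ordinal.{u}}

theorem GoodLT.mono (h : GoodLT Λ c β) (hc : c ≤ c') : GoodLT Λ c' β :=
  fun Y _ _ hY b => (h Y hY b).trans_le hc

theorem badSet_comp {X Y : Type u} [LinearOrder X] [WellFoundedLT X] [LinearOrder Y]
    [WellFoundedLT Y] (e : X ≃o Y) (b : Y → Finset Λ) : badSet (b ∘ e) = badSet b := by
  ext j
  have h2 : e '' {x : X | j ∉ (b ∘ e) x} = {y : Y | j ∉ b y} := by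
    ext y
    constructor
    · rintro ⟨x, hx, rfl⟩
      exact hx
    · intro hy
      exact ⟨e.symm y, by simpa using hy, by simp⟩
  have h1 : otp {x : X | j ∉ (b ∘ e) x} = otp {y : Y | j ∉ b y} := by
    rw [← otp_image e e.strictMono, h2]
  simp only [badSet, mem_ofPred_eq, h1, otp_congr e]

theorem goodLT_of_model (Y : Type u) [LinearOrder Y] [WellFoundedLT Y] (hY : otp Y = β)
    (h : ∀ b : Y → Finset Λ, #(badSet b) < c) : GoodLT Λ c β := by
  intro X _ _ hX b
  obtain ⟨e⟩ := exists_orderIso_of_otp_eq (hY.trans hX.symm)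
  rw [← badSet_comp e b]
  exact h _

instance instWFSum (α β : Type u) [LinearOrder α] [WellFoundedLT α] [LinearOrder β]
    [WellFoundedLT β] : WellFoundedLT (α ⊕ₗ β) :=
  ⟨(Sum.lex_wf (r := ((· < ·) : α → α → Prop)) (s := ((· < ·) : β → β → Prop))
    wellFounded_lt wellFounded_lt)⟩

theorem GoodLT.add (hc : ℵ₀ ≤ c) (h1 : GoodLT Λ c β₁) (h2 : GoodLT Λ c β₂) :
    GoodLT Λ c (β₁ + β₂) := by
  refine goodLT_of_model (β₁.ToType ⊕ₗ β₂.ToType) ?_ ?_
  · have : otp (β₁.ToType ⊕ₗ β₂.ToType) = otp β₁.ToType + otp β₂.ToType := by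
      rw [← type_sum_lex]
      rfl
    rw [this, otp_toType, otp_toType]
  · intro b
    have hsub : badSet b ⊆ badSet (fun y : β₁.ToType => b (toLex (Sum.inl y))) ∪
        badSet (fun y : β₂.ToType => b (toLex (Sum.inr y))) := by
      intro j hj
      by_contra hcon
      simp only [badSet, mem_union, mem_ofPred_eq, not_or, not_lt] at hcon
      obtain ⟨h3, h4⟩ := hcon
      apply absurd hj
      simp only [badSet, mem_ofPred_eq, not_lt]
      have h5 : otp (β₁.ToType ⊕ₗ β₂.ToType) = otp β₁.ToType + otp β₂.ToType := by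
        rw [← type_sum_lex]
        rfl
      rw [h5]
      refine (add_le_add h3 h4).trans ?_
      have h6 : otp {y : β₁.ToType | j ∉ b (toLex (Sum.inl y))} +
          otp {y : β₂.ToType | j ∉ b (toLex (Sum.inr y))} =
          otp (({y : β₁.ToType | j ∉ b (toLex (Sum.inl y))} : Set _) ⊕ₗ
            ({y : β₂.ToType | j ∉ b (toLex (Sum.inr y))} : Set _)) := by
        rw [← type_sum_lex]
        rfl
      rw [h6]
      refine otp_le_of_strictMono (fun p => match (ofLex p) with
        | Sum.inl y => ⟨toLex (Sum.inl y.1), y.2⟩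
        | Sum.inr y => ⟨toLex (Sum.inr y.1), y.2⟩) ?_
      intro p p' hpp
      cases hpp with
      | inl h7 => exact Sum.Lex.inl h7
      | inr h7 => exact Sum.Lex.inr h7
      | sep => exact Sum.Lex.sep _ _
    refine (mk_le_mk_of_subset hsub).trans_lt ((mk_union_le _ _).trans_lt ?_)
    exact add_lt_of_lt hc (h1 _ (otp_toType _) _) (h2 _ (otp_toType _) _)

theorem otp_univ (Q : Type u) [LinearOrder Q] [WellFoundedLT Q] :
    otp (Set.univ : Set Q) = otp Q :=
  le_antisymm (otp_set_le _) (otp_le_of_strictMono (fun q => ⟨q, trivial⟩) fun _ _ h => h)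

theorem GoodLT.mul (hκ : κ.IsRegular) (h : GoodLT Λ κ γ) (hq : q.card < κ) :
    GoodLT Λ κ (γ * q) := by
  refine goodLT_of_model (q.ToType ×ₗ γ.ToType) ?_ ?_
  · rw [otp_prodLex, otp_toType, otp_toType]
  · intro b
    have hsub : badSet b ⊆ ⋃ i : q.ToType, badSet (fun z : γ.ToType => b (toLex (i, z))) := by
      intro j hj
      by_contra hcon
      simp only [badSet, mem_iUnion, mem_ofPred_eq, not_exists, not_lt] at hcon
      apply absurd hj
      simp only [badSet, mem_ofPred_eq, not_lt]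
      rw [otp_prodLex, ← otp_univ q.ToType]
      exact mul_le_otp_of_fib {y | j ∉ b y} Set.univ _ (fun i _ => hcon i)
    refine (mk_le_mk_of_subset hsub).trans_lt ?_
    rw [card_iUnion_lt_iff_forall_of_isRegular hκ (by simpa using hq)]
    intro i
    exact h _ (otp_toType _) _

theorem goodLT_one (hθ : ℵ₀ ≤ θ) : GoodLT Λ θ 1 := by
  intro Y _ _ hY b
  have hne : Nonempty Y := by
    rw [← type_ne_zero_iff_nonempty (α := Y) (r := (· < ·))]
    change otp Y ≠ 0
    rw [hY]
    exact one_ne_zero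
  obtain ⟨y⟩ := hne
  have hsub : badSet b ⊆ (b y : Set Λ) := by
    intro j hj
    simp only [badSet, mem_ofPred_eq] at hj
    rw [hY, lt_one_iff, type_eq_zero_iff_isEmpty] at hj
    by_contra hcon
    exact hj.false ⟨y, hcon⟩
  exact (mk_le_mk_of_subset hsub).trans_lt ((finset_card_lt_aleph0 _).trans_le hθ)

theorem GoodLT.opow_succ (hκ : κ.IsRegular) (hθκ : θ < κ) (h : GoodLT Λ θ (κ.ord ^ ξ)) :
    GoodLT Λ θ (κ.ord ^ succ ξ) := by
  refine goodLT_of_model (κ.ord.ToType ×ₗ (κ.ord ^ ξ).ToType) ?_ ?_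
  · rw [otp_prodLex, otp_toType, otp_toType, Ordinal.opow_succ]
  · intro b
    by_contra hcon
    rw [not_lt, le_mk_iff_exists_subset] at hcon
    obtain ⟨J, hJ, hJc⟩ := hcon
    have hbl : ∀ j : J, ∃ S : Set κ.ord.ToType, #S < κ ∧
        ∀ i, i ∉ S → otp (fib {p | j.1 ∉ b p} i) < κ.ord ^ ξ := by
      intro j
      have hj := hJ j.2
      simp only [badSet, mem_ofPred_eq] at hj
      rw [otp_prodLex, otp_toType, otp_toType, ← Ordinal.opow_succ] at hj
      obtain ⟨f, hf, hS⟩ := block hκ.pos.ne' _ (succ_ne_bot ξ) hj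
      refine ⟨_, hS, fun i hi => (not_le.1 hi).trans_le ?_⟩
      exact opow_le_opow_right hκ.ord_pos (lt_succ_iff.1 hf)
    choose S hS1 hS2 using hbl
    obtain ⟨i, hi⟩ := exists_forall_notMem hκ (hJc.trans_lt hθκ) (mk_ord_toType' κ) S hS1
    have hsub : J ⊆ badSet (fun z : (κ.ord ^ ξ).ToType => b (toLex (i, z))) := by
      intro j hj
      simp only [badSet, mem_ofPred_eq]
      rw [otp_toType]
      exact hS2 ⟨j, hj⟩ i (hi ⟨j, hj⟩)
    have h2 := (mk_le_mk_of_subset hsub).trans_lt (h _ (otp_toType _) _)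
    rw [hJc] at h2
    exact h2.false

theorem goodLT_opow_of_tame (hκ : κ.IsRegular) (hθ : θ.IsRegular) (hθκ : θ < κ)
    (hξ : IsSuccLimit ξ) (hT : ∀ ι : Type u, #ι = θ → Tame ι θ ξ) :
    GoodLT Λ θ (κ.ord ^ ξ) := by
  intro Y _ _ hY b
  by_contra hcon
  rw [not_lt, le_mk_iff_exists_subset] at hcon
  obtain ⟨J, hJ, hJc⟩ := hcon
  have hκ0 : κ.ord ≠ 0 := hκ.ord_pos.ne'
  have hne : (cocardinal J hθ).NeBot := by
    rw [neBot_iff]
    intro hbot
    have : (∅ : Set J) ∈ cocardinal J hθ := by rw [hbot]; exact mem_bot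
    rw [mem_cocardinal, compl_empty, mk_univ, hJc] at this
    exact this.false
  have h1 : ∀ j : J, ∃ F < ξ, otp {y : Y | j.1 ∉ b y} < κ.ord ^ F := by
    intro j
    have hj := hJ j.2
    simp only [badSet, mem_ofPred_eq] at hj
    rw [hY, lt_opow_of_isSuccLimit hκ0 hξ] at hj
    exact hj
  choose F hF1 hF2 using h1
  obtain ⟨s, hs, h2⟩ := hT J hJc (cocardinal J hθ) hne inferInstance F hF1
  have h3 := core hκ (hJc.trans_lt hθκ) _ s F h2 ξ Y hY (fun j => {y : Y | j.1 ∉ b y})
    (fun y => by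
      have hfin : ({j : J | j.1 ∈ b y} : Set J).Finite :=
        Set.Finite.preimage (Subtype.val_injective.injOn) (b y).finite_toSet
      have := hfin.compl_mem_cocardinal (hreg := hθ)
      filter_upwards [this] with j hj using hj)
    (Eventually.of_forall hF2)
  exact absurd hs (not_lt.2 h3)

end IPath
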