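import Pool.Agent.Work.MP_820435_lc.CofOmega

/-!
# A fusion of uncountable length: stages and the thinning lemma
-/

open Ordinal Cardinal Set Order

universe u

namespace IPath

/-- Well-founded recursion for stages. -/
theorem exists_rec {K : Type u} [LinearOrder K] [WellFoundedLT K] {A : Type u} [Nonempty A]
    (Step : K → (K → A) → A → Prop)
    (hloc : ∀ j s s' x, (∀ i, i < j → s i = s' i) → Step j s x → Step j s' x)
    (hex : ∀ j s, (∀ i, i < j → Step i s (s i)) → ∃ x, Step j s x) :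
    ∃ s, ∀ j, Step j s (s j) := by
  classical
  set F : ∀ j : K, (∀ i, i < j → A) → A := fun j ih =>
    Classical.epsilon (fun x => Step j (fun i => if h : i < j then ih i h
      else Classical.arbitrary A) x) with hF
  set s : K → A := (wellFounded_lt (α := K)).fix F with hs
  have hfix : ∀ j, s j = Classical.epsilon (fun x => Step j (fun i => if i < j then s i
      else Classical.arbitrary A) x) := by
    intro j
    conv_lhs => rw [hs, WellFounded.fix_eq, hF]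
    rfl
  refine ⟨s, ?_⟩
  intro j
  induction j using WellFoundedLT.induction with
  | ind j ih =>
    set t : K → A := fun i => if i < j then s i else Classical.arbitrary A with ht
    have hts : ∀ i, i < j → s i = t i := by
      intro i hi
      simp only [ht, if_pos hi]
    have h1 : ∃ x, Step j t x := by
      apply hex
      intro i hi
      rw [← hts i hi]
      exact hloc i s t (s i) (fun i' hi' => hts i' (hi'.trans hi)) (ih i hi)
    have h2 := Classical.epsilon_spec h1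
    rw [← hfix j] at h2
    exact hloc j t s (s j) (fun i hi => (hts i hi).symm) h2

/-- The data of a stage. -/
structure Stg (V K Λ : Type u) where
  /-- new reservoirs -/
  B : Set (Set V)
  /-- labelled points -/
  pt : Set V → (K → Λ) → Λ → V
  /-- the chosen classes -/
  g : K → Λ

section defs

variable {V K Λ : Type u} [LinearOrder K]

/-- the reservoirs born before `j` -/
def Act (s : K → Stg V K Λ) (j : K) : Set (Set V) :=
  {W | W = Set.univ ∨ ∃ a, a < j ∧ W ∈ (s a).B}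

/-- the reservoirs born at or before `j` -/
def Act' (s : K → Stg V K Λ) (j : K) : Set (Set V) :=
  {W | W = Set.univ ∨ ∃ a, a ≤ j ∧ W ∈ (s a).B}

/-- the labels -/
def Hf (Θ : K → Set Λ) (i : K) : Set (K → Λ) := {h | ∀ j, h j ∈ Θ i}

/-- the points of the earlier stages which are consistent with all choices -/
def Frz (Θ D : K → Set Λ) (s : K → Stg V K Λ) (j : K) (g : K → Λ) : Set V :=
  {v | ∃ i, i < j ∧ ∃ U ∈ Act s i, ∃ h ∈ Hf Θ i, ∃ ξ ∈ D i,
    (∀ j', i < j' → j' < j → h j' = (s j').g i) ∧ h j = g i ∧ v = (s i).pt U h ξ}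

theorem Act_congr {s s' : K → Stg V K Λ} {j : K} (h : ∀ i, i < j → s i = s' i) :
    Act s j = Act s' j := by
  ext W
  constructor
  · rintro (h1 | ⟨a, ha, h1⟩)
    · exact Or.inl h1
    · exact Or.inr ⟨a, ha, by rwa [← h a ha]⟩
  · rintro (h1 | ⟨a, ha, h1⟩)
    · exact Or.inl h1
    · exact Or.inr ⟨a, ha, by rwa [h a ha]⟩

theorem Frz_congr_aux {Θ D : K → Set Λ} {s s' : K → Stg V K Λ} {j : K}
    (h : ∀ i, i < j → s i = s' i) (g : K → Λ) : Frz Θ D s j g ⊆ Frz Θ D s' j g := by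
  rintro v ⟨i, hi, U, hU, l, hl, ξ, hξ, h1, h2, h3⟩
  refine ⟨i, hi, U, ?_, l, hl, ξ, hξ, ?_, h2, ?_⟩
  · rwa [← Act_congr (fun a ha => h a (ha.trans hi))]
  · intro j' hj1 hj2
    rw [h1 j' hj1 hj2, h j' hj2]
  · rw [h3, h i hi]

theorem Frz_congr {Θ D : K → Set Λ} {s s' : K → Stg V K Λ} {j : K}
    (h : ∀ i, i < j → s i = s' i) (g : K → Λ) : Frz Θ D s j g = Frz Θ D s' j g :=
  subset_antisymm (Frz_congr_aux h g) (Frz_congr_aux (fun i hi => (h i hi).symm) g)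

theorem Act_mono (s : K → Stg V K Λ) {i j : K} (h : i ≤ j) : Act s i ⊆ Act s j := by
  rintro W (h1 | ⟨a, ha, h1⟩)
  · exact Or.inl h1
  · exact Or.inr ⟨a, ha.trans_le h, h1⟩

end defs

section stages

variable {V K Λ : Type u} [LinearOrder V] [WellFoundedLT V] [LinearOrder K]

/-- The properties of a stage. -/
structure IsStep (lam : Cardinal.{u}) (τ : Ordinal.{u}) (idx : Ordinal.{u} → Λ)
    (P : V → List V) (c : K → Cardinal.{u}) (Θ D : K → Set Λ) (j : K) (𝒜 : Set (Set V))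
    (F : Set V) (x : Stg V K Λ) : Prop where
  g_mem : ∀ i, i < j → x.g i ∈ Θ i
  card_B : #x.B ≤ c j
  type_B : ∀ C ∈ x.B, (∃ σ ≤ τ, otp C = ω ^ σ) ∧ lam.ord ≤ otp C
  disj_B : ∀ C ∈ x.B, ∀ v ∈ C, v ∉ up P F ∧ v ∉ dn P F
  children : ∀ W ∈ 𝒜, ∀ σ : Ordinal.{u}, otp W = ω ^ σ →
      (∃ W' ∈ x.B, W' ⊆ W ∧ otp W' = ω ^ σ ∧ ∀ ρ, σ = succ ρ → lam.ord ≤ ω ^ ρ →
        ∃ C ∈ x.B, C ⊆ W ∧ otp C = ω ^ ρ ∧ ∀ x ∈ C, ∀ y ∈ W', x < y) ∧
      ∀ ρ < σ, idx ρ ∈ D j → lam.ord ≤ ω ^ ρ → ∃ C ∈ x.B, C ⊆ W ∧ otp C = ω ^ ρ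
  pt_mem : ∀ W ∈ 𝒜, ∀ h ∈ Hf Θ j, ∀ ξ ∈ D j,
    x.pt W h ξ ∈ W ∧ x.pt W h ξ ∉ up P F ∧ x.pt W h ξ ∉ dn P F
  pt_inj : ∀ W ∈ 𝒜, ∀ h ∈ Hf Θ j, ∀ ξ ∈ D j, ∀ W' ∈ 𝒜, ∀ h' ∈ Hf Θ j, ∀ ξ' ∈ D j,
    P (x.pt W h ξ) <:+ P (x.pt W' h' ξ') → W = W' ∧ h = h' ∧ ξ = ξ'

variable {lam : Cardinal.{u}} {τ : Ordinal.{u}} {idx : Ordinal.{u} → Λ}
    {P : V → List V} {c : K → Cardinal.{u}} {Θ D : K → Set Λ}

/-- The consistent points of the stages before `j` are pairwise incomparable. -/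
theorem frz_incomparable {j : K} {s : K → Stg V K Λ}
    (hs : ∀ i, i < j → IsStep lam τ idx P c Θ D i (Act s i) (Frz Θ D s i (s i).g) (s i))
    {g g' : K → Λ} {W : Set V} (hW : W ∈ Act s j)
    (hg : ∀ i, i < j → W ∈ Act' s i → g i ≠ g' i) {w : V} (hw : w ∈ W)
    (h1 : w ∈ up P (Frz Θ D s j g)) (h2 : w ∈ up P (Frz Θ D s j g')) : False := by
  obtain ⟨p, ⟨i, hi, U, hU, l, hl, ξ, hξ, h3, h4, h5⟩, h6⟩ := h1
  obtain ⟨p', ⟨i', hi', U', hU', l', hl', ξ', hξ', h3', h4', h5'⟩, h6'⟩ := h2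
  have hcomp : P p <:+ P p' ∨ P p' <:+ P p := List.suffix_or_suffix_of_suffix h6 h6'
  rcases lt_trichotomy i i' with hii | rfl | hii
  · -- `p` is frozen at stage `i'`
    have h7 : p ∈ Frz Θ D s i' (s i').g :=
      ⟨i, hii, U, hU, l, hl, ξ, hξ, fun j' hj1 hj2 => h3 j' hj1 (hj2.trans hi'),
        h3 i' hii hi', h5⟩
    have h8 := (hs i' hi').pt_mem U' hU' l' hl' ξ' hξ'
    rw [← h5'] at h8
    rcases hcomp with h | h
    · exact h8.2.1 ⟨p, h7, h⟩
    · exact h8.2.2 ⟨p, h7, h⟩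
  · have h9 : g i = g' i := by
      have h10 : l = l' := by
        rcases hcomp with h | h
        · rw [h5, h5'] at h
          exact ((hs i hi).pt_inj U hU l hl ξ hξ U' hU' l' hl' ξ' hξ' h).2.1
        · rw [h5, h5'] at h
          exact ((hs i hi).pt_inj U' hU' l' hl' ξ' hξ' U hU l hl ξ hξ h).2.1.symm
      rw [← h4, ← h4', h10]
    have h11 : W ∉ Act' s i := fun h => hg i hi h h9
    rcases hW with h12 | ⟨a, ha, h12⟩
    · exact h11 (Or.inl h12)
    · have h13 : i < a := by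
        by_contra hcon
        rw [not_lt] at hcon
        exact h11 (Or.inr ⟨a, hcon, h12⟩)
      have h14 : p ∈ Frz Θ D s a (s a).g :=
        ⟨i, h13, U, hU, l, hl, ξ, hξ, fun j' hj1 hj2 => h3 j' hj1 (hj2.trans ha),
          h3 a h13 ha, h5⟩
      exact ((hs a ha).disj_B W h12 w hw).1 ⟨p, h14, h6⟩
  · have h7 : p' ∈ Frz Θ D s i (s i).g :=
      ⟨i', hii, U', hU', l', hl', ξ', hξ', fun j' hj1 hj2 => h3' j' hj1 (hj2.trans hi),
        h3' i hii hi, h5'⟩
    have h8 := (hs i hi).pt_mem U hU l hl ξ hξ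
    rw [← h5] at h8
    rcases hcomp with h | h
    · exact h8.2.2 ⟨p', h7, h⟩
    · exact h8.2.1 ⟨p', h7, h⟩

end stages

end IPath
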