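import Pool.Agent.Work.MP_820435_lc.Sg1

/-!
# A fusion of uncountable length: existence of the next stage
-/

open Ordinal Cardinal Set Order

universe u

namespace IPath

section card

variable {V K Λ : Type u} [LinearOrder K] {c : K → Cardinal.{u}} {Θ D : K → Set Λ}

theorem card_Act_lt (hc : Monotone c) (hcK : ∀ j, #K ≤ c j) (hc0 : ∀ j, ℵ₀ ≤ c j)
    {s : K → Stg V K Λ} {j : K} (hs : ∀ i, i < j → #(s i).B ≤ c i) :
    #(Act s j) < succ (c j) := by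
  have hreg := isRegular_succ (hc0 j)
  have h1 : Act s j = {Set.univ} ∪ {W | ∃ a ∈ Iio j, W ∈ (s a).B} := by
    ext W
    rfl
  rw [h1]
  refine card_union_lt hreg.aleph0_le ?_ ?_
  · rw [mk_singleton]
    exact lt_of_lt_of_le one_lt_aleph0 hreg.aleph0_le
  · refine card_biUnion_lt hreg (Iio j) ?_ (fun a => (s a).B) ?_
    · exact lt_succ_of_le ((mk_set_le _).trans (hcK j))
    · intro a ha
      exact lt_succ_of_le ((hs a ha).trans (hc (le_of_lt ha)))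

theorem card_Act'_lt (hc : Monotone c) (hcK : ∀ j, #K ≤ c j) (hc0 : ∀ j, ℵ₀ ≤ c j)
    {s : K → Stg V K Λ} {j : K} (hs : ∀ i, i ≤ j → #(s i).B ≤ c i) :
    #(Act' s j) < succ (c j) := by
  have hreg := isRegular_succ (hc0 j)
  have h1 : Act' s j = {Set.univ} ∪ {W | ∃ a ∈ Iic j, W ∈ (s a).B} := by
    ext W
    rfl
  rw [h1]
  refine card_union_lt hreg.aleph0_le ?_ ?_
  · rw [mk_singleton]
    exact lt_of_lt_of_le one_lt_aleph0 hreg.aleph0_le
  · refine card_biUnion_lt hreg (Iic j) ?_ (fun a => (s a).B) ?_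
    · exact lt_succ_of_le ((mk_set_le _).trans (hcK j))
    · intro a ha
      exact lt_succ_of_le ((hs a ha).trans (hc ha))

omit [LinearOrder K] in
theorem card_Hf_le {i : K} (hΘ : #(Θ i) = succ (c i)) : #(Hf Θ i) ≤ succ (c i) ^ #K := by
  rw [← hΘ, Cardinal.power_def]
  refine mk_le_of_injective (f := fun h : Hf Θ i => fun j => (⟨h.1 j, h.2 j⟩ : Θ i)) ?_
  intro h h' hh
  apply Subtype.ext
  funext j
  exact congrArg Subtype.val (congrFun hh j)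

theorem card_Frz_lt (hc : Monotone c) (hcK : ∀ j, #K ≤ c j) (hc0 : ∀ j, ℵ₀ ≤ c j)
    (hΘ : ∀ i, #(Θ i) = succ (c i)) (hD : ∀ j, #(D j) ≤ c j) (hK : #K ≠ 0)
    {s : K → Stg V K Λ} {j : K} (hs : ∀ i, i < j → #(s i).B ≤ c i) (g : K → Λ) :
    #(Frz Θ D s j g) < succ (succ (c j) ^ #K) := by
  have hcp : ∀ j, c j ≤ succ (c j) ^ #K := by
    intro j
    refine (le_succ (c j)).trans ?_
    exact Cardinal.self_le_power _ (Cardinal.one_le_iff_ne_zero.2 hK)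
  have hreg : (succ (succ (c j) ^ #K)).IsRegular := isRegular_succ ((hc0 j).trans (hcp j))
  have h1 : Frz Θ D s j g ⊆ {v | ∃ i ∈ Iio j, v ∈ {v | ∃ U ∈ Act s i, v ∈
      {v | ∃ q ∈ Hf Θ i ×ˢ D i, v = (s i).pt U q.1 q.2}}} := by
    rintro v ⟨i, hi, U, hU, l, hl, ξ, hξ, -, -, h3⟩
    exact ⟨i, hi, U, hU, ⟨l, ξ⟩, ⟨hl, hξ⟩, h3⟩
  refine (mk_le_mk_of_subset h1).trans_lt ?_
  refine card_biUnion_lt hreg (Iio j) ?_ (fun i => {v | ∃ U ∈ Act s i, v ∈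
      {v | ∃ q ∈ Hf Θ i ×ˢ D i, v = (s i).pt U q.1 q.2}}) ?_
  · exact lt_succ_of_le ((mk_set_le _).trans ((hcK j).trans (hcp j)))
  · intro i hi
    have hij : c i ≤ c j := hc (le_of_lt hi)
    have hpij : succ (c i) ^ #K ≤ succ (c j) ^ #K :=
      Cardinal.power_le_power_right (succ_le_succ hij)
    refine card_biUnion_lt hreg (Act s i) ?_ (fun U =>
      {v | ∃ q ∈ Hf Θ i ×ˢ D i, v = (s i).pt U q.1 q.2}) ?_
    · refine (card_Act_lt hc hcK hc0 (fun a ha => hs a (ha.trans hi))).trans_le ?_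
      exact succ_le_succ (hij.trans (hcp j))
    · intro U _
      have h2 : {v | ∃ q ∈ Hf Θ i ×ˢ D i, v = (s i).pt U q.1 q.2} =
          (fun q : (K → Λ) × Λ => (s i).pt U q.1 q.2) '' (Hf Θ i ×ˢ D i) := by
        ext v
        constructor
        · rintro ⟨q, hq, rfl⟩
          exact ⟨q, hq, rfl⟩
        · rintro ⟨q, hq, rfl⟩
          exact ⟨q, hq, rfl⟩
      rw [h2]
      refine mk_image_le.trans_lt ?_
      rw [mk_congr (Equiv.Set.prod _ _), mk_prod]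
      simp only [Cardinal.lift_id]
      refine mul_lt_of_lt hreg.aleph0_le ?_ ?_
      · exact lt_succ_of_le ((card_Hf_le (hΘ i)).trans hpij)
      · exact lt_succ_of_le ((hD i).trans (hij.trans (hcp j)))

end card

section exist

variable {V K Λ : Type u} [LinearOrder V] [WellFoundedLT V] [LinearOrder K]
variable {lam : Cardinal.{u}} {τ : Ordinal.{u}} {idx : Ordinal.{u} → Λ}
    {P : V → List V} {c : K → Cardinal.{u}} {Θ D : K → Set Λ}

/-- The choice of the classes. -/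
theorem exists_g (hP1 : Function.Injective P)
    (hc : Monotone c) (hcK : ∀ j, #K ≤ c j) (hc0 : ∀ j, ℵ₀ ≤ c j)
    (hΘ : ∀ i, #(Θ i) = succ (c i)) (hD : ∀ j, #(D j) ≤ c j) {j : K}
    (hp : succ (succ (c j) ^ #K) ≤ lam) {s : K → Stg V K Λ}
    (hs : ∀ i, i < j → IsStep lam τ idx P c Θ D i (Act s i) (Frz Θ D s i (s i).g) (s i))
    (ht : ∀ W ∈ Act s j, (∃ σ : Ordinal.{u}, otp W = ω ^ σ) ∧ lam.ord ≤ otp W) :
    ∃ g : K → Λ, (∀ i, i < j → g i ∈ Θ i) ∧ ∀ W ∈ Act s j,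
      otp (W \ (up P (Frz Θ D s j g) ∪ dn P (Frz Θ D s j g)) : Set V) = otp W := by
  classical
  have hK : #K ≠ 0 := by
    rw [mk_ne_zero_iff]
    exact ⟨j⟩
  have hcp : c j ≤ succ (c j) ^ #K := by
    refine (le_succ (c j)).trans ?_
    exact Cardinal.self_le_power _ (Cardinal.one_le_iff_ne_zero.2 hK)
  have hreg : (succ (succ (c j) ^ #K)).IsRegular := isRegular_succ ((hc0 j).trans hcp)
  have hne : ∀ i, (Θ i).Nonempty := by
    intro i
    rw [← mk_set_ne_zero_iff, hΘ i]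
    exact (lt_of_lt_of_le aleph0_pos ((hc0 i).trans (le_succ _))).ne'
  have hbad : ∀ W : Set V, ∃ g : K → Λ,
      (∃ g', otp (W \ up P (Frz Θ D s j g') : Set V) < otp W) →
        otp (W \ up P (Frz Θ D s j g) : Set V) < otp W := by
    intro W
    by_cases h : ∃ g', otp (W \ up P (Frz Θ D s j g') : Set V) < otp W
    · exact ⟨h.choose, fun _ => h.choose_spec⟩
    · exact ⟨fun i => (hne i).some, fun h' => absurd h' h⟩
  choose gb hgb using hbad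
  have hch : ∀ i : K, ∃ t ∈ Θ i, i < j → ∀ W ∈ Act' s i, gb W i ≠ t := by
    intro i
    by_cases hi : i < j
    · by_contra hcon
      have h1 : Θ i ⊆ (fun W => gb W i) '' Act' s i := by
        intro t ht
        by_contra h2
        refine hcon ⟨t, ht, fun _ W hW h3 => h2 ⟨W, hW, h3⟩⟩
      have h2 := (mk_le_mk_of_subset h1).trans mk_image_le
      rw [hΘ i] at h2
      exact absurd (card_Act'_lt hc hcK hc0 (fun a ha => (hs a (ha.trans_lt hi)).card_B))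
        (not_lt.2 h2)
    · exact ⟨(hne i).some, (hne i).some_mem, fun h => absurd h hi⟩
  choose g hg1 hg2 using hch
  refine ⟨g, fun i _ => hg1 i, ?_⟩
  intro W hW
  obtain ⟨⟨σ, hσ⟩, hlamW⟩ := ht W hW
  refine le_antisymm (otp_set_mono sdiff_subset) ?_
  have h1 : otp W ≤ otp (W \ up P (Frz Θ D s j g) : Set V) := by
    by_contra hcon
    rw [not_le] at hcon
    have h2 := hgb W ⟨g, hcon⟩
    have hcov : W ⊆ (up P (Frz Θ D s j g))ᶜ ∪ (up P (Frz Θ D s j (gb W)))ᶜ := by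
      intro v hv
      by_contra hv'
      rw [mem_union, not_or, notMem_compl_iff, notMem_compl_iff] at hv'
      exact frz_incomparable hs hW (fun i hi hWi => (hg2 i hi W hWi).symm) hv hv'.1 hv'.2
    rw [hσ] at hcon h2
    rcases cover_set hcov hσ.ge with h | h
    · exact absurd hcon (not_lt.2 h)
    · exact absurd h2 (not_lt.2 h)
  rw [hσ] at h1 ⊢
  have hcov : (W \ up P (Frz Θ D s j g)) ⊆ (dn P (Frz Θ D s j g))ᶜ ∪ dn P (Frz Θ D s j g) := by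
    intro v _
    rw [compl_union_self]
    trivial
  rcases cover_set hcov h1 with h | h
  · refine h.trans (otp_set_mono ?_)
    rintro v ⟨⟨hv1, hv2⟩, hv3⟩
    exact ⟨hv1, fun h => h.elim hv2 hv3⟩
  · exfalso
    have h2 : otp ((W \ up P (Frz Θ D s j g)) ∩ dn P (Frz Θ D s j g) : Set V) <
        (succ (succ (c j) ^ #K)).ord := by
      apply otp_lt_ord_of_card
      exact (mk_le_mk_of_subset inter_subset_right).trans_lt (dn_card hP1 hreg
        (card_Frz_lt hc hcK hc0 hΘ hD hK (fun a ha => (hs a ha).card_B) g))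
    have h3 : (succ (succ (c j) ^ #K)).ord ≤ ω ^ σ := by
      rw [← hσ]
      exact (ord_le_ord.2 hp).trans hlamW
    exact absurd (h.trans_lt h2) (not_lt.2 h3)

/-- The next stage. -/
theorem exists_isStep {G : SimpleGraph V} (hG : ¬ HasRay G) (hP1 : Function.Injective P)
    (hP2 : ∀ v, (P v).IsChain G.Adj ∧ (P v).Nodup) (hidx : Set.InjOn idx (Iio τ))
    (hc : Monotone c) (hcK : ∀ j, #K ≤ c j) (hc0 : ∀ j, ℵ₀ ≤ c j)
    (hΘ : ∀ i, #(Θ i) = succ (c i)) (hD : ∀ j, #(D j) ≤ c j) {j : K}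
    (hp : succ (succ (c j) ^ #K) ≤ lam) {s : K → Stg V K Λ}
    (hs : ∀ i, i < j → IsStep lam τ idx P c Θ D i (Act s i) (Frz Θ D s i (s i).g) (s i))
    (hτ : lam.ord ≤ ω ^ τ) (hV : otp V = ω ^ τ) :
    ∃ x : Stg V K Λ, IsStep lam τ idx P c Θ D j (Act s j) (Frz Θ D s j x.g) x := by
  classical
  have ht : ∀ W ∈ Act s j, (∃ σ ≤ τ, otp W = ω ^ σ) ∧ lam.ord ≤ otp W := by
    rintro W (rfl | ⟨a, ha, hW⟩)
    · have h1 : otp (Set.univ : Set V) = ω ^ τ := by rw [otp_univ, hV]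
      exact ⟨⟨τ, le_rfl, h1⟩, by rw [h1]; exact hτ⟩
    · exact (hs a ha).type_B W hW
  obtain ⟨g, hg1, hg2⟩ := exists_g hP1 hc hcK hc0 hΘ hD hp hs (fun W hW =>
    ⟨⟨(ht W hW).1.choose, (ht W hW).1.choose_spec.2⟩, (ht W hW).2⟩)
  have hK : #K ≠ 0 := by
    rw [mk_ne_zero_iff]
    exact ⟨j⟩
  have hcp : c j ≤ succ (c j) ^ #K := by
    refine (le_succ (c j)).trans ?_
    exact Cardinal.self_le_power _ (Cardinal.one_le_iff_ne_zero.2 hK)
  set F := Frz Θ D s j g with hF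
  set q : Cardinal.{u} := succ (succ (c j) ^ #K) with hq
  have hreg : q.IsRegular := isRegular_succ ((hc0 j).trans hcp)
  have hreg' : (succ (c j)).IsRegular := isRegular_succ (hc0 j)
  have hAct : #(Act s j) < succ (c j) :=
    card_Act_lt hc hcK hc0 (fun a ha => (hs a ha).card_B)
  -- children
  have hch : ∀ W : Set V, ∃ 𝒞 : Set (Set V), W ∈ Act s j → #𝒞 < succ (c j) ∧
      (∀ C ∈ 𝒞, C ⊆ W \ (up P F ∪ dn P F) ∧ (∃ σ ≤ τ, otp C = ω ^ σ) ∧ lam.ord ≤ otp C) ∧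
      ∀ σ : Ordinal.{u}, otp W = ω ^ σ →
      (∃ W' ∈ 𝒞, otp W' = ω ^ σ ∧ ∀ ρ, σ = succ ρ → lam.ord ≤ ω ^ ρ →
        ∃ C ∈ 𝒞, otp C = ω ^ ρ ∧ ∀ x ∈ C, ∀ y ∈ W', x < y) ∧
      ∀ ρ < σ, idx ρ ∈ D j → lam.ord ≤ ω ^ ρ → ∃ C ∈ 𝒞, otp C = ω ^ ρ := by
    intro W
    by_cases hW : W ∈ Act s j
    · obtain ⟨⟨σ, h2, h3⟩, h1⟩ := ht W hW
      obtain ⟨𝒞, hc1, hc2, hc3, hc4⟩ := exists_children (lam := lam) hreg'.aleph0_le (D j)
        (lt_succ_of_le (hD j)) σ idx (hidx.mono (Iio_subset_Iio h2)) (W \ (up P F ∪ dn P F))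
        ((hg2 W hW).trans h3) (by rw [← h3]; exact h1)
      refine ⟨𝒞, fun _ => ⟨hc1, ?_, ?_⟩⟩
      · intro C hC
        obtain ⟨h4, ⟨ρ, h5, h6⟩, h7⟩ := hc2 C hC
        exact ⟨h4, ⟨ρ, h5.trans h2, h6⟩, h7⟩
      · intro σ' hσ'
        have : σ' = σ := by
          rw [h3] at hσ'
          exact (opow_right_inj one_lt_omega0).1 hσ'.symm
        rw [this]
        exact ⟨hc3, hc4⟩
    · exact ⟨∅, fun h => absurd h hW⟩
  choose Ch hCh using hch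
  -- points
  obtain ⟨a, ha1, ha2⟩ := exists_points hG hP1 hP2 hreg (ι := Act s j) (K := q.ord.ToType)
    (hAct.trans_le (succ_le_succ hcp)) (mk_ord_toType' q)
    (fun W => W.1 \ (up P F ∪ dn P F)) (fun W => by
      have h1 : lam.ord ≤ otp (W.1 \ (up P F ∪ dn P F) : Set V) := by
        rw [hg2 W.1 W.2]
        exact (ht W.1 W.2).2
      have h3 := Ordinal.card_le_card h1
      rw [card_ord, card_type] at h3
      exact hp.trans h3)
  have hem : #(Hf Θ j × D j) ≤ #q.ord.ToType := by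
    rw [mk_ord_toType', mk_prod]
    simp only [Cardinal.lift_id]
    refine (mul_lt_of_lt hreg.aleph0_le ?_ ?_).le
    · exact lt_succ_of_le (card_Hf_le (hΘ j))
    · exact lt_succ_of_le ((hD j).trans hcp)
  obtain ⟨e⟩ := hem
  have hqne : Nonempty q.ord.ToType := by
    rw [← mk_ne_zero_iff, mk_ord_toType']
    exact hreg.pos.ne'
  have hVne : Nonempty V := ⟨a ⟨Set.univ, Or.inl rfl⟩ hqne.some⟩
  set pt : Set V → (K → Λ) → Λ → V := fun W h ξ =>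
    if hh : W ∈ Act s j ∧ h ∈ Hf Θ j ∧ ξ ∈ D j then
      a ⟨W, hh.1⟩ (e (⟨h, hh.2.1⟩, ⟨ξ, hh.2.2⟩)) else hVne.some with hpt
  have hpt1 : ∀ W (hW : W ∈ Act s j) h (hh : h ∈ Hf Θ j) ξ (hξ : ξ ∈ D j),
      pt W h ξ = a ⟨W, hW⟩ (e (⟨h, hh⟩, ⟨ξ, hξ⟩)) := by
    intro W hW h hh ξ hξ
    simp only [hpt]
    rw [dif_pos ⟨hW, hh, hξ⟩]
  refine ⟨⟨{C | ∃ W ∈ Act s j, C ∈ Ch W}, pt, g⟩, hg1, ?_, ?_, ?_, ?_, ?_, ?_⟩
  · exact lt_succ_iff.1 (card_biUnion_lt hreg' (Act s j) hAct Ch (fun W hW => (hCh W hW).1))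
  · rintro C ⟨W, hW, hC⟩
    exact ((hCh W hW).2.1 C hC).2
  · rintro C ⟨W, hW, hC⟩ v hv
    have h1 := ((hCh W hW).2.1 C hC).1 hv
    exact ⟨fun h => h1.2 (Or.inl h), fun h => h1.2 (Or.inr h)⟩
  · intro W hW σ hσ
    obtain ⟨h1, h2⟩ := (hCh W hW).2.2 σ hσ
    have hsub : ∀ C ∈ Ch W, C ⊆ W := fun C hC =>
      ((hCh W hW).2.1 C hC).1.trans sdiff_subset
    constructor
    · obtain ⟨W', hW', h3, h4⟩ := h1
      refine ⟨W', ⟨W, hW, hW'⟩, hsub _ hW', h3, ?_⟩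
      intro ρ hρ1 hρ2
      obtain ⟨C, hC, h5, h6⟩ := h4 ρ hρ1 hρ2
      exact ⟨C, ⟨W, hW, hC⟩, hsub _ hC, h5, h6⟩
    · intro ρ hρ1 hρ2 hρ3
      obtain ⟨C, hC, h5⟩ := h2 ρ hρ1 hρ2 hρ3
      exact ⟨C, ⟨W, hW, hC⟩, hsub _ hC, h5⟩
  · intro W hW h hh ξ hξ
    have h1 := ha1 ⟨W, hW⟩ (e (⟨h, hh⟩, ⟨ξ, hξ⟩))
    rw [← hpt1 W hW h hh ξ hξ] at h1
    exact ⟨h1.1, fun h => h1.2 (Or.inl h), fun h => h1.2 (Or.inr h)⟩
  · intro W hW h hh ξ hξ W' hW' h' hh' ξ' hξ' hsuf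
    have h0 : P (pt W h ξ) <:+ P (pt W' h' ξ') := hsuf
    rw [hpt1 W hW h hh ξ hξ, hpt1 W' hW' h' hh' ξ' hξ'] at h0
    obtain ⟨h1, h2⟩ := ha2 _ _ _ _ h0
    have h3 := e.injective h2
    rw [Prod.mk.injEq] at h3
    exact ⟨congrArg Subtype.val h1, congrArg Subtype.val h3.1, congrArg Subtype.val h3.2⟩

end exist

end IPath
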