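import Pool.Agent.Work.MP_820435_lc.Sg2

/-!
# A fusion of uncountable length: singular cardinals
-/

open Ordinal Cardinal Set Order

universe u

namespace IPath

/-- The fusion. -/
theorem fusion_long {V K Λ : Type u} [LinearOrder V] [WellFoundedLT V] [LinearOrder K]
    [WellFoundedLT K] [NoMaxOrder K] [Nonempty K] {lam : Cardinal.{u}} {τ : Ordinal.{u}}
    {idx : Ordinal.{u} → Λ} {P : V → List V} {c : K → Cardinal.{u}} {Θ D : K → Set Λ}
    {G : SimpleGraph V} (hG : ¬ HasRay G) (hP1 : Function.Injective P)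
    (hP2 : ∀ v, (P v).IsChain G.Adj ∧ (P v).Nodup) (hidx : Set.InjOn idx (Iio τ))
    (hlam : ℵ₀ ≤ lam) (hc : Monotone c) (hcK : ∀ j, #K ≤ c j) (hc0 : ∀ j, ℵ₀ ≤ c j)
    (hΘ : ∀ i, #(Θ i) = succ (c i)) (hD : ∀ j, #(D j) ≤ c j)
    (hp : ∀ j, succ (succ (c j) ^ #K) ≤ lam) (hDm : Monotone D) (hDU : ∀ i, ∃ n, i ∈ D n)
    (hsup : ∀ c : Cardinal.{u}, (∀ n, #(D n) ≤ c) → lam ≤ c)
    (hτ : lam.ord ≤ ω ^ τ) (hV : otp V = ω ^ τ) :
    ∃ S : Set V, ω ^ τ ≤ otp S ∧ ∀ x ∈ S, ∀ y ∈ S, P x <:+ P y → x = y := by
  classical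
  obtain ⟨e, he⟩ : ∃ e : Ordinal.{u}, lam.ord = ω ^ e := by
    rcases isPrincipal_add_iff_zero_or_omega0_opow.1 (isPrincipal_add_ord hlam) with
      h | ⟨e, he⟩
    · rw [ord_eq_zero] at h
      rw [h] at hlam
      exact absurd aleph0_pos (not_lt.2 hlam)
    · exact ⟨e, he.symm⟩
  have hVne : Nonempty V := by
    by_contra hcon
    rw [not_nonempty_iff] at hcon
    have h1 : otp V = 0 := type_eq_zero_iff_isEmpty.2 hcon
    rw [h1] at hV
    exact (opow_ne_zero τ omega0_ne_zero) hV.symm
  have hne : ∀ i, (Θ i).Nonempty := by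
    intro i
    rw [← mk_set_ne_zero_iff, hΘ i]
    exact (lt_of_lt_of_le aleph0_pos ((hc0 i).trans (le_succ _))).ne'
  have hΛne : Nonempty Λ := ⟨(hne (Classical.arbitrary K)).some⟩
  have hSne : Nonempty (Stg V K Λ) :=
    ⟨⟨∅, fun _ _ _ => hVne.some, fun _ => hΛne.some⟩⟩
  obtain ⟨s, hs⟩ := exists_rec (K := K) (A := Stg V K Λ)
    (fun j s x => IsStep lam τ idx P c Θ D j (Act s j) (Frz Θ D s j x.g) x)
    (by
      intro j s s' x hss h
      rw [← Act_congr hss, ← Frz_congr hss]
      exact h)
    (fun j s hs => exists_isStep hG hP1 hP2 hidx hc hcK hc0 hΘ hD (hp j) hs hτ hV)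
  have ht : ∀ j, ∀ W ∈ Act s j, (∃ σ ≤ τ, otp W = ω ^ σ) ∧ lam.ord ≤ otp W := by
    rintro j W (rfl | ⟨a, ha, hW⟩)
    · have h1 : otp (Set.univ : Set V) = ω ^ τ := by rw [otp_univ, hV]
      exact ⟨⟨τ, le_rfl, h1⟩, by rw [h1]; exact hτ⟩
    · exact (hs a).type_B W hW
  set hh : K → K → Λ := fun i j => if i < j then (s j).g i else (hne i).some with hhdef
  have hh1 : ∀ i j, i < j → hh i j = (s j).g i := by
    intro i j hij
    simp only [hhdef, if_pos hij]
  have hhmem : ∀ i, hh i ∈ Hf Θ i := by
    intro i j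
    by_cases hij : i < j
    · rw [hh1 i j hij]
      exact (hs j).g_mem i hij
    · simp only [hhdef, if_neg hij]
      exact (hne i).some_mem
  set H : Set V := {v | ∃ i, ∃ W ∈ Act s i, ∃ ξ ∈ D i, v = (s i).pt W (hh i) ξ} with hH
  have hfrz : ∀ i i', i < i' → ∀ W ∈ Act s i, ∀ ξ ∈ D i,
      (s i).pt W (hh i) ξ ∈ Frz Θ D s i' (s i').g := by
    intro i i' hii W hW ξ hξ
    exact ⟨i, hii, W, hW, hh i, hhmem i, ξ, hξ, fun j' hj1 _ => hh1 i j' hj1, hh1 i i' hii, rfl⟩
  refine ⟨H, ?_, ?_⟩
  · -- the type
    have key : ∀ σ : Ordinal.{u}, ∀ n, ∀ W ∈ Act s n, otp W = ω ^ σ →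
        ω ^ σ ≤ otp (H ∩ W : Set V) := by
      intro σ
      induction σ using WellFoundedLT.induction with
      | ind σ ih =>
        intro n W hW hσ
        have hlamσ : lam.ord ≤ ω ^ σ := by
          rw [← hσ]
          exact (ht n W hW).2
        have hσ0 : σ ≠ 0 := by
          rintro rfl
          rw [opow_zero] at hlamσ
          have h1 : (1 : Ordinal.{u}) < lam.ord := by
            rw [lt_ord]
            simpa using one_lt_aleph0.trans_le hlam
          exact absurd h1 (not_lt.2 hlamσ)
        rcases eq_or_lt_of_le hlamσ with hleaf | hnl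
        · -- a leaf
          rw [← hleaf]
          apply ord_le_otp_of_card
          apply hsup
          intro m
          have hWm : W ∈ Act s (max n m) := Act_mono s (le_max_left n m) hW
          refine (mk_le_mk_of_subset (hDm (le_max_right n m))).trans ?_
          refine mk_le_of_injective (f := fun ξ : D (max n m) =>
            (⟨(s (max n m)).pt W (hh (max n m)) ξ.1,
              ⟨max n m, W, hWm, ξ.1, ξ.2, rfl⟩,
              ((hs (max n m)).pt_mem W hWm _ (hhmem _) ξ.1 ξ.2).1⟩ : (H ∩ W : Set V))) ?_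
          intro ξ ξ' hξ
          have h1 : (s (max n m)).pt W (hh (max n m)) ξ.1 =
            (s (max n m)).pt W (hh (max n m)) ξ'.1 := congrArg Subtype.val hξ
          have h2 := (hs (max n m)).pt_inj W hWm _ (hhmem _) ξ.1 ξ.2 W hWm _ (hhmem _) ξ'.1 ξ'.2
            (by rw [h1])
          exact Subtype.ext h2.2.2
        · rcases zero_or_succ_or_isSuccLimit σ with rfl | ⟨ρ, rfl⟩ | hlim
          · exact absurd rfl hσ0
          · -- successor
            have hlamρ : lam.ord ≤ ω ^ ρ := by
              rw [he] at hnl ⊢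
              have h1 := (opow_lt_opow_iff_right one_lt_omega0).1 hnl
              exact opow_le_opow_right omega0_pos (lt_succ_iff.1 h1)
            have hk : ∀ k : ℕ, ∀ n, ∀ W ∈ Act s n, otp W = ω ^ succ ρ →
                ω ^ ρ * (k : Ordinal.{u}) ≤ otp (H ∩ W : Set V) := by
              intro k
              induction k with
              | zero =>
                intro n W _ _
                simp
              | succ k ihk =>
                intro n W hW hσ
                obtain ⟨n', hn'⟩ := exists_gt n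
                obtain ⟨⟨W', hW', h1, h2, h3⟩, -⟩ := (hs n).children W hW _ hσ
                obtain ⟨C, hC, h4, h5, h6⟩ := h3 ρ rfl hlamρ
                have h7 := ih ρ (lt_succ ρ) n' C (Or.inr ⟨n, hn', hC⟩) h5
                have h8 := ihk n' W' (Or.inr ⟨n, hn', hW'⟩) h2
                have h9 : ω ^ ρ * ((k + 1 : ℕ) : Ordinal.{u}) =
                    ω ^ ρ + ω ^ ρ * (k : Ordinal.{u}) := by
                  rw [← mul_one_add]
                  congr 1
                  exact_mod_cast (add_comm k 1)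
                rw [h9]
                refine (add_le_add h7 h8).trans (otp_add_le ?_ ?_ ?_)
                · exact inter_subset_inter_right _ h4
                · exact inter_subset_inter_right _ h1
                · exact fun x hx y hy => h6 x hx.2 y hy.2
            rw [Ordinal.opow_succ, mul_le_iff_of_isSuccLimit isSuccLimit_omega0]
            intro b hb
            obtain ⟨k, rfl⟩ := lt_omega0.1 hb
            exact hk k n W hW hσ
          · -- limit
            rw [opow_le_of_isSuccLimit omega0_ne_zero hlim]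
            intro ρ hρ
            have heσ : e < σ := by
              rw [he] at hnl
              exact (opow_lt_opow_iff_right one_lt_omega0).1 hnl
            have hm : max ρ e < σ := max_lt hρ heσ
            refine (opow_le_opow_right omega0_pos (le_max_left ρ e)).trans ?_
            obtain ⟨m, hm'⟩ := hDU (idx (max ρ e))
            have hWm : W ∈ Act s (max n m) := Act_mono s (le_max_left n m) hW
            obtain ⟨C, hC, h3, h4⟩ := ((hs (max n m)).children W hWm σ hσ).2 (max ρ e) hm
              (hDm (le_max_right n m) hm') (by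
                rw [he]
                exact opow_le_opow_right omega0_pos (le_max_right _ _))
            obtain ⟨n', hn'⟩ := exists_gt (max n m)
            refine (ih _ hm n' C (Or.inr ⟨max n m, hn', hC⟩) h4).trans (otp_set_mono ?_)
            exact inter_subset_inter_right _ h3
    have := key τ (Classical.arbitrary K) Set.univ (Or.inl rfl) (by rw [otp_univ, hV])
    rwa [inter_univ] at this
  · -- independence
    rintro x ⟨i, W, hW, ξ, hξ, hx⟩ y ⟨i', W', hW', ξ', hξ', hy⟩ h
    rcases lt_trichotomy i i' with hii | rfl | hii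
    · exfalso
      have h1 := hfrz i i' hii W hW ξ hξ
      rw [← hx] at h1
      have h2 := (hs i').pt_mem W' hW' _ (hhmem i') ξ' hξ'
      rw [← hy] at h2
      exact h2.2.1 ⟨x, h1, h⟩
    · rw [hx, hy] at h
      obtain ⟨h1, -, h2⟩ := (hs i).pt_inj W hW _ (hhmem i) ξ hξ W' hW' _ (hhmem i) ξ' hξ' h
      rw [hx, hy, h1, h2]
    · exfalso
      have h1 := hfrz i' i hii W' hW' ξ' hξ'
      rw [← hy] at h1
      have h2 := (hs i).pt_mem W hW _ (hhmem i) ξ hξ
      rw [← hx] at h2
      exact h2.2.2 ⟨y, h1, h⟩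

end IPath
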