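import Pool.Agent.Work.MP_820435_lc.InjChoice
import Pool.Agent.Work.MP_820435_lc.GoodC

/-!
# Ordinal graphs of arbitrary (also singular) cardinality (helper9)
-/

open Ordinal Cardinal Set Order

universe u

namespace IPath

/-- elements that are eventually in finite sets indexed by a linear order form a countable set -/
theorem countable_of_thr {Λ K : Type u} [LinearOrder K] [WellFoundedLT K] (D : K → Set Λ)
    (hD : ∀ m, (D m).Finite) : {j | ∃ m0, ∀ m, m0 ≤ m → j ∈ D m}.Countable := by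
  classical
  set C : Set Λ := {j | ∃ m0, ∀ m, m0 ≤ m → j ∈ D m} with hC
  rcases isEmpty_or_nonempty K with hK | hK
  · have : C = ∅ := by
      rw [eq_empty_iff_forall_notMem]
      rintro j ⟨m0, -⟩
      exact hK.elim m0
    rw [this]
    exact countable_empty
  have h1 : ∀ j, ∃ m0, j ∈ C → ∀ m, m0 ≤ m → j ∈ D m := by
    intro j
    by_cases hj : j ∈ C
    · obtain ⟨m0, hm0⟩ := hj
      exact ⟨m0, fun _ => hm0⟩
    · exact ⟨Classical.arbitrary _, fun h => absurd h hj⟩
  choose thr hthr using h1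
  set A : Λ → Set Λ := fun j => {j' | j' ∈ C ∧ thr j' ≤ thr j} with hA
  have hAfin : ∀ j, (A j).Finite := by
    intro j
    refine (hD (thr j)).subset ?_
    rintro j' ⟨h2, h3⟩
    exact hthr j' h2 _ h3
  have hCeq : C = ⋃ n : ℕ, {j | j ∈ C ∧ (A j).ncard = n} := by
    ext j
    simp
  rw [hCeq]
  refine countable_iUnion fun n => ?_
  rcases eq_empty_or_nonempty {j | j ∈ C ∧ (A j).ncard = n} with h2 | ⟨j0, hj0, hn⟩
  · rw [h2]
    exact countable_empty
  · refine ((hAfin j0).subset ?_).countable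
    rintro j ⟨hj, hjn⟩
    refine ⟨hj, ?_⟩
    rcases le_total (thr j) (thr j0) with h3 | h3
    · exact h3
    · have hsub : A j0 ⊆ A j := by
        rintro j' ⟨h4, h5⟩
        exact ⟨h4, h5.trans h3⟩
      have heq : A j0 = A j :=
        Set.eq_of_subset_of_ncard_le hsub (by rw [hjn, hn]) (hAfin j)
      have h6 : j ∈ A j := ⟨hj, le_rfl⟩
      rw [← heq] at h6
      exact h6.2

/-- The main step, on a lexicographic product, for an arbitrary cardinal above `ν`. -/
theorem graph_of_goodC {ν lam : Cardinal.{u}} (hν : ℵ₀ ≤ ν) (hlam : ν < lam) {B K Λ : Type u}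
    [LinearOrder B] [WellFoundedLT B] [LinearOrder K] [WellFoundedLT K] (hK : otp K = lam.ord)
    (hB : #B ≤ lam) (hΛ : #Λ = succ ν) (hgood : GoodC Λ (succ ν) (otp B))
    (G : SimpleGraph (B ×ₗ K)) (hG : ¬ HasRay G) :
    ∃ S : Set (B ×ₗ K), otp S = lam.ord * otp B ∧ ∀ x ∈ S, ∀ y ∈ S, ¬ G.Adj x y := by
  classical
  obtain ⟨P, hP1, hP2, hP3⟩ := exists_tree hG
  have hKc : #K = lam := by
    have := congrArg Ordinal.card hK
    rwa [card_type, card_ord] at this
  have hKord : (#K).ord = typeLT K := by rw [hKc]; exact hK.symm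
  obtain ⟨k⟩ : Nonempty (B ↪ K) := by
    rw [← hKc] at hB
    exact hB
  obtain ⟨ρ, hρdef⟩ : ∃ ρ : K → Cardinal.{u}, ∀ m, ρ m = max ν #(Iio m) :=
    ⟨fun m => max ν #(Iio m), fun m => rfl⟩
  have hρlam : ∀ m, ρ m < lam := by
    intro m
    rw [hρdef]
    exact max_lt hlam ((mk_Iio_lt m hKord).trans_eq hKc)
  have hρν : ∀ m, ν ≤ ρ m := fun m => by rw [hρdef]; exact le_max_left _ _
  have hρI : ∀ m, #(Iio m) ≤ ρ m := fun m => by rw [hρdef]; exact le_max_right _ _
  have hρ0 : ∀ m, ℵ₀ ≤ ρ m := fun m => hν.trans (hρν m)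
  have hIio : ∀ m m' : K, m ≤ m' → #(Iio m) ≤ #(Iio m') := fun m m' h =>
    mk_le_mk_of_subset (Iio_subset_Iio h)
  -- the slices
  set U : B → Set (B ×ₗ K) := fun y => {v | (ofLex v).1 = y} with hU
  have hUc : ∀ y, lam ≤ #(U y) := by
    intro y
    rw [← hKc]
    refine mk_le_of_injective (f := fun k : K => (⟨toLex (y, k), rfl⟩ : U y)) ?_
    intro k k' h
    have := congrArg (fun v : U y => (ofLex v.1).2) h
    exact this
  choose L hL1 hL2 using fun q : B × K => exists_stop (κ := succ (ρ q.2)) P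
    (succ_pos (ρ q.2)).ne' hG hP2 (U q.1) ((succ_le_of_lt (hρlam q.2)).trans (hUc q.1))
  have hN := fun q : B × K => card_children P (isRegular_succ (hρ0 q.2)) hP1 (U q.1) (L q)
    (hL1 q) (hL2 q)
  -- the requests
  let T : Type u := {t : Λ × B × K × K // k t.2.1 ≤ t.2.2.1 ∧ #(Iio t.2.2.2) ≤ ρ t.2.2.1}
  have hcount : ∀ c : Cardinal.{u}, ℵ₀ ≤ c → #Λ ≤ c → ∀ R : Set T,
      (∀ t ∈ R, ρ t.1.2.2.1 < c) → #R ≤ c := by
    intro c hc hΛc R hR
    have hS : #{m : K | #(Iio m) < c} ≤ c := mk_le_of_Iio _ c (fun m hm => hm)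
    have h4 : #R ≤ #(Λ × {m : K | #(Iio m) < c} × {m : K | #(Iio m) < c} ×
        {m : K | #(Iio m) < c}) := by
      refine mk_le_of_injective (f := fun t : R => (t.1.1.1,
        ⟨k t.1.1.2.1, ((hIio _ _ t.1.2.1).trans (hρI _)).trans_lt (hR t.1 t.2)⟩,
        ⟨t.1.1.2.2.1, (hρI _).trans_lt (hR t.1 t.2)⟩,
        ⟨t.1.1.2.2.2, t.1.2.2.trans_lt (hR t.1 t.2)⟩)) ?_
      rintro ⟨⟨⟨j, y, m, t⟩, h5⟩, h6⟩ ⟨⟨⟨j', y', m', t'⟩, h5'⟩, h6'⟩ h7
      simp only [Prod.mk.injEq, Subtype.mk.injEq, EmbeddingLike.apply_eq_iff_eq] at h7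
      obtain ⟨rfl, rfl, rfl, rfl⟩ := h7
      rfl
    refine h4.trans ?_
    rw [mk_prod, mk_prod, mk_prod]
    simp only [Cardinal.lift_id]
    refine (mul_le_mul' hΛc (mul_le_mul' hS (mul_le_mul' hS hS))).trans ?_
    rw [mul_eq_self hc, mul_eq_self hc, mul_eq_self hc]
  obtain ⟨g, hg1, hg2⟩ := inj_choice_size (T := T) (W := List (B ×ₗ K))
    (fun t => succ (ρ t.1.2.2.1))
    (by
      intro t
      rcases eq_or_lt_of_le (hρν t.1.2.2.1) with h | h
      · have h5 : {s : T | succ (ρ s.1.2.2.1) < succ (ρ t.1.2.2.1)} = ∅ := by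
          rw [eq_empty_iff_forall_notMem]
          intro s hs
          rw [mem_ofPred_eq, succ_lt_succ_iff, ← h] at hs
          exact absurd (hρν s.1.2.2.1) (not_le.2 hs)
        rw [h5]
        simp
      · refine (hcount (ρ t.1.2.2.1) (hρ0 _) ?_ _ ?_).trans_lt (lt_succ _)
        · rw [hΛ]
          exact succ_le_of_lt h
        · intro s hs
          rw [mem_ofPred_eq, succ_lt_succ_iff] at hs
          exact hs)
    (by
      intro t
      refine hcount (succ (ρ t.1.2.2.1)) ((hρ0 _).trans (le_succ _)) ?_ _ ?_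
      · rw [hΛ]
        exact succ_le_succ (hρν _)
      · intro s hs
        rw [mem_ofPred_eq] at hs
        rw [← hs]
        exact lt_succ _)
    (fun t => (hρ0 _).trans (le_succ _))
    (fun t => {L' : List (B ×ₗ K) | (∃ a, L' = a :: L (t.1.2.1, t.1.2.2.1)) ∧
      (U t.1.2.1 ∩ cone P L').Nonempty})
    (fun t => hN (t.1.2.1, t.1.2.2.1))
  -- the set mapping
  set b0 : B × K → Set Λ := fun q => {j | ∃ t : T, t.1.1 = j ∧ g t <:+ L q} with hb0
  have hfin : ∀ q, (b0 q).Finite := by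
    intro q
    have h1 : ({L' : List (B ×ₗ K) | L' <:+ L q}).Finite := by
      refine (List.finite_toSet (L q).tails).subset ?_
      intro L' hL'
      exact (List.mem_tails L' (L q)).2 hL'
    have h2 : ({t : T | g t <:+ L q}).Finite := Set.Finite.preimage (f := g) hg1.injOn h1
    refine (h2.image (fun t => t.1.1)).subset ?_
    rintro j ⟨t, rfl, ht⟩
    exact ⟨t, ht, rfl⟩
  set bs : B → Set Λ := fun y => {j | ∃ m0, ∀ m, m0 ≤ m → j ∈ b0 (y, max m (k y))} with hbs
  have hbsc : ∀ y, (bs y).Countable := fun y =>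
    countable_of_thr (fun m => b0 (y, max m (k y))) (fun m => hfin _)
  obtain ⟨j, hj⟩ : ∃ j, j ∉ badC bs := by
    by_contra hcon
    push Not at hcon
    have h1 : badC bs = Set.univ := eq_univ_of_forall hcon
    have h2 := hgood B rfl bs hbsc
    rw [h1, mk_univ, hΛ] at h2
    exact h2.false
  simp only [badC, mem_ofPred_eq, not_lt] at hj
  choose p hp1 hp2 using fun t => (hg2 t).2
  set B' : Set B := {y | j ∉ bs y} with hB'
  set S : Set (B ×ₗ K) := {v | ∃ t : T, t.1.1 = j ∧ j ∉ b0 (t.1.2.1, t.1.2.2.1) ∧ v = p t} with hS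
  refine ⟨S, le_antisymm ?_ ?_, ?_⟩
  · refine (otp_set_le S).trans ?_
    rw [otp_prodLex, hK]
  · refine le_trans ?_ (mul_le_otp_of_fib S B' lam.ord ?_)
    · gcongr
    · intro y hy
      apply ord_le_otp_of_card
      refine le_of_forall_lt ?_
      intro c hc
      -- a large good index
      obtain ⟨m0, hm0⟩ : ∃ m0 : K, #(Iio m0) = c := by
        have h1 : c.ord < typeLT K := by
          change c.ord < otp K
          rw [hK]
          exact ord_lt_ord.2 hc
        obtain ⟨m0, hm0⟩ := typein_surj (α := K) (· < ·) h1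
        refine ⟨m0, ?_⟩
        have h2 := card_typein (r := ((· < ·) : K → K → Prop)) m0
        rw [hm0, card_ord] at h2
        exact h2.symm
      rw [hB', mem_ofPred_eq, hbs] at hy
      simp only [mem_ofPred_eq, not_exists, not_forall] at hy
      obtain ⟨m, hm, hjm⟩ := hy m0
      have hcρ : c ≤ ρ (max m (k y)) := by
        rw [← hm0]
        exact (hIio _ _ (hm.trans (le_max_left _ _))).trans (hρI _)
      refine lt_of_le_of_lt hcρ (lt_of_lt_of_le (lt_mk_Iio_le (K := K) (ρ (max m (k y))) ?_) ?_)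
      · rw [hKc]
        exact hρlam _
      · let tt : {t : K | #(Iio t) ≤ ρ (max m (k y))} → T := fun t =>
          ⟨(j, y, max m (k y), t.1), le_max_right _ _, t.2⟩
        have hpy : ∀ t, toLex (y, (ofLex (p (tt t))).2) = p (tt t) := by
          intro t
          have h1 : (ofLex (p (tt t))).1 = y := hp1 (tt t)
          apply ofLex.injective
          exact Prod.ext h1.symm rfl
        refine mk_le_of_injective (f := fun t =>
          (⟨(ofLex (p (tt t))).2, ⟨tt t, rfl, hjm, hpy t⟩⟩ : fib S y)) ?_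
        intro t t' h
        have h1 : (ofLex (p (tt t))).2 = (ofLex (p (tt t'))).2 := congrArg Subtype.val h
        have h2 : p (tt t) = p (tt t') := by rw [← hpy t, ← hpy t', h1]
        have h3 : g (tt t) <:+ P (p (tt t)) := hp2 (tt t)
        have h4 : g (tt t') <:+ P (p (tt t)) := by rw [h2]; exact hp2 (tt t')
        obtain ⟨a, ha⟩ := (hg2 (tt t)).1
        obtain ⟨a', ha'⟩ := (hg2 (tt t')).1
        have h5 : g (tt t) = g (tt t') := by
          have hlen : (g (tt t)).length = (g (tt t')).length := by rw [ha, ha']; simp [tt]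
          rcases List.suffix_or_suffix_of_suffix h3 h4 with h | h
          · exact h.eq_of_length hlen
          · exact (h.eq_of_length hlen.symm).symm
        have h6 := congrArg (fun t : T => t.1.2.2.2) (hg1 h5)
        exact Subtype.ext h6
  · have key : ∀ t t' : T, t.1.1 = j → t'.1.1 = j → j ∉ b0 (t.1.2.1, t.1.2.2.1) →
        j ∉ b0 (t'.1.2.1, t'.1.2.2.1) → G.Adj (p t) (p t') → ¬ P (p t) <:+ P (p t') := by
      intro t t' ht ht' hbt hbt' hadj hsuf
      have h1 : g t <:+ P (p t') := (hp2 t).trans hsuf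
      have h2 : g t' <:+ P (p t') := hp2 t'
      have hne : g t ≠ g t' := by
        intro h
        rw [hg1 h] at hadj
        exact G.loopless.irrefl _ hadj
      obtain ⟨a, ha⟩ := (hg2 t).1
      obtain ⟨a', ha'⟩ := (hg2 t').1
      rcases List.suffix_or_suffix_of_suffix h1 h2 with h | h
      · rw [ha'] at h hne
        rcases List.suffix_cons_iff.1 h with h3 | h3
        · exact hne h3
        · exact hbt' ⟨t, ht, h3⟩
      · rw [ha] at h hne
        rcases List.suffix_cons_iff.1 h with h3 | h3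
        · exact hne h3.symm
        · exact hbt ⟨t', ht', h3⟩
    rintro x ⟨t, ht, hbt, rfl⟩ x' ⟨t', ht', hbt', rfl⟩ hadj
    rcases hP3 _ _ hadj with h | h
    · exact key t t' ht ht' hbt hbt' hadj h
    · exact key t' t ht' ht hbt' hbt hadj.symm h

end IPath
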