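import Mathlib

/-!
# Tail-free sequences, omega-Erdos orders, and the triangle argument (helper9)
-/

open Set

namespace Pool.Agent.W820

universe u v

/-- every assignment of finite sets to finite sequences has an infinite tail-free sequence -/
def TailFree (N : Type u) : Prop :=
  ∀ F : List N → Finset N, ∃ y : ℕ → N, ∀ i n : ℕ,
    y i ∉ F ((List.range n).map (fun k => y (i + 1 + k)))

/-- the partition relation `N → (ω)^{<ω}_2` for a linear order `N` -/
def OmegaErdos (N : Type u) [LinearOrder N] : Prop :=
  ∀ c : Finset N → Prop, ∃ H : ℕ → N, StrictMono H ∧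
    ∀ s t : Finset N, (s : Set N) ⊆ range H → (t : Set N) ⊆ range H → s.card = t.card →
      (c s ↔ c t)

section erdos

variable {N : Type u} [LinearOrder N]

/-- the colour of a list -/
def colr (F : List N → Finset N) (n k : ℕ) (L : List N) : Prop :=
  if k = 0 then ∃ a l, L = a :: l ∧ a ∈ F (l.take n) else k ≤ (F (L.take n)).card

/-- the colour of a finite set -/
def colS (F : List N → Finset N) (s : Finset N) : Prop :=
  colr F (Nat.unpair (s.card - 1)).1 (Nat.unpair (s.card - 1)).2 (s.sort (· ≤ ·))

/-- the list `H i, H (m+1), ..., H (m+M)` -/
def lst (H : ℕ → N) (i m M : ℕ) : List N := H i :: (List.range M).map (fun k => H (m + 1 + k))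

lemma lst_pairwise {H : ℕ → N} (hH : StrictMono H) {i m : ℕ} (him : i ≤ m) (M : ℕ) :
    (lst H i m M).Pairwise (· < ·) := by
  unfold lst
  rw [List.pairwise_cons]
  constructor
  · intro a ha
    rw [List.mem_map] at ha
    obtain ⟨k, -, rfl⟩ := ha
    exact hH (by omega)
  · rw [List.pairwise_map]
    refine List.Pairwise.imp ?_ List.pairwise_lt_range
    intro a b hab
    exact hH (by omega)

lemma colS_lst {F : List N → Finset N} {H : ℕ → N} (hH : StrictMono H) {i m : ℕ} (him : i ≤ m)
    (n k : ℕ) :
    colS F (lst H i m (Nat.pair n k)).toFinset ↔ colr F n k (lst H i m (Nat.pair n k)) := by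
  have hp := lst_pairwise hH him (Nat.pair n k)
  have hnd : (lst H i m (Nat.pair n k)).Nodup := hp.imp (fun h => ne_of_lt h)
  have hcard : (lst H i m (Nat.pair n k)).toFinset.card = Nat.pair n k + 1 := by
    rw [List.toFinset_card_of_nodup hnd]
    simp [lst]
  have hsort : (lst H i m (Nat.pair n k)).toFinset.sort (· ≤ ·) = lst H i m (Nat.pair n k) := by
    rw [List.toFinset_sort (· ≤ ·) hnd]
    exact hp.imp (fun h => le_of_lt h)
  unfold colS
  rw [hcard, hsort, Nat.add_sub_cancel, Nat.unpair_pair]

lemma lst_sub {H : ℕ → N} (i m M : ℕ) : ((lst H i m M).toFinset : Set N) ⊆ range H := by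
  intro a ha
  simp only [lst, List.coe_toFinset, List.mem_cons, List.mem_map] at ha
  rcases ha with rfl | ⟨k, -, rfl⟩
  · exact mem_range_self _
  · exact mem_range_self _

lemma take_lst_tail (H : ℕ → N) (m : ℕ) {n M : ℕ} (h : n ≤ M) :
    ((List.range M).map (fun k => H (m + 1 + k))).take n
      = (List.range n).map (fun k => H (m + 1 + k)) := by
  rw [← List.map_take, List.take_range, min_eq_left h]

/-- omega-Erdos orders have tail-free sequences -/
theorem tailFree_of_omegaErdos (hE : OmegaErdos N) : TailFree N := by
  intro F
  obtain ⟨H, hH, hhom⟩ := hE (colS F)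
  have hcard : ∀ {i m : ℕ}, i ≤ m → ∀ M, (lst H i m M).toFinset.card = M + 1 := by
    intro i m him M
    have hnd : (lst H i m M).Nodup := (lst_pairwise hH him M).imp (fun h => ne_of_lt h)
    rw [List.toFinset_card_of_nodup hnd]
    simp [lst]
  have hom : ∀ {i m i' m' : ℕ}, i ≤ m → i' ≤ m' → ∀ n k : ℕ,
      (colr F n k (lst H i m (Nat.pair n k)) ↔ colr F n k (lst H i' m' (Nat.pair n k))) := by
    intro i m i' m' h1 h2 n k
    rw [← colS_lst hH h1, ← colS_lst hH h2]
    exact hhom _ _ (lst_sub _ _ _) (lst_sub _ _ _) (by rw [hcard h1, hcard h2])
  refine ⟨H, ?_⟩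
  intro i n hmem
  -- the colour for `n` is then always true
  have htrue : colr F n 0 (lst H i i (Nat.pair n 0)) := by
    unfold colr
    rw [if_pos rfl]
    refine ⟨H i, (List.range (Nat.pair n 0)).map (fun k => H (i + 1 + k)), rfl, ?_⟩
    rw [take_lst_tail H i (Nat.left_le_pair n 0)]
    exact hmem
  have hall : ∀ i' m : ℕ, i' ≤ m →
      H i' ∈ F ((List.range n).map (fun k => H (m + 1 + k))) := by
    intro i' m him
    have h1 := (hom (le_refl i) him n 0).1 htrue
    unfold colr at h1
    rw [if_pos rfl] at h1
    obtain ⟨a, l, hal, ha⟩ := h1
    unfold lst at hal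
    rw [List.cons.injEq] at hal
    obtain ⟨h2, h3⟩ := hal
    rw [← h3, take_lst_tail H m (Nat.left_le_pair n 0)] at ha
    rw [h2]
    exact ha
  have hbig : ∀ m : ℕ, m + 1 ≤ (F ((List.range n).map (fun k => H (m + 1 + k)))).card := by
    intro m
    have hsub : (Finset.range (m + 1)).image H
        ⊆ F ((List.range n).map (fun k => H (m + 1 + k))) := by
      intro a ha
      rw [Finset.mem_image] at ha
      obtain ⟨i', hi', rfl⟩ := ha
      rw [Finset.mem_range] at hi'
      exact hall i' m (by omega)
    have h1 := Finset.card_le_card hsub
    rw [Finset.card_image_of_injective _ hH.injective, Finset.card_range] at h1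
    exact h1
  -- take a large k
  have hk : ∀ k : ℕ, k ≠ 0 → k ≤ (F ((List.range n).map (fun j => H (0 + j)))).card := by
    intro k hk0
    have e : ∀ m : ℕ, (lst H m m (Nat.pair n k)).take n = (List.range n).map (fun j => H (m + j)) := by
      intro m
      have h1 : lst H m m (Nat.pair n k) = (List.range (Nat.pair n k + 1)).map (fun j => H (m + j)) := by
        unfold lst
        rw [List.range_succ_eq_map, List.map_cons, List.map_map]
        congr 1
        apply List.map_congr_left
        intro j _
        simp only [Function.comp]
        congr 1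
        omega
      rw [h1, ← List.map_take, List.take_range, min_eq_left]
      have := Nat.left_le_pair n k
      omega
    have h1 : colr F n k (lst H (k + 1) (k + 1) (Nat.pair n k)) := by
      unfold colr
      rw [if_neg hk0, e]
      have := hbig k
      omega
    have h2 := (hom (le_refl (k + 1)) (le_refl 0) n k).1 h1
    unfold colr at h2
    rw [if_neg hk0, e] at h2
    exact h2
  have := hk ((F ((List.range n).map (fun j => H (0 + j)))).card + 1) (by omega)
  omega

end erdos

section triangle

variable {N : Type u} {O : Type v}

/-- the sequence attached to a finite sequence of colours -/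
def dseq (f : List O → N → O) : List N → List O
  | [] => []
  | a :: l => (List.range (l.length + 1)).map (fun k => f ((dseq f l).take k) a)

lemma dseq_length (f : List O → N → O) (l : List N) : (dseq f l).length = l.length := by
  cases l with
  | nil => rfl
  | cons a l => simp [dseq]

/-- initial segments: the last colours do not change the first terms -/
lemma dseq_append (f : List O → N → O) (l m : List N) :
    (dseq f (l ++ m)).take l.length = dseq f l := by
  induction l with
  | nil => simp [dseq]
  | cons a l ih =>
    rw [List.cons_append, dseq, dseq, List.length_cons, ← List.map_take, List.take_range,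
      List.length_append, min_eq_left (by omega)]
    apply List.map_congr_left
    intro k hk
    rw [List.mem_range] at hk
    congr 1
    rw [← ih, List.take_take, min_eq_left (by omega)]

/-- The triangle argument. -/
theorem triangle [Preorder O] [WellFoundedLT O] (hTF : TailFree N) (xi : O)
    (f : List O → N → O) (Z : List O → Finset N) (h0 : ∀ j, f [] j < xi)
    (hf : ∀ (l : List O) (x : O) (j : N), (∀ z ∈ l ++ [x], z < xi) →
      (l ++ [x]).Pairwise (· > ·) → j ∉ Z l → f (l ++ [x]) j < f l j) : False := by
  obtain ⟨y, hy⟩ := hTF (fun l => Z (dseq f l))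
  -- the level sequences
  set S : ℕ → ℕ → List O := fun i m => dseq f ((List.range m).map (fun k => y (i + k))) with hS
  have hSlen : ∀ i m, (S i m).length = m := by
    intro i m
    rw [hS]
    simp only
    rw [dseq_length]
    simp
  have hrange : ∀ i m, (List.range (m + 1)).map (fun k => y (i + k))
      = (List.range m).map (fun k => y (i + k)) ++ [y (i + m)] := by
    intro i m
    rw [List.range_succ, List.map_append]
    rfl
  have htake : ∀ i m, (S i (m + 1)).take m = S i m := by
    intro i m
    rw [hS]
    simp only
    rw [hrange]
    have := dseq_append f ((List.range m).map (fun k => y (i + k))) [y (i + m)]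
    rw [List.length_map, List.length_range] at this
    exact this
  have htake' : ∀ i m k, k ≤ m → (S i m).take k = S i k := by
    intro i m k hkm
    induction m, hkm using Nat.le_induction with
    | base => rw [List.take_of_length_le (le_of_eq (hSlen i k))]
    | succ m hm ih =>
      rw [← ih, ← htake i m, List.take_take, min_eq_left hm]
  have hcons : ∀ i m, S i (m + 1) = (List.range (m + 1)).map (fun k => f (S (i + 1) k) (y i)) := by
    intro i m
    have h1 : (List.range (m + 1)).map (fun k => y (i + k))
        = y i :: (List.range m).map (fun k => y (i + 1 + k)) := by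
      rw [List.range_succ_eq_map, List.map_cons, List.map_map]
      congr 1
      apply List.map_congr_left
      intro k _
      simp only [Function.comp]
      congr 1
      omega
    have h2 : S i (m + 1) = dseq f ((List.range (m + 1)).map (fun k => y (i + k))) := rfl
    rw [h2, h1, dseq, List.length_map, List.length_range]
    apply List.map_congr_left
    intro k hk
    rw [List.mem_range] at hk
    congr 1
    exact htake' (i + 1) m k (by omega)
  -- the terms
  set G : ℕ → ℕ → O := fun i m => f (S (i + 1) m) (y i) with hG
  have hSG : ∀ i m, S i m = (List.range m).map (G i) := by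
    intro i m
    cases m with
    | zero => rfl
    | succ m => exact hcons i m
  have hSsucc : ∀ i m, S i (m + 1) = S i m ++ [G i m] := by
    intro i m
    rw [hSG, hSG, List.range_succ, List.map_append]
    rfl
  have hfree : ∀ i m, y i ∉ Z (S (i + 1) m) := fun i m => hy i m
  have hdec : ∀ m i, G i (m + 1) < G i m := by
    intro m
    induction m using Nat.strong_induction_on with
    | _ m ih =>
      intro i
      have hlt : ∀ a b : ℕ, a < b → b ≤ m → G (i + 1) b < G (i + 1) a := by
        intro a b hab
        induction b, hab using Nat.le_induction with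
        | base =>
          intro hb
          exact ih a (by omega) (i + 1)
        | succ b hb ihb =>
          intro hbm
          exact lt_trans (ih b (by omega) (i + 1)) (ihb (by omega))
      have hlt0 : ∀ b : ℕ, b ≤ m → G (i + 1) b < xi := by
        intro b hb
        rcases Nat.eq_zero_or_pos b with rfl | hb0
        · exact h0 _
        · exact lt_trans (hlt 0 b hb0 hb) (h0 _)
      have hv : G i (m + 1) = f (S (i + 1) m ++ [G (i + 1) m]) (y i) := by
        rw [hG]
        simp only
        rw [hSsucc]
      rw [hv]
      apply hf
      · intro z hz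
        rw [← hSsucc, hSG, List.mem_map] at hz
        obtain ⟨b, hb, rfl⟩ := hz
        rw [List.mem_range] at hb
        exact hlt0 b (by omega)
      · rw [← hSsucc, hSG, List.pairwise_map]
        refine List.Pairwise.imp_of_mem ?_ (List.pairwise_lt_range (n := m + 1))
        intro a b _ hb hab
        rw [List.mem_range] at hb
        exact hlt a b hab (by omega)
      · exact hfree i m
  obtain ⟨m, hm⟩ := WellFounded.has_min (wellFounded_lt (α := O)) (range (G 0)) ⟨_, mem_range_self 0⟩
  obtain ⟨⟨n, rfl⟩, hmin⟩ := hm
  exact hmin _ (mem_range_self (n + 1)) (hdec n 0)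

end triangle

end Pool.Agent.W820
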