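import Pool.Agent.Work.MP_820435_lc.Rank

/-! Tame ordinals. -/

open Ordinal Cardinal Set Filter Order

universe u

namespace IPath

variable {ι : Type u}

/-- `ξ` is tame for `ι` and `θ`: every function below `ξ` has rank below `ξ`, for every proper
`θ`-complete filter on `ι`. -/
def Tame (ι : Type u) (θ : Cardinal.{u}) (ξ : Ordinal.{u}) : Prop :=
  ∀ 𝓕 : Filter ι, 𝓕.NeBot → CardinalInterFilter 𝓕 θ → ∀ g : ι → Ordinal.{u}, (∀ j, g j < ξ) →
    ∃ s < ξ, RkLE 𝓕 s g

variable {θ : Cardinal.{u}} {ξ δ η : Ordinal.{u}}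

theorem Tame.ev (h : Tame ι θ ξ) {𝓕 : Filter ι} [𝓕.NeBot] [CardinalInterFilter 𝓕 θ]
    {g : ι → Ordinal.{u}} (hg : ∀ᶠ j in 𝓕, g j < ξ) : ∃ s < ξ, RkLE 𝓕 s g := by
  classical
  obtain ⟨j0, hj0⟩ := hg.exists
  have hξ : 0 < ξ := pos_of_gt hj0
  obtain ⟨s, hs, h1⟩ := h 𝓕 inferInstance inferInstance (fun j => if g j < ξ then g j else 0)
    (fun j => by split_ifs with h1 <;> assumption)
  refine ⟨s, hs, h1.congr ?_⟩
  filter_upwards [hg] with j hj
  simp [hj]

theorem Tame.freq (h : Tame ι θ ξ) {𝓕 : Filter ι} [CardinalInterFilter 𝓕 θ]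
    {g : ι → Ordinal.{u}} (hg : ∃ᶠ j in 𝓕, g j < ξ) : ∃ s < ξ, RkLE 𝓕 s g := by
  have h1 : (𝓕 ⊓ 𝓟 {j | g j < ξ}).NeBot := frequently_mem_iff_neBot.1 hg
  obtain ⟨s, hs, h2⟩ := h.ev (𝓕 := 𝓕 ⊓ 𝓟 {j | g j < ξ}) (g := g) (by
    rw [eventually_inf_principal]
    exact Eventually.of_forall fun j hj => hj)
  exact ⟨s, hs, h2.mono_filter inf_le_left⟩

theorem tame_one : Tame ι θ 1 := by
  intro 𝓕 _ _ g hg
  refine ⟨0, zero_lt_one, rkLE_zero.congr ?_⟩
  exact Eventually.of_forall fun j => by simpa using hg j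

theorem tame_zero : Tame ι θ 0 := by
  intro 𝓕 h𝓕 _ g hg
  obtain ⟨j⟩ := h𝓕.nonempty
  exact absurd (hg j) (by simp)

theorem RkLE.add_left {𝓕 : Filter ι} [CardinalInterFilter 𝓕 θ] (hξ : Tame ι θ ξ)
    {s : Ordinal.{u}} : ∀ {h : ι → Ordinal.{u}}, RkLE 𝓕 s h → RkLE 𝓕 (ξ + s) fun j => ξ + h j := by
  induction s using WellFoundedLT.induction with
  | ind s ih =>
    intro h hh
    rw [rkLE_iff]
    intro F' hF'
    by_cases hfr : ∃ᶠ j in 𝓕, F' j < ξ
    · obtain ⟨t, ht, h1⟩ := hξ.freq hfr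
      exact ⟨t, ht.trans_le le_self_add, h1⟩
    · rw [not_frequently] at hfr
      rw [rkLE_iff] at hh
      obtain ⟨s', hs', h2⟩ := hh (fun j => F' j - ξ) (by
        filter_upwards [hF', hfr] with j h1 h2
        rw [not_lt] at h2
        rw [← Ordinal.add_sub_cancel_of_le h2] at h1
        exact lt_of_add_lt_add_left h1)
      refine ⟨ξ + s', by gcongr, (ih s' hs' h2).congr ?_⟩
      filter_upwards [hfr] with j h2
      rw [not_lt] at h2
      rw [Ordinal.add_sub_cancel_of_le h2]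

theorem Tame.add (h1 : Tame ι θ ξ) (h2 : Tame ι θ η) : Tame ι θ (ξ + η) := by
  intro 𝓕 h𝓕 h𝓕' g hg
  by_cases hfr : ∃ᶠ j in 𝓕, g j < ξ
  · obtain ⟨t, ht, h1⟩ := h1.freq hfr
    exact ⟨t, ht.trans_le le_self_add, h1⟩
  · rw [not_frequently] at hfr
    obtain ⟨s, hs, h3⟩ := h2.ev (𝓕 := 𝓕) (g := fun j => g j - ξ) (by
      filter_upwards [hfr] with j h2
      rw [not_lt] at h2
      have := hg j
      rw [← Ordinal.add_sub_cancel_of_le h2] at this
      exact lt_of_add_lt_add_left this)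
    refine ⟨ξ + s, by gcongr, (h3.add_left h1).congr ?_⟩
    filter_upwards [hfr] with j h2
    rw [not_lt] at h2
    rw [Ordinal.add_sub_cancel_of_le h2]

theorem tame_sup {I : Type u} (hI : #I < θ) (x : I → Ordinal.{u}) (hx : ∀ i, Tame ι θ (x i))
    (h1 : ∀ i, x i ≤ ξ) (h2 : ∀ a < ξ, ∃ i, a < x i) : Tame ι θ ξ := by
  intro 𝓕 h𝓕 h𝓕' g hg
  by_contra hcon
  have h3 : ∀ i, ∀ᶠ j in 𝓕, ¬ g j < x i := by
    intro i
    rw [← not_frequently]
    intro hfr
    obtain ⟨s, hs, h4⟩ := (hx i).freq hfr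
    exact hcon ⟨s, hs.trans_le (h1 i), h4⟩
  rw [← eventually_cardinal_forall hI] at h3
  obtain ⟨j, hj⟩ := h3.exists
  obtain ⟨i, hi⟩ := h2 (g j) (hg j)
  exact hj i hi

theorem tame_of_card_lt (h : ξ.card < θ) : Tame ι θ ξ := by
  induction ξ using WellFoundedLT.induction with
  | ind ξ ih =>
    rcases zero_or_succ_or_isSuccLimit ξ with rfl | ⟨G, rfl⟩ | hlim
    · exact tame_zero
    · exact (ih G (lt_succ G) ((Ordinal.card_le_card (le_succ G)).trans_lt h)).add tame_one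
    · refine tame_sup (I := ξ.ToType) (by simpa using h)
        (fun i => succ (i : Ordinal.{u})) (fun i => ?_) (fun i => ?_) (fun a ha => ?_)
      · have h1 : succ (i : Ordinal.{u}) < ξ := hlim.succ_lt i.toOrd.2
        exact ih _ h1 ((Ordinal.card_le_card h1.le).trans_lt h)
      · exact (hlim.succ_lt i.toOrd.2).le
      · refine ⟨ToType.mk ⟨a, ha⟩, ?_⟩
        simp


theorem RkLE.sUnion {𝓕 : Filter ι} (hθ : ℵ₀ ≤ θ) [CardinalInterFilter 𝓕 θ] {α : Ordinal.{u}}
    {f : ι → Ordinal.{u}} {S : Set (Set ι)} (hS : #S < θ) (h : RkLE (𝓕 ⊓ 𝓟 (⋃₀ S)) α f) :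
    ∃ s ∈ S, RkLE (𝓕 ⊓ 𝓟 s) α f := by
  classical
  have hO : #(Option S) < θ := by
    rw [Cardinal.mk_option]
    exact Cardinal.add_lt_of_lt hθ hS (one_lt_aleph0.trans_le hθ)
  have h1 : ∀ j : ι, ∃ o : Option S, j ∈ ⋃₀ S → ∃ s : S, o = some s ∧ j ∈ s.1 := by
    intro j
    by_cases hj : j ∈ ⋃₀ S
    · obtain ⟨s, hs, hjs⟩ := hj
      exact ⟨some ⟨s, hs⟩, fun _ => ⟨⟨s, hs⟩, rfl, hjs⟩⟩
    · exact ⟨none, fun h => absurd h hj⟩
  choose c hc using h1
  obtain ⟨i, hi⟩ := RkLE.pigeonhole (θ := θ) hO c h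
  rw [inf_assoc, inf_principal] at hi
  rcases i with _ | ⟨s, hs⟩
  · exfalso
    have hempty : ⋃₀ S ∩ c ⁻¹' {none} = ∅ := by
      rw [eq_empty_iff_forall_notMem]
      rintro j ⟨hj1, hj2⟩
      obtain ⟨s, h3, -⟩ := hc j hj1
      rw [mem_preimage, mem_singleton_iff, h3] at hj2
      exact absurd hj2 (by simp)
    rw [hempty, principal_empty, inf_bot_eq] at hi
    exact not_rkLE_bot hi
  · refine ⟨s, hs, hi.mono_filter (inf_le_inf_left _ (principal_mono.2 ?_))⟩
    rintro j ⟨hj1, hj2⟩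
    obtain ⟨t, h3, h4⟩ := hc j hj1
    rw [mem_preimage, mem_singleton_iff, h3, Option.some.injEq] at hj2
    subst hj2
    exact h4

/-- The filter of all sets whose complement has larger rank. -/
def posFilter (𝓕 : Filter ι) (hθ : ℵ₀ ≤ θ) [CardinalInterFilter 𝓕 θ] (α : Ordinal.{u})
    (f : ι → Ordinal.{u}) : Filter ι :=
  Filter.ofCardinalUnion (c := θ) {s | ¬ RkLE (𝓕 ⊓ 𝓟 s) α f}
    (natCast_lt_aleph0.trans_le hθ)
    (fun _ hS hSp hcon => by
      obtain ⟨s, hs, h1⟩ := RkLE.sUnion hθ hS hcon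
      exact hSp s hs h1)
    (fun _ ht _ hst hcon => ht (hcon.mono_filter (inf_le_inf_left _ (principal_mono.2 hst))))

section
variable {𝓕 : Filter ι} {hθ : ℵ₀ ≤ θ} [CardinalInterFilter 𝓕 θ] {α : Ordinal.{u}}
    {f : ι → Ordinal.{u}}

theorem mem_posFilter {M : Set ι} : M ∈ posFilter 𝓕 hθ α f ↔ ¬ RkLE (𝓕 ⊓ 𝓟 Mᶜ) α f := Iff.rfl

instance : CardinalInterFilter (posFilter 𝓕 hθ α f) θ := cardinalInter_ofCardinalUnion _ _ _ _

theorem posFilter_le : posFilter 𝓕 hθ α f ≤ 𝓕 := by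
  intro M hM
  rw [mem_posFilter]
  have : 𝓕 ⊓ 𝓟 Mᶜ = ⊥ := by
    rw [← disjoint_iff, disjoint_principal_right, compl_compl]
    exact hM
  rw [this]
  exact not_rkLE_bot

theorem posFilter_neBot (h : RkLE 𝓕 α f) : (posFilter 𝓕 hθ α f).NeBot := by
  rw [neBot_iff]
  intro hbot
  have : ∅ ∈ posFilter 𝓕 hθ α f := by rw [hbot]; exact mem_bot
  rw [mem_posFilter, compl_empty, principal_univ, inf_top_eq] at this
  exact this h

end

theorem RkLE.mul_add (hδ : Tame ι θ δ) (hθ : ℵ₀ ≤ θ) {α : Ordinal.{u}} :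
    ∀ {𝓕 : Filter ι} [𝓕.NeBot] [CardinalInterFilter 𝓕 θ] {f : ι → Ordinal.{u}}, RkLE 𝓕 α f →
    ∀ {g : ι → Ordinal.{u}}, (∀ j, g j < δ) → ∃ τ < δ * (α + 1), RkLE 𝓕 τ fun j => δ * f j + g j := by
  induction α using WellFoundedLT.induction with
  | ind α ih =>
    intro 𝓕 h𝓕 h𝓕' f hf g hg
    obtain ⟨j0⟩ := h𝓕.nonempty
    have hδ0 : δ ≠ 0 := (pos_of_gt (hg j0)).ne'
    set 𝓙 := posFilter 𝓕 hθ α f with h𝓙
    have claim : ∀ s : Ordinal.{u}, ∀ N : Set ι, ∀ g' : ι → Ordinal.{u}, (∀ j, g' j < δ) →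
        RkLE (𝓙 ⊓ 𝓟 N) s g' → RkLE (𝓕 ⊓ 𝓟 N) (δ * α + s) fun j => δ * f j + g' j := by
      intro s
      induction s using WellFoundedLT.induction with
      | ind s ihs =>
        intro N g' hg' hr
        rw [rkLE_iff]
        intro F' hF'
        have hdm : ∀ j, δ * (F' j / δ) + F' j % δ = F' j := fun j => div_add_mod _ _
        by_cases hN1 : RkLE (𝓕 ⊓ 𝓟 (N ∩ {j | F' j / δ < f j})) α f
        · have hne := hN1.neBot
          rw [rkLE_iff] at hN1
          obtain ⟨α', hα', h1⟩ := hN1 (fun j => F' j / δ) (by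
            rw [eventually_inf_principal]
            exact Eventually.of_forall fun j hj => hj.2)
          obtain ⟨τ, hτ, h2⟩ := ih α' hα' h1 (g := fun j => F' j % δ) (fun j => mod_lt _ hδ0)
          refine ⟨τ, hτ.trans_le ?_, ?_⟩
          · have : α' + 1 ≤ α := by rw [← succ_eq_add_one]; exact succ_le_of_lt hα'
            calc δ * (α' + 1) ≤ δ * α := by gcongr
              _ ≤ δ * α + s := le_self_add
          · simp only [hdm] at h2
            exact h2.mono_filter (inf_le_inf_left _ (principal_mono.2 inter_subset_left))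
        · have hN1' : (N ∩ {j | F' j / δ < f j})ᶜ ∈ 𝓙 := by
            rw [h𝓙, mem_posFilter, compl_compl]
            exact hN1
          have hle : ∀ᶠ j in 𝓙, j ∈ N → F' j / δ = f j ∧ F' j % δ < g' j := by
            have h3 : ∀ᶠ j in 𝓙, j ∈ N → F' j < δ * f j + g' j :=
              (eventually_inf_principal.1 hF').filter_mono posFilter_le
            filter_upwards [hN1', h3] with j h4 h5 hj
            have h6 : f j ≤ F' j / δ := by
              by_contra h7
              rw [not_le] at h7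
              exact h4 ⟨hj, h7⟩
            have h7 := h5 hj
            have h8 : F' j / δ ≤ f j := by
              rw [← lt_add_one_iff, ← lt_mul_iff_div_lt hδ0]
              refine h7.trans ?_
              rw [mul_add_one]
              exact (add_lt_add_iff_left _).2 (hg' j)
            have h9 : F' j / δ = f j := le_antisymm h8 h6
            refine ⟨h9, ?_⟩
            have h10 := hdm j
            rw [h9] at h10
            rw [← h10] at h7
            exact lt_of_add_lt_add_left h7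
          rw [rkLE_iff] at hr
          obtain ⟨s', hs', h11⟩ := hr (fun j => F' j % δ) (by
            rw [eventually_inf_principal]
            filter_upwards [hle] with j h12 hj using (h12 hj).2)
          have h13 : RkLE (𝓙 ⊓ 𝓟 (N ∩ {j | F' j / δ = f j})) s' fun j => F' j % δ := by
            refine h11.mono_filter (le_inf inf_le_left ?_)
            rw [le_principal_iff, mem_inf_principal]
            filter_upwards [hle] with j h12 hj using ⟨hj, (h12 hj).1⟩
          have h14 := ihs s' hs' _ _ (fun j => mod_lt _ hδ0) h13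
          refine ⟨δ * α + s', by gcongr, ?_⟩
          refine RkLE.mono_filter (inf_le_inf_left _ (principal_mono.2 inter_subset_left))
            (h14.congr ?_)
          rw [eventually_inf_principal]
          refine Eventually.of_forall fun j hj => ?_
          have := hj.2
          simp only [mem_ofPred_eq] at this
          rw [← this, hdm]
    have hJne : 𝓙.NeBot := posFilter_neBot hf
    obtain ⟨s, hs, h1⟩ := hδ 𝓙 hJne inferInstance g hg
    have h2 := claim s univ g hg (by rwa [principal_univ, inf_top_eq])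
    rw [principal_univ, inf_top_eq] at h2
    refine ⟨_, ?_, h2⟩
    rw [mul_add_one]
    exact (add_lt_add_iff_left _).2 hs

theorem Tame.mul (hδ : Tame ι θ δ) (hη : Tame ι θ η) (hθ : ℵ₀ ≤ θ) : Tame ι θ (δ * η) := by
  intro 𝓕 h𝓕 h𝓕' g hg
  obtain ⟨j0⟩ := h𝓕.nonempty
  have hδ0 : δ ≠ 0 := by
    rintro rfl
    exact absurd (hg j0) (by simp)
  obtain ⟨α, hα, h1⟩ := hη 𝓕 h𝓕 h𝓕' (fun j => g j / δ) (fun j => (lt_mul_iff_div_lt hδ0).1 (hg j))
  obtain ⟨τ, hτ, h2⟩ := h1.mul_add hδ hθ (g := fun j => g j % δ) (fun j => mod_lt _ hδ0)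
  simp only [div_add_mod] at h2
  refine ⟨τ, hτ.trans_le ?_, h2⟩
  have : α + 1 ≤ η := by rw [← succ_eq_add_one]; exact succ_le_of_lt hα
  gcongr

theorem tame_opow (hδ : Tame ι θ δ) (hδ0 : 1 < δ) (hθ : ℵ₀ ≤ θ) (h : η.card < θ) :
    Tame ι θ (δ ^ η) := by
  induction η using WellFoundedLT.induction with
  | ind η ih =>
    rcases zero_or_succ_or_isSuccLimit η with rfl | ⟨G, rfl⟩ | hlim
    · rw [opow_zero]; exact tame_one
    · rw [opow_succ]
      exact (ih G (lt_succ G) ((Ordinal.card_le_card (le_succ G)).trans_lt h)).mul hδ hθ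
    · refine tame_sup (I := η.ToType) (by simpa using h)
        (fun i => δ ^ (i : Ordinal.{u})) (fun i => ?_) (fun i => ?_) (fun a ha => ?_)
      · exact ih _ i.toOrd.2 ((Ordinal.card_le_card i.toOrd.2.le).trans_lt h)
      · exact opow_le_opow_right (zero_lt_one.trans hδ0) (le_of_lt i.toOrd.2)
      · rw [lt_opow_of_isSuccLimit (zero_lt_one.trans hδ0).ne' hlim] at ha
        obtain ⟨c, hc, hac⟩ := ha
        refine ⟨ToType.mk ⟨c, hc⟩, ?_⟩
        simpa using hac

end IPath
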