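import Mathlib

/-! Order types of lexicographic products and of their fibres. -/

open Ordinal Cardinal Set Order

universe u

namespace IPath

/-- The order type of a well-ordered type. -/
abbrev otp (X : Type u) [LinearOrder X] [WellFoundedLT X] : Ordinal.{u} := typeLT X

section
variable {α β : Type u} [LinearOrder α] [WellFoundedLT α] [LinearOrder β] [WellFoundedLT β]

theorem otp_le_of_strictMono (f : α → β) (hf : StrictMono f) : otp α ≤ otp β :=
  (OrderEmbedding.ofStrictMono f hf).ltEmbedding.ordinal_type_le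

theorem exists_strictMono_of_otp_le (h : otp α ≤ otp β) : ∃ f : α → β, StrictMono f := by
  obtain ⟨f⟩ := type_le_iff'.1 h
  exact ⟨f, fun a b hab => f.map_rel_iff.2 hab⟩

theorem otp_congr (e : α ≃o β) : otp α = otp β := e.ordinalType_congr

theorem exists_orderIso_of_otp_eq (h : otp α = otp β) : Nonempty (α ≃o β) := by
  obtain ⟨f⟩ := type_eq.1 h
  exact ⟨OrderIso.ofRelIsoLT f⟩

end

theorem otp_toType (o : Ordinal.{u}) : otp o.ToType = o := type_toType o

theorem otp_prodLex (I Z : Type u) [LinearOrder I] [WellFoundedLT I] [LinearOrder Z]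
    [WellFoundedLT Z] : otp (I ×ₗ Z) = otp Z * otp I := by
  rw [← type_prod_lex]
  rfl

section
variable {I Z : Type u} [LinearOrder I] [WellFoundedLT I] [LinearOrder Z] [WellFoundedLT Z]

/-- The fibre of a set of pairs. -/
def fib (S : Set (I ×ₗ Z)) (i : I) : Set Z := {z | toLex (i, z) ∈ S}

omit [LinearOrder I] [WellFoundedLT I] [LinearOrder Z] [WellFoundedLT Z] in
theorem mem_fib {S : Set (I ×ₗ Z)} {i : I} {z : Z} : z ∈ fib S i ↔ toLex (i, z) ∈ S := Iff.rfl

theorem mul_le_otp_of_fib (S : Set (I ×ₗ Z)) (I' : Set I) (γ : Ordinal.{u})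
    (h : ∀ i ∈ I', γ ≤ otp (fib S i)) : γ * otp I' ≤ otp S := by
  have h' : ∀ i : I', ∃ f : γ.ToType → fib S i, StrictMono f := fun i => by
    apply exists_strictMono_of_otp_le
    rw [otp_toType]
    exact h i i.2
  choose e he using h'
  have : γ * otp I' = otp (I' ×ₗ γ.ToType) := by rw [otp_prodLex, otp_toType]
  rw [this]
  refine otp_le_of_strictMono
    (fun p => ⟨toLex ((ofLex p).1.1, (e (ofLex p).1 (ofLex p).2).1),
      (e (ofLex p).1 (ofLex p).2).2⟩) ?_
  intro p q hpq
  rcases Prod.Lex.lt_iff.1 hpq with h1 | ⟨h1, h2⟩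
  · exact Prod.Lex.lt_iff.2 (Or.inl h1)
  · refine Prod.Lex.lt_iff.2 (Or.inr ⟨congrArg Subtype.val h1, ?_⟩)
    have key : ∀ (i i' : I') (z z' : γ.ToType), i = i' → z < z' →
        ((e i z : Z)) < (e i' z' : Z) := by
      rintro i _ z z' rfl hz
      exact he i hz
    exact key _ _ _ _ h1 h2

end

theorem otp_set_mono {X : Type u} [LinearOrder X] [WellFoundedLT X] {s t : Set X} (h : s ⊆ t) :
    otp s ≤ otp t := type_mono h

theorem otp_set_le {X : Type u} [LinearOrder X] [WellFoundedLT X] (s : Set X) :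
    otp s ≤ otp X := type_set_le s

theorem ord_le_otp_of_card {X : Type u} [LinearOrder X] [WellFoundedLT X] {c : Cardinal.{u}}
    (h : c ≤ #X) : c.ord ≤ otp X := (Cardinal.ord_mono h).trans (ord_le_type _)

/-- A set whose order type is at least that of its ambient ... restated for images. -/
theorem otp_image {X Y : Type u} [LinearOrder X] [WellFoundedLT X] [LinearOrder Y]
    [WellFoundedLT Y] (f : X → Y) (hf : StrictMono f) (s : Set X) :
    otp (f '' s) = otp s := by
  apply le_antisymm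
  · have hsurj : ∀ y : f '' s, ∃ x : s, f x = y := by
      rintro ⟨_, x, hx, rfl⟩
      exact ⟨⟨x, hx⟩, rfl⟩
    choose g hg using hsurj
    refine otp_le_of_strictMono g ?_
    intro a b hab
    have : f (g a) < f (g b) := by rw [hg, hg]; exact hab
    exact hf.lt_iff_lt.1 this
  · exact otp_le_of_strictMono (fun x => ⟨f x, x, x.2, rfl⟩) fun a b hab => hf hab

end IPath

namespace IPath

theorem opow_le_of_forall_mul {κ c F : Ordinal.{u}} (hκ : κ ≠ 0) (hF : F ≠ 0)
    (h : ∀ f < F, κ ^ f * κ ≤ c) : κ ^ F ≤ c := by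
  rcases zero_or_succ_or_isSuccLimit F with rfl | ⟨G, rfl⟩ | hlim
  · exact absurd rfl hF
  · have := h G (lt_succ G)
    rwa [← opow_add_one] at this
  · rw [opow_le_of_isSuccLimit hκ hlim]
    intro f hf
    exact (le_mul_left _ (pos_iff_ne_zero.2 hκ)).trans (h f hf)

/-- The block lemma. -/
theorem block {K Z : Type u} [LinearOrder K] [WellFoundedLT K] [LinearOrder Z] [WellFoundedLT Z]
    {κ : Cardinal.{u}} (hκ : κ ≠ 0) (A : Set (K ×ₗ Z)) {F : Ordinal.{u}} (hF : F ≠ 0)
    (hA : otp A < κ.ord ^ F) : ∃ f < F, #{i : K | κ.ord ^ f ≤ otp (fib A i)} < κ := by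
  by_contra hcon
  push Not at hcon
  apply absurd hA
  rw [not_lt]
  have hκ' : κ.ord ≠ 0 := by simpa using hκ
  apply opow_le_of_forall_mul hκ' hF
  intro f hf
  have h1 := mul_le_otp_of_fib A {i : K | κ.ord ^ f ≤ otp (fib A i)} (κ.ord ^ f) (fun i hi => hi)
  refine le_trans ?_ h1
  gcongr
  exact ord_le_otp_of_card (hcon f hf)

end IPath
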